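import Pool.Agent.MEP.Walk

set_option autoImplicit false

/-! Operations on partial colourings without measurability: flips, rotations, colouring an edge. -/

namespace Pool.Agent.MEP

open Set

universe u

namespace PC

variable {V : Type u} {G : SimpleGraph V} {Δ : ℕ}

/-! ### Balls -/

lemma Ball_self (c : PC G Δ) (n : ℕ) (b : V) : b ∈ c.Ball n b := by
  induction n with
  | zero => exact mem_singleton _
  | succ n ih => exact Or.inl ih

lemma Ball_succ (c : PC G Δ) {n : ℕ} {b x : V} (h : x ∈ c.Ball n b) (k : Fin Δ) :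
    c.S k x ∈ c.Ball (n + 1) b := Or.inr ⟨k, x, h, rfl⟩

lemma Ball_mono (c : PC G Δ) {n m : ℕ} (h : n ≤ m) {b : V} : c.Ball n b ⊆ c.Ball m b := by
  induction m, h using Nat.le_induction with
  | base => exact Subset.rfl
  | succ m _ ih => exact ih.trans subset_union_left

lemma Ball_add (c : PC G Δ) {n m : ℕ} {b x y : V} (h : x ∈ c.Ball n b) (h' : y ∈ c.Ball m x) :
    y ∈ c.Ball (n + m) b := by
  induction m generalizing y with
  | zero =>
    have : y = x := h'
    rw [this]; exact h
  | succ m ih =>
    rcases h' with h' | ⟨k, z, hz, rfl⟩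
    · exact Ball_mono c (by omega) (ih h')
    · exact Ball_succ c (ih hz) k

lemma Ball_al (c : PC G Δ) (i j : Fin Δ) (n : ℕ) (b : V) :
    al (c.S i) (c.S j) n b ∈ c.Ball n b := by
  induction n with
  | zero => exact Ball_self c 0 b
  | succ n ih =>
    by_cases hn : Even n
    · rw [al_last_even _ _ hn]; exact Ball_succ c ih i
    · rw [al_last_odd _ _ hn]; exact Ball_succ c ih j

lemma Ball_one (c : PC G Δ) (k : Fin Δ) (b : V) : c.S k b ∈ c.Ball 1 b :=
  Ball_succ c (Ball_self c 0 b) k

/-- walks in which one letter is cut off on `P` stay in the ball -/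
lemma Ball_al_cut (c : PC G Δ) (P : Set V) (i j : Fin Δ) (n : ℕ) (b : V) :
    al (c.S i) (cutS P (c.S j)) n b ∈ c.Ball n b ∧
    al (cutS P (c.S j)) (c.S i) n b ∈ c.Ball n b := by
  have hcut : ∀ x n, x ∈ c.Ball n b → cutS P (c.S j) x ∈ c.Ball (n + 1) b := by
    intro x n hx
    by_cases h : x ∈ P
    · rw [cutS_of_mem h]; exact Ball_mono c (by omega) hx
    · rw [cutS_of_notMem h]; exact Ball_succ c hx j
  induction n with
  | zero => exact ⟨Ball_self c 0 b, Ball_self c 0 b⟩
  | succ n ih =>
    by_cases hn : Even n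
    · rw [al_last_even _ _ hn, al_last_even _ _ hn]
      exact ⟨Ball_succ c ih.1 i, hcut _ _ ih.2⟩
    · rw [al_last_odd _ _ hn, al_last_odd _ _ hn]
      exact ⟨hcut _ _ ih.1, Ball_succ c ih.2 i⟩

/-! ### Simple facts -/

lemma S_inj (c : PC G Δ) {k : Fin Δ} {x y : V} (h : c.S k x = c.S k y) : x = y := by
  rw [← c.invol k x, h, c.invol]

lemma S_ne_of_ne (c : PC G Δ) {k : Fin Δ} {x : V} (h : c.S k x ≠ x) :
    c.S k (c.S k x) ≠ c.S k x := by rw [c.invol]; exact h.symm

lemma S_fix_iff (c : PC G Δ) {k : Fin Δ} {x : V} : c.S k (c.S k x) = c.S k x ↔ c.S k x = x := by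
  rw [c.invol]; exact eq_comm

lemma S_ne_S (c : PC G Δ) {k k' : Fin Δ} (hk : k ≠ k') {x : V} (h : c.S k x ≠ x) :
    c.S k x ≠ c.S k' x := fun he => hk (c.disj k k' x he h)

/-- changed vertices come in pairs -/
lemma changed_pair (c cb : PC G Δ) {k : Fin Δ} {x : V} (h : cb.S k x ≠ c.S k x) :
    cb.S k (cb.S k x) ≠ c.S k (cb.S k x) := by
  rw [cb.invol]
  intro he
  apply h
  have := congrArg (c.S k) he
  rw [c.invol] at this
  exact this.symm

/-! ### Flips -/

open Classical in
/-- exchange the colours `b` and `h` on the set `Y`, which is closed under both of them -/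
noncomputable def flip (c : PC G Δ) (b h : Fin Δ) (Y : Set V)
    (hY : ∀ x ∈ Y, c.S b x ∈ Y ∧ c.S h x ∈ Y) : PC G Δ where
  S := fun k x => if x ∈ Y then c.S (Equiv.swap b h k) x else c.S k x
  invol := by
    intro k x
    have hmem : ∀ y, (k = b ∨ k = h) → (c.S k y ∈ Y ↔ y ∈ Y) := by
      intro y hk
      constructor
      · intro hy
        rcases hk with rfl | rfl
        · have := (hY _ hy).1; rwa [c.invol] at this
        · have := (hY _ hy).2; rwa [c.invol] at this
      · intro hy
        rcases hk with rfl | rfl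
        · exact (hY _ hy).1
        · exact (hY _ hy).2
    by_cases hk : k = b ∨ k = h
    · have hsw : Equiv.swap b h k = b ∨ Equiv.swap b h k = h := by
        rcases hk with rfl | rfl
        · right; exact Equiv.swap_apply_left _ _
        · left; exact Equiv.swap_apply_right _ _
      by_cases hx : x ∈ Y
      · have h1 : c.S (Equiv.swap b h k) x ∈ Y := by
          rcases hsw with e | e
          · rw [e]; exact (hY _ hx).1
          · rw [e]; exact (hY _ hx).2
        simp only [hx, h1, if_true, c.invol]
      · have h1 : c.S k x ∉ Y := fun h' => hx ((hmem x hk).1 h')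
        simp only [hx, h1, if_false, c.invol]
    · push Not at hk
      have hsw : Equiv.swap b h k = k := Equiv.swap_apply_of_ne_of_ne hk.1 hk.2
      simp only [hsw, ite_self, c.invol]
  adj := by
    intro k x
    by_cases hx : x ∈ Y
    · simp only [hx, if_true]; exact c.adj _ x
    · simp only [hx, if_false]; exact c.adj _ x
  disj := by
    intro k k' x
    by_cases hx : x ∈ Y
    · simp only [hx, if_true]
      intro h1 h2
      exact (Equiv.swap b h).injective (c.disj _ _ x h1 h2)
    · simp only [hx, if_false]; exact c.disj _ _ x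

section flip

variable (c : PC G Δ) (b h : Fin Δ) (Y : Set V) (hY : ∀ x ∈ Y, c.S b x ∈ Y ∧ c.S h x ∈ Y)

lemma flip_mem {x : V} (hx : x ∈ Y) (k : Fin Δ) :
    (c.flip b h Y hY).S k x = c.S (Equiv.swap b h k) x := if_pos hx

lemma flip_notMem {x : V} (hx : x ∉ Y) (k : Fin Δ) : (c.flip b h Y hY).S k x = c.S k x :=
  if_neg hx

lemma flip_left {x : V} (hx : x ∈ Y) : (c.flip b h Y hY).S b x = c.S h x := by
  rw [flip_mem c b h Y hY hx, Equiv.swap_apply_left]

lemma flip_right {x : V} (hx : x ∈ Y) : (c.flip b h Y hY).S h x = c.S b x := by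
  rw [flip_mem c b h Y hY hx, Equiv.swap_apply_right]

lemma flip_other {k : Fin Δ} (h1 : k ≠ b) (h2 : k ≠ h) (x : V) :
    (c.flip b h Y hY).S k x = c.S k x := by
  by_cases hx : x ∈ Y
  · rw [flip_mem c b h Y hY hx, Equiv.swap_apply_of_ne_of_ne h1 h2]
  · exact flip_notMem c b h Y hY hx k

lemma flip_changed {x : V} {k : Fin Δ} (hk : (c.flip b h Y hY).S k x ≠ c.S k x) : x ∈ Y := by
  by_contra hx
  exact hk (flip_notMem c b h Y hY hx k)

lemma flip_changed_col {x : V} {k : Fin Δ} (hk : (c.flip b h Y hY).S k x ≠ c.S k x) :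
    k = b ∨ k = h := by
  by_contra hcon
  push Not at hcon
  exact hk (flip_other c b h Y hY hcon.1 hcon.2 x)

lemma flip_range (x : V) : range (fun k => (c.flip b h Y hY).S k x) = range (fun k => c.S k x) := by
  by_cases hx : x ∈ Y
  · ext y
    constructor
    · rintro ⟨k, rfl⟩
      exact ⟨Equiv.swap b h k, (flip_mem c b h Y hY hx k).symm⟩
    · rintro ⟨k, rfl⟩
      refine ⟨Equiv.swap b h k, ?_⟩
      simp only
      rw [flip_mem c b h Y hY hx, Equiv.swap_apply_self]
  · have : (fun k => (c.flip b h Y hY).S k x) = fun k => c.S k x := by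
      funext k; exact flip_notMem c b h Y hY hx k
    rw [this]

/-- a flipped vertex is full iff it was -/
lemma flip_full (x : V) : (c.flip b h Y hY).Full x ↔ c.Full x := by
  have := flip_range c b h Y hY x
  unfold Full
  constructor
  · intro hf k hk
    have h1 : x ∈ range (fun k => (c.flip b h Y hY).S k x) := by rw [this]; exact ⟨k, hk⟩
    obtain ⟨k', hk'⟩ := h1
    exact hf k' hk'
  · intro hf k hk
    have h1 : x ∈ range (fun k => c.S k x) := by rw [← this]; exact ⟨k, hk⟩
    obtain ⟨k', hk'⟩ := h1
    exact hf k' hk'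

end flip

/-! ### Colouring an edge -/

open Classical in
/-- colour the uncoloured edge `u v` with `k` -/
noncomputable def colE (c : PC G Δ) (k : Fin Δ) (u v : V) (huv : G.Adj u v)
    (hunc : ∀ k', c.S k' u ≠ v) (hu : c.S k u = u) (hv : c.S k v = v) : PC G Δ where
  S := fun k' x => if k' = k then (if x = u then v else if x = v then u else c.S k x) else c.S k' x
  invol := by
    intro k' x
    by_cases hk : k' = k
    · simp only [hk, if_true]
      by_cases h1 : x = u
      · simp only [h1, if_true, huv.ne.symm, if_false]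
      · by_cases h2 : x = v
        · simp only [h2, if_true, huv.ne.symm, if_false]
        · have h3 : c.S k x ≠ u := by
            intro h
            apply h1
            have := congrArg (c.S k) h
            rwa [c.invol, hu] at this
          have h4 : c.S k x ≠ v := by
            intro h
            apply h2
            have := congrArg (c.S k) h
            rwa [c.invol, hv] at this
          simp only [h1, h2, h3, h4, if_false, c.invol]
    · simp only [hk, if_false, c.invol]
  adj := by
    intro k' x
    by_cases hk : k' = k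
    · simp only [hk, if_true]
      by_cases h1 : x = u
      · subst h1; simp only [if_true]; intro _; exact huv
      · by_cases h2 : x = v
        · subst h2; simp only [h1, if_false, if_true]; intro _; exact huv.symm
        · simp only [h1, h2, if_false]; exact c.adj k x
    · simp only [hk, if_false]; exact c.adj k' x
  disj := by
    have hunc' : ∀ k', c.S k' v ≠ u := by
      intro k' h
      apply hunc k'
      rw [← h, c.invol]
    have key : ∀ k' x, k' ≠ k → (if x = u then v else if x = v then u else c.S k x) = c.S k' x →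
        (if x = u then v else if x = v then u else c.S k x) ≠ x → False := by
      intro k' x hk' he hne
      by_cases h1 : x = u
      · subst h1; simp only [if_true] at he; exact hunc k' he.symm
      · by_cases h2 : x = v
        · subst h2; simp only [h1, if_false, if_true] at he; exact hunc' k' he.symm
        · simp only [h1, h2, if_false] at he hne
          exact hk' (c.disj k k' x he hne).symm
    intro k1 k2 x
    by_cases e1 : k1 = k
    · by_cases e2 : k2 = k
      · intro _ _; rw [e1, e2]
      · simp only [e1, e2, if_true, if_false]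
        intro he hne
        exact absurd (key k2 x e2 he hne) id
    · by_cases e2 : k2 = k
      · simp only [e1, e2, if_true, if_false]
        intro he hne
        exact absurd (key k1 x e1 he.symm (by rw [← he]; exact hne)) id
      · simp only [e1, e2, if_false]; exact c.disj k1 k2 x

section colE

variable (c : PC G Δ) (k : Fin Δ) (u v : V) (huv : G.Adj u v)
    (hunc : ∀ k', c.S k' u ≠ v) (hu : c.S k u = u) (hv : c.S k v = v)

lemma colE_u : (c.colE k u v huv hunc hu hv).S k u = v := by simp [colE]

lemma colE_v : (c.colE k u v huv hunc hu hv).S k v = u := by simp [colE, huv.ne.symm]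

lemma colE_of_ne {x : V} (h1 : x ≠ u) (h2 : x ≠ v) (k' : Fin Δ) :
    (c.colE k u v huv hunc hu hv).S k' x = c.S k' x := by
  by_cases hk : k' = k
  · subst hk; simp [colE, h1, h2]
  · simp [colE, hk]

lemma colE_other {k' : Fin Δ} (hk : k' ≠ k) (x : V) :
    (c.colE k u v huv hunc hu hv).S k' x = c.S k' x := by simp [colE, hk]

lemma colE_changed {x : V} {k' : Fin Δ}
    (h : (c.colE k u v huv hunc hu hv).S k' x ≠ c.S k' x) : x = u ∨ x = v := by
  by_contra hcon
  push Not at hcon
  exact h (colE_of_ne c k u v huv hunc hu hv hcon.1 hcon.2 k')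

lemma colE_mono {x : V} {k' : Fin Δ} (h : c.S k' x ≠ x) :
    (c.colE k u v huv hunc hu hv).S k' x = c.S k' x := by
  by_cases hk : k' = k
  · subst hk
    by_cases h1 : x = u
    · subst h1; exact absurd hu h
    · by_cases h2 : x = v
      · subst h2; exact absurd hv h
      · exact colE_of_ne c k' u v huv hunc hu hv h1 h2 k'
  · exact colE_other c k u v huv hunc hu hv hk x

end colE

/-! ### Rotations -/

open Classical in
/-- auxiliary function of `rot` -/
noncomputable def rotS (c : PC G Δ) (a : V) (π : Equiv.Perm (Fin Δ)) (k : Fin Δ) (x : V) : V :=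
  if x = a then c.S (π.symm k) a else
    if h : ∃ j, x = c.S j a then
      (if k = π h.choose then a else if k = h.choose then x else c.S k x) else c.S k x

lemma rotS_a (c : PC G Δ) (a : V) (π : Equiv.Perm (Fin Δ)) (k : Fin Δ) :
    rotS c a π k a = c.S (π.symm k) a := by simp [rotS]

lemma rotS_nb (c : PC G Δ) {a : V} (π : Equiv.Perm (Fin Δ)) (ha : c.Full a) (j k : Fin Δ) :
    rotS c a π k (c.S j a) =
      if k = π j then a else if k = j then c.S j a else c.S k (c.S j a) := by
  have hne : c.S j a ≠ a := ha j
  have hex : ∃ i, c.S j a = c.S i a := ⟨j, rfl⟩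
  have hch : hex.choose = j := c.disj _ _ a hex.choose_spec.symm (ha _)
  unfold rotS
  simp only [hne, if_false, hex, dif_pos, hch]

lemma rotS_other (c : PC G Δ) {a : V} (π : Equiv.Perm (Fin Δ)) {x : V} (h1 : x ≠ a)
    (h2 : ∀ j, x ≠ c.S j a) (k : Fin Δ) : rotS c a π k x = c.S k x := by
  have : ¬ ∃ j, x = c.S j a := by push Not; exact h2
  unfold rotS
  simp only [h1, if_false, this, dif_neg, not_false_iff]

/-- The edge from the full vertex `a` to `c.S j a` gets the colour `π j`. -/
noncomputable def rot (c : PC G Δ) (a : V) (π : Equiv.Perm (Fin Δ)) (ha : c.Full a)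
    (hm : ∀ j, π j ≠ j → c.S (π j) (c.S j a) = c.S j a) : PC G Δ where
  S := rotS c a π
  invol := by
    have hback : ∀ k x, x ≠ a → (∀ j, c.S k x = c.S j a → k ≠ j → c.S k x ≠ x) →
        c.S k x ≠ a → rotS c a π k (c.S k x) = x := by
      intro k x h1 h0 h5
      by_cases h6 : ∃ i, c.S k x = c.S i a
      · obtain ⟨i, hi⟩ := h6
        have h8 : k ≠ i := by
          intro he
          subst he
          exact h1 (c.S_inj hi)
        have h7 := h0 i hi h8
        have h9 : k ≠ π i := by
          intro he
          have := hm i (by rw [← he]; exact h8)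
          rw [← he, ← hi, c.invol] at this
          exact h7 this.symm
        rw [hi, rotS_nb c π ha, if_neg h9, if_neg h8, ← hi, c.invol]
      · push Not at h6
        rw [rotS_other c π h5 h6, c.invol]
    intro k x
    by_cases h1 : x = a
    · subst h1
      rw [rotS_a, rotS_nb c π ha, if_pos (Equiv.apply_symm_apply π k).symm]
    · by_cases h2 : ∃ j, x = c.S j a
      · obtain ⟨j, hj⟩ := h2
        have e0 : rotS c a π k x = if k = π j then a else if k = j then x else c.S k x := by
          rw [hj]; exact rotS_nb c π ha j k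
        by_cases h3 : k = π j
        · rw [e0, if_pos h3, rotS_a, h3, Equiv.symm_apply_apply, hj]
        · rw [if_neg h3] at e0
          by_cases h4 : k = j
          · rw [if_pos h4] at e0
            rw [e0, e0]
          · rw [if_neg h4] at e0
            by_cases h7 : c.S k x = x
            · rw [h7] at e0
              rw [e0, e0]
            · rw [e0]
              refine hback k x h1 (fun _ _ _ => h7) ?_
              intro he
              apply h4
              have e1 : c.S k a = x := by rw [← he, c.invol]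
              exact c.disj k j a (e1.trans hj) (ha k)
      · push Not at h2
        rw [rotS_other c π h1 h2]
        refine hback k x h1 (fun i hi _ he => h2 i (by rw [← he]; exact hi)) ?_
        intro he
        exact h2 k (by rw [← he, c.invol])
  adj := by
    intro k x
    by_cases h1 : x = a
    · subst h1
      rw [rotS_a]
      exact c.adj _ x
    · by_cases h2 : ∃ j, x = c.S j a
      · obtain ⟨j, hj⟩ := h2
        have e0 : rotS c a π k x = if k = π j then a else if k = j then x else c.S k x := by
          rw [hj]; exact rotS_nb c π ha j k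
        rw [e0]
        by_cases h3 : k = π j
        · rw [if_pos h3]
          intro _
          rw [hj]
          exact (c.adj j a (ha j)).symm
        · by_cases h4 : k = j
          · rw [if_neg h3, if_pos h4]; intro h; exact absurd rfl h
          · rw [if_neg h3, if_neg h4]; exact c.adj k x
      · push Not at h2
        rw [rotS_other c π h1 h2]
        exact c.adj k x
  disj := by
    intro k k' x
    by_cases h1 : x = a
    · subst h1
      rw [rotS_a, rotS_a]
      intro he hne
      exact π.symm.injective (c.disj _ _ x he hne)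
    · by_cases h2 : ∃ j, x = c.S j a
      · obtain ⟨j, hj⟩ := h2
        have e0 : ∀ k, rotS c a π k x = if k = π j then a else if k = j then x else c.S k x := by
          intro k
          rw [hj]; exact rotS_nb c π ha j k
        have hxa : ∀ i, i ≠ j → c.S i x ≠ a := by
          intro i hi he
          apply hi
          have e1 : c.S i a = x := by rw [← he, c.invol]
          exact c.disj i j a (e1.trans hj) (ha i)
        rw [e0, e0]
        by_cases h3 : k = π j
        · rw [if_pos h3]
          by_cases h3' : k' = π j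
          · intro _ _; rw [h3, h3']
          · rw [if_neg h3']
            by_cases h4' : k' = j
            · rw [if_pos h4']; intro he; exact absurd he.symm h1
            · rw [if_neg h4']; intro he; exact absurd he.symm (hxa k' h4')
        · rw [if_neg h3]
          by_cases h4 : k = j
          · rw [if_pos h4]; intro _ hne; exact absurd rfl hne
          · rw [if_neg h4]
            by_cases h3' : k' = π j
            · rw [if_pos h3']; intro he; exact absurd he (hxa k h4)
            · rw [if_neg h3']
              by_cases h4' : k' = j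
              · rw [if_pos h4']; intro he hne; exact absurd he hne
              · rw [if_neg h4']; exact c.disj k k' x
      · push Not at h2
        rw [rotS_other c π h1 h2, rotS_other c π h1 h2]
        exact c.disj k k' x

section rot

variable (c : PC G Δ) (a : V) (π : Equiv.Perm (Fin Δ)) (ha : c.Full a)
    (hm : ∀ j, π j ≠ j → c.S (π j) (c.S j a) = c.S j a)

lemma rot_a (k : Fin Δ) : (c.rot a π ha hm).S k a = c.S (π.symm k) a := rotS_a c a π k

lemma rot_a' (j : Fin Δ) : (c.rot a π ha hm).S (π j) a = c.S j a := by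
  rw [rot_a, Equiv.symm_apply_apply]

lemma rot_nb_aux (j : Fin Δ) (k : Fin Δ) : (c.rot a π ha hm).S k (c.S j a) =
    if k = π j then a else if k = j then c.S j a else c.S k (c.S j a) := rotS_nb c π ha j k

lemma rot_nb_new (j : Fin Δ) : (c.rot a π ha hm).S (π j) (c.S j a) = a := by
  rw [rot_nb_aux, if_pos rfl]

lemma rot_nb_old {j : Fin Δ} (h : π j ≠ j) : (c.rot a π ha hm).S j (c.S j a) = c.S j a := by
  rw [rot_nb_aux, if_neg h.symm, if_pos rfl]

lemma rot_nb_other {j k : Fin Δ} (h1 : k ≠ π j) (h2 : k ≠ j) :
    (c.rot a π ha hm).S k (c.S j a) = c.S k (c.S j a) := by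
  rw [rot_nb_aux, if_neg h1, if_neg h2]

/-- edges which keep their colour -/
lemma rot_nb_fix {j : Fin Δ} (h : π j = j) (k : Fin Δ) :
    (c.rot a π ha hm).S k (c.S j a) = c.S k (c.S j a) := by
  rw [rot_nb_aux]
  by_cases hk : k = j
  · rw [if_pos (by rw [hk, h]), hk, c.invol]
  · rw [if_neg (by rw [h]; exact hk), if_neg hk]

lemma rot_other {x : V} (h1 : x ≠ a) (h2 : ∀ j, x ≠ c.S j a) (k : Fin Δ) :
    (c.rot a π ha hm).S k x = c.S k x := rotS_other c π h1 h2 k

lemma rot_changed {x : V} {k : Fin Δ} (h : (c.rot a π ha hm).S k x ≠ c.S k x) :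
    x = a ∨ ∃ j, π j ≠ j ∧ x = c.S j a := by
  by_contra hcon
  push Not at hcon
  obtain ⟨h1, h2⟩ := hcon
  by_cases h3 : ∃ j, x = c.S j a
  · obtain ⟨j, rfl⟩ := h3
    by_cases h4 : π j = j
    · exact h (rot_nb_fix c a π ha hm h4 k)
    · exact h2 j h4 rfl
  · push Not at h3
    exact h (rot_other c a π ha hm h1 h3 k)

lemma rot_range (x : V) : range (fun k => (c.rot a π ha hm).S k x) = range (fun k => c.S k x) := by
  by_cases h1 : x = a
  · subst h1
    ext y
    constructor
    · rintro ⟨k, rfl⟩
      exact ⟨π.symm k, (rot_a c x π ha hm k).symm⟩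
    · rintro ⟨k, rfl⟩
      exact ⟨π k, rot_a' c x π ha hm k⟩
  · by_cases h2 : ∃ j, x = c.S j a
    · obtain ⟨j, rfl⟩ := h2
      by_cases h3 : π j = j
      · have : (fun k => (c.rot a π ha hm).S k (c.S j a)) = fun k => c.S k (c.S j a) := by
          funext k; exact rot_nb_fix c a π ha hm h3 k
        rw [this]
      · ext y
        constructor
        · rintro ⟨k, rfl⟩
          by_cases e1 : k = π j
          · subst e1
            refine ⟨j, ?_⟩
            simp only
            rw [rot_nb_new, c.invol]
          · by_cases e2 : k = j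
            · subst e2
              refine ⟨π k, ?_⟩
              simp only
              rw [rot_nb_old c a π ha hm h3, hm k h3]
            · exact ⟨k, (rot_nb_other c a π ha hm e1 e2).symm⟩
        · rintro ⟨k, rfl⟩
          by_cases e1 : k = π j
          · subst e1
            refine ⟨j, ?_⟩
            simp only
            rw [rot_nb_old c a π ha hm h3, hm j h3]
          · by_cases e2 : k = j
            · subst e2
              refine ⟨π k, ?_⟩
              simp only
              rw [rot_nb_new, c.invol]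
            · exact ⟨k, rot_nb_other c a π ha hm e1 e2⟩
    · push Not at h2
      have : (fun k => (c.rot a π ha hm).S k x) = fun k => c.S k x := by
        funext k; exact rot_other c a π ha hm h1 h2 k
      rw [this]

end rot

end PC

/-! ### Cuts -/

section cut

variable {V : Type u} {G : SimpleGraph V}

/-- change of the centre and of the radius -/
lemma CutImp.mono {c : PC G 4} {Z P Cl : Set V} {R R' N n : ℕ} {b b' : V} {cb : PC G 4}
    (h : CutImp c Z P Cl R N b cb) (hb : b ∈ c.Ball n b') (hR : n + R ≤ R') :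
    CutImp c Z P Cl R' N b' cb where
  ball := fun x k hx => c.Ball_mono hR (c.Ball_add hb (h.ball x k hx))
  card := h.card.trans (by exact_mod_cast (show R ≤ R' by omega))
  rng := h.rng
  avoid := h.avoid
  clean := h.clean
  tail := by
    obtain ⟨y, hy, β, β', h1, h2, h3⟩ := h.tail
    exact ⟨y, hy, β, β', h1, c.Ball_mono hR (c.Ball_add hb h2), h3⟩

/-- colours of a palette -/
lemma Pal.ne {b b' h h' : Fin 4} (p : Pal b b' h h') :
    b ≠ b' ∧ b ≠ h ∧ b ≠ h' ∧ b' ≠ h ∧ b' ≠ h' ∧ h ≠ h' := by
  obtain ⟨h1 | h1, h2 | h2⟩ := p <;> obtain ⟨rfl, rfl⟩ := h1 <;> obtain ⟨rfl, rfl⟩ := h2 <;> decide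

lemma Pal.all {b b' h h' : Fin 4} (p : Pal b b' h h') (k : Fin 4) :
    k = b ∨ k = b' ∨ k = h ∨ k = h' := by
  revert k
  obtain ⟨h1 | h1, h2 | h2⟩ := p <;> obtain ⟨rfl, rfl⟩ := h1 <;> obtain ⟨rfl, rfl⟩ := h2 <;> decide

lemma Pal.swap_h {b b' h h' : Fin 4} (p : Pal b b' h h') : Pal b b' h' h :=
  ⟨p.1, p.2.elim (fun e => Or.inr ⟨e.2, e.1⟩) (fun e => Or.inl ⟨e.2, e.1⟩)⟩

lemma Pal.swap_b {b b' h h' : Fin 4} (p : Pal b b' h h') : Pal b' b h h' :=
  ⟨p.1.elim (fun e => Or.inr ⟨e.2, e.1⟩) (fun e => Or.inl ⟨e.2, e.1⟩), p.2⟩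

lemma Pal.U {b b' h h' : Fin 4} (p : Pal b b' h h') (k : Fin 4) :
    (k = b ∨ k = b') ↔ (k = 0 ∨ k = 1) := by
  obtain ⟨h1, -⟩ := p
  rcases h1 with ⟨rfl, rfl⟩ | ⟨rfl, rfl⟩
  · exact Iff.rfl
  · exact or_comm

/-- `Clean` does not depend on the order of the two colours -/
lemma clean_pal {b b' h h' : Fin 4} (p : Pal b b' h h') (c : PC G 4) (M : ℕ) :
    Clean (c.S b) (c.S b') M = Clean (c.S 0) (c.S 1) M := by
  obtain ⟨h1, -⟩ := p
  rcases h1 with ⟨rfl, rfl⟩ | ⟨rfl, rfl⟩
  · rfl
  · exact Clean_comm (c.invol 1) (c.invol 0) M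

/-- on clean points both colours `0, 1` are present -/
lemma clean_ne {b b' h h' : Fin 4} (p : Pal b b' h h') {c : PC G 4} {M : ℕ} (hM : 1 ≤ M) {x : V}
    (hx : x ∈ Clean (c.S 0) (c.S 1) M) : c.S b x ≠ x ∧ c.S b' x ≠ x := by
  rw [← clean_pal p c M] at hx
  exact ⟨hx.1.1 0 hM, hx.1.2 0 hM⟩

/-- a clean point which is not full misses `2` or `3` -/
lemma miss_of_clean {b b' h h' : Fin 4} (p : Pal b b' h h') {c : PC G 4} {M : ℕ} (hM : 1 ≤ M)
    {x : V} (hx : x ∈ Clean (c.S 0) (c.S 1) M) (hf : ¬ c.Full x) : c.S h x = x ∨ c.S h' x = x := by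
  have h1 := clean_ne p hM hx
  unfold PC.Full at hf
  push Not at hf
  obtain ⟨k, hk⟩ := hf
  rcases p.all k with rfl | rfl | rfl | rfl
  · exact absurd hk h1.1
  · exact absurd hk h1.2
  · exact Or.inl hk
  · exact Or.inr hk

lemma Ctx.closed {c : PC G 4} {P : Set V} {N : ℕ} (hc : Ctx c P N) {b b' h h' : Fin 4}
    (p : Pal b b' h h') {x : V} (hx : x ∈ P) : c.S b x ∈ P ∧ c.S b' x ∈ P := by
  obtain ⟨h1, -⟩ := p
  rcases h1 with ⟨rfl, rfl⟩ | ⟨rfl, rfl⟩
  · exact ⟨hc.P0 x hx, hc.P1 x hx⟩
  · exact ⟨hc.P1 x hx, hc.P0 x hx⟩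

/-- being in `P` is invariant under the colours `0, 1` -/
lemma Ctx.closed_iff {c : PC G 4} {P : Set V} {N : ℕ} (hc : Ctx c P N) {b b' h h' : Fin 4}
    (p : Pal b b' h h') (x : V) : (c.S b x ∈ P ↔ x ∈ P) ∧ (c.S b' x ∈ P ↔ x ∈ P) := by
  refine ⟨⟨fun hx => ?_, fun hx => (hc.closed p hx).1⟩, ⟨fun hx => ?_, fun hx => (hc.closed p hx).2⟩⟩
  · have := (hc.closed p hx).1; rwa [c.invol] at this
  · have := (hc.closed p hx).2; rwa [c.invol] at this

end cut

end Pool.Agent.MEP
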