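import Pool.Agent.MEP.Targets

set_option autoImplicit false

/-! Basic facts on alternating walks. -/

namespace Pool.Agent.MEP

open MeasureTheory Set Filter
open scoped ENNReal
open Pool.Agent.MEC

universe u

section alg

variable {V : Type u} {s t : V → V}

@[simp] lemma al_zero (s t : V → V) (x : V) : al s t 0 x = x := rfl

lemma al_succ (s t : V → V) (n : ℕ) (x : V) : al s t (n + 1) x = al t s n (s x) := rfl

@[simp] lemma al_one (s t : V → V) (x : V) : al s t 1 x = s x := rfl

lemma al_two (s t : V → V) (x : V) : al s t 2 x = t (s x) := rfl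

/-- the last letter -/
lemma al_last (s t : V → V) (n : ℕ) (x : V) :
    al s t (n + 1) x = if Even n then s (al s t n x) else t (al s t n x) := by
  induction n generalizing s t x with
  | zero => simp
  | succ n ih =>
    rw [al_succ, ih, al_succ]
    by_cases h : Even n
    · rw [if_pos h, if_neg (by rw [Nat.even_add_one]; exact not_not.2 h)]
    · rw [if_neg h, if_pos (by rw [Nat.even_add_one]; exact h)]

lemma al_last_even (s t : V → V) {n : ℕ} (h : Even n) (x : V) :
    al s t (n + 1) x = s (al s t n x) := by rw [al_last, if_pos h]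

lemma al_last_odd (s t : V → V) {n : ℕ} (h : ¬ Even n) (x : V) :
    al s t (n + 1) x = t (al s t n x) := by rw [al_last, if_neg h]

lemma al_add (s t : V → V) (m n : ℕ) (x : V) :
    al s t (m + n) x = if Even m then al s t n (al s t m x) else al t s n (al s t m x) := by
  induction m generalizing s t x with
  | zero => simp
  | succ m ih =>
    rw [show m + 1 + n = (m + n) + 1 by ring, al_succ, ih, al_succ]
    by_cases h : Even m
    · rw [if_pos h, if_neg (by rw [Nat.even_add_one]; exact not_not.2 h)]
    · rw [if_neg h, if_pos (by rw [Nat.even_add_one]; exact h)]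

lemma al_add_even (s t : V → V) {m : ℕ} (h : Even m) (n : ℕ) (x : V) :
    al s t (m + n) x = al s t n (al s t m x) := by rw [al_add, if_pos h]

lemma al_add_odd (s t : V → V) {m : ℕ} (h : ¬ Even m) (n : ℕ) (x : V) :
    al s t (m + n) x = al t s n (al s t m x) := by rw [al_add, if_neg h]

/-- reading a walk backwards -/
lemma al_rev (hs : ∀ x, s (s x) = x) (ht : ∀ x, t (t x) = x) (n : ℕ) (x : V) :
    (if Even n then al t s n (al s t n x) else al s t n (al s t n x)) = x := by
  induction n generalizing s t x with
  | zero => simp
  | succ n ih =>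
    by_cases h : Even n
    · rw [if_neg (by rw [Nat.even_add_one]; exact not_not.2 h),
        al_succ s t n (al s t (n + 1) x), al_last_even s t h x, hs]
      have := ih hs ht x
      rwa [if_pos h] at this
    · rw [if_pos (by rw [Nat.even_add_one]; exact h),
        al_succ t s n (al s t (n + 1) x), al_last_odd s t h x, ht]
      have := ih hs ht x
      rwa [if_neg h] at this

lemma al_rev_even (hs : ∀ x, s (s x) = x) (ht : ∀ x, t (t x) = x) {n : ℕ} (h : Even n) (x : V) :
    al t s n (al s t n x) = x := by
  have := al_rev hs ht n x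
  rwa [if_pos h] at this

lemma al_rev_odd (hs : ∀ x, s (s x) = x) (ht : ∀ x, t (t x) = x) {n : ℕ} (h : ¬ Even n) (x : V) :
    al s t n (al s t n x) = x := by
  have := al_rev hs ht n x
  rwa [if_neg h] at this

/-- partial reversal: `j` steps back from step `n` of a walk -/
lemma al_back (hs : ∀ x, s (s x) = x) (ht : ∀ x, t (t x) = x) {n j : ℕ} (hj : j ≤ n) (x : V) :
    (if Even n then al t s j (al s t n x) else al s t j (al s t n x)) = al s t (n - j) x := by
  obtain ⟨m, rfl⟩ := Nat.exists_eq_add_of_le hj
  rw [Nat.add_sub_cancel_left, Nat.add_comm j m, al_add]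
  by_cases hm : Even m
  · rw [if_pos hm]
    by_cases hj' : Even j
    · rw [if_pos (hm.add hj')]
      exact al_rev_even hs ht hj' _
    · rw [if_neg (by rw [Nat.even_add]; tauto)]
      exact al_rev_odd hs ht hj' _
  · rw [if_neg hm]
    by_cases hj' : Even j
    · rw [if_neg (by rw [Nat.even_add]; tauto)]
      exact al_rev_even ht hs hj' _
    · rw [if_pos (by rw [Nat.even_add]; tauto)]
      exact al_rev_odd ht hs hj' _

lemma al_injective (hs : ∀ x, s (s x) = x) (ht : ∀ x, t (t x) = x) (n : ℕ) :
    Function.Injective (al s t n) := by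
  intro x y h
  rw [← al_rev hs ht n x, ← al_rev hs ht n y, h]

/-- two walks from points with the same image -/
lemma al_eq_al (hs : ∀ x, s (s x) = x) (ht : ∀ x, t (t x) = x) {i j : ℕ} (hij : i ≤ j)
    (hpar : Even i ↔ Even j) {x y : V} (h : al s t i x = al s t j y) : x = al s t (j - i) y := by
  have h1 := al_back hs ht hij y
  have h2 := al_rev hs ht i x
  by_cases hi : Even i
  · rw [if_pos (hpar.1 hi)] at h1
    rw [if_pos hi] at h2
    rw [← h2, h, h1]
  · rw [if_neg (fun hj => hi (hpar.2 hj))] at h1
    rw [if_neg hi] at h2
    rw [← h2, h, h1]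

lemma mem_Long {L : ℕ} {x : V} :
    x ∈ Long s t L ↔ ∀ p, 1 ≤ p → p ≤ L → al s t (2 * p) x ≠ x := Iff.rfl

lemma al_period_s (hs : ∀ x, s (s x) = x) (ht : ∀ x, t (t x) = x) {p : ℕ} {x : V}
    (h : al s t (2 * p) x = x) : al t s (2 * p) x = x := by
  conv_lhs => rw [← h]
  exact al_rev_even hs ht (even_two_mul p) x

lemma al_period_step (hs : ∀ x, s (s x) = x) (ht : ∀ x, t (t x) = x) {p : ℕ} {x : V}
    (h : al s t (2 * p) x = x) : al s t (2 * p) (s x) = s x := by
  have h1 : al t s (2 * p) (s x) = s x := by
    have h2 : al s t (2 * p + 1) x = al t s (2 * p) (s x) := rfl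
    rw [← h2, al_last_even s t (even_two_mul p), h]
  exact al_period_s ht hs h1

lemma Long_comm (hs : ∀ x, s (s x) = x) (ht : ∀ x, t (t x) = x) (L : ℕ) :
    Long s t L = Long t s L := by
  ext x
  constructor
  · intro h p h1 h2 h3
    exact h p h1 h2 (al_period_s ht hs h3)
  · intro h p h1 h2 h3
    exact h p h1 h2 (al_period_s hs ht h3)

lemma Long_s (hs : ∀ x, s (s x) = x) (ht : ∀ x, t (t x) = x) {L : ℕ} {x : V}
    (h : x ∈ Long s t L) : s x ∈ Long s t L := by
  intro p h1 h2 h3
  have := al_period_step hs ht h3
  rw [hs] at this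
  exact h p h1 h2 this

lemma Long_t (hs : ∀ x, s (s x) = x) (ht : ∀ x, t (t x) = x) {L : ℕ} {x : V}
    (h : x ∈ Long s t L) : t x ∈ Long s t L := by
  rw [Long_comm hs ht] at h ⊢
  exact Long_s ht hs h

lemma Long_al (hs : ∀ x, s (s x) = x) (ht : ∀ x, t (t x) = x) {L : ℕ} (n : ℕ) {x : V}
    (h : x ∈ Long s t L) : al s t n x ∈ Long s t L ∧ al t s n x ∈ Long s t L := by
  induction n with
  | zero => exact ⟨h, h⟩
  | succ n ih =>
    constructor
    · by_cases hn : Even n
      · rw [al_last_even s t hn]; exact Long_s hs ht ih.1
      · rw [al_last_odd s t hn]; exact Long_t hs ht ih.1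
    · by_cases hn : Even n
      · rw [al_last_even t s hn]; exact Long_t hs ht ih.2
      · rw [al_last_odd t s hn]; exact Long_s hs ht ih.2

/-- a point of a set closed under both involutions stays in the set -/
lemma al_mem {P : Set V} (h1 : ∀ x ∈ P, s x ∈ P) (h2 : ∀ x ∈ P, t x ∈ P) (n : ℕ) {x : V}
    (h : x ∈ P) : al s t n x ∈ P := by
  induction n with
  | zero => exact h
  | succ n ih =>
    by_cases hn : Even n
    · rw [al_last_even s t hn]; exact h1 _ ih
    · rw [al_last_odd s t hn]; exact h2 _ ih

lemma Long_anti {L L' : ℕ} (h : L ≤ L') : Long s t L' ⊆ Long s t L :=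
  fun _ hx p h1 h2 => hx p h1 (h2.trans h)

lemma NS_mono {N M : ℕ} (h : N ≤ M) {x : V} (hx : NS s t M x) : NS s t N x :=
  fun n hn => hx n (by omega)

lemma Far_anti {N M : ℕ} (h : N ≤ M) : Far s t M ⊆ Far s t N :=
  fun _ hx => ⟨NS_mono h hx.1, NS_mono h hx.2⟩

lemma Far_comm (N : ℕ) : Far s t N = Far t s N := by
  ext x; exact and_comm

lemma Clean_comm (hs : ∀ x, s (s x) = x) (ht : ∀ x, t (t x) = x) (N : ℕ) :
    Clean s t N = Clean t s N := by
  unfold Clean; rw [Far_comm, Long_comm hs ht]

/-- the walk continued from step `m` -/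
lemma NS_shift {N m : ℕ} (hm : m ≤ N) {x : V} (hx : NS s t N x) :
    (Even m → NS s t (N - m) (al s t m x)) ∧ (¬ Even m → NS t s (N - m) (al s t m x)) := by
  constructor
  · intro h n hn
    rw [← al_add_even s t h, ← al_add_even s t h]
    exact hx (m + n) (by omega)
  · intro h n hn
    rw [← al_add_odd s t h, ← al_add_odd s t h]
    exact hx (m + n) (by omega)

/-- either there is a first stall within `N` steps or there is none -/
lemma NS_or_stall (s t : V → V) (N : ℕ) (x : V) : NS s t N x ∨ ∃ n, n < N ∧ StallAt s t n x := by
  induction N with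
  | zero => left; intro n hn; omega
  | succ N ih =>
    rcases ih with h | ⟨n, hn, h⟩
    · by_cases hN : al s t (N + 1) x = al s t N x
      · right; exact ⟨N, by omega, h, hN⟩
      · left
        intro n hn
        rcases Nat.lt_or_ge n N with h' | h'
        · exact h n h'
        · have : n = N := by omega
          subst this; exact hN
    · right; exact ⟨n, by omega, h⟩

lemma StallAt.unique {n m : ℕ} {x : V} (h : StallAt s t n x) (h' : StallAt s t m x) : n = m := by
  rcases Nat.lt_trichotomy n m with hlt | heq | hgt
  · exact absurd h.2 (h'.1 n hlt)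
  · exact heq
  · exact absurd h'.2 (h.1 m hgt)

/-- walks which see the same involutions agree -/
lemma al_congr {s' t' : V → V} (n : ℕ) (x : V)
    (h : ∀ j, j < n → s' (al s t j x) = s (al s t j x) ∧ t' (al s t j x) = t (al s t j x)) :
    al s' t' n x = al s t n x := by
  induction n with
  | zero => rfl
  | succ n ih =>
    have h1 := ih fun j hj => h j (by omega)
    rw [al_last, al_last, h1, (h n (by omega)).1, (h n (by omega)).2]

/-- before the first stall a walk from a fixed point of the other letter is injective -/
lemma al_inj_of_fixed (hs : ∀ x, s (s x) = x) (ht : ∀ x, t (t x) = x) {m : ℕ} {x : V}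
    (hx : s x = x) (hns : NS t s m x) : ∀ i j, i ≤ m → j ≤ m → al t s i x = al t s j x → i = j := by
  have key : ∀ i j, i < j → j ≤ m → al t s i x ≠ al t s j x := by
    intro i j hij hj h
    by_cases hpar : Even i ↔ Even j
    · have h1 := al_eq_al ht hs hij.le hpar h
      -- `x` is reached by a walk of even positive length whose last letter is `s`
      have hev : Even (j - i) := by
        rw [Nat.even_sub hij.le]; tauto
      obtain ⟨k, hk⟩ : ∃ k, j - i = k + 1 := ⟨j - i - 1, by omega⟩
      rw [hk] at h1 hev
      have hk' : ¬ Even k := by rw [Nat.even_add_one] at hev; exact hev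
      have h2 : al t s k x = x := by
        have h3 := h1
        rw [al_last_odd t s hk'] at h3
        have h4 : s x = al t s k x := by
          conv_lhs => rw [h3]
          exact hs _
        rw [← h4, hx]
      apply hns k (by omega)
      rw [h2, ← h1]
    · -- different parity: meet in the middle
      have hmeet : ∀ d, i + d < j - d → al t s (i + d) x = al t s (j - d) x := by
        intro d
        induction d with
        | zero => intro _; simpa using h
        | succ d ih =>
          intro hd
          have h1 := ih (by omega)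
          have e1 : al t s (i + (d + 1)) x =
              if Even (i + d) then t (al t s (i + d) x) else s (al t s (i + d) x) := by
            rw [← add_assoc, al_last]
          have e2 : al t s (j - d) x = if Even (j - (d + 1)) then t (al t s (j - (d + 1)) x)
              else s (al t s (j - (d + 1)) x) := by
            have : j - d = (j - (d + 1)) + 1 := by omega
            rw [this, al_last]
          have hp : Even (i + d) ↔ Even (j - (d + 1)) := by
            rw [Nat.even_sub (by omega), Nat.even_add, Nat.even_add_one]
            tauto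
          rw [e1, h1, e2]
          by_cases hev : Even (i + d)
          · rw [if_pos hev, if_pos (hp.1 hev), ht]
          · rw [if_neg hev, if_neg (fun h' => hev (hp.2 h')), hs]
      obtain ⟨d, hd⟩ : ∃ d, j - d = i + d + 1 ∧ d ≤ j := by
        have hodd : ¬ Even (i + j) := by rw [Nat.even_add]; tauto
        rw [Nat.not_even_iff] at hodd
        exact ⟨(j - i - 1) / 2, by omega, by omega⟩
      have h1 := hmeet d (by omega)
      rw [hd.1] at h1
      exact hns (i + d) (by omega) h1.symm
  intro i j hi hj h
  rcases Nat.lt_trichotomy i j with hlt | heq | hgt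
  · exact absurd h (key i j hlt hj)
  · exact heq
  · exact absurd h.symm (key j i hgt hi)

/-- a first stall gives a period -/
lemma period_of_stall (hs : ∀ x, s (s x) = x) (ht : ∀ x, t (t x) = x) {n : ℕ} {x : V}
    (hx : s x = x) (h : al t s (n + 1) x = al t s n x) : al t s (2 * (n + 1)) x = x := by
  have h1 : al t s (2 * n + 1) x = x := by
    have e : 2 * n + 1 = (n + 1) + n := by ring
    rw [e, al_add, h]
    by_cases hn : Even n
    · rw [if_neg (by rw [Nat.even_add_one]; exact not_not.2 hn)]
      exact al_rev_even ht hs hn x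
    · rw [if_pos (by rw [Nat.even_add_one]; exact hn)]
      exact al_rev_odd ht hs hn x
  have e2 : 2 * (n + 1) = (2 * n + 1) + 1 := by ring
  rw [e2, al_last_odd t s (by rw [Nat.even_add_one]; exact not_not.2 (even_two_mul n)), h1, hx]

/-- ends of long components are far from the other end -/
lemma NS_of_Long (hs : ∀ x, s (s x) = x) (ht : ∀ x, t (t x) = x) {L : ℕ} {x : V}
    (h : x ∈ Long s t L) (hx : s x = x) : NS t s L x := by
  rcases NS_or_stall t s L x with h1 | ⟨n, hn, h1⟩
  · exact h1
  · exfalso
    rw [Long_comm hs ht] at h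
    exact h (n + 1) (by omega) (by omega) (period_of_stall hs ht hx h1.2)

/-- reversing a stalled walk -/
lemma StallAt.rev (hs : ∀ x, s (s x) = x) (ht : ∀ x, t (t x) = x) {n : ℕ} {x : V}
    (hx : s x = x) (h : StallAt t s n x) : (Even n → StallAt s t n (al t s n x) ∧
      al s t n (al t s n x) = x) ∧ (¬ Even n → StallAt t s n (al t s n x) ∧
      al t s n (al t s n x) = x) := by
  have hb : ∀ j, j ≤ n → (if Even n then al s t j (al t s n x) else al t s j (al t s n x)) =
      al t s (n - j) x := fun j hj => al_back ht hs hj x
  constructor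
  · intro hn
    have hb' : ∀ j, j ≤ n → al s t j (al t s n x) = al t s (n - j) x := fun j hj => by
      have := hb j hj
      rwa [if_pos hn] at this
    refine ⟨⟨?_, ?_⟩, by rw [hb' n le_rfl]; simp⟩
    · intro j hj
      rw [hb' j hj.le, hb' (j + 1) hj]
      have e : n - j = (n - (j + 1)) + 1 := by omega
      rw [e]
      exact (h.1 (n - (j + 1)) (by omega)).symm
    · rw [al_last_even s t hn, hb' n le_rfl]
      simpa using hx
  · intro hn
    have hb' : ∀ j, j ≤ n → al t s j (al t s n x) = al t s (n - j) x := fun j hj => by
      have := hb j hj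
      rwa [if_neg hn] at this
    refine ⟨⟨?_, ?_⟩, by rw [hb' n le_rfl]; simp⟩
    · intro j hj
      rw [hb' j hj.le, hb' (j + 1) hj]
      have e : n - j = (n - (j + 1)) + 1 := by omega
      rw [e]
      exact (h.1 (n - (j + 1)) (by omega)).symm
    · rw [al_last_odd t s hn, hb' n le_rfl]
      simpa using hx

end alg

/-! ### Measurability and invariance -/

section meas

variable {V : Type u} [MeasurableSpace V] {s t : V → V}

lemma measurable_al (hs : Measurable s) (ht : Measurable t) (n : ℕ) : Measurable (al s t n) := by
  induction n generalizing s t with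
  | zero => exact measurable_id
  | succ n ih => exact (ih ht hs).comp hs

lemma mp_al {μ : Measure V} (hs : MeasurePreserving s μ μ) (ht : MeasurePreserving t μ μ)
    (n : ℕ) : MeasurePreserving (al s t n) μ μ := by
  induction n generalizing s t with
  | zero => exact MeasurePreserving.id μ
  | succ n ih => exact (ih ht hs).comp hs

/-- the walk as an equivalence -/
noncomputable def alE (s t : V → V) (hs : Measurable s) (ht : Measurable t)
    (hs' : ∀ x, s (s x) = x) (ht' : ∀ x, t (t x) = x) (n : ℕ) : V ≃ᵐ V where
  toFun := al s t n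
  invFun := if Even n then al t s n else al s t n
  left_inv := by
    intro x
    by_cases h : Even n
    · simp only [h, if_true]; exact al_rev_even hs' ht' h x
    · simp only [h, if_false]; exact al_rev_odd hs' ht' h x
  right_inv := by
    intro x
    by_cases h : Even n
    · simp only [h, if_true]; exact al_rev_even ht' hs' h x
    · simp only [h, if_false]; exact al_rev_odd hs' ht' h x
  measurable_toFun := measurable_al hs ht n
  measurable_invFun := by
    by_cases h : Even n
    · simp only [h, if_true]; exact measurable_al ht hs n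
    · simp only [h, if_false]; exact measurable_al hs ht n

@[simp] lemma alE_apply (s t : V → V) (hs : Measurable s) (ht : Measurable t)
    (hs' : ∀ x, s (s x) = x) (ht' : ∀ x, t (t x) = x) (n : ℕ) (x : V) :
    alE s t hs ht hs' ht' n x = al s t n x := rfl

variable [StandardBorelSpace V]

lemma measurableSet_Long (hs : Measurable s) (ht : Measurable t) (L : ℕ) :
    MeasurableSet (Long s t L) := by
  have : Long s t L = ⋂ p, ⋂ (_ : 1 ≤ p), ⋂ (_ : p ≤ L), {x | al s t (2 * p) x = x}ᶜ := by
    ext x; simp [Long]
  rw [this]
  exact MeasurableSet.iInter fun p => MeasurableSet.iInter fun _ => MeasurableSet.iInter fun _ =>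
    (measurableSet_eq_fun (measurable_al hs ht _) measurable_id).compl

lemma measurableSet_NS (hs : Measurable s) (ht : Measurable t) (N : ℕ) :
    MeasurableSet {x | NS s t N x} := by
  have : {x | NS s t N x} = ⋂ n, ⋂ (_ : n < N), {x | al s t (n + 1) x = al s t n x}ᶜ := by
    ext x; simp [NS]
  rw [this]
  exact MeasurableSet.iInter fun n => MeasurableSet.iInter fun _ =>
    (measurableSet_eq_fun (measurable_al hs ht _) (measurable_al hs ht _)).compl

lemma measurableSet_Far (hs : Measurable s) (ht : Measurable t) (N : ℕ) :
    MeasurableSet (Far s t N) := (measurableSet_NS hs ht N).inter (measurableSet_NS ht hs N)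

lemma measurableSet_Clean (hs : Measurable s) (ht : Measurable t) (N : ℕ) :
    MeasurableSet (Clean s t N) := (measurableSet_Far hs ht N).inter (measurableSet_Long hs ht N)

lemma measurableSet_StallAt (hs : Measurable s) (ht : Measurable t) (n : ℕ) :
    MeasurableSet {x | StallAt s t n x} := (measurableSet_NS hs ht n).inter
  (measurableSet_eq_fun (measurable_al hs ht _) (measurable_al hs ht _))

omit [StandardBorelSpace V] in
lemma measurable_cutS {P : Set V} {f : V → V} (hP : MeasurableSet P) (hf : Measurable f) :
    Measurable (cutS P f) := by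
  classical
  unfold cutS
  exact Measurable.ite hP measurable_id hf

omit [MeasurableSpace V] [StandardBorelSpace V] in
lemma cutS_of_mem {P : Set V} {f : V → V} {x : V} (h : x ∈ P) : cutS P f x = x := if_pos h

omit [MeasurableSpace V] [StandardBorelSpace V] in
lemma cutS_of_notMem {P : Set V} {f : V → V} {x : V} (h : x ∉ P) : cutS P f x = f x := if_neg h

omit [MeasurableSpace V] [StandardBorelSpace V] in
lemma cutS_invol {P : Set V} {f : V → V} (hf : ∀ x, f (f x) = x) (hP : ∀ x ∈ P, f x ∈ P) (x : V) :
    cutS P f (cutS P f x) = x := by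
  by_cases h : x ∈ P
  · rw [cutS_of_mem h, cutS_of_mem h]
  · rw [cutS_of_notMem h, cutS_of_notMem, hf]
    intro h'
    have := hP _ h'
    rw [hf] at this
    exact h this

omit [StandardBorelSpace V] in
/-- the colours of a colouring preserve an invariant measure -/
lemma mp_S {G : SimpleGraph V} {Δ : ℕ} {μ : Measure V} (hinv : Inv G μ) (c : PCol G Δ)
    (k : Fin Δ) : MeasurePreserving (c.S k) μ μ := hinv _ (c.meas k) (c.invol k) (c.adj k)

omit [StandardBorelSpace V] in
lemma mp_cutS {G : SimpleGraph V} {Δ : ℕ} {μ : Measure V} (hinv : Inv G μ) (c : PCol G Δ)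
    (k : Fin Δ) {P : Set V} (hP : MeasurableSet P) (h : ∀ x ∈ P, c.S k x ∈ P) :
    MeasurePreserving (cutS P (c.S k)) μ μ := by
  refine hinv _ (measurable_cutS hP (c.meas k)) (cutS_invol (c.invol k) h) fun x hx => ?_
  by_cases hxP : x ∈ P
  · exact absurd (cutS_of_mem hxP) hx
  · rw [cutS_of_notMem hxP] at hx ⊢
    exact c.adj k x hx

end meas

end Pool.Agent.MEP
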