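import Pool.Agent.MEP.Walk

set_option autoImplicit false

/-! Ends of long walks are rare. -/

namespace Pool.Agent.MEP

open MeasureTheory Set Filter
open scoped ENNReal
open Pool.Agent.MEC

universe u

namespace END_

variable {V : Type u} {s t : V → V}

/-- the images of the ends under short walks are disjoint -/
lemma disj (hs : ∀ x, s (s x) = x) (ht : ∀ x, t (t x) = x) {m : ℕ} {x y : V}
    (hx : s x = x) (hnx : NS t s m x) (hy : s y = y) (hny : NS t s m y) {j k : ℕ} (hjk : j < k)
    (hk : k ≤ m / 2) : al t s j x ≠ al t s k y := by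
  intro h
  by_cases hpar : Even j ↔ Even k
  · have h1 := al_eq_al ht hs hjk.le hpar h
    have hev : Even (k - j) := by
      rw [Nat.even_sub hjk.le]; tauto
    obtain ⟨i, hi⟩ : ∃ i, k - j = i + 1 := ⟨k - j - 1, by omega⟩
    rw [hi] at h1 hev
    have hi' : ¬ Even i := by rw [Nat.even_add_one] at hev; exact hev
    have h2 : al t s (i + 1) y = s (al t s i y) := al_last_odd t s hi' y
    have h3 : al t s i y = x := by
      have h4 : s x = al t s i y := by
        rw [h1, h2, hs]
      rw [← h4, hx]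
    apply hny i (by omega)
    rw [h3, ← h1]
  · have h1 : al t s (j + k) x = y := by
      by_cases hke : Even k
      · have hj : ¬ Even j := fun hj => hpar ⟨fun _ => hke, fun _ => hj⟩
        rw [al_add_odd t s hj, h]
        exact al_rev_even ht hs hke y
      · have hj : Even j := by
          by_contra hj
          exact hpar ⟨fun h' => absurd h' hj, fun h' => absurd h' hke⟩
        rw [al_add_even t s hj, h]
        exact al_rev_odd ht hs hke y
    have hodd : ¬ Even (j + k) := by rw [Nat.even_add]; tauto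
    apply hnx (j + k) (by omega)
    rw [al_last_odd t s hodd, h1, hy]

variable [MeasurableSpace V] [StandardBorelSpace V]

omit [StandardBorelSpace V] in
lemma real_image {μ : Measure V} (hs : ∀ x, s (s x) = x) (ht : ∀ x, t (t x) = x)
    (ms : MeasurePreserving s μ μ) (mt : MeasurePreserving t μ μ) (n : ℕ) {E : Set V}
    (hE : MeasurableSet E) :
    MeasurableSet (al s t n '' E) ∧ μ.real (al s t n '' E) = μ.real E := by
  have e1 : al s t n '' E = (alE s t ms.measurable mt.measurable hs ht n).symm ⁻¹' E := by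
    rw [← MeasurableEquiv.image_eq_preimage_symm]
    rfl
  have hmp : MeasurePreserving (alE s t ms.measurable mt.measurable hs ht n) μ μ :=
    mp_al ms mt n
  have hsy := MeasurePreserving.symm (alE s t ms.measurable mt.measurable hs ht n) hmp
  rw [e1]
  refine ⟨(alE s t ms.measurable mt.measurable hs ht n).symm.measurable hE, ?_⟩
  unfold Measure.real
  rw [hsy.measure_preimage hE.nullMeasurableSet]

omit [StandardBorelSpace V] in
theorem main (μ : Measure V) [IsFiniteMeasure μ] (hs : ∀ x, s (s x) = x)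
    (ht : ∀ x, t (t x) = x) (ms : MeasurePreserving s μ μ) (mt : MeasurePreserving t μ μ)
    (m : ℕ) (E Q : Set V) (hE : MeasurableSet E)
    (h1 : ∀ x ∈ E, s x = x ∧ NS t s m x) (h2 : ∀ x ∈ E, ∀ j, j ≤ m → al t s j x ∈ Q) :
    (m + 1) * μ.real E ≤ 2 * μ.real Q := by
  have hd : (↑(Finset.range (m / 2 + 1)) : Set ℕ).PairwiseDisjoint
      (fun j => al t s j '' E) := by
    intro j hj k hk hjk
    have hj' : j ≤ m / 2 := by
      have := Finset.mem_range.1 (Finset.mem_coe.1 hj); omega
    have hk' : k ≤ m / 2 := by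
      have := Finset.mem_range.1 (Finset.mem_coe.1 hk); omega
    refine Set.disjoint_left.2 ?_
    rintro z ⟨x, hx, rfl⟩ ⟨y, hy, hxy⟩
    rcases Nat.lt_or_gt_of_ne hjk with h | h
    · exact disj hs ht (h1 x hx).1 (h1 x hx).2 (h1 y hy).1 (h1 y hy).2 h hk' hxy.symm
    · exact disj hs ht (h1 y hy).1 (h1 y hy).2 (h1 x hx).1 (h1 x hx).2 h hj' hxy
  have hsum := measureReal_biUnion_finset (μ := μ) hd
    (fun j _ => (real_image ht hs mt ms j hE).1)
  have hsub : (⋃ j ∈ Finset.range (m / 2 + 1), al t s j '' E) ⊆ Q := by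
    intro z hz
    simp only [mem_iUnion] at hz
    obtain ⟨j, hj, x, hx, rfl⟩ := hz
    have := Finset.mem_range.1 hj
    exact h2 x hx j (by omega)
  have h3 : μ.real (⋃ j ∈ Finset.range (m / 2 + 1), al t s j '' E) ≤ μ.real Q :=
    measureReal_mono hsub
  rw [hsum] at h3
  have h4 : ∑ j ∈ Finset.range (m / 2 + 1), μ.real (al t s j '' E) =
      ((m / 2 + 1 : ℕ) : ℝ) * μ.real E := by
    rw [Finset.sum_congr rfl (fun j _ => (real_image ht hs mt ms j hE).2)]
    simp
  rw [h4] at h3
  have h5 : ((m : ℝ) + 1) ≤ 2 * ((m / 2 + 1 : ℕ) : ℝ) := by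
    have : m + 1 ≤ 2 * (m / 2 + 1) := by omega
    exact_mod_cast this
  have h6 : 0 ≤ μ.real E := measureReal_nonneg
  nlinarith

/-- the ends of long components in the first letter -/
lemma ends (μ : Measure V) [IsFiniteMeasure μ] (hs : ∀ x, s (s x) = x)
    (ht : ∀ x, t (t x) = x) (ms : MeasurePreserving s μ μ) (mt : MeasurePreserving t μ μ)
    (L : ℕ) : L * μ.real {x | x ∈ Long s t L ∧ s x = x} ≤ 2 * μ.real (Long s t L) := by
  have hE : MeasurableSet {x | x ∈ Long s t L ∧ s x = x} :=
    (measurableSet_Long ms.measurable mt.measurable L).inter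
      (measurableSet_eq_fun ms.measurable measurable_id)
  have := main μ hs ht ms mt L {x | x ∈ Long s t L ∧ s x = x} (Long s t L) hE
    (fun x hx => ⟨hx.2, NS_of_Long hs ht hx.1 hx.2⟩)
    (fun x hx j _ => (Long_al hs ht j hx.1).2)
  have h6 : 0 ≤ μ.real {x | x ∈ Long s t L ∧ s x = x} := measureReal_nonneg
  nlinarith

omit [MeasurableSpace V] [StandardBorelSpace V] in
/-- a point which is not far from an end -/
lemma cover (hs : ∀ x, s (s x) = x) (ht : ∀ x, t (t x) = x) (L M : ℕ) :
    Long s t L \ Far s t M ⊆ ⋃ n ∈ Finset.range M,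
      ((al t s n '' {x | x ∈ Long s t L ∧ s x = x}) ∪
        (al s t n '' {x | x ∈ Long s t L ∧ t x = x})) := by
  rintro x ⟨hx, hf⟩
  simp only [mem_iUnion, Finset.mem_range]
  rcases NS_or_stall s t M x with h1 | ⟨n, hn, h1⟩
  · rcases NS_or_stall t s M x with h2 | ⟨n, hn, h2⟩
    · exact absurd ⟨h1, h2⟩ hf
    · refine ⟨n, hn, ?_⟩
      have hst := h2.2
      by_cases he : Even n
      · rw [al_last_even t s he] at hst
        exact Or.inr ⟨al t s n x, ⟨(Long_al hs ht n hx).2, hst⟩, al_rev_even ht hs he x⟩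
      · rw [al_last_odd t s he] at hst
        exact Or.inl ⟨al t s n x, ⟨(Long_al hs ht n hx).2, hst⟩, al_rev_odd ht hs he x⟩
  · refine ⟨n, hn, ?_⟩
    have hst := h1.2
    by_cases he : Even n
    · rw [al_last_even s t he] at hst
      exact Or.inl ⟨al s t n x, ⟨(Long_al hs ht n hx).1, hst⟩, al_rev_even hs ht he x⟩
    · rw [al_last_odd s t he] at hst
      exact Or.inr ⟨al s t n x, ⟨(Long_al hs ht n hx).1, hst⟩, al_rev_odd hs ht he x⟩

end END_

theorem allEND : tEND.{u} := by
  intro V _ _ μ _ s t hs ht ms mt m E Q hE hQ h1 h2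
  exact END_.main μ hs ht ms mt m E Q hE h1 h2

theorem allNEAR : tNEAR.{u} := by
  intro V _ _ μ _ s t hs ht ms mt L M hL
  have hS := END_.ends μ hs ht ms mt L
  have hT : L * μ.real {x | x ∈ Long s t L ∧ t x = x} ≤ 2 * μ.real (Long s t L) := by
    have := END_.ends μ ht hs mt ms L
    rwa [Long_comm ht hs] at this
  refine ⟨hS, hT, ?_⟩
  set ES := {x | x ∈ Long s t L ∧ s x = x} with hES
  set ET := {x | x ∈ Long s t L ∧ t x = x} with hET
  have mES : MeasurableSet ES :=
    (measurableSet_Long ms.measurable mt.measurable L).inter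
      (measurableSet_eq_fun ms.measurable measurable_id)
  have mET : MeasurableSet ET :=
    (measurableSet_Long ms.measurable mt.measurable L).inter
      (measurableSet_eq_fun mt.measurable measurable_id)
  have h1 : μ.real (Long s t L \ Far s t M) ≤
      ∑ n ∈ Finset.range M, μ.real ((al t s n '' ES) ∪ (al s t n '' ET)) :=
    (measureReal_mono (END_.cover hs ht L M) (measure_ne_top _ _)).trans
      (measureReal_biUnion_finset_le _ _)
  have h2 : ∑ n ∈ Finset.range M, μ.real ((al t s n '' ES) ∪ (al s t n '' ET)) ≤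
      M * (μ.real ES + μ.real ET) := by
    calc ∑ n ∈ Finset.range M, μ.real ((al t s n '' ES) ∪ (al s t n '' ET))
        ≤ ∑ n ∈ Finset.range M, (μ.real ES + μ.real ET) := by
          refine Finset.sum_le_sum fun n _ => (measureReal_union_le _ _).trans ?_
          rw [(END_.real_image ht hs mt ms n mES).2, (END_.real_image hs ht ms mt n mET).2]
      _ = M * (μ.real ES + μ.real ET) := by
          rw [Finset.sum_const, Finset.card_range, nsmul_eq_mul]
  have h3 : μ.real (Long s t L \ Far s t M) ≤ M * (μ.real ES + μ.real ET) := h1.trans h2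
  have hLn : (0 : ℝ) ≤ L := Nat.cast_nonneg L
  have hMn : (0 : ℝ) ≤ M := Nat.cast_nonneg M
  have hQ : 0 ≤ μ.real (Long s t L) := measureReal_nonneg
  calc L * μ.real (Long s t L \ Far s t M) ≤ L * (M * (μ.real ES + μ.real ET)) :=
        mul_le_mul_of_nonneg_left h3 hLn
    _ = M * (L * μ.real ES + L * μ.real ET) := by ring
    _ ≤ M * (2 * μ.real (Long s t L) + 2 * μ.real (Long s t L)) :=
        mul_le_mul_of_nonneg_left (add_le_add hS hT) hMn
    _ ≤ 8 * (M + 1) * μ.real (Long s t L) := by nlinarith [mul_nonneg hMn hQ]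

end Pool.Agent.MEP
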