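import Pool.Agent.MEP.Walk

set_option autoImplicit false

/-! MP_fff3e1_lc, gluing of pointwise modifications. -/

namespace Pool.Agent.MEP

open MeasureTheory Set Filter
open scoped ENNReal
open Pool.Agent.MEC

universe u

namespace GLUE_

variable {V : Type u} {G : SimpleGraph V} {Δ : ℕ} {ι : Type}

/-- the new value of colour `k` at `φ j b` -/
def val (S : Fin Δ → V → V) (φ : ι → V → V) (f : ι → Fin Δ → Option ι) (b : V) (j : ι)
    (k : Fin Δ) : V :=
  match f j k with
  | none => S k (φ j b)
  | some i => φ i b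

/-- the data describe a colouring near `b` -/
structure Val (G : SimpleGraph V) (S : Fin Δ → V → V) (φ : ι → V → V)
    (f : ι → Fin Δ → Option ι) (b : V) : Prop where
  v1 : ∀ i j, φ i b = φ j b → ∀ k, val S φ f b i k = val S φ f b j k
  v2 : ∀ j k i, val S φ f b j k = φ i b → val S φ f b i k = φ j b
  v3 : ∀ j k, (∀ i, S k (φ j b) ≠ φ i b) → val S φ f b j k = S k (φ j b)
  v4 : ∀ j k, val S φ f b j k ≠ φ j b → G.Adj (φ j b) (val S φ f b j k)
  v5 : ∀ j k k', val S φ f b j k = val S φ f b j k' → val S φ f b j k ≠ φ j b → k = k'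

lemma val_cases (S : Fin Δ → V → V) (φ : ι → V → V) (f : ι → Fin Δ → Option ι) (b : V) (j : ι)
    (k : Fin Δ) : val S φ f b j k = S k (φ j b) ∨ ∃ i, val S φ f b j k = φ i b := by
  unfold val
  cases h : f j k with
  | none => left; rfl
  | some i => right; exact ⟨i, rfl⟩

open Classical in
/-- the data of a colouring near `b` -/
noncomputable def dat (S : Fin Δ → V → V) (φ : ι → V → V) (T : Fin Δ → V → V) (b : V)
    (j : ι) (k : Fin Δ) : Option ι :=
  if h : T k (φ j b) ≠ S k (φ j b) ∧ ∃ i, φ i b = T k (φ j b) then some h.2.choose else none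

lemma val_dat (c : PC G Δ) (cb : PC G Δ) (φ : ι → V → V) (b : V)
    (h : ∀ x k, cb.S k x ≠ c.S k x → ∃ j, φ j b = x) (j : ι) (k : Fin Δ) :
    val c.S φ (dat c.S φ cb.S b) b j k = cb.S k (φ j b) := by
  by_cases h1 : cb.S k (φ j b) = c.S k (φ j b)
  · have : dat c.S φ cb.S b j k = none := by
      unfold dat
      rw [dif_neg]
      intro h2
      exact h2.1 h1
    unfold val
    rw [this]
    exact h1.symm
  · have h2 : ∃ i, φ i b = cb.S k (φ j b) := by
      apply h (cb.S k (φ j b)) k
      rw [cb.invol]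
      intro h3
      apply h1
      conv_rhs => rw [h3]
      rw [c.invol]
    have h3 : cb.S k (φ j b) ≠ c.S k (φ j b) ∧ ∃ i, φ i b = cb.S k (φ j b) := ⟨h1, h2⟩
    have : dat c.S φ cb.S b j k = some h3.2.choose := by
      unfold dat
      rw [dif_pos h3]
    unfold val
    rw [this]
    exact h3.2.choose_spec

lemma Val_dat (c : PC G Δ) (cb : PC G Δ) (φ : ι → V → V) (b : V)
    (h : ∀ x k, cb.S k x ≠ c.S k x → ∃ j, φ j b = x) :
    Val G c.S φ (dat c.S φ cb.S b) b := by
  have hv := val_dat c cb φ b h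
  refine ⟨?_, ?_, ?_, ?_, ?_⟩
  · intro i j hij k
    rw [hv, hv, hij]
  · intro j k i hi
    rw [hv] at hi ⊢
    rw [← hi, cb.invol]
  · intro j k hk
    rw [hv]
    by_contra h1
    have h2 : cb.S k (c.S k (φ j b)) = c.S k (c.S k (φ j b)) := by
      by_contra h3
      obtain ⟨i, hi⟩ := h _ k h3
      exact hk i hi.symm
    rw [c.invol] at h2
    apply h1
    conv_lhs => rw [← h2]
    rw [cb.invol]
  · intro j k hk
    rw [hv] at hk ⊢
    exact cb.adj k _ hk
  · intro j k k' h1 h2
    rw [hv, hv] at h1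
    rw [hv] at h2
    exact cb.disj k k' _ h1 h2

open Classical in
/-- the modified involutions on a set of base points -/
noncomputable def gl (S : Fin Δ → V → V) (φ : ι → V → V) (f : ι → Fin Δ → Option ι) (B : Set V)
    (k : Fin Δ) (x : V) : V :=
  if h : ∃ b ∈ B, ∃ j, φ j b = x then
    val S φ f h.choose h.choose_spec.2.choose k else S k x

/-- different base points do not interact -/
structure Sep (S : Fin Δ → V → V) (φ : ι → V → V) (B : Set V) : Prop where
  s1 : ∀ i j, ∀ b ∈ B, ∀ b' ∈ B, φ i b = φ j b' → b = b'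
  s2 : ∀ i j k, ∀ b ∈ B, ∀ b' ∈ B, S k (φ i b) = φ j b' → b = b'

variable {c : PC G Δ} {φ : ι → V → V} {f : ι → Fin Δ → Option ι} {B : Set V}

lemma gl_pt (hB : ∀ b ∈ B, Val G c.S φ f b) (hs : Sep c.S φ B) {b : V} (hb : b ∈ B) (j : ι)
    (k : Fin Δ) : gl c.S φ f B k (φ j b) = val c.S φ f b j k := by
  unfold gl
  have h : ∃ b' ∈ B, ∃ i, φ i b' = φ j b := ⟨b, hb, j, rfl⟩
  rw [dif_pos h]
  have h1 : h.choose = b := by
    obtain ⟨h2, h3⟩ := h.choose_spec
    exact hs.s1 _ _ _ h2 _ hb h3.choose_spec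
  have h4 : φ h.choose_spec.2.choose h.choose = φ j b := h.choose_spec.2.choose_spec
  generalize h.choose_spec.2.choose = i at h4 ⊢
  rw [h1] at h4 ⊢
  exact (hB b hb).v1 i j h4 k

lemma gl_off {k : Fin Δ} {x : V} (h : ∀ b ∈ B, ∀ j, φ j b ≠ x) :
    gl c.S φ f B k x = c.S k x := by
  unfold gl
  rw [dif_neg]
  rintro ⟨b, hb, j, hj⟩
  exact h b hb j hj

lemma gl_cases (x : V) : (∃ b ∈ B, ∃ j, φ j b = x) ∨ ∀ b ∈ B, ∀ j, φ j b ≠ x := by
  by_cases h : ∃ b ∈ B, ∃ j, φ j b = x
  · left; exact h
  · right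
    intro b hb j hj
    exact h ⟨b, hb, j, hj⟩

/-- the glued colouring -/
noncomputable def glP (hB : ∀ b ∈ B, Val G c.S φ f b) (hs : Sep c.S φ B) : PC G Δ where
  S := gl c.S φ f B
  invol := by
    intro k x
    rcases gl_cases (B := B) (φ := φ) x with ⟨b, hb, j, rfl⟩ | hx
    · rw [gl_pt hB hs hb]
      by_cases h1 : ∃ i, val c.S φ f b j k = φ i b
      · obtain ⟨i, hi⟩ := h1
        rw [hi, gl_pt hB hs hb]
        exact (hB b hb).v2 j k i hi
      · rcases val_cases c.S φ f b j k with h2 | h2
        · rw [gl_off, h2, c.invol]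
          intro b' hb' i hi
          rw [h2] at hi
          have := hs.s2 j i k b hb b' hb' hi.symm
          subst this
          exact h1 ⟨i, by rw [h2]; exact hi.symm⟩
        · exact absurd h2 h1
    · rw [gl_off (x := x) hx]
      rcases gl_cases (B := B) (φ := φ) (c.S k x) with ⟨b, hb, j, hj⟩ | hx'
      · rw [← hj, gl_pt hB hs hb]
        have h1 : c.S k (φ j b) = x := by rw [hj, c.invol]
        rw [(hB b hb).v3 j k, h1]
        intro i hi
        rw [h1] at hi
        exact hx b hb i hi.symm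
      · rw [gl_off hx', c.invol]
  adj := by
    intro k x hx
    rcases gl_cases (B := B) (φ := φ) x with ⟨b, hb, j, rfl⟩ | hx'
    · rw [gl_pt hB hs hb] at hx ⊢
      exact (hB b hb).v4 j k hx
    · rw [gl_off hx'] at hx ⊢
      exact c.adj k x hx
  disj := by
    intro k k' x h1 h2
    rcases gl_cases (B := B) (φ := φ) x with ⟨b, hb, j, rfl⟩ | hx'
    · rw [gl_pt hB hs hb, gl_pt hB hs hb] at h1
      rw [gl_pt hB hs hb] at h2
      exact (hB b hb).v5 j k k' h1 h2
    · rw [gl_off hx', gl_off hx'] at h1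
      rw [gl_off hx'] at h2
      exact c.disj k k' x h1 h2

/-- a single base point does not interact with itself -/
lemma Sep_single (S : Fin Δ → V → V) (φ : ι → V → V) (b : V) : Sep S φ {b} := by
  refine ⟨?_, ?_⟩
  · rintro i j x rfl y rfl _
    rfl
  · rintro i j k x rfl y rfl _
    rfl

end GLUE_

namespace GLUE_

variable {V : Type u} [MeasurableSpace V] [StandardBorelSpace V] {G : SimpleGraph V} {Δ : ℕ}
  {ι : Type}

omit [StandardBorelSpace V] in
lemma measurable_val {S : Fin Δ → V → V} (hS : ∀ k, Measurable (S k)) (φ : ι → V ≃ᵐ V)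
    (f : ι → Fin Δ → Option ι) (j : ι) (k : Fin Δ) :
    Measurable fun b => val S (fun i => φ i) f b j k := by
  unfold val
  cases h : f j k with
  | none => exact (hS k).comp (φ j).measurable
  | some i => exact (φ i).measurable

lemma measurableSet_Val [Finite ι] {S : Fin Δ → V → V} (hS : ∀ k, Measurable (S k))
    (φ : ι → V ≃ᵐ V) (f : ι → Fin Δ → Option ι)
    (hG : MeasurableSet {p : V × V | G.Adj p.1 p.2}) :
    MeasurableSet {b | Val G S (fun i => φ i) f b} := by
  have hv : ∀ j k, Measurable fun b => val S (fun i => φ i) f b j k :=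
    fun j k => measurable_val hS φ f j k
  have hp : ∀ j, Measurable fun b => φ j b := fun j => (φ j).measurable
  have e : {b | Val G S (fun i => φ i) f b} =
      ((⋂ i, ⋂ j, ({b | φ i b = φ j b}ᶜ ∪ ⋂ k, {b | val S (fun i => φ i) f b i k =
        val S (fun i => φ i) f b j k})) ∩
      (⋂ j, ⋂ k, ⋂ i, ({b | val S (fun i => φ i) f b j k = φ i b}ᶜ ∪
        {b | val S (fun i => φ i) f b i k = φ j b}))) ∩
      ((⋂ j, ⋂ k, ((⋃ i, {b | S k (φ j b) = φ i b}) ∪
        {b | val S (fun i => φ i) f b j k = S k (φ j b)})) ∩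
      (⋂ j, ⋂ k, ({b | val S (fun i => φ i) f b j k = φ j b} ∪
        (fun b => (φ j b, val S (fun i => φ i) f b j k)) ⁻¹' {p : V × V | G.Adj p.1 p.2}))) ∩
      (⋂ j, ⋂ k, ⋂ k', ({b | val S (fun i => φ i) f b j k =
        val S (fun i => φ i) f b j k'}ᶜ ∪ ({b | val S (fun i => φ i) f b j k = φ j b} ∪
        {_b | k = k'}))) := by
    ext b
    simp only [mem_setOf_eq, mem_inter_iff, mem_iInter, mem_union, mem_compl_iff, mem_iUnion,
      mem_preimage]
    constructor
    · rintro ⟨v1, v2, v3, v4, v5⟩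
      refine ⟨⟨⟨fun i j => ?_, fun j k i => ?_⟩, fun j k => ?_, fun j k => ?_⟩,
        fun j k k' => ?_⟩
      · by_cases h : φ i b = φ j b
        · right; exact v1 i j h
        · left; exact h
      · by_cases h : val S (fun i => φ i) f b j k = φ i b
        · right; exact v2 j k i h
        · left; exact h
      · by_cases h : ∃ i, S k (φ j b) = φ i b
        · left; exact h
        · right; exact v3 j k (fun i hi => h ⟨i, hi⟩)
      · by_cases h : val S (fun i => φ i) f b j k = φ j b
        · left; exact h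
        · right; exact v4 j k h
      · by_cases h : val S (fun i => φ i) f b j k = val S (fun i => φ i) f b j k'
        · right
          by_cases h' : val S (fun i => φ i) f b j k = φ j b
          · left; exact h'
          · right; exact v5 j k k' h h'
        · left; exact h
    · rintro ⟨⟨⟨v1, v2⟩, v3, v4⟩, v5⟩
      refine ⟨fun i j h => ?_, fun j k i h => ?_, fun j k h => ?_, fun j k h => ?_,
        fun j k k' h h' => ?_⟩
      · exact (v1 i j).resolve_left (fun h' => h' h)
      · exact (v2 j k i).resolve_left (fun h' => h' h)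
      · rcases v3 j k with ⟨i, hi⟩ | h'
        · exact absurd hi (h i)
        · exact h'
      · exact (v4 j k).resolve_left h
      · rcases v5 j k k' with h1 | h1 | h1
        · exact absurd h h1
        · exact absurd h1 h'
        · exact h1
  rw [e]
  refine MeasurableSet.inter (MeasurableSet.inter (MeasurableSet.inter ?_ ?_)
    (MeasurableSet.inter ?_ ?_)) ?_
  · refine MeasurableSet.iInter fun i => MeasurableSet.iInter fun j => MeasurableSet.union ?_ ?_
    · exact (measurableSet_eq_fun (hp i) (hp j)).compl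
    · exact MeasurableSet.iInter fun k => measurableSet_eq_fun (hv i k) (hv j k)
  · refine MeasurableSet.iInter fun j => MeasurableSet.iInter fun k => MeasurableSet.iInter
      fun i => MeasurableSet.union ?_ ?_
    · exact (measurableSet_eq_fun (hv j k) (hp i)).compl
    · exact measurableSet_eq_fun (hv i k) (hp j)
  · refine MeasurableSet.iInter fun j => MeasurableSet.iInter fun k => MeasurableSet.union ?_ ?_
    · exact MeasurableSet.iUnion fun i => measurableSet_eq_fun ((hS k).comp (hp j)) (hp i)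
    · exact measurableSet_eq_fun (hv j k) ((hS k).comp (hp j))
  · refine MeasurableSet.iInter fun j => MeasurableSet.iInter fun k => MeasurableSet.union ?_ ?_
    · exact measurableSet_eq_fun (hv j k) (hp j)
    · exact ((hp j).prodMk (hv j k)) hG
  · refine MeasurableSet.iInter fun j => MeasurableSet.iInter fun k => MeasurableSet.iInter
      fun k' => MeasurableSet.union ?_ (MeasurableSet.union ?_ ?_)
    · exact (measurableSet_eq_fun (hv j k) (hv j k')).compl
    · exact measurableSet_eq_fun (hv j k) (hp j)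
    · exact MeasurableSet.const _

/-- one equivalence -/
lemma sparse_one (μ : Measure V) (e : V ≃ᵐ V) (B : Set V) (hB : MeasurableSet B)
    (hpos : μ B ≠ 0) : ∃ B' ⊆ B, MeasurableSet B' ∧ μ B' ≠ 0 ∧
    ∀ x ∈ B', ∀ y ∈ B', e x = y → x = y := by
  have hm : MeasurableSet {x | e x = x} := measurableSet_eq_fun e.measurable measurable_id
  by_cases h : μ (B ∩ {x | e x = x}) = 0
  · have h1 : μ (B ∩ {x | e x = x}ᶜ) ≠ 0 := by
      intro h2
      apply hpos
      rw [← measure_inter_add_diff B hm]
      rw [diff_eq, h, h2, add_zero]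
    obtain ⟨B', k1, k2, k3, k4⟩ := exists_disjoint_pair μ e (MeasurableEquiv.refl V)
      (B ∩ {x | e x = x}ᶜ) (hB.inter hm.compl) h1 (fun x hx => hx.2)
    refine ⟨B', k1.trans inter_subset_left, k2, k3, ?_⟩
    intro x hx y hy hxy
    exfalso
    exact Set.disjoint_left.1 k4 ⟨x, hx, rfl⟩ ⟨y, hy, hxy.symm⟩
  · refine ⟨_, inter_subset_left, hB.inter hm, h, ?_⟩
    intro x hx y hy hxy
    rw [← hxy]
    exact hx.2.symm

lemma sparse (μ : Measure V) {Θ : Set (V ≃ᵐ V)} (hΘ : Θ.Finite) (B : Set V)
    (hB : MeasurableSet B) (hpos : μ B ≠ 0) : ∃ B' ⊆ B, MeasurableSet B' ∧ μ B' ≠ 0 ∧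
    ∀ e ∈ Θ, ∀ x ∈ B', ∀ y ∈ B', e x = y → x = y := by
  classical
  induction Θ, hΘ using Set.Finite.induction_on with
  | empty => exact ⟨B, Subset.rfl, hB, hpos, by simp⟩
  | @insert e s _ _ ih =>
    obtain ⟨B1, h1, h2, h3, h4⟩ := ih
    obtain ⟨B2, k1, k2, k3, k4⟩ := sparse_one μ e B1 h2 h3
    refine ⟨B2, k1.trans h1, k2, k3, ?_⟩
    intro e' he' x hx y hy
    rcases he' with rfl | he'
    · exact k4 x hx y hy
    · exact h4 e' he' x (k1 hx) y (k1 hy)

lemma measurable_gl [Finite ι] {c : PCol G Δ} {φ : ι → V ≃ᵐ V} {f : ι → Fin Δ → Option ι}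
    {B : Set V} (hBm : MeasurableSet B)
    (hB : ∀ b ∈ B, Val G (toPC c).S (fun i => φ i) f b)
    (hs : Sep (toPC c).S (fun i => φ i) B) (k : Fin Δ) :
    Measurable (gl (toPC c).S (fun i => φ i) f B k) := by
  intro E hE
  have hv : ∀ j, Measurable fun b => val (toPC c).S (fun i => φ i) f b j k :=
    fun j => measurable_val (fun k => c.meas k) φ f j k
  have him : ∀ j, φ j '' B = (φ j).symm ⁻¹' B := fun j => by
    rw [MeasurableEquiv.preimage_symm]
  have e : gl (toPC c).S (fun i => φ i) f B k ⁻¹' E =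
      (⋃ j, ((φ j).symm ⁻¹' B ∩ (φ j).symm ⁻¹'
        ((fun b => val (toPC c).S (fun i => φ i) f b j k) ⁻¹' E))) ∪
      ((⋃ j, (φ j).symm ⁻¹' B)ᶜ ∩ c.S k ⁻¹' E) := by
    ext x
    simp only [mem_preimage, mem_union, mem_iUnion, mem_inter_iff, mem_compl_iff]
    constructor
    · intro hx
      rcases gl_cases (B := B) (φ := fun i => φ i) x with ⟨b, hb, j, rfl⟩ | hx'
      · left
        rw [gl_pt hB hs hb] at hx
        refine ⟨j, ?_, ?_⟩
        · rw [MeasurableEquiv.symm_apply_apply]; exact hb
        · rw [MeasurableEquiv.symm_apply_apply]; exact hx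
      · right
        rw [gl_off hx'] at hx
        refine ⟨?_, hx⟩
        rintro ⟨j, hj⟩
        exact hx' _ hj j ((φ j).apply_symm_apply x)
    · rintro (⟨j, h1, h2⟩ | ⟨h1, h2⟩)
      · have h3 := gl_pt hB hs h1 j k
        simp only [MeasurableEquiv.apply_symm_apply] at h3
        rw [h3]
        exact h2
      · rw [gl_off]
        · exact h2
        · intro b hb j hj
          apply h1
          refine ⟨j, ?_⟩
          rw [← hj]
          rw [MeasurableEquiv.symm_apply_apply]
          exact hb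
  rw [e]
  refine MeasurableSet.union (MeasurableSet.iUnion fun j => ?_) ?_
  · exact ((φ j).symm.measurable hBm).inter ((φ j).symm.measurable (hv j hE))
  · exact (MeasurableSet.iUnion fun j => (φ j).symm.measurable hBm).compl.inter (c.meas k hE)

end GLUE_

open GLUE_ in
theorem allGLUE : tGLUE.{u} := by
  intro V _ _ G Δ c μ _ ι _ φ Θ R B hG hΘ hR hB hcb
  classical
  -- the data
  have hcover : B ⊆ ⋃ f : ι → Fin Δ → Option ι,
      ({b | Val G c.S (fun i => φ i) f b} ∩
        (fun b => (b, fun j k => val c.S (fun i => φ i) f b j k)) ⁻¹' R) := by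
    intro b hb
    obtain ⟨cb, h1, h2⟩ := hcb b hb
    refine mem_iUnion.2 ⟨dat (toPC c).S (fun i => φ i) cb.S b, ?_, ?_⟩
    · exact Val_dat (toPC c) cb (fun i => φ i) b h1
    · have h3 : (fun j k => val c.S (fun i => φ i) (dat (toPC c).S (fun i => φ i) cb.S b) b j k)
          = fun j k => cb.S k (φ j b) := by
        funext j k
        exact val_dat (toPC c) cb (fun i => φ i) b h1 j k
      rw [mem_preimage, h3]
      exact h2
  obtain ⟨f, hf⟩ : ∃ f : ι → Fin Δ → Option ι, μ ({b | Val G c.S (fun i => φ i) f b} ∩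
        (fun b => (b, fun j k => val c.S (fun i => φ i) f b j k)) ⁻¹' R) ≠ 0 := by
    by_contra hcon
    push Not at hcon
    exact hB (measure_mono_null hcover (measure_iUnion_null hcon))
  have hm : MeasurableSet ({b | Val G c.S (fun i => φ i) f b} ∩
        (fun b => (b, fun j k => val c.S (fun i => φ i) f b j k)) ⁻¹' R) := by
    refine (measurableSet_Val c.meas φ f hG).inter ?_
    refine (Measurable.prodMk measurable_id ?_) hR
    exact measurable_pi_lambda _ fun j => measurable_pi_lambda _ fun k =>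
      measurable_val c.meas φ f j k
  -- the sparse piece
  let Sk : Fin Δ → V ≃ᵐ V := fun k => ofInvol (c.S k) (c.meas k) (c.invol k)
  let Θ' : Set (V ≃ᵐ V) := Θ ∪ (range (fun p : ι × ι => (φ p.1).trans (φ p.2).symm) ∪
    range (fun p : ι × ι × Fin Δ => ((φ p.1).trans (Sk p.2.2)).trans (φ p.2.1).symm))
  have hΘ' : Θ'.Finite := hΘ.union ((finite_range _).union (finite_range _))
  obtain ⟨B', hB1, hB2, hB3, hB4⟩ := sparse μ hΘ' _ hm hf
  have hval : ∀ b ∈ B', Val G (toPC c).S (fun i => φ i) f b := fun b hb => (hB1 hb).1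
  have hsep : Sep (toPC c).S (fun i => φ i) B' := by
    refine ⟨?_, ?_⟩
    · intro i j b hb b' hb' h
      refine hB4 ((φ i).trans (φ j).symm) (Or.inr (Or.inl ⟨(i, j), rfl⟩)) b hb b' hb' ?_
      change (φ j).symm (φ i b) = b'
      have h' : φ i b = φ j b' := h
      rw [h', MeasurableEquiv.symm_apply_apply]
    · intro i j k b hb b' hb' h
      refine hB4 (((φ i).trans (Sk k)).trans (φ j).symm) (Or.inr (Or.inr ⟨(i, j, k), rfl⟩))
        b hb b' hb' ?_
      change (φ j).symm (c.S k (φ i b)) = b'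
      have h' : c.S k (φ i b) = φ j b' := h
      rw [h', MeasurableEquiv.symm_apply_apply]
  -- the glued colouring
  let c' : PCol G Δ :=
    { S := (glP hval hsep).S
      meas := fun k => measurable_gl hB2 hval hsep k
      invol := (glP hval hsep).invol
      adj := (glP hval hsep).adj
      disj := (glP hval hsep).disj }
  let cb : V → PC G Δ := fun b => if h : b ∈ B' then
    glP (B := {b}) (c := toPC c) (φ := fun i => φ i) (f := f)
      (by rintro x rfl; exact hval x h) (Sep_single _ _ b) else toPC c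
  have hcb1 : ∀ b ∈ B', ∀ x k, (cb b).S k x = gl (toPC c).S (fun i => φ i) f {b} k x := by
    intro b hb x k
    have : cb b = glP (B := {b}) (c := toPC c) (φ := fun i => φ i) (f := f)
      (by rintro x rfl; exact hval x hb) (Sep_single _ _ b) := dif_pos hb
    rw [this]
    rfl
  have hcb2 : ∀ b ∈ B', ∀ j k, (cb b).S k (φ j b) = val c.S (fun i => φ i) f b j k := by
    intro b hb j k
    rw [hcb1 b hb]
    exact gl_pt (c := toPC c) (B := {b}) (by rintro x rfl; exact hval x hb)
      (Sep_single _ _ b) (mem_singleton b) j k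
  refine ⟨B', c', cb, hB2, hB3, fun e he => hB4 e (Or.inl he), ?_, ?_⟩
  · intro b hb
    refine ⟨?_, ?_, ?_⟩
    · intro x k hx
      rcases gl_cases (B := {b}) (φ := fun i => φ i) x with ⟨b', hb', j, hj⟩ | hx'
      · rw [mem_singleton_iff] at hb'
        subst hb'
        exact ⟨j, hj⟩
      · exfalso
        apply hx
        rw [hcb1 b hb]
        exact gl_off (c := toPC c) hx'
    · have h3 : (fun j k => (cb b).S k (φ j b)) = fun j k => val c.S (fun i => φ i) f b j k := by
        funext j k
        exact hcb2 b hb j k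
      rw [h3]
      exact (hB1 hb).2
    · intro j k
      rw [hcb2 b hb]
      exact gl_pt hval hsep hb j k
  · intro x hx k
    exact gl_off (c := toPC c) hx

end Pool.Agent.MEP
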