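import Pool.Agent.MEP.Walk

set_option autoImplicit false

/-! Targets tLIP and tFLIP: the sets `Long` and `Far` depend on the involutions in a
Lipschitz way. -/

namespace Pool.Agent.MEP

open MeasureTheory Set Filter
open scoped ENNReal
open Pool.Agent.MEC

universe u

namespace LIP_

variable {V : Type u}

lemma pair_cancel {a b c : V} (h : ({a, b} : Set V) = {a, c}) : b = c := by
  rcases Set.pair_eq_pair_iff.1 h with h1 | h1
  · exact h1.2
  · exact h1.2.trans h1.1

/-- one step of the propagation: the letter `f` agrees with `f'`, the other letters `g`, `g'`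
also agree -/
lemma step {f g f' g' : V → V} (hf : ∀ x, f (f x) = x) (hf' : ∀ x, f' (f' x) = x) {x : V}
    (h1 : f' x = f x) (h2 : g' x = g x)
    (hD : ({f (f x), g (f x)} : Set V) = {f' (f x), g' (f x)}) :
    f' (f x) = f (f x) ∧ g' (f x) = g (f x) := by
  have e : f' (f x) = f (f x) := by
    rw [hf, ← h1, hf']
  refine ⟨e, ?_⟩
  rw [e] at hD
  exact (pair_cancel hD).symm

/-- the walks of `f, g` and `f', g'` agree if they agree at the start and the pairs agree on
the way -/
lemma follow {f g f' g' : V → V} (hf : ∀ x, f (f x) = x) (hf' : ∀ x, f' (f' x) = x)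
    (hg : ∀ x, g (g x) = x) (hg' : ∀ x, g' (g' x) = x) {x : V}
    (h1 : f' x = f x) (h2 : g' x = g x) (n : ℕ)
    (hD : ∀ j, j ≤ n → ({f (al f g j x), g (al f g j x)} : Set V) =
      {f' (al f g j x), g' (al f g j x)}) :
    al f' g' n x = al f g n x ∧ f' (al f g n x) = f (al f g n x) ∧
      g' (al f g n x) = g (al f g n x) := by
  induction n with
  | zero => exact ⟨rfl, h1, h2⟩
  | succ n ih =>
    obtain ⟨i1, i2, i3⟩ := ih fun j hj => hD j (by omega)
    have hd := hD (n + 1) le_rfl
    by_cases hn : Even n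
    · rw [al_last_even f g hn, al_last_even f' g' hn, i1]
      rw [al_last_even f g hn] at hd
      exact ⟨i2, step hf hf' i2 i3 hd⟩
    · rw [al_last_odd f g hn, al_last_odd f' g' hn, i1]
      rw [al_last_odd f g hn] at hd
      rw [Set.pair_comm (f _) (g _), Set.pair_comm (f' _) (g' _)] at hd
      have := step hg hg' i3 i2 hd
      exact ⟨i3, this.2, this.1⟩

/-- a period of the walk of `s, t` is a period of the walk of `s', t'` -/
lemma period {s t s' t' : V → V} (hs : ∀ x, s (s x) = x) (ht : ∀ x, t (t x) = x)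
    (hs' : ∀ x, s' (s' x) = x) (ht' : ∀ x, t' (t' x) = x) {p : ℕ} {x : V}
    (hp : al s t (2 * p) x = x)
    (hD : ∀ j, j ≤ 2 * p → ({s (al s t j x), t (al s t j x)} : Set V) =
      {s' (al s t j x), t' (al s t j x)}) : al s' t' (2 * p) x = x := by
  have h0 : ({s x, t x} : Set V) = {s' x, t' x} := hD 0 (Nat.zero_le _)
  rcases Set.pair_eq_pair_iff.1 h0 with h | h
  · rw [(follow hs hs' ht ht' h.1.symm h.2.symm (2 * p) hD).1, hp]
  · have h1 := (follow hs ht' ht hs' h.1.symm h.2.symm (2 * p) fun j hj => by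
      rw [hD j hj, Set.pair_comm]).1
    rw [hp] at h1
    exact al_period_s ht' hs' h1

lemma long_sub {s t s' t' : V → V} (hs : ∀ x, s (s x) = x) (ht : ∀ x, t (t x) = x)
    (hs' : ∀ x, s' (s' x) = x) (ht' : ∀ x, t' (t' x) = x) (L : ℕ) :
    Long s' t' L ⊆ Long s t L ∪ ⋃ j ∈ Finset.range (2 * L + 1),
      al s t j ⁻¹' {x | ¬ ({s x, t x} : Set V) = {s' x, t' x}} := by
  intro x hx
  by_contra hc
  rw [mem_union, not_or] at hc
  obtain ⟨h1, h2⟩ := hc
  apply h1
  intro p hp1 hp2 hp3
  apply hx p hp1 hp2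
  apply period hs ht hs' ht' hp3
  intro j hj
  by_contra hj'
  apply h2
  rw [mem_iUnion₂]
  exact ⟨j, Finset.mem_range.2 (by omega), hj'⟩

lemma far_sub (s t s' t' : V → V) (N : ℕ) :
    Far s t N ⊆ Far s' t' N ∪ ((⋃ j ∈ Finset.range (N + 1),
      al s t j ⁻¹' {x | s' x ≠ s x ∨ t' x ≠ t x}) ∪ ⋃ j ∈ Finset.range (N + 1),
      al t s j ⁻¹' {x | s' x ≠ s x ∨ t' x ≠ t x}) := by
  intro x hx
  by_contra hc
  rw [mem_union, not_or, mem_union, not_or] at hc
  obtain ⟨h1, h2, h3⟩ := hc
  have k2 : ∀ j, j < N + 1 → s' (al s t j x) = s (al s t j x) ∧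
      t' (al s t j x) = t (al s t j x) := by
    intro j hj
    by_contra hj'
    apply h2
    rw [mem_iUnion₂]
    refine ⟨j, Finset.mem_range.2 hj, ?_⟩
    rw [not_and_or] at hj'
    exact hj'
  have k3 : ∀ j, j < N + 1 → t' (al t s j x) = t (al t s j x) ∧
      s' (al t s j x) = s (al t s j x) := by
    intro j hj
    by_contra hj'
    apply h3
    rw [mem_iUnion₂]
    refine ⟨j, Finset.mem_range.2 hj, ?_⟩
    rw [not_and_or] at hj'
    exact hj'.symm
  apply h1
  constructor
  · intro n hn
    rw [al_congr (n + 1) x fun j hj => k2 j (by omega), al_congr n x fun j hj => k2 j (by omega)]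
    exact hx.1 n hn
  · intro n hn
    rw [al_congr (n + 1) x fun j hj => k3 j (by omega), al_congr n x fun j hj => k3 j (by omega)]
    exact hx.2 n hn

section meas

variable [MeasurableSpace V]

lemma real_biUnion_le {μ : Measure V} [IsFiniteMeasure μ] {s t : V → V}
    (hs : MeasurePreserving s μ μ) (ht : MeasurePreserving t μ μ) {D : Set V}
    (hD : MeasurableSet D) (n : ℕ) :
    μ.real (⋃ j ∈ Finset.range n, al s t j ⁻¹' D) ≤ n * μ.real D := by
  refine (measureReal_biUnion_finset_le _ _).trans ?_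
  rw [Finset.sum_congr rfl fun j _ => ?_, Finset.sum_const, Finset.card_range, nsmul_eq_mul]
  unfold Measure.real
  rw [(mp_al hs ht j).measure_preimage hD.nullMeasurableSet]

end meas

end LIP_

open LIP_

theorem allLIP : tLIP.{u} := by
  intro V _ _ μ _ s t s' t' hs ht hs' ht' _ _ ms mt ms' mt' L
  have hD : MeasurableSet {x | ¬ ({s x, t x} : Set V) = {s' x, t' x}} := by
    have e : {x | ¬ ({s x, t x} : Set V) = {s' x, t' x}} =
        (({x | s x = s' x} ∩ {x | t x = t' x}) ∪ ({x | s x = t' x} ∩ {x | t x = s' x}))ᶜ := by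
      ext x
      simp only [mem_ofPred_eq, mem_compl_iff, mem_union, mem_inter_iff, Set.pair_eq_pair_iff]
    rw [e]
    exact (((measurableSet_eq_fun ms.measurable ms').inter
      (measurableSet_eq_fun mt.measurable mt')).union
      ((measurableSet_eq_fun ms.measurable mt').inter
      (measurableSet_eq_fun mt.measurable ms'))).compl
  refine (measureReal_mono (long_sub hs ht hs' ht' L)).trans ?_
  refine (measureReal_union_le _ _).trans ?_
  have := real_biUnion_le ms mt hD (2 * L + 1)
  push_cast at this ⊢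
  linarith

theorem allFLIP : tFLIP.{u} := by
  intro V _ _ μ _ s t s' t' _ _ _ _ ms mt ms' mt' N
  have hD : MeasurableSet {x | s' x ≠ s x ∨ t' x ≠ t x} :=
    (measurableSet_eq_fun ms' ms.measurable).compl.union
      (measurableSet_eq_fun mt' mt.measurable).compl
  refine (measureReal_mono (far_sub s t s' t' N)).trans ?_
  refine (measureReal_union_le _ _).trans ?_
  have h0 := measureReal_union_le (μ := μ) (⋃ j ∈ Finset.range (N + 1),
      al s t j ⁻¹' {x | s' x ≠ s x ∨ t' x ≠ t x}) (⋃ j ∈ Finset.range (N + 1),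
      al t s j ⁻¹' {x | s' x ≠ s x ∨ t' x ≠ t x})
  have h1 := real_biUnion_le ms mt hD (N + 1)
  have h2 := real_biUnion_le mt ms hD (N + 1)
  push_cast at h0 h1 h2 ⊢
  linarith

end Pool.Agent.MEP
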