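import Pool.Agent.MEP.Walk

set_option autoImplicit false

/-! MP_fff3e1_lc, project MEP, section F: the cut step. -/

namespace Pool.Agent.MEP

open MeasureTheory Set Filter
open scoped ENNReal
open Pool.Agent.MEC

universe u

namespace CUT_

variable {V : Type u} {G : SimpleGraph V}

lemma ball_succ (c : PC G 4) (n : ℕ) (b : V) : c.Ball n b ⊆ c.Ball (n + 1) b :=
  fun _ hx => Or.inl hx

lemma ball_mono (c : PC G 4) {n m : ℕ} (h : n ≤ m) (b : V) : c.Ball n b ⊆ c.Ball m b := by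
  induction m, h using Nat.le_induction with
  | base => exact subset_rfl
  | succ m _ ih => exact ih.trans (ball_succ c m b)

lemma ball_self (c : PC G 4) (n : ℕ) (b : V) : b ∈ c.Ball n b :=
  ball_mono c (Nat.zero_le n) b rfl

lemma cutImp_mono {c : PC G 4} {Z P Cl : Set V} {R R' N : ℕ} (h : R ≤ R') {b : V} {cb : PC G 4}
    (H : CutImp c Z P Cl R N b cb) : CutImp c Z P Cl R' N b cb where
  ball := fun x k hx => ball_mono c h b (H.ball x k hx)
  card := H.card.trans (by exact_mod_cast h)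
  rng := H.rng
  avoid := H.avoid
  clean := H.clean
  tail := by
    obtain ⟨y, hy, β, β', hb, hB, h1, h2⟩ := H.tail
    exact ⟨y, hy, β, β', hb, ball_mono c h b hB, h1, h2⟩

lemma four_le [MeasurableSpace V] {c : PCol G 4} {x : V} (h : ∀ k, c.S k x ≠ x) :
    4 ≤ (G.neighborSet x).encard := by
  have hinj : Function.Injective (fun k => c.S k x) := fun k k' hk => c.disj k k' x hk (h k)
  have h1 : (range (fun k => c.S k x)).encard = 4 := by
    rw [← image_univ, hinj.encard_image]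
    simp
  rw [← h1]
  apply encard_le_encard
  rintro _ ⟨k, rfl⟩
  exact c.adj k x (h k)

lemma ind_of_gr [MeasurableSpace V] {μ : Measure V} (hG : Gr G μ) (c : PCol G 4) :
    (toPC c).Ind := by
  intro x y hxy hx
  by_contra hcon
  push Not at hcon
  have h1 : 4 ≤ (G.neighborSet x).encard := four_le (c := c) hx
  have h2 : 4 ≤ (G.neighborSet y).encard := four_le (c := c) hcon
  rcases hG.ind x y hxy with h | h
  · exact absurd h1 (not_le.2 h)
  · exact absurd h2 (not_le.2 h)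

lemma pair_le_dst [MeasurableSpace V] (μ : Measure V) [IsProbabilityMeasure μ]
    (c c' : PCol G 4) :
    μ.real {x | ¬ ({c.S 0 x, c.S 1 x} : Set V) = {c'.S 0 x, c'.S 1 x}} ≤ PCol.dst μ c c' := by
  have h1 : {x | ¬ ({c.S 0 x, c.S 1 x} : Set V) = {c'.S 0 x, c'.S 1 x}} ⊆
      {x | c.S 0 x ≠ c'.S 0 x} ∪ {x | c.S 1 x ≠ c'.S 1 x} := by
    intro x hx
    by_contra hcon
    simp only [mem_union, mem_ofPred_eq, not_or, not_not] at hcon
    apply hx
    rw [hcon.1, hcon.2]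
  refine (measureReal_mono h1).trans ((measureReal_union_le _ _).trans ?_)
  have h2 : PCol.dst μ c c' = μ.real {x | c.S 0 x ≠ c'.S 0 x} + μ.real {x | c.S 1 x ≠ c'.S 1 x} +
      μ.real {x | c.S 2 x ≠ c'.S 2 x} + μ.real {x | c.S 3 x ≠ c'.S 3 x} := by
    unfold PCol.dst
    rw [Fin.sum_univ_four]
  have h3 : 0 ≤ μ.real {x | c.S 2 x ≠ c'.S 2 x} := measureReal_nonneg
  have h4 : 0 ≤ μ.real {x | c.S 3 x ≠ c'.S 3 x} := measureReal_nonneg
  linarith

/-- the facts at a colouring without pointwise cuts -/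
lemma facts_of [MeasurableSpace V] {μ : Measure V} {c : PCol G 4} {Z P : Set V} {N r : ℕ}
    (h_Fa : tFa.{u}) (h_Fb : tFb.{u}) (h_F1 : tF1.{u}) (h_E1 : tE1.{u}) (h_E2 : tE2.{u})
    (hctx : Ctx (toPC c) P N)
    (hno : ∀ᵐ b ∂μ, ¬ ∃ cb : PC G 4, CutImp (toPC c) Z P
      (Clean (c.S 0) (c.S 1) (2 * N)) (r + 30) N b cb) :
    Facts c μ Z P {x | GoodV (toPC c) Z P (Clean (c.S 0) (c.S 1) (2 * N)) x} r := by
  refine ⟨?_, ?_, ?_, ?_, ?_⟩
  · filter_upwards [hno] with z hz hQ β β' h h' hpal h1 h2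
    obtain ⟨cb, hcb⟩ := h_Fa V G (toPC c) Z P N hctx β β' h h' z hpal hQ h1 h2
    exact hz ⟨cb, cutImp_mono (by omega) hcb⟩
  · filter_upwards [hno] with z hz hQ hf0 hf1 β β' h h' hpal h1 l hl hst
    by_contra hcon
    push Not at hcon
    obtain ⟨cb, hcb⟩ := h_Fb V G (toPC c) Z P N r l hctx β β' h h' z hpal hQ hf0 hf1 h1 hl hst
      hcon
    exact hz ⟨cb, hcb⟩
  · filter_upwards [hno] with a ha hQ hfull β β' h h' hpal h1
    obtain ⟨cb, hcb⟩ := h_F1 V G (toPC c) Z P N hctx β β' h h' a hpal hQ hfull h1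
    exact ha ⟨cb, cutImp_mono (by omega) hcb⟩
  · filter_upwards [hno] with z hz hQ β β' h h' hpal h1 l y hl hst hZ hy
    by_contra hcon
    obtain ⟨cb, hcb⟩ := h_E1 V G (toPC c) Z P N r l hctx β β' h h' z y hpal hQ h1 hl hst hZ hy
      hcon
    exact hz ⟨cb, hcb⟩
  · filter_upwards [hno] with a ha hQ hfull β β' h h' hpal hP l y hl hst hZ hy
    by_contra hcon
    obtain ⟨cb, hcb⟩ := h_E2 V G (toPC c) Z P N r l hctx β β' h h' a y hpal hQ hfull hP hl hst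
      hZ hy hcon
    exact ha ⟨cb, hcb⟩

end CUT_

open CUT_ in
theorem allCUT (h_LIP : tLIP.{u}) (h_NEAR : tNEAR.{u}) (h_EKC : tEKC.{u}) (h_LIPC : tLIPC.{u})
    (h_Fa : tFa.{u}) (h_Fb : tFb.{u}) (h_F1 : tF1.{u}) (h_E1 : tE1.{u}) (h_E2 : tE2.{u})
    (h_COUNT : tCOUNT.{u}) (h_GOOD : tGOOD.{u}) : tCUT.{u} := by
  obtain ⟨C, hCdef⟩ : ∃ C : ℕ, C = 10 ^ 18 := ⟨_, rfl⟩
  have hC : (C : ℝ) = 10 ^ 18 := by rw [hCdef]; norm_num
  refine ⟨C, 1 / 10 ^ 6, by rw [hCdef]; norm_num, by norm_num, by norm_num, ?_⟩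
  intro V _ _ G μ _ c0 hG Z m L hZm hL hCZ hq
  set q : ℝ := μ.real (Long (c0.S 0) (c0.S 1) L) with hqdef
  -- powers of two
  obtain ⟨A, hAdef⟩ : ∃ A : ℝ, A = (2 : ℝ) ^ m := ⟨_, rfl⟩
  obtain ⟨θ, hθdef⟩ : ∃ θ : ℝ, θ = (1 / 2 : ℝ) ^ m := ⟨_, rfl⟩
  have hA1 : 1 ≤ A := by rw [hAdef]; exact one_le_pow₀ (by norm_num)
  have hθ0 : 0 < θ := by rw [hθdef]; positivity
  have hAθ : A * θ = 1 := by
    rw [hAdef, hθdef, ← mul_pow]; norm_num
  have hθ1 : θ ≤ 1 := by rw [hθdef]; exact pow_le_one₀ (by norm_num) (by norm_num)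
  have hA4 : (4 : ℝ) ^ m = A ^ 2 := by
    rw [hAdef, ← pow_mul, mul_comm m 2, pow_mul]; norm_num
  have hθ4 : (1 / 4 : ℝ) ^ m = θ ^ 2 := by
    rw [hθdef, ← pow_mul, mul_comm m 2, pow_mul]; norm_num
  rw [← hθdef] at hq
  rw [hθ4, hC] at hCZ
  have hLr : (1 : ℝ) ≤ L := by exact_mod_cast hL
  -- the parameters
  obtain ⟨r, hrdef⟩ : ∃ r : ℕ, r = 8000 * 2 ^ m := ⟨_, rfl⟩
  obtain ⟨N, hNdef⟩ : ∃ N : ℕ, N = 10 ^ 11 * L * 4 ^ m := ⟨_, rfl⟩
  obtain ⟨lam, hlamdef⟩ : ∃ lam : ℝ, lam = 3 * 10 ^ 6 * L * A := ⟨_, rfl⟩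
  have hr : (r : ℝ) = 8000 * A := by rw [hrdef, hAdef]; push_cast; ring
  have hN : (N : ℝ) = 10 ^ 11 * L * A ^ 2 := by
    rw [hNdef]; push_cast; rw [hA4]; norm_num
  have hlam0 : 0 < lam := by rw [hlamdef]; positivity
  have hr1 : 1 ≤ r := by
    have : (1 : ℝ) ≤ r := by rw [hr]; linarith
    exact_mod_cast this
  have hAA : (1 : ℝ) ≤ A ^ 2 := one_le_pow₀ hA1
  have hLAA : (L : ℝ) * A ≤ L * A ^ 2 :=
    mul_le_mul_of_nonneg_left (le_self_pow₀ hA1 (by norm_num)) (by linarith)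
  have hLAL : (L : ℝ) ≤ L * A ^ 2 := le_mul_of_one_le_right (by linarith) hAA
  have hNL : (10 : ℝ) ^ 11 * L ≤ N := by rw [hN]; linarith
  have hLN : L ≤ N := by
    have : (L : ℝ) ≤ N := by linarith
    exact_mod_cast this
  -- the optimal colouring
  obtain ⟨c, hcls, hgain, hopt⟩ := h_EKC V G c0 μ hG.inv Z hZm N lam hlam0
  have hd0 : 0 ≤ PCol.dst μ c0 c := PCol.dst_nonneg c0 c
  obtain ⟨d, hddef⟩ : ∃ d : ℝ, d = PCol.dst μ c0 c := ⟨_, rfl⟩
  rw [← hddef] at hgain hd0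
  have hlamd : lam * d ≤ 1 := by
    have h1 : μ.real (Far (c0.S 0) (c0.S 1) N) ≤ 1 := measureReal_le_one
    have h2 : 0 ≤ μ.real (Far (c.S 0) (c.S 1) N) := measureReal_nonneg
    linarith
  have hLd : 3 * L * d ≤ θ / 10 ^ 6 := by
    have h1 : A * (3 * 10 ^ 6 * L * d) ≤ A * θ := by
      rw [hAθ]; rw [hlamdef] at hlamd; linarith
    have h2 := le_of_mul_le_mul_left h1 (by linarith)
    linarith
  have hLd' : (L : ℝ) * d ≤ θ := by
    have : 0 ≤ (L : ℝ) * d := by positivity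
    linarith
  obtain ⟨p, hpdef⟩ : ∃ p : ℝ, p = μ.real (Long (c.S 0) (c.S 1) L) := ⟨_, rfl⟩
  have hp : p ≤ (1 + 1 / 10 ^ 6) * q := by
    have h1 := h_LIP V μ (c0.S 0) (c0.S 1) (c.S 0) (c.S 1) (c0.invol 0) (c0.invol 1)
      (c.invol 0) (c.invol 1)
      (fun x hx => by
        by_contra hne
        exact absurd (c0.disj 0 1 x hx hne) (by decide))
      (fun x hx => by
        by_contra hne
        exact absurd (c.disj 0 1 x hx hne) (by decide))
      (mp_S hG.inv c0 0) (mp_S hG.inv c0 1) (c.meas 0) (c.meas 1) L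
    have h2 := pair_le_dst μ c0 c
    rw [← hddef] at h2
    rw [← hpdef, ← hqdef] at h1
    have h3 : (2 * (L : ℝ) + 1) * μ.real {x | ¬ ({c0.S 0 x, c0.S 1 x} : Set V) =
        {c.S 0 x, c.S 1 x}} ≤ 3 * L * d := by
      calc (2 * (L : ℝ) + 1) * μ.real {x | ¬ ({c0.S 0 x, c0.S 1 x} : Set V) =
          {c.S 0 x, c.S 1 x}} ≤ (2 * (L : ℝ) + 1) * d :=
            mul_le_mul_of_nonneg_left h2 (by positivity)
        _ ≤ 3 * L * d := by
          have h5 : 0 ≤ ((L : ℝ) - 1) * d := mul_nonneg (by linarith) hd0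
          linarith
    have h4 : θ / 10 ^ 6 ≤ q / 10 ^ 6 := by
      apply div_le_div_of_nonneg_right hq (by norm_num)
    linarith
  have hq0 : 0 < q := lt_of_lt_of_le hθ0 hq
  have hsub : Long (c.S 0) (c.S 1) (C * 4 ^ m * L) ⊆ Long (c.S 0) (c.S 1) L := by
    apply Long_anti
    exact Nat.le_mul_of_pos_left L (by rw [hCdef]; positivity)
  refine ⟨c, hcls, by rw [← hddef, ← hθdef]; exact hLd', ?_⟩
  rcases le_or_gt p (q / 2) with hpq | hpq
  · have h1 : μ.real (Long (c.S 0) (c.S 1) (C * 4 ^ m * L)) ≤ p := by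
      rw [hpdef]; exact measureReal_mono hsub
    linarith
  -- the main case
  set P : Set V := Long (c.S 0) (c.S 1) L with hPdef
  set Cl : Set V := Clean (c.S 0) (c.S 1) (2 * N) with hCldef
  have hPm : MeasurableSet P := measurableSet_Long (c.meas 0) (c.meas 1) L
  have hClm : MeasurableSet Cl := measurableSet_Clean (c.meas 0) (c.meas 1) (2 * N)
  have hClP : Cl ⊆ P := fun x hx => Long_anti (by omega) hx.2
  have hctx : Ctx (toPC c) P N := by
    refine ⟨ind_of_gr hG c, ?_, ?_, hClP, ?_⟩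
    · intro x hx
      exact Long_s (c.invol 0) (c.invol 1) hx
    · intro x hx
      exact Long_t (c.invol 0) (c.invol 1) hx
    · have : (4 : ℝ) ≤ N := by linarith
      exact_mod_cast this
  have hno := h_LIPC V G c0 c μ hG.borel hG.inv Z hZm L N (r + 30) lam hlam0.le (by omega)
    (by
      rw [hN, hlamdef]
      push_cast
      rw [hr]
      have h1 : (4 * (L : ℝ) + 2) * (8000 * A + 30) ≤ 6 * L * (8030 * A) := by
        apply mul_le_mul (by linarith) (by linarith) (by positivity) (by positivity)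
      have h2 : 4 * (8000 * A + 30) * (3 * 10 ^ 6 * L * A) ≤
          4 * (8030 * A) * (3 * 10 ^ 6 * L * A) := by
        apply mul_le_mul_of_nonneg_right (by linarith) (by positivity)
      have h3 : 0 < (L : ℝ) * A ^ 2 := by positivity
      linarith) hcls hopt
  have hfacts := facts_of (r := r) h_Fa h_Fb h_F1 h_E1 h_E2 hctx hno
  obtain ⟨hQm, hQb⟩ := h_GOOD V G c μ hG.inv Z P Cl hZm hPm hClm
  have hcount := h_COUNT V G c μ hG.inv Z P {x | GoodV (toPC c) Z P Cl x} r hZm hPm hQm hr1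
    (ind_of_gr hG c) (fun x hx => ⟨hctx.P0 x hx, hctx.P1 x hx⟩) (fun x hx => hx.1)
    (fun x hx => by
      have h1 : x ∈ Cl := (hx.2 x (ball_self _ 3 x)).2 hx.1
      have h2 : (0 : ℕ) < 2 * N := by omega
      exact ⟨h1.1.1 0 h2, h1.1.2 0 h2⟩) hfacts
  obtain ⟨z, hzdef⟩ : ∃ z : ℝ, z = μ.real Z := ⟨_, rfl⟩
  obtain ⟨e, hedef⟩ : ∃ e : ℝ, e = μ.real (P \ Cl) := ⟨_, rfl⟩
  rw [← hpdef, ← hzdef, hr] at hcount
  rw [← hzdef, ← hedef] at hQb
  rw [← hzdef] at hCZ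
  have hz0 : 0 ≤ z := by rw [hzdef]; exact measureReal_nonneg
  have hθp : θ ≤ 2 * p := by linarith
  have h1r : 1 / (8000 * A) = θ / 8000 := by
    have hA0 : A ≠ 0 := by linarith
    rw [div_eq_div_iff (by positivity) (by norm_num)]
    linarith
  have hAz : 10 ^ 18 * (A * z) ≤ θ := by
    have h1 : A * (10 ^ 18 * z) ≤ A * θ ^ 2 := mul_le_mul_of_nonneg_left hCZ (by linarith)
    have h2 : A * θ ^ 2 = θ := by rw [pow_two, ← mul_assoc, hAθ, one_mul]
    linarith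
  have hzAz : z ≤ A * z := le_mul_of_one_le_left hz0 hA1
  have hbig : p ≤ 170000 * e := by
    rw [h1r] at hcount
    linarith
  -- the long components
  have hnear := (h_NEAR V μ (c.S 0) (c.S 1) (c.invol 0) (c.invol 1) (mp_S hG.inv c 0)
    (mp_S hG.inv c 1) (C * 4 ^ m * L) (2 * N)
    (by
      have : 0 < C * 4 ^ m * L := by rw [hCdef]; positivity
      omega)).2.2
  obtain ⟨w, hwdef⟩ : ∃ w : ℝ, w = μ.real (Long (c.S 0) (c.S 1) (C * 4 ^ m * L)) := ⟨_, rfl⟩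
  obtain ⟨f, hfdef⟩ : ∃ f : ℝ, f = μ.real (Long (c.S 0) (c.S 1) (C * 4 ^ m * L) \
    Far (c.S 0) (c.S 1) (2 * N)) := ⟨_, rfl⟩
  rw [← hwdef, ← hfdef] at hnear
  have hwp : w ≤ p := by
    rw [hwdef, hpdef]; exact measureReal_mono hsub
  have hw0 : 0 ≤ w := by rw [hwdef]; exact measureReal_nonneg
  have hf0 : 0 ≤ f := by rw [hfdef]; exact measureReal_nonneg
  have hfw : 10 ^ 18 * f ≤ 24 * 10 ^ 11 * w := by
    have hpos : 0 < (L : ℝ) * A ^ 2 := by positivity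
    have h1 : (L * A ^ 2) * (10 ^ 18 * f) ≤ (L * A ^ 2) * (24 * 10 ^ 11 * w) := by
      have h2 : ((C * 4 ^ m * L : ℕ) : ℝ) * f = (L * A ^ 2) * (10 ^ 18 * f) := by
        push_cast
        rw [hC, hA4]; ring
      have h3 : 8 * (((2 * N : ℕ) : ℝ) + 1) * w ≤ (L * A ^ 2) * (24 * 10 ^ 11 * w) := by
        have h4 : 8 * (((2 * N : ℕ) : ℝ) + 1) ≤ 24 * (10 ^ 11 * L * A ^ 2) := by
          rw [← hN]; push_cast; linarith
        calc 8 * (((2 * N : ℕ) : ℝ) + 1) * w ≤ 24 * (10 ^ 11 * L * A ^ 2) * w :=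
              mul_le_mul_of_nonneg_right h4 hw0
          _ = (L * A ^ 2) * (24 * 10 ^ 11 * w) := by ring
      linarith
    exact le_of_mul_le_mul_left h1 hpos
  have hN2 : 2 * N ≤ C * 4 ^ m * L := by
    have h1 : (2 * N : ℝ) ≤ ((C * 4 ^ m * L : ℕ) : ℝ) := by
      push_cast
      rw [hN, hC, hA4]
      have : 0 < (L : ℝ) * A ^ 2 := by positivity
      linarith
    exact_mod_cast h1
  have hcov : Long (c.S 0) (c.S 1) (C * 4 ^ m * L) ⊆ (P ∩ Cl) ∪
      (Long (c.S 0) (c.S 1) (C * 4 ^ m * L) \ Far (c.S 0) (c.S 1) (2 * N)) := by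
    intro x hx
    by_cases hxF : x ∈ Far (c.S 0) (c.S 1) (2 * N)
    · left
      exact ⟨hsub hx, hxF, Long_anti hN2 hx⟩
    · right
      exact ⟨hx, hxF⟩
  have hsum : μ.real (P ∩ Cl) + e = p := by
    rw [hedef, hpdef]
    exact measureReal_inter_add_sdiff hClm
  have hwle : w ≤ μ.real (P ∩ Cl) + f := by
    rw [hwdef, hfdef]
    exact (measureReal_mono hcov).trans (measureReal_union_le _ _)
  have hp0 : 0 < p := by linarith
  have hfin : w ≤ (1 - 1 / 10 ^ 6) * q := by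
    linarith
  rw [hwdef] at hfin
  exact hfin

end Pool.Agent.MEP
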