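import Pool.Agent.MEP.FAB

set_option autoImplicit false

/-! Cuts along the path which starts at the neighbour of a vertex missing a colour. -/

namespace Pool.Agent.MEP

open Set

universe u

namespace E1_

variable {V : Type u} {G : SimpleGraph V}

/-- assembling a cut -/
lemma mkCut {c cb : PC G 4} {Z P : Set V} {N R : ℕ} {β β' h h' : Fin 4} {b e : V}
    (p : Pal β β' h h') (X U : Set V)
    (hX : ∀ x k, cb.S k x ≠ c.S k x → x ∈ X)
    (hU : ∀ x k, (k = β ∨ k = β') → cb.S k x ≠ c.S k x → x ∈ U)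
    (hball : X ⊆ c.Ball R b) (hcard : X.encard ≤ R)
    (hrng : ∀ x, range (fun k => cb.S k x) = range (fun k => c.S k x))
    (hZ : ∀ x ∈ X, x ∉ Z)
    (hcl : ∀ x ∈ U, x ∈ P → x ∈ Clean (c.S 0) (c.S 1) (2 * N))
    (he : e ∈ Clean (c.S 0) (c.S 1) (2 * N)) (heb : e ∈ c.Ball R b) (hend : cb.S β e = e)
    (htail : ∀ n, 1 ≤ n → n ≤ N → al (c.S β') (c.S β) n e ∉ U) :
    CutImp c Z P (Clean (c.S 0) (c.S 1) (2 * N)) R N b cb where
  ball := fun x k hx => hball (hX x k hx)
  card := by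
    refine (encard_le_encard ?_).trans hcard
    rintro x ⟨k, hk⟩
    exact hX x k hk
  rng := hrng
  avoid := fun x k hx => hZ x (hX x k hx)
  clean := by
    intro x hx
    have hx' : x ∈ U := by
      rcases hx with hx | hx
      · exact hU x 0 ((p.U 0).2 (Or.inl rfl)) hx
      · exact hU x 1 ((p.U 1).2 (Or.inr rfl)) hx
    by_cases hP : x ∈ P
    · exact Or.inr (hcl x hx' hP)
    · exact Or.inl hP
  tail := by
    refine ⟨e, he, β, β', p.1, heb, hend, ?_⟩
    intro n h1 h2 k hk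
    by_contra hcon
    exact htail n h1 h2 (hU _ k hk hcon)

/-- the walk -/
noncomputable def W (c : PC G 4) (P : Set V) (β h : Fin 4) (z : V) (j : ℕ) : V :=
  al (c.S h) (cutS P (c.S β)) j (c.S β z)

/-- the points of the walk together with its origin -/
def K (c : PC G 4) (P : Set V) (β h : Fin 4) (z : V) (m : ℕ) : Set V :=
  insert z {x | ∃ j, j ≤ m ∧ x = W c P β h z j}

section walk

variable {c : PC G 4} {P : Set V} {β h : Fin 4} {z : V} {l : ℕ}

lemma W_even {j : ℕ} (hj : Even j) : W c P β h z (j + 1) = c.S h (W c P β h z j) :=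
  al_last_even _ _ hj _

lemma W_odd' {j : ℕ} (hj : ¬ Even j) :
    W c P β h z (j + 1) = cutS P (c.S β) (W c P β h z j) := al_last_odd _ _ hj _

lemma W_odd (hs : StallAt (c.S h) (cutS P (c.S β)) l (c.S β z)) {j : ℕ} (hj : ¬ Even j)
    (hl : j < l) : W c P β h z j ∉ P ∧ W c P β h z (j + 1) = c.S β (W c P β h z j) := by
  have h1 : W c P β h z (j + 1) ≠ W c P β h z j := hs.1 j hl
  rw [W_odd' hj] at h1 ⊢
  have h2 : W c P β h z j ∉ P := fun hP => h1 (cutS_of_mem hP)
  exact ⟨h2, cutS_of_notMem h2⟩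

lemma W_off (hs : StallAt (c.S h) (cutS P (c.S β)) l (c.S β z))
    (hP : ∀ x, c.S β x ∈ P → x ∈ P) {j : ℕ} (h1 : 1 ≤ j) (h2 : j ≤ l)
    (h3 : j < l ∨ Even j) : W c P β h z j ∉ P := by
  by_cases hj : Even j
  · obtain ⟨i, rfl⟩ : ∃ i, j = i + 1 := ⟨j - 1, by omega⟩
    have hi : ¬ Even i := by rw [Nat.even_add_one] at hj; exact hj
    have := W_odd hs hi (by omega)
    rw [this.2]
    exact fun hh => this.1 (hP _ hh)
  · rcases h3 with h3 | h3
    · exact (W_odd hs hj h3).1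
    · exact absurd h3 hj

lemma W_inj (hs : StallAt (c.S h) (cutS P (c.S β)) l (c.S β z)) (hp : c.S β z ∈ P)
    (hPc : ∀ x ∈ P, c.S β x ∈ P) {i j : ℕ} (hi : i ≤ l) (hj : j ≤ l)
    (he : W c P β h z i = W c P β h z j) : i = j :=
  al_inj_of_fixed (cutS_invol (c.invol β) hPc) (c.invol h) (cutS_of_mem hp) hs.1 i j hi hj he

lemma W_h_ne (hs : StallAt (c.S h) (cutS P (c.S β)) l (c.S β z)) {j : ℕ} (hj : j < l) :
    c.S h (W c P β h z j) ≠ W c P β h z j := by
  by_cases hev : Even j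
  · rw [← W_even hev]
    exact hs.1 j hj
  · obtain ⟨i, rfl⟩ : ∃ i, j = i + 1 := by
      refine ⟨j - 1, ?_⟩
      have : j ≠ 0 := by rintro rfl; exact hev (by norm_num)
      omega
    have hi : Even i := by
      rw [Nat.even_add_one] at hev; exact not_not.1 hev
    rw [W_even hi, c.invol, ← W_even hi]
    exact (hs.1 i (by omega)).symm

lemma K_closed {c1 : PC G 4} {m : ℕ} (hm : m ≤ l)
    (hs : StallAt (c.S h) (cutS P (c.S β)) l (c.S β z)) (hz : c1.S h z = z)
    (hβ : ∀ x, c1.S β x = c.S β x)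
    (hh : ∀ j, j < m → c1.S h (W c P β h z j) = c.S h (W c P β h z j))
    (he1 : Even m → c1.S h (W c P β h z m) = W c P β h z m)
    (he2 : ¬ Even m → c.S β (W c P β h z m) = W c P β h z m ∧
      c1.S h (W c P β h z m) = c.S h (W c P β h z m)) :
    ∀ x ∈ K c P β h z m, c1.S β x ∈ K c P β h z m ∧ c1.S h x ∈ K c P β h z m := by
  have hmem : ∀ j, j ≤ m → W c P β h z j ∈ K c P β h z m := fun j hj => Or.inr ⟨j, hj, rfl⟩
  intro x hx
  rcases hx with rfl | ⟨j, hj, rfl⟩
  · constructor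
    · rw [hβ]; exact hmem 0 (by omega)
    · rw [hz]; exact Or.inl rfl
  · rw [hβ]
    by_cases hev : Even j
    · constructor
      · rcases Nat.eq_zero_or_pos j with h0 | h0
        · subst h0
          have : c.S β (W c P β h z 0) = z := c.invol β z
          rw [this]; exact Or.inl rfl
        · obtain ⟨i, rfl⟩ : ∃ i, j = i + 1 := ⟨j - 1, by omega⟩
          have hi : ¬ Even i := by rw [Nat.even_add_one] at hev; exact hev
          rw [(W_odd hs hi (by omega)).2, c.invol]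
          exact hmem i (by omega)
      · rcases Nat.eq_or_lt_of_le hj with hjm | hjm
        · subst hjm
          rw [he1 hev]; exact hmem _ le_rfl
        · rw [hh j hjm, ← W_even hev]
          exact hmem _ hjm
    · have hback : c.S h (W c P β h z j) ∈ K c P β h z m := by
        obtain ⟨i, rfl⟩ : ∃ i, j = i + 1 := by
          refine ⟨j - 1, ?_⟩
          have : j ≠ 0 := by rintro rfl; exact hev (by norm_num)
          omega
        have hi : Even i := by
          rw [Nat.even_add_one] at hev; exact not_not.1 hev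
        rw [W_even hi, c.invol]
        exact hmem i (by omega)
      rcases Nat.eq_or_lt_of_le hj with hjm | hjm
      · subst hjm
        obtain ⟨h1, h2⟩ := he2 hev
        rw [h1, h2]
        exact ⟨hmem _ le_rfl, hback⟩
      · rw [hh j hjm]
        refine ⟨?_, hback⟩
        rw [← (W_odd hs hev (by omega)).2]
        exact hmem _ hjm

lemma K_ball {m : ℕ} : K c P β h z m ⊆ c.Ball (m + 1) z := by
  rintro x (rfl | ⟨j, hj, rfl⟩)
  · exact c.Ball_self _ x
  · have h1 := (c.Ball_al_cut P h β j (c.S β z)).1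
    have h2 := c.Ball_add (c.Ball_one β z) h1
    exact c.Ball_mono (by omega) h2

lemma K_encard (m : ℕ) : (K c P β h z m).encard ≤ ((m + 2 : ℕ) : ℕ∞) := by
  classical
  have hsub : K c P β h z m ⊆
      (insert z ((Finset.range (m + 1)).image fun j => W c P β h z j) : Finset V) := by
    rintro x (rfl | ⟨j, hj, rfl⟩)
    · simp
    · simp only [Finset.coe_insert, Finset.coe_image, Finset.coe_range]
      exact Or.inr ⟨j, by simp only [mem_Iio]; omega, rfl⟩
  refine (encard_le_encard hsub).trans ?_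
  rw [encard_coe_eq_coe_finsetCard]
  have h1 := Finset.card_insert_le z ((Finset.range (m + 1)).image fun j => W c P β h z j)
  have h2 := Finset.card_image_le (s := Finset.range (m + 1)) (f := fun j => W c P β h z j)
  rw [Finset.card_range] at h2
  exact_mod_cast (show _ ≤ m + 2 by omega)

end walk

/-- the closed set used for the exchange of the colours `2, 3` at a full vertex -/
lemma closed3 {c : PC G 4} {h h' : Fin 4} {y : V} (h1 : c.S h' (c.S h y) = c.S h y)
    (h2 : c.S h (c.S h' y) = c.S h' y) :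
    ∀ x ∈ ({c.S h y, y, c.S h' y} : Set V), c.S h x ∈ ({c.S h y, y, c.S h' y} : Set V) ∧
      c.S h' x ∈ ({c.S h y, y, c.S h' y} : Set V) := by
  intro x hx
  rcases hx with rfl | rfl | hx
  · rw [c.invol, h1]; exact ⟨Or.inr (Or.inl rfl), Or.inl rfl⟩
  · exact ⟨Or.inl rfl, Or.inr (Or.inr rfl)⟩
  · have hx' : x = c.S h' y := hx
    subst hx'
    rw [c.invol, h2]; exact ⟨Or.inr (Or.inr rfl), Or.inr (Or.inl rfl)⟩

/-- the walk in the colours `0, 1` stays in `P` -/
lemma walk_mem {c : PC G 4} {P : Set V} {N : ℕ} (hc : Ctx c P N) {β β' h h' : Fin 4}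
    (p : Pal β β' h h') {x : V} (hx : x ∈ P) (n : ℕ) : al (c.S β') (c.S β) n x ∈ P :=
  al_mem (fun _ hy => (hc.closed p hy).2) (fun _ hy => (hc.closed p hy).1) n hx

/-- the flip of the colours `β, h` on the path -/
lemma flipK (h_WIN : tWIN.{u}) {c c1 : PC G 4} {Z P : Set V} {N r l m : ℕ} (hc : Ctx c P N)
    {β β' h h' : Fin 4} {z : V} (p : Pal β β' h h')
    (hg : GoodV c Z P (Clean (c.S 0) (c.S 1) (2 * N)) z) (hlr : l ≤ r) (hm : m ≤ l)
    (hZ : ∀ j, j ≤ l → W c P β h z j ∉ Z) (X1 : Set V)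
    (hX1 : ∀ x k, c1.S k x ≠ c.S k x → x ∈ X1) (hX1b : X1 ⊆ c.Ball (r + 30) z)
    (hX1c : X1.encard ≤ 3) (hX1Z : ∀ x ∈ X1, x ∉ Z)
    (hβ : ∀ x, c1.S β x = c.S β x) (hβ' : ∀ x, c1.S β' x = c.S β' x)
    (hrng : ∀ x, range (fun k => c1.S k x) = range (fun k => c.S k x))
    (hz : c1.S h z = z)
    (hcl : ∀ x ∈ K c P β h z m, c1.S β x ∈ K c P β h z m ∧ c1.S h x ∈ K c P β h z m)
    (hoff : ∀ j, 1 ≤ j → j ≤ m → W c P β h z j ∉ P) :
    ∃ cb, CutImp c Z P (Clean (c.S 0) (c.S 1) (2 * N)) (r + 30) N z cb := by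
  have hN := hc.N2
  have hzcl : z ∈ Clean (c.S 0) (c.S 1) (2 * N) :=
    (hg.2 z (c.Ball_self 3 z)).2 hg.1
  have hzK : z ∈ K c P β h z m := Or.inl rfl
  refine ⟨c1.flip β h (K c P β h z m) hcl, mkCut (e := z) p (X1 ∪ K c P β h z m)
    (K c P β h z m) ?_ ?_ ?_ ?_ ?_ ?_ ?_ hzcl (c.Ball_self _ z) ?_ ?_⟩
  · intro x k hx
    by_contra hcon
    rw [mem_union] at hcon
    push Not at hcon
    apply hx
    rw [PC.flip_notMem c1 _ _ _ _ hcon.2]
    by_contra h2
    exact hcon.1 (hX1 x k h2)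
  · intro x k hk hx
    by_contra hcon
    apply hx
    rw [PC.flip_notMem c1 _ _ _ _ hcon]
    rcases hk with rfl | rfl
    · exact hβ x
    · exact hβ' x
  · exact union_subset hX1b (K_ball.trans (c.Ball_mono (by omega)))
  · refine (encard_union_le _ _).trans ?_
    refine (add_le_add hX1c (K_encard m)).trans ?_
    exact_mod_cast (show 3 + (m + 2) ≤ r + 30 by omega)
  · intro x
    rw [PC.flip_range c1 _ _ _ _ x, hrng]
  · rintro x (hx | rfl | ⟨j, hj, rfl⟩)
    · exact hX1Z x hx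
    · exact (hg.2 x (c.Ball_self 3 x)).1
    · exact hZ j (by omega)
  · rintro x (rfl | ⟨j, hj, rfl⟩) hxP
    · exact hzcl
    · rcases Nat.eq_zero_or_pos j with h0 | h0
      · subst h0
        exact (hg.2 _ (c.Ball_mono (by norm_num) (c.Ball_one β z))).2 hxP
      · exact absurd hxP (hoff j h0 hj)
  · rw [PC.flip_left c1 _ _ _ _ hzK]
    exact hz
  · intro n hn1 hn2 hmem
    have hw := FAB_.win_ne h_WIN p hzcl hn1 (by omega) (by omega)
    rcases hmem with he | ⟨j, hj, he⟩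
    · exact hw.1 he
    · rcases Nat.eq_zero_or_pos j with h0 | h0
      · subst h0
        exact hw.2 he
      · apply hoff j h0 hj
        rw [← he]
        exact walk_mem hc p hg.1 n

/-- case (a): the path ends off `P` -/
lemma caseA (h_WIN : tWIN.{u}) {c : PC G 4} {Z P : Set V} {N r l : ℕ} (hc : Ctx c P N)
    {β β' h h' : Fin 4} {z : V} (p : Pal β β' h h')
    (hg : GoodV c Z P (Clean (c.S 0) (c.S 1) (2 * N)) z) (hz : c.S h z = z) (hlr : l ≤ r)
    (hs : StallAt (c.S h) (cutS P (c.S β)) l (c.S β z))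
    (hZ : ∀ j, j ≤ l → W c P β h z j ∉ Z) (hy : W c P β h z l ∉ P) :
    ∃ cb, CutImp c Z P (Clean (c.S 0) (c.S 1) (2 * N)) (r + 30) N z cb := by
  have hPi : ∀ x, c.S β x ∈ P → x ∈ P := fun x hx => (hc.closed_iff p x).1.1 hx
  refine flipK h_WIN hc p hg hlr le_rfl hZ ∅ ?_ (empty_subset _) ?_ ?_ (fun _ => rfl)
    (fun _ => rfl) (fun _ => rfl) hz ?_ ?_
  · intro x k hx
    exact absurd rfl hx
  · simp
  · intro x hx
    exact absurd hx (notMem_empty x)
  · refine K_closed le_rfl hs hz (fun _ => rfl) (fun _ _ => rfl) ?_ ?_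
    · intro hev
      have := hs.2
      rw [al_last_even _ _ hev] at this
      exact this
    · intro hev
      refine ⟨?_, rfl⟩
      have := hs.2
      rw [al_last_odd _ _ hev] at this
      have h2 := cutS_of_notMem (f := c.S β) hy
      rw [← h2]
      exact this
  · intro j h1 h2
    rcases Nat.eq_or_lt_of_le h2 with h3 | h3
    · subst h3; exact hy
    · exact W_off hs hPi h1 h2 (Or.inl h3)

/-- case (b): the last point is full and its neighbour along `h'` is not `z` -/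
lemma caseB (h_WIN : tWIN.{u}) {c : PC G 4} {Z P : Set V} {N r m : ℕ} (hc : Ctx c P N)
    {β β' h h' : Fin 4} {z : V} (p : Pal β β' h h')
    (hg : GoodV c Z P (Clean (c.S 0) (c.S 1) (2 * N)) z) (hz : c.S h z = z) (hlr : m + 1 ≤ r)
    (hm : Even m) (hs : StallAt (c.S h) (cutS P (c.S β)) (m + 1) (c.S β z))
    (hZ : ∀ j, j ≤ m + 1 → W c P β h z j ∉ Z)
    (hgy : GoodV c Z P (Clean (c.S 0) (c.S 1) (2 * N)) (W c P β h z (m + 1)))
    (hx : c.S h' (W c P β h z m) = W c P β h z m)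
    (hx' : c.S h (c.S h' (W c P β h z (m + 1))) = c.S h' (W c P β h z (m + 1)))
    (hne : c.S h' (W c P β h z (m + 1)) ≠ z) :
    ∃ cb, CutImp c Z P (Clean (c.S 0) (c.S 1) (2 * N)) (r + 30) N z cb := by
  have hPi : ∀ x, c.S β x ∈ P → x ∈ P := fun x hx => (hc.closed_iff p x).1.1 hx
  have hPc : ∀ x ∈ P, c.S β x ∈ P := fun x hx => (hc.closed_iff p x).1.2 hx
  have hzP : c.S β z ∈ P := hPc z hg.1
  have pne := p.ne
  set y : V := W c P β h z (m + 1) with hy
  have hxy : y = c.S h (W c P β h z m) := W_even hm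
  have hyx : c.S h y = W c P β h z m := by rw [hxy, c.invol]
  have hx1 : c.S h' (c.S h y) = c.S h y := by rw [hyx]; exact hx
  have hxh : c.S h (W c P β h z m) ≠ W c P β h z m := W_h_ne hs (by omega)
  have hyball : y ∈ c.Ball (m + 2) z := K_ball (Or.inr ⟨m + 1, le_rfl, rfl⟩)
  have hYball : ∀ x ∈ ({c.S h y, y, c.S h' y} : Set V), x ∈ c.Ball 1 y := by
    intro x hx
    rcases hx with rfl | rfl | hx
    · exact c.Ball_one h y
    · exact c.Ball_self 1 _
    · have hx' : x = c.S h' y := hx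
      subst hx'
      exact c.Ball_one h' y
  set c1 : PC G 4 := c.flip h h' {c.S h y, y, c.S h' y} (closed3 hx1 hx') with hc1
  have hzY : z ∉ ({c.S h y, y, c.S h' y} : Set V) := by
    rintro (he | he | he)
    · rw [hyx] at he
      rw [← he] at hxh
      exact hxh hz
    · apply W_h_ne hs (j := m) (by omega)
      rw [← hxy, ← he]
      rw [← he] at hyx
      rw [← hyx, hz]
    · exact hne he.symm
  have hWY : ∀ j, j < m → W c P β h z j ∉ ({c.S h y, y, c.S h' y} : Set V) := by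
    rintro j hj (he | he | he)
    · rw [hyx] at he
      have := W_inj hs hzP hPc (by omega) (by omega) he
      omega
    · have := W_inj hs hzP hPc (by omega) (by omega) he
      omega
    · have he' : W c P β h z j = c.S h' y := he
      apply W_h_ne hs (j := j) (by omega)
      rw [he', hx']
  have hz1 : c1.S h z = z := by
    rw [hc1, PC.flip_notMem c _ _ _ _ hzY]; exact hz
  refine flipK (c1 := c1) h_WIN hc p hg hlr (m := m) (by omega) hZ {c.S h y, y, c.S h' y} ?_ ?_
    ?_ ?_ ?_ ?_ ?_ hz1 ?_ ?_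
  · intro x k hx
    exact PC.flip_changed c _ _ _ _ hx
  · intro x hx
    exact c.Ball_mono (by omega) (c.Ball_add hyball (hYball x hx))
  · refine (encard_insert_le _ _).trans ?_
    refine (add_le_add (FAB_.pair_le _ _) le_rfl).trans ?_
    norm_num
  · intro x hx
    exact (hgy.2 x (c.Ball_mono (by norm_num) (hYball x hx))).1
  · intro x
    exact PC.flip_other c _ _ _ _ pne.2.1 pne.2.2.1 x
  · intro x
    exact PC.flip_other c _ _ _ _ pne.2.2.2.1 pne.2.2.2.2.1 x
  · intro x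
    exact PC.flip_range c _ _ _ _ x
  · refine K_closed (l := m + 1) (by omega) hs hz1 ?_ ?_ ?_ ?_
    · intro x
      exact PC.flip_other c _ _ _ _ pne.2.1 pne.2.2.1 x
    · intro j hj
      exact PC.flip_notMem c _ _ _ _ (hWY j hj) h
    · intro _
      rw [← hyx, hc1, PC.flip_left c _ _ _ _ (Or.inl rfl)]
      exact hx1
    · intro hev
      exact absurd hm hev
  · intro j h1 h2
    exact W_off hs hPi h1 (by omega) (Or.inl (by omega))

/-- case (c), first part: exchange `2, 3` at the full vertex, then flip one edge -/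
lemma caseC (h_WIN : tWIN.{u}) {c : PC G 4} {Z P : Set V} {N r : ℕ} (hc : Ctx c P N)
    {β β' h h' : Fin 4} {z y : V} (p : Pal β β' h h')
    (hg : GoodV c Z P (Clean (c.S 0) (c.S 1) (2 * N)) z) (hz : c.S h z = z)
    (hgy : GoodV c Z P (Clean (c.S 0) (c.S 1) (2 * N)) y) (hyb : y ∈ c.Ball (r + 1) z)
    (hx : c.S h' (c.S h y) = c.S h y) (hyz : c.S h' y = z) (hp : c.S h' (c.S β z) = c.S β z)
    (hne1 : c.S β z ≠ c.S h y) (hne2 : c.S β z ≠ y) :
    ∃ cb, CutImp c Z P (Clean (c.S 0) (c.S 1) (2 * N)) (r + 30) N z cb := by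
  have hN := hc.N2
  have hzcl : z ∈ Clean (c.S 0) (c.S 1) (2 * N) :=
    (hg.2 z (c.Ball_self 3 z)).2 hg.1
  have hzne := clean_ne p (by omega) hzcl
  have pne := p.ne
  have hx' : c.S h (c.S h' y) = c.S h' y := by rw [hyz]; exact hz
  have hYball : ∀ x ∈ ({c.S h y, y, c.S h' y} : Set V), x ∈ c.Ball 1 y := by
    intro x hx
    rcases hx with rfl | rfl | hx
    · exact c.Ball_one h y
    · exact c.Ball_self 1 x
    · have hx' : x = c.S h' y := hx
      subst hx'
      exact c.Ball_one h' y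
  set c1 : PC G 4 := c.flip h h' {c.S h y, y, c.S h' y} (closed3 hx hx') with hc1
  have hzY : z ∈ ({c.S h y, y, c.S h' y} : Set V) := Or.inr (Or.inr hyz.symm)
  have hpY : c.S β z ∉ ({c.S h y, y, c.S h' y} : Set V) := by
    rintro (he | he | he)
    · exact hne1 he
    · exact hne2 he
    · have he' : c.S β z = c.S h' y := he
      rw [hyz] at he'
      exact hzne.1 he'
  have e1 : ∀ x, c1.S β x = c.S β x := fun x =>
    PC.flip_other c _ _ _ _ pne.2.1 pne.2.2.1 x
  have e1' : ∀ x, c1.S β' x = c.S β' x := fun x =>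
    PC.flip_other c _ _ _ _ pne.2.2.2.1 pne.2.2.2.2.1 x
  have e2 : c1.S h' z = z := by
    rw [hc1, PC.flip_right c _ _ _ _ hzY]; exact hz
  have e3 : c1.S h' (c1.S β z) = c1.S β z := by
    rw [e1, hc1, PC.flip_notMem c _ _ _ _ hpY]; exact hp
  have hset : ({z, c1.S β z} : Set V) = {z, c.S β z} := by rw [e1]
  refine ⟨c1.flip β h' {z, c1.S β z} (FAB_.pair_closed c1 e2 e3), mkCut (e := z) p
    ({c.S h y, y, c.S h' y} ∪ {z, c.S β z}) {z, c.S β z} ?_ ?_ ?_ ?_ ?_ ?_ ?_ hzcl
    (c.Ball_self _ z) ?_ ?_⟩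
  · intro x k hx
    by_contra hcon
    rw [mem_union] at hcon
    push Not at hcon
    apply hx
    rw [PC.flip_notMem c1 _ _ _ _ (by rw [hset]; exact hcon.2), hc1,
      PC.flip_notMem c _ _ _ _ hcon.1]
  · intro x k hk hx
    by_contra hcon
    apply hx
    rw [PC.flip_notMem c1 _ _ _ _ (by rw [hset]; exact hcon)]
    rcases hk with rfl | rfl
    · exact e1 x
    · exact e1' x
  · rintro x (hx | hx)
    · exact c.Ball_mono (by omega) (c.Ball_add hyb (hYball x hx))
    · exact FAB_.mem_pair_ball c (by omega) hx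
  · refine (encard_union_le _ _).trans ?_
    refine (add_le_add (encard_insert_le _ _) (FAB_.pair_le _ _)).trans ?_
    refine (add_le_add (add_le_add (FAB_.pair_le _ _) le_rfl) le_rfl).trans ?_
    exact_mod_cast (show 2 + 1 + 2 ≤ r + 30 by omega)
  · intro x
    rw [PC.flip_range c1 _ _ _ _ x, hc1, PC.flip_range c _ _ _ _ x]
  · rintro x (hx | hx)
    · exact (hgy.2 x (c.Ball_mono (by norm_num) (hYball x hx))).1
    · exact (hg.2 x (FAB_.mem_pair_ball c (by norm_num) hx)).1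
  · intro x hx hxP
    exact (hg.2 x (FAB_.mem_pair_ball c (by norm_num) hx)).2 hxP
  · rw [PC.flip_left c1 _ _ _ _ (Or.inl rfl)]
    exact e2
  · intro n hn1 hn2 hmem
    have hw := FAB_.win_ne h_WIN p hzcl hn1 (by omega) (by omega)
    rcases hmem with he | he
    · exact hw.1 he
    · exact hw.2 he

/-- a triangle: the last flip -/
lemma triCut {c c1 : PC G 4} {Z P : Set V} {N R : ℕ} {β β' h h' g : Fin 4} {b e o y q : V}
    (p : Pal β β' h h') (hβ : ∀ x, c1.S β x = c.S β x) (hβ' : ∀ x, c1.S β' x = c.S β' x)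
    (hX1 : ∀ x k, c1.S k x ≠ c.S k x → x ∈ ({e, o, y, q} : Set V))
    (hrng : ∀ x, range (fun k => c1.S k x) = range (fun k => c.S k x))
    (he1 : c1.S g e = e) (ho : c1.S g o = y) (hq : c1.S g q = q) (heo : c.S β e = o)
    (hyq : c.S β y = q) (hball : ({e, o, y, q} : Set V) ⊆ c.Ball R b) (hR : 4 ≤ R)
    (hZ : ∀ x ∈ ({e, o, y, q} : Set V), x ∉ Z)
    (hcl : ∀ x ∈ ({e, o, y, q} : Set V), x ∈ P → x ∈ Clean (c.S 0) (c.S 1) (2 * N))
    (he : e ∈ Clean (c.S 0) (c.S 1) (2 * N))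
    (htail : ∀ n, 1 ≤ n → n ≤ N → al (c.S β') (c.S β) n e ∉ ({e, o, y, q} : Set V)) :
    ∃ cb, CutImp c Z P (Clean (c.S 0) (c.S 1) (2 * N)) R N b cb := by
  have hD : ∀ x ∈ ({e, o, y, q} : Set V), c1.S β x ∈ ({e, o, y, q} : Set V) ∧
      c1.S g x ∈ ({e, o, y, q} : Set V) := by
    intro x hx
    have h1 : c.S β o = e := by rw [← heo, c.invol]
    have h2 : c.S β q = y := by rw [← hyq, c.invol]
    have h3 : c1.S g y = o := by rw [← ho, c1.invol]
    rw [hβ]
    rcases hx with hx | hx | hx | hx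
    · subst hx
      rw [heo, he1]; exact ⟨Or.inr (Or.inl rfl), Or.inl rfl⟩
    · subst hx
      rw [h1, ho]; exact ⟨Or.inl rfl, Or.inr (Or.inr (Or.inl rfl))⟩
    · subst hx
      rw [hyq, h3]; exact ⟨Or.inr (Or.inr (Or.inr rfl)), Or.inr (Or.inl rfl)⟩
    · have hx' : x = q := hx
      subst hx'
      rw [h2, hq]; exact ⟨Or.inr (Or.inr (Or.inl rfl)), Or.inr (Or.inr (Or.inr rfl))⟩
  refine ⟨c1.flip β g {e, o, y, q} hD, mkCut (e := e) p {e, o, y, q} {e, o, y, q} ?_ ?_ hball ?_
    ?_ hZ hcl he (hball (Or.inl rfl)) ?_ htail⟩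
  · intro x k hx
    by_contra hcon
    apply hx
    rw [PC.flip_notMem c1 _ _ _ _ hcon]
    by_contra h2
    exact hcon (hX1 x k h2)
  · intro x k hk hx
    by_contra hcon
    apply hx
    rw [PC.flip_notMem c1 _ _ _ _ hcon]
    rcases hk with rfl | rfl
    · exact hβ x
    · exact hβ' x
  · refine (encard_insert_le _ _).trans ?_
    refine (add_le_add (encard_insert_le _ _) le_rfl).trans ?_
    refine (add_le_add (add_le_add (FAB_.pair_le _ _) le_rfl) le_rfl).trans ?_
    exact_mod_cast (show 2 + 1 + 1 ≤ R by omega)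
  · intro x
    rw [PC.flip_range c1 _ _ _ _ x, hrng]
  · rw [PC.flip_left c1 _ _ _ _ (Or.inl rfl)]
    exact he1

/-- case (c), second part: a triangle -/
lemma caseT (h_WIN : tWIN.{u}) {c : PC G 4} {Z P : Set V} {N r : ℕ} (hc : Ctx c P N)
    {β β' h h' : Fin 4} {z y : V} (p : Pal β β' h h')
    (hg : GoodV c Z P (Clean (c.S 0) (c.S 1) (2 * N)) z) (hz : c.S h z = z)
    (hgy : GoodV c Z P (Clean (c.S 0) (c.S 1) (2 * N)) y) (hyb : y ∈ c.Ball (r + 1) z)
    (hyF : c.Full y) (hyz : c.S h' y = z) (hp : c.S h' (c.S β z) = c.S β z)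
    (hyp : c.S h y = c.S β z) :
    ∃ cb, CutImp c Z P (Clean (c.S 0) (c.S 1) (2 * N)) (r + 30) N z cb := by
  have hN := hc.N2
  have hzcl : z ∈ Clean (c.S 0) (c.S 1) (2 * N) :=
    (hg.2 z (c.Ball_self 3 z)).2 hg.1
  have hzne := clean_ne p (by omega) hzcl
  have pne := p.ne
  have hpP : c.S β z ∈ P := (hc.closed p hg.1).1
  have hqP : c.S β y ∈ P := (hc.closed p hgy.1).1
  have hpcl : c.S β z ∈ Clean (c.S 0) (c.S 1) (2 * N) :=
    (hg.2 _ (c.Ball_mono (by norm_num) (c.Ball_one β z))).2 hpP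
  have hqcl : c.S β y ∈ Clean (c.S 0) (c.S 1) (2 * N) :=
    (hgy.2 _ (c.Ball_mono (by norm_num) (c.Ball_one β y))).2 hqP
  have hx1 : c.S h' (c.S h y) = c.S h y := by rw [hyp]; exact hp
  have hx' : c.S h (c.S h' y) = c.S h' y := by rw [hyz]; exact hz
  -- `q` misses `h` or `h'`
  have hqm : c.S h (c.S β y) = c.S β y ∨ c.S h' (c.S β y) = c.S β y := by
    refine miss_of_clean p (by omega) hqcl ?_
    intro hf
    obtain ⟨k, hk⟩ := hc.ind y (c.S β y) (c.adj β y (hyF β)) hyF
    exact hf k hk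
  set c1 : PC G 4 := c.flip h h' {c.S h y, y, c.S h' y} (closed3 hx1 hx') with hc1
  have hzY : z ∈ ({c.S h y, y, c.S h' y} : Set V) := Or.inr (Or.inr hyz.symm)
  have hpY : c.S β z ∈ ({c.S h y, y, c.S h' y} : Set V) := Or.inl hyp.symm
  have hyne : y ≠ c.S β z := by
    intro he
    apply hyF h'
    rw [he]; exact hp
  have hqY : c.S β y ∉ ({c.S h y, y, c.S h' y} : Set V) := by
    rintro (he | he | he)
    · rw [hyp] at he
      apply hyF h'
      rw [hyz]
      exact (c.S_inj he).symm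
    · exact hyF β he
    · have he' : c.S β y = c.S h' y := he
      rw [hyz] at he'
      apply hyne
      rw [← he', c.invol]
  have e1 : ∀ x, c1.S β x = c.S β x := fun x =>
    PC.flip_other c _ _ _ _ pne.2.1 pne.2.2.1 x
  have e1' : ∀ x, c1.S β' x = c.S β' x := fun x =>
    PC.flip_other c _ _ _ _ pne.2.2.2.1 pne.2.2.2.2.1 x
  have e2 : ∀ x, range (fun k => c1.S k x) = range (fun k => c.S k x) := fun x =>
    PC.flip_range c _ _ _ _ x
  have e3 : ∀ x k, c1.S k x ≠ c.S k x → x = c.S β z ∨ x = y ∨ x = z := by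
    intro x k hx
    have := PC.flip_changed c _ _ _ _ hx
    rw [hyp, hyz] at this
    exact this
  have hzh' : c.S h' z = y := by rw [← hyz, c.invol]
  have hph : c.S h (c.S β z) = y := by rw [← hyp, c.invol]
  have hb : ∀ x, x = z ∨ x = c.S β z ∨ x = y ∨ x = c.S β y → x ∈ c.Ball (r + 30) z := by
    rintro x (rfl | rfl | rfl | rfl)
    · exact c.Ball_self _ x
    · exact c.Ball_mono (by omega) (c.Ball_one β z)
    · exact c.Ball_mono (by omega) hyb
    · exact c.Ball_mono (by omega) (c.Ball_add hyb (c.Ball_one β y))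
  have hZ : ∀ x, x = z ∨ x = c.S β z ∨ x = y ∨ x = c.S β y → x ∉ Z := by
    rintro x (rfl | rfl | rfl | rfl)
    · exact (hg.2 x (c.Ball_self 3 x)).1
    · exact (hg.2 _ (c.Ball_mono (by norm_num) (c.Ball_one β z))).1
    · exact (hgy.2 x (c.Ball_self 3 x)).1
    · exact (hgy.2 _ (c.Ball_mono (by norm_num) (c.Ball_one β y))).1
  have hcl : ∀ x, x = z ∨ x = c.S β z ∨ x = y ∨ x = c.S β y →
      x ∈ Clean (c.S 0) (c.S 1) (2 * N) := by
    rintro x (rfl | rfl | rfl | rfl)
    · exact hzcl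
    · exact hpcl
    · exact (hgy.2 x (c.Ball_self 3 x)).2 hgy.1
    · exact hqcl
  -- membership in the two orders
  have m1 : ∀ x, x ∈ ({z, c.S β z, y, c.S β y} : Set V) ↔
      (x = z ∨ x = c.S β z ∨ x = y ∨ x = c.S β y) := fun x => Iff.rfl
  have m2 : ∀ x, x ∈ ({c.S β z, z, y, c.S β y} : Set V) ↔
      (x = z ∨ x = c.S β z ∨ x = y ∨ x = c.S β y) := by
    intro x
    have : x ∈ ({c.S β z, z, y, c.S β y} : Set V) ↔
      (x = c.S β z ∨ x = z ∨ x = y ∨ x = c.S β y) := Iff.rfl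
    rw [this]; tauto
  by_cases htl : ∃ n, 1 ≤ n ∧ n ≤ N ∧ (al (c.S β') (c.S β) n z = y ∨
      al (c.S β') (c.S β) n z = c.S β y)
  · -- the end is `S β z`
    have hcl2 := hzcl
    rw [← clean_pal p c (2 * N)] at hcl2
    have hw := h_WIN V (c.S β) (c.S β') (c.invol β) (c.invol β') (2 * N) z hcl2
    have hstep : ∀ n, 1 ≤ n → n ≤ N → ∃ j, 1 ≤ j ∧ j ≤ 2 * N ∧
        c.S β (al (c.S β') (c.S β) n z) = al (c.S β') (c.S β) j z := by
      intro n h1 h2
      by_cases hev : Even n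
      · obtain ⟨i, rfl⟩ : ∃ i, n = i + 1 := ⟨n - 1, by omega⟩
        have hi : ¬ Even i := by rw [Nat.even_add_one] at hev; exact hev
        refine ⟨i, ?_, by omega, ?_⟩
        · rcases Nat.eq_zero_or_pos i with h0 | h0
          · subst h0; exact absurd (by norm_num) hi
          · exact h0
        · rw [al_last_odd _ _ hi, c.invol]
      · exact ⟨n + 1, by omega, by omega, (al_last_odd _ _ hev z).symm⟩
    have hyq : (∃ j, 1 ≤ j ∧ j ≤ 2 * N ∧ y = al (c.S β') (c.S β) j z) ∧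
        ∃ j, 1 ≤ j ∧ j ≤ 2 * N ∧ c.S β y = al (c.S β') (c.S β) j z := by
      obtain ⟨n, h1, h2, h3 | h3⟩ := htl
      · obtain ⟨j, j1, j2, j3⟩ := hstep n h1 h2
        rw [h3] at j3
        exact ⟨⟨n, h1, by omega, h3.symm⟩, ⟨j, j1, j2, j3⟩⟩
      · obtain ⟨j, j1, j2, j3⟩ := hstep n h1 h2
        rw [h3, c.invol] at j3
        exact ⟨⟨j, j1, j2, j3⟩, ⟨n, h1, by omega, h3.symm⟩⟩
    have htail : ∀ n, 1 ≤ n → n ≤ N →
        al (c.S β') (c.S β) n (c.S β z) ∉ ({c.S β z, z, y, c.S β y} : Set V) := by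
      intro n h1 h2 hmem
      have hL : al (c.S β') (c.S β) n (c.S β z) = al (c.S β) (c.S β') (n + 1) z := rfl
      rw [m2, hL] at hmem
      rcases hmem with he | he | he | he
      · have := (hw (n + 1) 0 (by omega) (by omega)).1 he
        omega
      · have := (hw (n + 1) 1 (by omega) (by omega)).1 he
        omega
      · obtain ⟨⟨j, j1, j2, j3⟩, -⟩ := hyq
        rw [j3] at he
        have := (hw (n + 1) j (by omega) j2).2.2 he
        omega
      · obtain ⟨-, ⟨j, j1, j2, j3⟩⟩ := hyq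
        rw [j3] at he
        have := (hw (n + 1) j (by omega) j2).2.2 he
        omega
    rcases hqm with hq | hq
    · refine triCut (c1 := c1) (g := h) (e := c.S β z) (o := z) (y := y) (q := c.S β y) p e1 e1'
        ?_ e2 ?_ ?_ ?_ (c.invol β z) rfl ?_ (by omega) ?_ ?_ hpcl htail
      · intro x k hx
        rw [m2]
        rcases e3 x k hx with h1 | h1 | h1
        · exact Or.inr (Or.inl h1)
        · exact Or.inr (Or.inr (Or.inl h1))
        · exact Or.inl h1
      · rw [hc1, PC.flip_left c _ _ _ _ hpY]; exact hp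
      · rw [hc1, PC.flip_left c _ _ _ _ hzY]; exact hzh'
      · rw [hc1, PC.flip_notMem c _ _ _ _ hqY]; exact hq
      · intro x hx; exact hb x ((m2 x).1 hx)
      · intro x hx; exact hZ x ((m2 x).1 hx)
      · intro x hx _; exact hcl x ((m2 x).1 hx)
    · refine triCut (c1 := c) (g := h') (e := c.S β z) (o := z) (y := y) (q := c.S β y) p
        (fun _ => rfl) (fun _ => rfl) ?_ (fun _ => rfl) hp hzh' hq (c.invol β z) rfl ?_
        (by omega) ?_ ?_ hpcl htail
      · intro x k hx; exact absurd rfl hx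
      · intro x hx; exact hb x ((m2 x).1 hx)
      · intro x hx; exact hZ x ((m2 x).1 hx)
      · intro x hx _; exact hcl x ((m2 x).1 hx)
  · -- the end is `z`
    have htail : ∀ n, 1 ≤ n → n ≤ N →
        al (c.S β') (c.S β) n z ∉ ({z, c.S β z, y, c.S β y} : Set V) := by
      intro n h1 h2 hmem
      have hw := FAB_.win_ne h_WIN p hzcl h1 (by omega) (by omega)
      rw [m1] at hmem
      rcases hmem with he | he | he | he
      · exact hw.1 he
      · exact hw.2 he
      · exact htl ⟨n, h1, h2, Or.inl he⟩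
      · exact htl ⟨n, h1, h2, Or.inr he⟩
    rcases hqm with hq | hq
    · refine triCut (c1 := c) (g := h) (e := z) (o := c.S β z) (y := y) (q := c.S β y) p
        (fun _ => rfl) (fun _ => rfl) ?_ (fun _ => rfl) hz hph hq rfl rfl ?_
        (by omega) ?_ ?_ hzcl htail
      · intro x k hx; exact absurd rfl hx
      · intro x hx; exact hb x ((m1 x).1 hx)
      · intro x hx; exact hZ x ((m1 x).1 hx)
      · intro x hx _; exact hcl x ((m1 x).1 hx)
    · refine triCut (c1 := c1) (g := h') (e := z) (o := c.S β z) (y := y) (q := c.S β y) p e1 e1'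
        ?_ e2 ?_ ?_ ?_ rfl rfl ?_ (by omega) ?_ ?_ hzcl htail
      · intro x k hx
        rw [m1]
        rcases e3 x k hx with h1 | h1 | h1
        · exact Or.inr (Or.inl h1)
        · exact Or.inr (Or.inr (Or.inl h1))
        · exact Or.inl h1
      · rw [hc1, PC.flip_right c _ _ _ _ hzY]; exact hz
      · rw [hc1, PC.flip_right c _ _ _ _ hpY]; exact hph
      · rw [hc1, PC.flip_notMem c _ _ _ _ hqY]; exact hq
      · intro x hx; exact hb x ((m1 x).1 hx)
      · intro x hx; exact hZ x ((m1 x).1 hx)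
      · intro x hx _; exact hcl x ((m1 x).1 hx)

end E1_

theorem allE1 (h_WIN : tWIN.{u}) (h_Fa : tFa.{u}) (h_F1 : tF1.{u}) : tE1.{u} := by
  intro V G c Z P N r l hc β β' h h' z y p hg hz hlr hs hZ hyl hcond
  have hN := hc.N2
  have hzP := hg.1
  have hPi : ∀ x, c.S β x ∈ P → x ∈ P := fun x hx => (hc.closed_iff p x).1.1 hx
  have hPc : ∀ x ∈ P, c.S β x ∈ P := fun x hx => (hc.closed_iff p x).1.2 hx
  have hpP : c.S β z ∈ P := hPc z hzP
  have hpcl : c.S β z ∈ Clean (c.S 0) (c.S 1) (2 * N) :=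
    (hg.2 _ (c.Ball_mono (by norm_num) (c.Ball_one β z))).2 hpP
  have hup : ∀ b n cb, b ∈ c.Ball n z → n ≤ r + 2 →
      CutImp c Z P (Clean (c.S 0) (c.S 1) (2 * N)) 20 N b cb →
      CutImp c Z P (Clean (c.S 0) (c.S 1) (2 * N)) (r + 30) N z cb := fun b n cb hb hn hcb =>
    hcb.mono hb (by omega)
  have hyl' : E1_.W c P β h z l = y := hyl
  by_cases hyP : y ∈ P
  swap
  · exact E1_.caseA h_WIN hc p hg hz hlr hs hZ (by rw [hyl']; exact hyP)
  by_cases hfa : c.S h (c.S β z) = c.S β z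
  · obtain ⟨cb, hcb⟩ := h_Fa V G c Z P N hc β β' h h' z p hg hz hfa
    exact ⟨cb, hup z 0 cb (c.Ball_self 0 z) (by omega) hcb⟩
  -- `l` is odd
  have hl0 : l ≠ 0 := by
    rintro rfl
    have := hs.2
    exact hfa this
  have hodd : ¬ Even l := by
    intro hev
    have := E1_.W_off (z := z) hs hPi (by omega) le_rfl (Or.inr hev)
    rw [hyl'] at this
    exact this hyP
  obtain ⟨m, rfl⟩ : ∃ m, l = m + 1 := ⟨l - 1, by omega⟩
  have hm : Even m := by
    rw [Nat.even_add_one] at hodd; exact not_not.1 hodd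
  have hgy : GoodV c Z P (Clean (c.S 0) (c.S 1) (2 * N)) y := by
    by_contra hng
    exact hcond ⟨hyP, fun hh => absurd hh hng⟩
  have hcond' : ¬ ((¬ c.Full (c.S β z) → ¬ c.Full y) ∧
    (c.Full (c.S β z) → ¬ c.Full y ∨ (c.S h' y = z ∧ c.S h y ∉ P))) :=
    fun hh => hcond ⟨hyP, fun _ => hh⟩
  have hyF : c.Full y := by
    by_contra hnf
    exact hcond' ⟨fun _ => hnf, fun _ => Or.inl hnf⟩
  have hyb : y ∈ c.Ball (m + 2) z := by
    have := E1_.K_ball (c := c) (P := P) (β := β) (h := h) (z := z) (m := m + 1)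
      (Or.inr ⟨m + 1, le_rfl, rfl⟩)
    rw [hyl'] at this
    exact this
  have hxW : c.S h y = E1_.W c P β h z m := by
    rw [← hyl', E1_.W_even hm, c.invol]
  -- the neighbours along `h, h'` have both colours `0, 1`
  by_cases hF : ∃ b k : Fin 4, (b = β ∨ b = β') ∧ (k = h ∨ k = h') ∧ c.S b (c.S k y) = c.S k y
  · obtain ⟨b, k, hb, hk, hbk⟩ := hF
    have hpal : ∃ b' k', Pal b b' k k' := by
      rcases hb with rfl | rfl <;> rcases hk with rfl | rfl
      · exact ⟨_, _, p⟩
      · exact ⟨_, _, p.swap_h⟩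
      · exact ⟨_, _, p.swap_b⟩
      · exact ⟨_, _, p.swap_b.swap_h⟩
    obtain ⟨b', k', hp'⟩ := hpal
    obtain ⟨cb, hcb⟩ := h_F1 V G c Z P N hc b b' k k' y hp' hgy hyF hbk
    exact ⟨cb, hup y (m + 2) cb hyb (by omega) hcb⟩
  push Not at hF
  have hmiss : ∀ k k' : Fin 4, (k = h ∧ k' = h' ∨ k = h' ∧ k' = h) →
      c.S k' (c.S k y) = c.S k y := by
    intro k k' hk
    have hk1 : k = h ∨ k = h' := hk.elim (fun e => Or.inl e.1) (fun e => Or.inr e.1)
    obtain ⟨i, hi⟩ := hc.ind y (c.S k y) (c.adj k y (hyF k)) hyF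
    have hik : i ≠ k := by
      rintro rfl
      rw [c.invol] at hi
      exact hyF i hi.symm
    rcases p.all i with rfl | rfl | rfl | rfl
    · exact absurd hi (hF i k (Or.inl rfl) hk1)
    · exact absurd hi (hF i k (Or.inr rfl) hk1)
    · rcases hk with ⟨rfl, rfl⟩ | ⟨rfl, rfl⟩
      · exact absurd rfl hik
      · exact hi
    · rcases hk with ⟨rfl, rfl⟩ | ⟨rfl, rfl⟩
      · exact hi
      · exact absurd rfl hik
  have hx1 : c.S h' (c.S h y) = c.S h y := hmiss h h' (Or.inl ⟨rfl, rfl⟩)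
  have hx2 : c.S h (c.S h' y) = c.S h' y := hmiss h' h (Or.inr ⟨rfl, rfl⟩)
  by_cases hyz : c.S h' y = z
  swap
  · refine E1_.caseB h_WIN hc p hg hz hlr hm hs hZ (by rw [hyl']; exact hgy) ?_ ?_ ?_
    · rw [← hxW]; exact hx1
    · rw [hyl']; exact hx2
    · rw [hyl']; exact hyz
  -- now `S h' y = z`
  by_cases hpF : c.Full (c.S β z)
  · exfalso
    have hxP : c.S h y ∈ P := by
      by_contra hxP
      exact hcond' ⟨fun hh => absurd hpF hh, fun _ => Or.inr ⟨hyz, hxP⟩⟩
    have hm0 : m = 0 := by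
      by_contra hne
      have := E1_.W_off (z := z) hs hPi (j := m) (by omega) (by omega) (Or.inr hm)
      rw [← hxW] at this
      exact this hxP
    subst hm0
    have hyp : c.S h y = c.S β z := hxW
    obtain ⟨k, hk⟩ := hc.ind y (c.S β z) (by rw [← hyp]; exact c.adj h y (hyF h)) hyF
    exact hpF k hk
  have hph' : c.S h' (c.S β z) = c.S β z := by
    rcases miss_of_clean p (by omega) hpcl hpF with h1 | h1
    · exact absurd h1 hfa
    · exact h1
  have hyb' : y ∈ c.Ball (r + 1) z := c.Ball_mono (by omega) hyb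
  by_cases hyp : c.S β z = c.S h y
  · exact E1_.caseT h_WIN hc p hg hz hgy hyb' hyF hyz hph' hyp.symm
  · refine E1_.caseC h_WIN hc p hg hz hgy hyb' hx1 hyz hph' hyp ?_
    intro he
    exact hpF (by rw [he]; exact hyF)

end Pool.Agent.MEP
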