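import Pool.Agent.MEP.Ops

set_option autoImplicit false

/-! MP_fff3e1_lc: the path starting at a neighbour off `P` of a full vertex (target E2). -/

namespace Pool.Agent.MEP

open Set

universe u

namespace E2_

variable {V : Type u} {G : SimpleGraph V}

/-- an intermediate colouring which does not change the colours `0, 1` on `P` -/
structure Pre (c : PC G 4) (Z P : Set V) (n m : ℕ) (a : V) (c2 : PC G 4) : Prop where
  ball : ∀ x k, c2.S k x ≠ c.S k x → x ∈ c.Ball n a
  card : {x | ∃ k, c2.S k x ≠ c.S k x}.encard ≤ m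
  rng : ∀ x, range (fun k => c2.S k x) = range (fun k => c.S k x)
  avoid : ∀ x k, c2.S k x ≠ c.S k x → x ∉ Z
  off : ∀ x k, (k = 0 ∨ k = 1) → c2.S k x ≠ c.S k x → x ∉ P

lemma encard_two (a b : V) : ({a, b} : Set V).encard ≤ 2 := by
  have h1 := encard_insert_le ({b} : Set V) a
  rw [encard_singleton] at h1
  calc ({a, b} : Set V).encard ≤ 1 + 1 := h1
    _ = 2 := by norm_num

lemma encard_four (a b c d : V) : ({a, b, c, d} : Set V).encard ≤ 4 := by
  have h1 := encard_insert_le ({b, c, d} : Set V) a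
  have h2 := encard_insert_le ({c, d} : Set V) b
  have h3 := encard_two c d
  calc ({a, b, c, d} : Set V).encard ≤ ({b, c, d} : Set V).encard + 1 := h1
    _ ≤ (({c, d} : Set V).encard + 1) + 1 := by gcongr
    _ ≤ (2 + 1) + 1 := by gcongr
    _ = 4 := by norm_num

lemma encard_three (a b c : V) : ({a, b, c} : Set V).encard ≤ 3 := by
  have h2 := encard_insert_le ({b, c} : Set V) a
  have h3 := encard_two b c
  calc ({a, b, c} : Set V).encard ≤ ({b, c} : Set V).encard + 1 := h2
    _ ≤ 2 + 1 := by gcongr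
    _ = 3 := by norm_num

/-- the final change happens at `a`, `c.S h' a`, `c.S b a` and `c.S h a` -/
lemma close_up (h_WIN : tWIN.{u}) {c c2 cb : PC G 4} {Z P : Set V} {N n m R : ℕ}
    (hc : Ctx c P N) {b b' h h' : Fin 4} {a : V} (p : Pal b b' h h')
    (hg : GoodV c Z P (Clean (c.S 0) (c.S 1) (2 * N)) a) (hf : c.Full a) (hv : c.S h' a ∉ P)
    (h2 : Pre c Z P n m a c2) (hn : n ≤ R) (hm : m + 4 ≤ R)
    (h1 : ∀ z k, cb.S k z ≠ c2.S k z → z = c.S h' a ∨ z = a ∨ z = c.S b a ∨ z = c.S h a)
    (h3 : ∀ z k, (k = 0 ∨ k = 1) → cb.S k z ≠ c2.S k z → z = c.S h' a ∨ z = a ∨ z = c.S b a)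
    (h4 : cb.S b (c.S b a) = c.S b a)
    (h5 : ∀ x, range (fun k => cb.S k x) = range (fun k => c2.S k x)) :
    CutImp c Z P (Clean (c.S 0) (c.S 1) (2 * N)) R N a cb := by
  have hb1 : ∀ i, c.S i a ∈ c.Ball 1 a := fun i => c.Ball_one i a
  have hch : ∀ z k, cb.S k z ≠ c.S k z → c2.S k z ≠ c.S k z ∨
      (z = c.S h' a ∨ z = a ∨ z = c.S b a ∨ z = c.S h a) := by
    intro z k hz
    by_cases e : c2.S k z = c.S k z
    · right; exact h1 z k (by rw [e]; exact hz)
    · left; exact e
  have haP : a ∈ P := hg.1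
  have hxP : c.S b a ∈ P := (hc.closed p haP).1
  have hxC : c.S b a ∈ Clean (c.S 0) (c.S 1) (2 * N) :=
    (hg.2 _ (c.Ball_mono (by omega) (hb1 b))).2 hxP
  have haC : a ∈ Clean (c.S 0) (c.S 1) (2 * N) := (hg.2 _ (c.Ball_self 3 a)).2 haP
  have hU : ∀ z k, (k = 0 ∨ k = 1) → cb.S k z ≠ c.S k z → z ∉ P ∨ z = a ∨ z = c.S b a := by
    intro z k hk hz
    by_cases e : c2.S k z = c.S k z
    · rcases h3 z k hk (by rw [e]; exact hz) with rfl | rfl | rfl
      · left; exact hv
      · right; left; rfl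
      · right; right; rfl
    · left; exact h2.off z k hk e
  refine ⟨?_, ?_, fun x => (h5 x).trans (h2.rng x), ?_, ?_, ?_⟩
  · intro z k hz
    rcases hch z k hz with e | rfl | rfl | rfl | rfl
    · exact c.Ball_mono hn (h2.ball z k e)
    · exact c.Ball_mono (by omega) (hb1 _)
    · exact c.Ball_self _ _
    · exact c.Ball_mono (by omega) (hb1 _)
    · exact c.Ball_mono (by omega) (hb1 _)
  · have hsub : {x | ∃ k, cb.S k x ≠ c.S k x} ⊆
        {x | ∃ k, c2.S k x ≠ c.S k x} ∪ {c.S h' a, a, c.S b a, c.S h a} := by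
      rintro z ⟨k, hz⟩
      rcases hch z k hz with e | e
      · exact Or.inl ⟨k, e⟩
      · exact Or.inr e
    calc {x | ∃ k, cb.S k x ≠ c.S k x}.encard
        ≤ ({x | ∃ k, c2.S k x ≠ c.S k x} ∪ {c.S h' a, a, c.S b a, c.S h a}).encard :=
          encard_le_encard hsub
      _ ≤ {x | ∃ k, c2.S k x ≠ c.S k x}.encard + ({c.S h' a, a, c.S b a, c.S h a} : Set V).encard :=
          encard_union_le _ _
      _ ≤ (m : ℕ∞) + 4 := add_le_add h2.card (encard_four _ _ _ _)
      _ ≤ (R : ℕ∞) := by exact_mod_cast hm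
  · intro z k hz
    have hball : ∀ w ∈ c.Ball 1 a, w ∉ Z := fun w hw => (hg.2 w (c.Ball_mono (by omega) hw)).1
    rcases hch z k hz with e | rfl | rfl | rfl | rfl
    · exact h2.avoid z k e
    · exact hball _ (hb1 _)
    · exact hball _ (c.Ball_self _ _)
    · exact hball _ (hb1 _)
    · exact hball _ (hb1 _)
  · intro z hz
    have : z ∉ P ∨ z = a ∨ z = c.S b a := by
      rcases hz with hz | hz
      · exact hU z 0 (Or.inl rfl) hz
      · exact hU z 1 (Or.inr rfl) hz
    rcases this with e | rfl | rfl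
    · left; exact e
    · right; exact haC
    · right; exact hxC
  · refine ⟨c.S b a, hxC, b, b', p.1, c.Ball_mono (by omega) (hb1 b), h4, ?_⟩
    intro n hn1 hnN k hk
    by_contra hcon
    have hwP : al (c.S b') (c.S b) n (c.S b a) ∈ P :=
      al_mem (fun x hx => (hc.closed p hx).2) (fun x hx => (hc.closed p hx).1) n hxP
    have hxC' : c.S b a ∈ Clean (c.S b') (c.S b) (2 * N) := by
      rw [clean_pal p.swap_b]; exact hxC
    have hwin := h_WIN V (c.S b') (c.S b) (c.invol b') (c.invol b) (2 * N) (c.S b a) hxC'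
    rcases hU _ k ((p.U k).1 hk) hcon with e | e | e
    · exact e hwP
    · have e1 : a = al (c.S b) (c.S b') 1 (c.S b a) := by rw [al_one, c.invol]
      have e2 := (hwin n 1 (by omega) (by have := hc.N2; omega)).2.2 (e.trans e1)
      omega
    · have e2 := (hwin n 0 (by omega) (by omega)).1 e
      omega

/-- the change at `a` when `c.S h' a` misses `b` -/
lemma fin_change (h_WIN : tWIN.{u}) {c c2 : PC G 4} {Z P : Set V} {N n m R : ℕ}
    (hc : Ctx c P N) {b b' h h' : Fin 4} {a : V} (p : Pal b b' h h')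
    (hg : GoodV c Z P (Clean (c.S 0) (c.S 1) (2 * N)) a) (hf : c.Full a) (hv : c.S h' a ∉ P)
    (h2 : Pre c Z P n m a c2) (hn : n ≤ R) (hm : m + 4 ≤ R) (ha : ∀ k, c2.S k a = c.S k a)
    (h2v : c2.S b (c.S h' a) = c.S h' a) (h2w : c2.S h' (c.S h a) = c.S h a)
    (h2x : c2.S h (c.S b a) = c.S b a ∨ c2.S h' (c.S b a) = c.S b a) :
    ∃ cb, CutImp c Z P (Clean (c.S 0) (c.S 1) (2 * N)) R N a cb := by
  obtain ⟨q1, q2, q3, q4, q5, q6⟩ := p.ne
  rcases h2x with h2x | h2x
  · -- rotation
    have hf2 : c2.Full a := fun k => by rw [ha k]; exact hf k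
    set π : Equiv.Perm (Fin 4) := Equiv.swap b h * Equiv.swap h h' with hπ
    have πb : π b = h := by
      rw [hπ, Equiv.Perm.mul_apply, Equiv.swap_apply_of_ne_of_ne q2 q3, Equiv.swap_apply_left]
    have πb' : π b' = b' := by
      rw [hπ, Equiv.Perm.mul_apply, Equiv.swap_apply_of_ne_of_ne q4 q5,
        Equiv.swap_apply_of_ne_of_ne q1.symm q4]
    have πh : π h = h' := by
      rw [hπ, Equiv.Perm.mul_apply, Equiv.swap_apply_left,
        Equiv.swap_apply_of_ne_of_ne q3.symm q6.symm]
    have πh' : π h' = b := by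
      rw [hπ, Equiv.Perm.mul_apply, Equiv.swap_apply_right, Equiv.swap_apply_right]
    have hmm : ∀ j, π j ≠ j → c2.S (π j) (c2.S j a) = c2.S j a := by
      intro j hj
      rcases p.all j with rfl | rfl | rfl | rfl
      · rw [πb, ha]; exact h2x
      · exact absurd πb' hj
      · rw [πh, ha]; exact h2w
      · rw [πh', ha]; exact h2v
    have hchg : ∀ z k, (c2.rot a π hf2 hmm).S k z ≠ c2.S k z →
        z = c.S h' a ∨ z = a ∨ z = c.S b a ∨ z = c.S h a := by
      intro z k hz
      rcases PC.rot_changed c2 a π hf2 hmm hz with e | ⟨j, hj, e⟩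
      · right; left; exact e
      · rw [ha] at e
        rcases p.all j with rfl | rfl | rfl | rfl
        · right; right; left; exact e
        · exact absurd πb' hj
        · right; right; right; exact e
        · left; exact e
    refine ⟨c2.rot a π hf2 hmm, close_up h_WIN hc p hg hf hv h2 hn hm hchg ?_ ?_
      (PC.rot_range c2 a π hf2 hmm)⟩
    · intro z k hk hz
      rcases hchg z k hz with e | e | e | e
      · left; exact e
      · right; left; exact e
      · right; right; exact e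
      · exfalso
        apply hz
        rw [e, ← ha h]
        have hk' : k ≠ h' ∧ k ≠ h := by
          rcases (p.U k).2 hk with rfl | rfl
          · exact ⟨q3, q2⟩
          · exact ⟨q5, q4⟩
        exact PC.rot_nb_other c2 a π hf2 hmm (by rw [πh]; exact hk'.1) hk'.2
    · rw [← ha b]
      exact PC.rot_nb_old c2 a π hf2 hmm (by rw [πb]; exact q2.symm)
  · -- flip
    have hY : ∀ z ∈ ({c.S h' a, a, c.S b a} : Set V), c2.S b z ∈ ({c.S h' a, a, c.S b a} : Set V) ∧
        c2.S h' z ∈ ({c.S h' a, a, c.S b a} : Set V) := by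
      intro z hz
      rcases hz with rfl | rfl | rfl
      · refine ⟨by rw [h2v]; exact Or.inl rfl, ?_⟩
        rw [← ha h', c2.invol]; exact Or.inr (Or.inl rfl)
      · refine ⟨by rw [ha]; exact Or.inr (Or.inr rfl), by rw [ha]; exact Or.inl rfl⟩
      · refine ⟨?_, by rw [h2x]; exact Or.inr (Or.inr rfl)⟩
        rw [← ha b, c2.invol]; exact Or.inr (Or.inl rfl)
    have hchg : ∀ z k, (c2.flip b h' _ hY).S k z ≠ c2.S k z →
        z = c.S h' a ∨ z = a ∨ z = c.S b a := fun z k hz => PC.flip_changed c2 b h' _ hY hz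
    refine ⟨c2.flip b h' _ hY, close_up h_WIN hc p hg hf hv h2 hn hm ?_ ?_ ?_
      (PC.flip_range c2 b h' _ hY)⟩
    · intro z k hz
      rcases hchg z k hz with e | e | e
      · left; exact e
      · right; left; exact e
      · right; right; left; exact e
    · intro z k _ hz
      exact hchg z k hz
    · rw [PC.flip_left c2 b h' _ hY (Or.inr (Or.inr rfl))]
      exact h2x

/-- the vertices of a stalled walk form a closed set -/
lemma closed_walk {s t : V → V} (hs : ∀ x, s (s x) = x) (ht : ∀ x, t (t x) = x) {k : ℕ} {v : V}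
    (hv : t v = v) (hst : al s t (k + 1) v = al s t k v) :
    ∀ j, j ≤ k → (∃ i, i ≤ k ∧ s (al s t j v) = al s t i v) ∧
      ∃ i, i ≤ k ∧ t (al s t j v) = al s t i v := by
  intro j hj
  have hnext : ∃ i, i ≤ k ∧ al s t (j + 1) v = al s t i v := by
    rcases Nat.lt_or_ge j k with h | h
    · exact ⟨j + 1, h, rfl⟩
    · have : j = k := le_antisymm hj h
      subst this
      exact ⟨j, le_rfl, hst⟩
  by_cases hev : Even j
  · rw [al_last_even s t hev] at hnext
    refine ⟨hnext, ?_⟩
    rcases Nat.eq_zero_or_pos j with h0 | h0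
    · subst h0
      exact ⟨0, Nat.zero_le _, by simpa using hv⟩
    · obtain ⟨i, rfl⟩ : ∃ i, j = i + 1 := ⟨j - 1, by omega⟩
      have hi : ¬ Even i := by rw [Nat.even_add_one] at hev; exact hev
      refine ⟨i, by omega, ?_⟩
      rw [al_last_odd s t hi, ht]
  · rw [al_last_odd s t hev] at hnext
    refine ⟨?_, hnext⟩
    have h0 : j ≠ 0 := by rintro rfl; exact hev Even.zero
    obtain ⟨i, rfl⟩ : ∃ i, j = i + 1 := ⟨j - 1, by omega⟩
    have hi : Even i := by
      rw [Nat.even_add_one] at hev; exact not_not.1 hev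
    refine ⟨i, by omega, ?_⟩
    rw [al_last_even s t hi, hs]

/-- flipping the path starting at `v` -/
lemma path_flip {c c1 : PC G 4} {Z P : Set V} {n m k : ℕ} {a v : V} {b h : Fin 4}
    (h1 : Pre c Z P n m a c1) (hv : c1.S h v = v)
    (hst : al (c1.S b) (c1.S h) (k + 1) v = al (c1.S b) (c1.S h) k v)
    (hoff : ∀ j, j ≤ k → al (c1.S b) (c1.S h) j v ∉ P)
    (hZ : ∀ j, j ≤ k → al (c1.S b) (c1.S h) j v ∉ Z)
    (hball : ∀ j, j ≤ k → al (c1.S b) (c1.S h) j v ∈ c.Ball n a) :
    ∃ c2 : PC G 4, Pre c Z P n (m + k + 1) a c2 ∧ c2.S b v = v ∧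
      (∀ x ∈ P, ∀ i, c2.S i x = c1.S i x) ∧ ∀ x i, i ≠ b → i ≠ h → c2.S i x = c1.S i x := by
  set f : ℕ → V := fun j => al (c1.S b) (c1.S h) j v with hf
  set K : Set V := f '' (Finset.range (k + 1) : Set ℕ) with hK
  have hmemK : ∀ z, z ∈ K ↔ ∃ j, j ≤ k ∧ f j = z := by
    intro z
    constructor
    · rintro ⟨j, hj, rfl⟩
      exact ⟨j, by have := Finset.mem_range.1 (Finset.mem_coe.1 hj); omega, rfl⟩
    · rintro ⟨j, hj, rfl⟩
      exact ⟨j, Finset.mem_coe.2 (Finset.mem_range.2 (by omega)), rfl⟩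
  have hcl := closed_walk (c1.invol b) (c1.invol h) hv hst
  have hY : ∀ x ∈ K, c1.S b x ∈ K ∧ c1.S h x ∈ K := by
    intro x hx
    obtain ⟨j, hj, rfl⟩ := (hmemK x).1 hx
    obtain ⟨⟨i, hi, e⟩, ⟨i', hi', e'⟩⟩ := hcl j hj
    exact ⟨(hmemK _).2 ⟨i, hi, e.symm⟩, (hmemK _).2 ⟨i', hi', e'.symm⟩⟩
  have hch : ∀ z i, (c1.flip b h K hY).S i z ≠ c.S i z → c1.S i z ≠ c.S i z ∨ z ∈ K := by
    intro z i hz
    by_cases e : z ∈ K
    · right; exact e
    · left; rw [PC.flip_notMem c1 b h K hY e] at hz; exact hz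
  have hKP : ∀ z ∈ K, z ∉ P := by
    intro z hz
    obtain ⟨j, hj, rfl⟩ := (hmemK z).1 hz
    exact hoff j hj
  have hcardK : K.encard ≤ ((k + 1 : ℕ) : ℕ∞) := by
    calc K.encard ≤ ((Finset.range (k + 1) : Finset ℕ) : Set ℕ).encard := encard_image_le _ _
      _ = ((k + 1 : ℕ) : ℕ∞) := by rw [encard_coe_eq_coe_finsetCard, Finset.card_range]
  refine ⟨c1.flip b h K hY, ⟨?_, ?_, ?_, ?_, ?_⟩, ?_, ?_, ?_⟩
  · intro z i hz
    rcases hch z i hz with e | e
    · exact h1.ball z i e
    · obtain ⟨j, hj, rfl⟩ := (hmemK z).1 e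
      exact hball j hj
  · have hsub : {x | ∃ i, (c1.flip b h K hY).S i x ≠ c.S i x} ⊆
        {x | ∃ i, c1.S i x ≠ c.S i x} ∪ K := by
      rintro z ⟨i, hz⟩
      rcases hch z i hz with e | e
      · exact Or.inl ⟨i, e⟩
      · exact Or.inr e
    calc {x | ∃ i, (c1.flip b h K hY).S i x ≠ c.S i x}.encard
        ≤ ({x | ∃ i, c1.S i x ≠ c.S i x} ∪ K).encard := encard_le_encard hsub
      _ ≤ {x | ∃ i, c1.S i x ≠ c.S i x}.encard + K.encard := encard_union_le _ _
      _ ≤ (m : ℕ∞) + ((k + 1 : ℕ) : ℕ∞) := add_le_add h1.card hcardK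
      _ = ((m + k + 1 : ℕ) : ℕ∞) := by push_cast; ring
  · intro x
    rw [PC.flip_range c1 b h K hY x, h1.rng x]
  · intro z i hz
    rcases hch z i hz with e | e
    · exact h1.avoid z i e
    · obtain ⟨j, hj, rfl⟩ := (hmemK z).1 e
      exact hZ j hj
  · intro z i hi hz
    rcases hch z i hz with e | e
    · exact h1.off z i hi e
    · exact hKP z e
  · rw [PC.flip_left c1 b h K hY ((hmemK v).2 ⟨0, Nat.zero_le _, rfl⟩)]
    exact hv
  · intro x hx i
    exact PC.flip_notMem c1 b h K hY (fun e => hKP x e hx) i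
  · intro x i hi1 hi2
    exact PC.flip_other c1 b h K hY hi1 hi2 x

/-- a neighbour along `h'` of a full vertex which has `b` and `b'` misses `h` -/
lemma miss {c : PC G 4} (hi : c.Ind) {b b' h h' : Fin 4} (p : Pal b b' h h') {a : V}
    (hf : c.Full a) (h1 : c.S b (c.S h' a) ≠ c.S h' a) (h2 : c.S b' (c.S h' a) ≠ c.S h' a) :
    c.S h (c.S h' a) = c.S h' a := by
  obtain ⟨k, hk⟩ := hi a (c.S h' a) (c.adj h' a (hf h')) hf
  rcases p.all k with rfl | rfl | rfl | rfl
  · exact absurd hk h1
  · exact absurd hk h2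
  · exact hk
  · rw [c.invol] at hk
    exact absurd hk.symm (hf k)

/-- the walk is off `P` before its stall -/
lemma off_before {c : PC G 4} {P : Set V} {N l : ℕ} (hc : Ctx c P N) {b b' h h' : Fin 4}
    (p : Pal b b' h h') {v : V} (hv : v ∉ P) (hns : NS (cutS P (c.S b)) (c.S h) l v) :
    ∀ j, j < l → al (cutS P (c.S b)) (c.S h) j v ∉ P := by
  intro j
  induction j with
  | zero => intro _; exact hv
  | succ j ih =>
    intro hj hP
    have h1 := ih (by omega)
    by_cases hev : Even j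
    · rw [al_last_even _ _ hev, cutS_of_notMem h1, (hc.closed_iff p _).1] at hP
      exact h1 hP
    · have hev' : Even (j + 1) := by rw [Nat.even_add_one]; exact hev
      apply hns (j + 1) hj
      rw [al_last_even _ _ hev', cutS_of_mem hP]

end E2_

open E2_ in
theorem allE2 (h_WIN : tWIN.{u}) (h_F1 : tF1.{u}) : tE2.{u} := by
  intro V G c Z P N r l hc b b' h h' a y p hg hf hv hl hst hZ hy hnot
  obtain ⟨q1, q2, q3, q4, q5, q6⟩ := p.ne
  have hN := hc.N2
  -- `tF1` at `a`
  by_cases hF : ∃ β β' k k' : Fin 4, Pal β β' k k' ∧ c.S β (c.S k a) = c.S k a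
  · obtain ⟨β, β', k, k', pp, e⟩ := hF
    obtain ⟨cb, hcb⟩ := h_F1 V G c Z P N hc β β' k k' a pp hg hf e
    exact ⟨cb, hcb.mono (c.Ball_self 0 a) (by omega)⟩
  push Not at hF
  have hvh : c.S h (c.S h' a) = c.S h' a :=
    miss hc.ind p hf (hF _ _ _ _ p.swap_h) (hF _ _ _ _ p.swap_h.swap_b)
  have hwh : c.S h' (c.S h a) = c.S h a :=
    miss hc.ind p.swap_h hf (hF _ _ _ _ p) (hF _ _ _ _ p.swap_b)
  set v := c.S h' a with hvdef
  set s := cutS P (c.S b) with hsdef
  have hs : ∀ x, s (s x) = x := cutS_invol (c.invol b) fun x hx => (hc.closed p hx).1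
  have hoff : ∀ j, j < l → al s (c.S h) j v ∉ P := off_before hc p hv hst.1
  have haP : a ∈ P := hg.1
  have hxP : c.S b a ∈ P := (hc.closed p haP).1
  have hxC : c.S b a ∈ Clean (c.S 0) (c.S 1) (2 * N) :=
    (hg.2 _ (c.Ball_mono (by omega) (c.Ball_one b a))).2 hxP
  have hxm : c.S h (c.S b a) = c.S b a ∨ c.S h' (c.S b a) = c.S b a := by
    refine miss_of_clean p (by omega) hxC fun hcon => ?_
    obtain ⟨k, hk⟩ := hc.ind a (c.S b a) (c.adj b a (hf b)) hf
    exact hcon k hk
  have hballv : ∀ j, al s (c.S h) j v ∈ c.Ball (j + 1) a := by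
    intro j
    have e1 := (c.Ball_al_cut P h b j v).2
    have := c.Ball_add (c.Ball_one h' a) e1
    rwa [Nat.add_comm] at this
  have hPre0 : ∀ n, Pre c Z P n 0 a c := by
    intro n
    refine ⟨fun x k e => absurd rfl e, ?_, fun _ => rfl, fun x k e => absurd rfl e,
      fun x k _ e => absurd rfl e⟩
    have : {x | ∃ k, c.S k x ≠ c.S k x} = (∅ : Set V) := by
      ext x; simp
    rw [this, encard_empty]
    exact zero_le
  by_cases hyP : y ∈ P
  · -- the walk ends in `P`
    have h3 : GoodV c Z P (Clean (c.S 0) (c.S 1) (2 * N)) y ∧ c.Full y ∧ y ≠ a := by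
      by_contra hcon
      apply hnot
      refine ⟨hyP, fun h5 => ?_⟩
      by_contra h6
      push Not at h6
      exact hcon ⟨h5, h6.1, h6.2⟩
    obtain ⟨hgy, hfy, hya⟩ := h3
    have hyB : y ∈ c.Ball (l + 1) a := by rw [← hy]; exact hballv l
    by_cases hFy : ∃ β β' k k' : Fin 4, Pal β β' k k' ∧ c.S β (c.S k y) = c.S k y
    · obtain ⟨β, β', k, k', pp, e⟩ := hFy
      obtain ⟨cb, hcb⟩ := h_F1 V G c Z P N hc β β' k k' y pp hgy hfy e
      exact ⟨cb, hcb.mono hyB (by omega)⟩
    push Not at hFy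
    have hx1' : c.S h (c.S h' y) = c.S h' y :=
      miss hc.ind p hfy (hFy _ _ _ _ p.swap_h) (hFy _ _ _ _ p.swap_h.swap_b)
    have hx1 : c.S h' (c.S h y) = c.S h y :=
      miss hc.ind p.swap_h hfy (hFy _ _ _ _ p) (hFy _ _ _ _ p.swap_b)
    -- `l = m + 1` with `m` odd
    have hl0 : l ≠ 0 := by
      rintro rfl
      apply hv
      have : v = y := hy
      rw [this]; exact hyP
    obtain ⟨m, rfl⟩ : ∃ m, l = m + 1 := ⟨l - 1, by omega⟩
    have hm : ¬ Even m := by
      intro hev
      have h1 := hoff m (by omega)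
      rw [al_last_even _ _ hev, hsdef, cutS_of_notMem h1] at hy
      apply h1
      rw [← (hc.closed_iff p _).1, hy]
      exact hyP
    have hm0 : 0 < m := by
      rcases Nat.eq_zero_or_pos m with e | e
      · subst e; exact absurd Even.zero hm
      · exact e
    have hym : c.S h (al s (c.S h) m v) = y := by rw [← hy, al_last_odd _ _ hm]
    have hmy : al s (c.S h) m v = c.S h y := by rw [← hym, c.invol]
    have hinj := al_inj_of_fixed (c.invol h) hs hvh hst.1
    -- the flip at `y`
    have hY : ∀ z ∈ ({c.S h y, y, c.S h' y} : Set V), c.S h z ∈ ({c.S h y, y, c.S h' y} : Set V) ∧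
        c.S h' z ∈ ({c.S h y, y, c.S h' y} : Set V) := by
      intro z hz
      rcases hz with rfl | rfl | rfl
      · refine ⟨by rw [c.invol]; exact Or.inr (Or.inl rfl), by rw [hx1]; exact Or.inl rfl⟩
      · exact ⟨Or.inl rfl, Or.inr (Or.inr rfl)⟩
      · refine ⟨by rw [hx1']; exact Or.inr (Or.inr rfl), ?_⟩
        rw [c.invol]; exact Or.inr (Or.inl rfl)
    set Y : Set V := {c.S h y, y, c.S h' y} with hYdef
    set c1 := c.flip h h' Y hY with hc1
    have hnot1 : ∀ z, z ∉ Y → ∀ k, c1.S k z = c.S k z := fun z hz k =>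
      PC.flip_notMem c h h' Y hY hz k
    have hYne : ∀ z, z ≠ c.S h y → z ≠ y → z ≠ c.S h' y → z ∉ Y := by
      intro z h1 h2 h3 h4
      rcases h4 with e | e | e
      · exact h1 e
      · exact h2 e
      · exact h3 e
    have hwalk : ∀ j, j < m → al s (c.S h) j v ∉ Y := by
      intro j hj
      apply hYne
      · intro e
        rw [← hmy] at e
        have := hinj j m (by omega) (by omega) e
        omega
      · intro e
        apply hoff j (by omega)
        rw [e]; exact hyP
      · intro e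
        rcases Nat.eq_zero_or_pos j with h0 | h0
        · subst h0
          have e1 : c.S h' a = c.S h' y := e
          exact hya (c.S_inj e1).symm
        · have hfix : c.S h (al s (c.S h) j v) = al s (c.S h) j v := by rw [e]; exact hx1'
          by_cases hev : Even j
          · obtain ⟨i, rfl⟩ : ∃ i, j = i + 1 := ⟨j - 1, by omega⟩
            have hi : ¬ Even i := by rw [Nat.even_add_one] at hev; exact hev
            rw [al_last_odd _ _ hi, c.invol] at hfix
            apply hst.1 i (by omega)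
            rw [al_last_odd _ _ hi]
            exact hfix.symm
          · apply hst.1 j (by omega)
            rw [al_last_odd _ _ hev]
            exact hfix
    have hvY : v ∉ Y := hwalk 0 hm0
    have hcong : ∀ j, j ≤ m → al (c1.S b) (c1.S h) j v = al s (c.S h) j v := by
      intro j hj
      apply al_congr
      intro i hi
      refine ⟨?_, hnot1 _ (hwalk i (by omega)) h⟩
      rw [hc1, PC.flip_other c h h' Y hY q2 q3, hsdef, cutS_of_notMem (hoff i (by omega))]
    have hPre1 : Pre c Z P (r + 2) 3 a c1 := by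
      have hmem : ∀ x k, c1.S k x ≠ c.S k x → x ∈ Y := fun x k e =>
        PC.flip_changed c h h' Y hY e
      refine ⟨?_, ?_, PC.flip_range c h h' Y hY, ?_, ?_⟩
      · intro x k e
        rcases hmem x k e with e1 | e1 | e1
        · rw [e1, ← hmy]
          exact c.Ball_mono (by omega) (hballv m)
        · rw [e1]; exact c.Ball_mono (by omega) hyB
        · rw [e1]; exact c.Ball_mono (by omega) (c.Ball_succ hyB h')
      · calc {x | ∃ k, c1.S k x ≠ c.S k x}.encard ≤ Y.encard :=
              encard_le_encard (by rintro x ⟨k, e⟩; exact hmem x k e)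
          _ ≤ 3 := encard_three _ _ _
      · intro x k e
        rcases hmem x k e with e1 | e1 | e1
        · rw [e1, ← hmy]; exact hZ m (by omega)
        · rw [e1]; exact (hgy.2 y (c.Ball_self 3 y)).1
        · rw [e1]; exact (hgy.2 _ (c.Ball_mono (by omega) (c.Ball_one h' y))).1
      · intro x k hk e
        exfalso
        apply e
        have hk' : k ≠ h ∧ k ≠ h' := by
          rcases (p.U k).2 hk with rfl | rfl
          · exact ⟨q2, q3⟩
          · exact ⟨q4, q5⟩
        exact PC.flip_other c h h' Y hY hk'.1 hk'.2 x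
    have hst1 : al (c1.S b) (c1.S h) (m + 1) v = al (c1.S b) (c1.S h) m v := by
      rw [al_last_odd _ _ hm, hcong m le_rfl, hmy, hc1,
        PC.flip_left c h h' Y hY (Or.inl rfl)]
      exact hx1
    have hv1 : c1.S h v = v := by rw [hnot1 v hvY]; exact hvh
    obtain ⟨c2, hP2, k1, k2, k3⟩ := path_flip (b := b) (k := m) hPre1 hv1 hst1
      (fun j hj => by rw [hcong j hj]; exact hoff j (by omega))
      (fun j hj => by rw [hcong j hj]; exact hZ j (by omega))
      (fun j hj => by rw [hcong j hj]; exact c.Ball_mono (by omega) (hballv j))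
    have haY : a ∉ Y := by
      apply hYne
      · intro e; rw [← e] at hx1; exact hf h' hx1
      · exact hya.symm
      · intro e; rw [← e] at hx1'; exact hf h hx1'
    have hwY : c.S h a ∉ Y := by
      apply hYne
      · intro e; exact hya (c.S_inj e).symm
      · intro e; rw [e] at hwh; exact hfy h' hwh
      · intro e; rw [← e, c.invol] at hx1'; exact hf h hx1'.symm
    refine fin_change h_WIN hc p hg hf hv hP2 (by omega) (by omega) ?_ k1 ?_ ?_
    · intro k
      rw [k2 a haP, hnot1 a haY]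
    · rw [k3 _ _ q3.symm q6.symm, hnot1 _ hwY]; exact hwh
    · rw [k2 _ hxP, k2 _ hxP]
      by_cases hxY : c.S b a ∈ Y
      · rw [hc1, PC.flip_left c h h' Y hY hxY, PC.flip_right c h h' Y hY hxY]
        exact hxm.symm
      · rw [hnot1 _ hxY, hnot1 _ hxY]; exact hxm
  · -- the walk ends off `P`
    have hoff' : ∀ j, j ≤ l → al s (c.S h) j v ∉ P := by
      intro j hj
      rcases Nat.lt_or_ge j l with h1 | h1
      · exact hoff j h1
      · have : j = l := le_antisymm hj h1
        rw [this, hy]; exact hyP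
    have hcong : ∀ j, j ≤ l + 1 → al (c.S b) (c.S h) j v = al s (c.S h) j v := by
      intro j hj
      apply al_congr
      intro i hi
      refine ⟨?_, rfl⟩
      rw [hsdef, cutS_of_notMem (hoff' i (by omega))]
    obtain ⟨c2, hP2, k1, k2, k3⟩ := path_flip (b := b) (k := l) (hPre0 (r + 2)) hvh
      (by rw [hcong l (by omega), hcong (l + 1) le_rfl]; exact hst.2)
      (fun j hj => by rw [hcong j (by omega)]; exact hoff' j hj)
      (fun j hj => by rw [hcong j (by omega)]; exact hZ j hj)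
      (fun j hj => by rw [hcong j (by omega)]; exact c.Ball_mono (by omega) (hballv j))
    refine fin_change h_WIN hc p hg hf hv hP2 (by omega) (by omega) (fun k => k2 a haP k) k1 ?_ ?_
    · rw [k3 _ _ q3.symm q6.symm]; exact hwh
    · rw [k2 _ hxP, k2 _ hxP]; exact hxm

end Pool.Agent.MEP
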