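import Pool.Agent.MEP.Defs

set_option autoImplicit false

/-! MP_fff3e1_lc, `Δ = 4`, invariant measures: exact targets. Proofs: Blueprint.lean.txt. -/

namespace Pool.Agent.MEP

open MeasureTheory Set Filter
open scoped ENNReal
open Pool.Agent.MEC

universe u

/-! ### A. Two involutions -/

/-- A1 the window of a clean point is injective -/
def tWIN : Prop := ∀ (V : Type u) (s t : V → V), (∀ x, s (s x) = x) → (∀ x, t (t x) = x) →
  ∀ (M : ℕ) (x : V), x ∈ Clean s t M → ∀ i j, i ≤ M → j ≤ M →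
    (al s t i x = al s t j x → i = j) ∧ (al t s i x = al t s j x → i = j) ∧
    (al s t i x = al t s j x → i = 0 ∧ j = 0)

/-- A2 ends of long paths are rare -/
def tEND : Prop := ∀ (V : Type u) [MeasurableSpace V] [StandardBorelSpace V] (μ : Measure V)
    [IsFiniteMeasure μ] (s t : V → V), (∀ x, s (s x) = x) → (∀ x, t (t x) = x) →
  MeasurePreserving s μ μ → MeasurePreserving t μ μ → ∀ (m : ℕ) (E Q : Set V),
  MeasurableSet E → MeasurableSet Q → (∀ x ∈ E, s x = x ∧ NS t s m x) →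
  (∀ x ∈ E, ∀ j, j ≤ m → al t s j x ∈ Q) → (m + 1) * μ.real E ≤ 2 * μ.real Q

/-- A3 ends in long components, points of long components near an end -/
def tNEAR : Prop := ∀ (V : Type u) [MeasurableSpace V] [StandardBorelSpace V] (μ : Measure V)
    [IsFiniteMeasure μ] (s t : V → V), (∀ x, s (s x) = x) → (∀ x, t (t x) = x) →
  MeasurePreserving s μ μ → MeasurePreserving t μ μ → ∀ L M : ℕ, 1 ≤ L →
  L * μ.real {x | x ∈ Long s t L ∧ s x = x} ≤ 2 * μ.real (Long s t L) ∧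
  L * μ.real {x | x ∈ Long s t L ∧ t x = x} ≤ 2 * μ.real (Long s t L) ∧
  L * μ.real (Long s t L \ Far s t M) ≤ 8 * (M + 1) * μ.real (Long s t L)

/-- A4 the long components depend on the pair of involutions in a Lipschitz way -/
def tLIP : Prop := ∀ (V : Type u) [MeasurableSpace V] [StandardBorelSpace V] (μ : Measure V)
    [IsFiniteMeasure μ] (s t s' t' : V → V), (∀ x, s (s x) = x) → (∀ x, t (t x) = x) →
  (∀ x, s' (s' x) = x) → (∀ x, t' (t' x) = x) → (∀ x, s x = t x → s x = x) →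
  (∀ x, s' x = t' x → s' x = x) → MeasurePreserving s μ μ → MeasurePreserving t μ μ →
  Measurable s' → Measurable t' → ∀ L : ℕ,
  μ.real (Long s' t' L) ≤ μ.real (Long s t L) +
    (2 * L + 1) * μ.real {x | ¬ ({s x, t x} : Set V) = {s' x, t' x}}

/-- A5 effect of a change on `Far` -/
def tGAIN : Prop := ∀ (V : Type u) [MeasurableSpace V] [StandardBorelSpace V] (μ : Measure V)
    [IsFiniteMeasure μ] (s t s' t' : V → V), (∀ x, s (s x) = x) → (∀ x, t (t x) = x) →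
  (∀ x, s' (s' x) = x) → (∀ x, t' (t' x) = x) → MeasurePreserving s μ μ →
  MeasurePreserving t μ μ → Measurable s' → Measurable t' →
  ∀ (L N : ℕ) (T D : Set V), MeasurableSet T → MeasurableSet D →
  (∀ x, s' x ≠ s x ∨ t' x ≠ t x → x ∈ D) →
  (∀ x ∈ D, x ∉ Long s t L ∨ x ∈ Far s t (2 * N)) → T ⊆ Far s t N \ Far s' t' N →
  μ.real (Far s' t' N) + μ.real T ≤ μ.real (Far s t N) + (4 * L + 2) * μ.real (D \ Long s t L)

/-- A6 the set `Far` depends on the pair of involutions in a Lipschitz way -/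
def tFLIP : Prop := ∀ (V : Type u) [MeasurableSpace V] [StandardBorelSpace V] (μ : Measure V)
    [IsFiniteMeasure μ] (s t s' t' : V → V), (∀ x, s (s x) = x) → (∀ x, t (t x) = x) →
  (∀ x, s' (s' x) = x) → (∀ x, t' (t' x) = x) → MeasurePreserving s μ μ →
  MeasurePreserving t μ μ → Measurable s' → Measurable t' → ∀ N : ℕ,
  μ.real (Far s t N) ≤ μ.real (Far s' t' N) +
    2 * (N + 1) * μ.real {x | s' x ≠ s x ∨ t' x ≠ t x}

/-! ### B. Optimal colourings -/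

/-- B1 Ekeland's principle for the cut step -/
def tEKC : Prop := ∀ (V : Type u) [MeasurableSpace V] [StandardBorelSpace V] (G : SimpleGraph V)
    (c0 : PCol G 4) (μ : Measure V) [IsProbabilityMeasure μ], Inv G μ → ∀ (Z : Set V),
  MeasurableSet Z → ∀ (N : ℕ) (lam : ℝ), 0 < lam → ∃ c : PCol G 4, Cls μ Z c0 c ∧
    μ.real (Far (c.S 0) (c.S 1) N) + lam * PCol.dst μ c0 c ≤ μ.real (Far (c0.S 0) (c0.S 1) N) ∧
    ∀ c' : PCol G 4, Cls μ Z c0 c' → μ.real (Far (c.S 0) (c.S 1) N) ≤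
      μ.real (Far (c'.S 0) (c'.S 1) N) + lam * PCol.dst μ c c'

/-- B2 Ekeland's principle for the removal step -/
def tEKD : Prop := ∀ (V : Type u) [MeasurableSpace V] [StandardBorelSpace V] (G : SimpleGraph V)
    (g : Gen G 4) (μ : Measure V) [IsProbabilityMeasure μ], Inv G μ → ∀ (L : ℕ), 1 ≤ L →
  ∀ c0 : PCol G 4, ∃ c : PCol G 4, FW μ g c + dD μ L c0 c ≤ FW μ g c0 ∧
    ∀ c' : PCol G 4, FW μ g c ≤ FW μ g c' + dD μ L c c'

/-! ### C. Gluing -/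

/-- C1 pointwise modifications on a set of positive measure give a measurable one -/
def tGLUE : Prop := ∀ (V : Type u) [MeasurableSpace V] [StandardBorelSpace V] (G : SimpleGraph V)
    (Δ : ℕ) (c : PCol G Δ) (μ : Measure V) [IsFiniteMeasure μ] (ι : Type) [Fintype ι]
    (φ : ι → V ≃ᵐ V) (Θ : Set (V ≃ᵐ V)) (R : Set (V × (ι → Fin Δ → V))) (B : Set V),
  MeasurableSet {p : V × V | G.Adj p.1 p.2} → Θ.Finite → MeasurableSet R → μ B ≠ 0 →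
  (∀ b ∈ B, ∃ cb : PC G Δ, (∀ x k, cb.S k x ≠ c.S k x → ∃ j, φ j b = x) ∧
      (b, fun j k => cb.S k (φ j b)) ∈ R) →
  ∃ (B' : Set V) (c' : PCol G Δ) (cb : V → PC G Δ), MeasurableSet B' ∧ μ B' ≠ 0 ∧
    (∀ e ∈ Θ, ∀ x ∈ B', ∀ y ∈ B', e x = y → x = y) ∧
    (∀ b ∈ B', (∀ x k, (cb b).S k x ≠ c.S k x → ∃ j, φ j b = x) ∧
      (b, fun j k => (cb b).S k (φ j b)) ∈ R ∧ ∀ j k, c'.S k (φ j b) = (cb b).S k (φ j b)) ∧
    ∀ x, (∀ b ∈ B', ∀ j, φ j b ≠ x) → ∀ k, c'.S k x = c.S k x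

/-- C2 at an optimal colouring there are no pointwise cuts -/
def tLIPC : Prop := ∀ (V : Type u) [MeasurableSpace V] [StandardBorelSpace V] (G : SimpleGraph V)
    (c0 c : PCol G 4) (μ : Measure V) [IsProbabilityMeasure μ],
  MeasurableSet {p : V × V | G.Adj p.1 p.2} → Inv G μ → ∀ (Z : Set V), MeasurableSet Z →
  ∀ (L N R : ℕ) (lam : ℝ), 0 ≤ lam → L ≤ 2 * N → ((4 * L + 2) * R + 4 * R * lam : ℝ) < N →
  Cls μ Z c0 c → (∀ c' : PCol G 4, Cls μ Z c0 c' → μ.real (Far (c.S 0) (c.S 1) N) ≤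
      μ.real (Far (c'.S 0) (c'.S 1) N) + lam * PCol.dst μ c c') →
  ∀ᵐ b ∂μ, ¬ ∃ cb : PC G 4, CutImp (toPC c) Z (Long (c.S 0) (c.S 1) L)
    (Clean (c.S 0) (c.S 1) (2 * N)) R N b cb

/-- `cb` differs from `c` near `u` and `v`, keeps all coloured edges and colours `u v` -/
structure TokImp {V : Type u} {G : SimpleGraph V} (c : PC G 4) (L R : ℕ) (v u : V)
    (cb : PC G 4) : Prop where
  ball : ∀ x k, cb.S k x ≠ c.S k x → x ∈ c.Ball R u ∪ c.Ball R v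
  hard : {x | ¬ (({c.S 0 x, c.S 1 x} : Set V) = {cb.S 0 x, cb.S 1 x} ∧
    c.S 2 x = cb.S 2 x ∧ c.S 3 x = cb.S 3 x)}.encard ≤ 20
  card : {x | ∃ k, cb.S k x ≠ c.S k x}.encard ≤ (20 * L : ℕ)
  mono : ∀ x k, c.S k x ≠ x → ∃ k', cb.S k' x = c.S k x
  gain : ∃ k, cb.S k u = v

/-- C3 at an optimal colouring no token can be removed pointwise -/
def tLIPT : Prop := ∀ (V : Type u) [MeasurableSpace V] [StandardBorelSpace V] (G : SimpleGraph V)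
    (g : Gen G 4) (c : PCol G 4) (μ : Measure V) [IsProbabilityMeasure μ],
  MeasurableSet {p : V × V | G.Adj p.1 p.2} → Inv G μ → ∀ (L R i : ℕ), 1 ≤ L →
  (∀ c' : PCol G 4, FW μ g c ≤ FW μ g c' + dD μ L c c') →
  ∀ᵐ u ∂μ, u ∈ Unc g c i → ¬ ∃ cb : PC G 4, TokImp (toPC c) L R (g.T i u) u cb

/-- C4 at an optimal colouring uncoloured edges between vertices of degree `< 4` have no
neighbour of degree `4` along suitable colours -/
def tSHW : Prop := ∀ (V : Type u) [MeasurableSpace V] [StandardBorelSpace V] (G : SimpleGraph V)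
    (g : Gen G 4) (c : PCol G 4) (μ : Measure V) [IsProbabilityMeasure μ],
  MeasurableSet {p : V × V | G.Adj p.1 p.2} → Inv G μ → ∀ (L i : ℕ), 1 ≤ L →
  (∀ c' : PCol G 4, FW μ g c ≤ FW μ g c' + dD μ L c c') →
  ∀ᵐ u ∂μ, u ∈ Unc g c i → u ∈ WW g i → ∀ k, c.S k (g.T i u) = g.T i u → c.S k u ≠ u →
    (G.neighborSet (c.S k u)).encard < 4

/-! ### D. Pointwise facts: cuts -/

/-- D1 two neighbours on a long walk missing the same colour -/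
def tFa : Prop := ∀ (V : Type u) (G : SimpleGraph V) (c : PC G 4) (Z P : Set V) (N : ℕ),
  Ctx c P N → ∀ (β β' h h' : Fin 4) (z : V), Pal β β' h h' →
  GoodV c Z P (Clean (c.S 0) (c.S 1) (2 * N)) z → c.S h z = z → c.S h (c.S β z) = c.S β z →
  ∃ cb, CutImp c Z P (Clean (c.S 0) (c.S 1) (2 * N)) 20 N z cb

/-- D2 three consecutive vertices missing a colour -/
def tFb : Prop := ∀ (V : Type u) (G : SimpleGraph V) (c : PC G 4) (Z P : Set V) (N r l : ℕ),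
  Ctx c P N → ∀ (β β' h h' : Fin 4) (z : V), Pal β β' h h' →
  GoodV c Z P (Clean (c.S 0) (c.S 1) (2 * N)) z → ¬ c.Full (c.S 0 z) → ¬ c.Full (c.S 1 z) →
  c.S h z = z → l ≤ r → StallAt (c.S h') (c.S h) l z →
  (∀ j, j ≤ l → al (c.S h') (c.S h) j z ∉ Z) →
  ∃ cb, CutImp c Z P (Clean (c.S 0) (c.S 1) (2 * N)) (r + 30) N z cb

/-- D3 the neighbours of a full vertex along `2` and `3` have both colours `0` and `1` -/
def tF1 : Prop := ∀ (V : Type u) (G : SimpleGraph V) (c : PC G 4) (Z P : Set V) (N : ℕ),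
  Ctx c P N → ∀ (β β' h h' : Fin 4) (a : V), Pal β β' h h' →
  GoodV c Z P (Clean (c.S 0) (c.S 1) (2 * N)) a → c.Full a → c.S β (c.S h a) = c.S h a →
  ∃ cb, CutImp c Z P (Clean (c.S 0) (c.S 1) (2 * N)) 20 N a cb

/-- D4 the path starting at the neighbour of a vertex missing `h` -/
def tE1 : Prop := ∀ (V : Type u) (G : SimpleGraph V) (c : PC G 4) (Z P : Set V) (N r l : ℕ),
  Ctx c P N → ∀ (β β' h h' : Fin 4) (z y : V), Pal β β' h h' →
  GoodV c Z P (Clean (c.S 0) (c.S 1) (2 * N)) z → c.S h z = z → l ≤ r →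
  StallAt (c.S h) (cutS P (c.S β)) l (c.S β z) →
  (∀ j, j ≤ l → al (c.S h) (cutS P (c.S β)) j (c.S β z) ∉ Z) →
  al (c.S h) (cutS P (c.S β)) l (c.S β z) = y →
  ¬ (y ∈ P ∧ (GoodV c Z P (Clean (c.S 0) (c.S 1) (2 * N)) y →
    (¬ c.Full (c.S β z) → ¬ c.Full y) ∧
    (c.Full (c.S β z) → ¬ c.Full y ∨ (c.S h' y = z ∧ c.S h y ∉ P)))) →
  ∃ cb, CutImp c Z P (Clean (c.S 0) (c.S 1) (2 * N)) (r + 30) N z cb

/-- D5 the path starting at a neighbour off `P` of a full vertex -/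
def tE2 : Prop := ∀ (V : Type u) (G : SimpleGraph V) (c : PC G 4) (Z P : Set V) (N r l : ℕ),
  Ctx c P N → ∀ (β β' h h' : Fin 4) (a y : V), Pal β β' h h' →
  GoodV c Z P (Clean (c.S 0) (c.S 1) (2 * N)) a → c.Full a → c.S h' a ∉ P → l ≤ r →
  StallAt (cutS P (c.S β)) (c.S h) l (c.S h' a) →
  (∀ j, j ≤ l → al (cutS P (c.S β)) (c.S h) j (c.S h' a) ∉ Z) →
  al (cutS P (c.S β)) (c.S h) l (c.S h' a) = y →
  ¬ (y ∈ P ∧ (GoodV c Z P (Clean (c.S 0) (c.S 1) (2 * N)) y → ¬ c.Full y ∨ y = a)) →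
  ∃ cb, CutImp c Z P (Clean (c.S 0) (c.S 1) (2 * N)) (r + 30) N a cb

/-! ### E. The count -/

/-- the facts about an optimal colouring which are used in the count -/
structure Facts {V : Type u} [MeasurableSpace V] {G : SimpleGraph V} (c : PCol G 4)
    (μ : Measure V) (Z P Q : Set V) (r : ℕ) : Prop where
  fa : ∀ᵐ z ∂μ, z ∈ Q → ∀ β β' h h' : Fin 4, Pal β β' h h' → c.S h z = z →
    c.S h (c.S β z) ≠ c.S β z
  fb : ∀ᵐ z ∂μ, z ∈ Q → ¬ (toPC c).Full (c.S 0 z) → ¬ (toPC c).Full (c.S 1 z) →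
    ∀ β β' h h' : Fin 4, Pal β β' h h' → c.S h z = z → ∀ l, l ≤ r →
    StallAt (c.S h') (c.S h) l z → ∃ j, j ≤ l ∧ al (c.S h') (c.S h) j z ∈ Z
  f1 : ∀ᵐ a ∂μ, a ∈ Q → (toPC c).Full a → ∀ β β' h h' : Fin 4, Pal β β' h h' →
    c.S β (c.S h a) ≠ c.S h a
  e1 : ∀ᵐ z ∂μ, z ∈ Q → ∀ β β' h h' : Fin 4, Pal β β' h h' → c.S h z = z → ∀ l y, l ≤ r →
    StallAt (c.S h) (cutS P (c.S β)) l (c.S β z) →
    (∀ j, j ≤ l → al (c.S h) (cutS P (c.S β)) j (c.S β z) ∉ Z) →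
    al (c.S h) (cutS P (c.S β)) l (c.S β z) = y →
    y ∈ P ∧ (y ∈ Q → (¬ (toPC c).Full (c.S β z) → ¬ (toPC c).Full y) ∧
      ((toPC c).Full (c.S β z) → ¬ (toPC c).Full y ∨ (c.S h' y = z ∧ c.S h y ∉ P)))
  e2 : ∀ᵐ a ∂μ, a ∈ Q → (toPC c).Full a → ∀ β β' h h' : Fin 4, Pal β β' h h' →
    c.S h' a ∉ P → ∀ l y, l ≤ r → StallAt (cutS P (c.S β)) (c.S h) l (c.S h' a) →
    (∀ j, j ≤ l → al (cutS P (c.S β)) (c.S h) j (c.S h' a) ∉ Z) →
    al (cutS P (c.S β)) (c.S h) l (c.S h' a) = y →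
    y ∈ P ∧ (y ∈ Q → ¬ (toPC c).Full y ∨ y = a)

/-- E1 the count -/
def tCOUNT : Prop := ∀ (V : Type u) [MeasurableSpace V] [StandardBorelSpace V]
    (G : SimpleGraph V) (c : PCol G 4) (μ : Measure V) [IsProbabilityMeasure μ], Inv G μ →
  ∀ (Z P Q : Set V) (r : ℕ), MeasurableSet Z → MeasurableSet P → MeasurableSet Q → 1 ≤ r →
  (toPC c).Ind → (∀ x ∈ P, c.S 0 x ∈ P ∧ c.S 1 x ∈ P) → Q ⊆ P →
  (∀ x ∈ Q, c.S 0 x ≠ x ∧ c.S 1 x ≠ x) → Facts c μ Z P Q r →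
  μ.real P ≤ 1000 * (μ.real (P \ Q) + 1 / r + r * μ.real Z)

/-! ### F. The cut step -/

/-- the standing assumptions on the graph -/
structure Gr {V : Type u} [MeasurableSpace V] (G : SimpleGraph V) (μ : Measure V) : Prop where
  borel : MeasurableSet {p : V × V | G.Adj p.1 p.2}
  deg : ∀ x, (G.neighborSet x).encard ≤ 4
  ind : ∀ x y, G.Adj x y → (G.neighborSet x).encard < 4 ∨ (G.neighborSet y).encard < 4
  inv : Inv G μ

/-- F1 most points of `P` are good -/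
def tGOOD : Prop := ∀ (V : Type u) [MeasurableSpace V] [StandardBorelSpace V]
    (G : SimpleGraph V) (c : PCol G 4) (μ : Measure V) [IsProbabilityMeasure μ], Inv G μ →
  ∀ (Z P Cl : Set V), MeasurableSet Z → MeasurableSet P → MeasurableSet Cl →
  MeasurableSet {x | GoodV (toPC c) Z P Cl x} ∧
  μ.real (P \ {x | GoodV (toPC c) Z P Cl x}) ≤ 85 * (μ.real Z + μ.real (P \ Cl))

/-- F2 the cut step -/
def tCUT : Prop := ∃ (C : ℕ) (δ : ℝ), 1 ≤ C ∧ 0 < δ ∧ δ < 1 ∧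
  ∀ (V : Type u) [MeasurableSpace V] [StandardBorelSpace V] (G : SimpleGraph V)
    (μ : Measure V) [IsProbabilityMeasure μ] (c0 : PCol G 4), Gr G μ →
  ∀ (Z : Set V) (m L : ℕ), MeasurableSet Z → 1 ≤ L → C * μ.real Z ≤ (1 / 4 : ℝ) ^ m →
  (1 / 2 : ℝ) ^ m ≤ μ.real (Long (c0.S 0) (c0.S 1) L) →
  ∃ c : PCol G 4, Cls μ Z c0 c ∧ L * PCol.dst μ c0 c ≤ (1 / 2 : ℝ) ^ m ∧
    μ.real (Long (c.S 0) (c.S 1) (C * 4 ^ m * L)) ≤
      (1 - δ) * μ.real (Long (c0.S 0) (c0.S 1) L)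

/-! ### G. Tokens -/

/-- G1 pointwise: a typed uncoloured edge with short exits can be coloured -/
def tTOK : Prop := ∀ (V : Type u) (G : SimpleGraph V) (c : PC G 4) (L : ℕ) (u v x1 x2 : V),
  1 ≤ L → G.Adj u v → (∀ k, c.S k u ≠ v) → (c.S 0 u = u ↔ c.S 1 u ≠ u) → x1 ≠ x2 →
  (∀ x, x = x1 ∨ x = x2 → (c.S 0 x = x ↔ c.S 1 x ≠ x) ∧ x ∉ Long (c.S 0) (c.S 1) L ∧
    (x = v ∨ ∃ k : Fin 4, (k = 2 ∨ k = 3) ∧ c.S k v = v ∧ c.S k u = x ∧ x ≠ u)) →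
  ∃ cb, TokImp c L (2 * L + 5) v u cb

/-- G2 pointwise: classification of the uncoloured edges -/
def tTYC : Prop := ∀ (V : Type u) (G : SimpleGraph V) (c : PC G 4) (u v : V) (k0 k1 k2 : Fin 4),
  G.Adj u v → (∀ k, c.S k u ≠ v) → c.S k0 u = u → k1 ≠ k2 → c.S k1 v = v → c.S k2 v = v →
  (c.S k1 u ≠ u → ¬ c.Full (c.S k1 u)) → (c.S k2 u ≠ u → ¬ c.Full (c.S k2 u)) →
  (∃ cb, TokImp c 1 5 v u cb) ∨ ∃ σ : Equiv.Perm (Fin 4),
    (c.S (σ 0) u = u ↔ c.S (σ 1) u ≠ u) ∧ ∃ x1 x2, x1 ≠ x2 ∧ ∀ x, x = x1 ∨ x = x2 →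
      (c.S (σ 0) x = x ↔ c.S (σ 1) x ≠ x) ∧ (x = v ∨ ∃ k : Fin 4, (k = 2 ∨ k = 3) ∧
        c.S (σ k) v = v ∧ c.S (σ k) u = x ∧ x ≠ u)

/-- G3 at an optimal colouring a fixed proportion of the uncoloured edges is typed -/
def tTYPE : Prop := ∀ (V : Type u) [MeasurableSpace V] [StandardBorelSpace V]
    (G : SimpleGraph V) (g : Gen G 4) (c : PCol G 4) (μ : Measure V) [IsProbabilityMeasure μ],
  Gr G μ → (∀ c' : PCol G 4, FW μ g c ≤ FW μ g c' + dD μ 1 c c') →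
  ∃ σ : Equiv.Perm (Fin 4), FW μ g c ≤ 100 * TY μ g (relab σ c)

/-- G4 general properties of the functional -/
def tFWP : Prop := ∀ (V : Type u) [MeasurableSpace V] [StandardBorelSpace V]
    (G : SimpleGraph V) (g : Gen G 4) (μ : Measure V) [IsProbabilityMeasure μ],
  (∀ c : PCol G 4, 0 ≤ FW μ g c ∧ FW μ g c ≤ 6 ∧ ((FE μ g c).toReal ≤ FW μ g c)) ∧
  (∀ c c' : PCol G 4, FW μ g c ≤ FW μ g c' + 6 * PCol.dst μ c c') ∧
  (∀ (c : PCol G 4) (σ : Equiv.Perm (Fin 4)), FW μ g (relab σ c) = FW μ g c) ∧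
  (∀ (c c' : PCol G 4) (σ : Equiv.Perm (Fin 4)),
    PCol.dst μ (relab σ c) (relab σ c') = PCol.dst μ c c')

/-- G5 the zone of the uncoloured edges -/
def tZONE : Prop := ∀ (V : Type u) [MeasurableSpace V] [StandardBorelSpace V]
    (G : SimpleGraph V) (g : Gen G 4) (c : PCol G 4) (μ : Measure V) [IsProbabilityMeasure μ],
  Gr G μ → ∃ Z : Set V, MeasurableSet Z ∧ μ.real Z ≤ 10 * FW μ g c ∧
    ∀ c' : PCol G 4, Cls μ Z c c' → FW μ g c' = FW μ g c ∧ TY μ g c' = TY μ g c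

/-- G6 the removal step -/
def tREM : Prop := ∃ c1 c2 : ℝ, 0 < c1 ∧ c1 < 1 ∧ 0 < c2 ∧
  ∀ (V : Type u) [MeasurableSpace V] [StandardBorelSpace V] (G : SimpleGraph V) (g : Gen G 4)
    (c : PCol G 4) (μ : Measure V) [IsProbabilityMeasure μ], Gr G μ → ∀ (L : ℕ), 1 ≤ L →
  FW μ g c ≤ 100 * TY μ g c → μ.real (Long (c.S 0) (c.S 1) L) ≤ c2 * L * FW μ g c →
  ∃ c' : PCol G 4, FW μ g c' ≤ (1 - c1) * FW μ g c ∧
    PCol.dst μ c c' ≤ 1000 * L * FW μ g c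

/-! ### H. Assembly -/

/-- H1 one round -/
def tRS : Prop := ∃ ρ C Γ : ℝ, 0 ≤ ρ ∧ ρ < 1 ∧ 1 ≤ C ∧ 1 ≤ Γ ∧
  ∀ (V : Type u) [MeasurableSpace V] [StandardBorelSpace V] (G : SimpleGraph V) (g : Gen G 4)
    (μ : Measure V) [IsProbabilityMeasure μ], Gr G μ → ∀ (m : ℕ) (c0 : PCol G 4),
  ∃ c : PCol G 4, FW μ g c ≤ ρ * FW μ g c0 ∧
    PCol.dst μ c0 c ≤ C * ((1 / 2 : ℝ) ^ m + Γ ^ ((m + 1) ^ 2) * FW μ g c0)

/-- H2 the theorem -/
def tMAIN : Prop := ∀ (V : Type u) [MeasurableSpace V] [StandardBorelSpace V]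
    (G : SimpleGraph V) (μ : Measure V) [IsProbabilityMeasure μ], Gr G μ →
  ∃ c : PCol G 4, ∀ᵐ x ∂μ, ∀ y, G.Adj x y → ∃ k, c.S k x = y

end Pool.Agent.MEP
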