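import Pool.Agent.MEP.Walk
import Pool.Agent.MEP.Targets
import Pool.Agent.BGL.EKA
import Pool.Agent.MEC.Complete

set_option autoImplicit false

/-! MP_fff3e1_lc, `Δ = 4`, invariant measures: the two applications of Ekeland's principle. -/

namespace Pool.Agent.MEP

open MeasureTheory Set Filter
open scoped ENNReal
open Pool.Agent.MEC

universe u

namespace EKC_

section general

variable {V : Type u} [MeasurableSpace V] {G : SimpleGraph V}

/-- the set of all changed points is controlled by the distance -/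
lemma real_any_le_dst (μ : Measure V) [IsFiniteMeasure μ] (c c' : PCol G 4) :
    μ.real {x | ∃ k, c.S k x ≠ c'.S k x} ≤ PCol.dst μ c c' := by
  have h : {x | ∃ k, c.S k x ≠ c'.S k x} = ⋃ k, {x | c.S k x ≠ c'.S k x} := by
    ext x; simp
  rw [h]
  unfold PCol.dst
  exact measureReal_iUnion_fintype_le _

lemma mp_S {μ : Measure V} (hI : Inv G μ) (c : PCol G 4) (k : Fin 4) :
    MeasurePreserving (c.S k) μ μ :=
  hI (c.S k) (c.meas k) (c.invol k) (c.adj k)

lemma Cls_self (μ : Measure V) (Z : Set V) (c : PCol G 4) : Cls μ Z c c :=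
  ⟨Eventually.of_forall fun _ _ _ => rfl, Eventually.of_forall fun _ => rfl⟩

lemma Cls_lim [MeasurableEq V] (μ : Measure V) [IsFiniteMeasure μ] (Z : Set V) (c0 : PCol G 4)
    (c : ℕ → PCol G 4) (hs : Summable fun n => PCol.dst μ (c n) (c (n + 1)))
    (h : ∀ n, Cls μ Z c0 (c n)) : Cls μ Z c0 (PCol.lim c) := by
  have hl := PCol.ae_eventually_eq_lim (ν := μ) c hs
  have h1 : ∀ᵐ x ∂μ, ∀ n, x ∈ Z → ∀ k, (c n).S k x = c0.S k x := ae_all_iff.2 fun n => (h n).1
  have h2 : ∀ᵐ x ∂μ, ∀ n, range (fun k => (c n).S k x) = range (fun k => c0.S k x) :=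
    ae_all_iff.2 fun n => (h n).2
  have hex : ∀ᵐ x ∂μ, ∃ n, ∀ k, (c n).S k x = (PCol.lim c).S k x := by
    filter_upwards [hl] with x hx
    exact (eventually_all.2 hx).exists
  constructor
  · filter_upwards [hex, h1] with x hx h1x hZ k
    obtain ⟨n, hn⟩ := hx
    rw [← hn k]
    exact h1x n hZ k
  · filter_upwards [hex, h2] with x hx h2x
    obtain ⟨n, hn⟩ := hx
    rw [← h2x n]
    congr 1
    funext k
    exact (hn k).symm

lemma dU_nonneg (μ : Measure V) (c c' : PCol G 4) : 0 ≤ dU μ c c' := measureReal_nonneg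

lemma dU_self (μ : Measure V) (c : PCol G 4) : dU μ c c = 0 := by
  unfold dU
  simp

lemma dU_comm (μ : Measure V) (c c' : PCol G 4) : dU μ c c' = dU μ c' c := by
  unfold dU
  congr 1
  ext x
  simp only [mem_ofPred_eq]
  constructor
  · rintro h ⟨h1, h2, h3⟩
    exact h ⟨h1.symm, h2.symm, h3.symm⟩
  · rintro h ⟨h1, h2, h3⟩
    exact h ⟨h1.symm, h2.symm, h3.symm⟩

lemma dU_triangle (μ : Measure V) [IsFiniteMeasure μ] (c c' c'' : PCol G 4) :
    dU μ c c'' ≤ dU μ c c' + dU μ c' c'' := by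
  unfold dU
  refine le_trans (measureReal_mono ?_) (measureReal_union_le _ _)
  intro x hx
  simp only [mem_ofPred_eq, mem_union] at *
  by_contra h
  push Not at h
  obtain ⟨⟨a1, a2, a3⟩, b1, b2, b3⟩ := h
  exact hx ⟨a1.trans b1, a2.trans b2, a3.trans b3⟩

lemma dU_le_dst (μ : Measure V) [IsFiniteMeasure μ] (c c' : PCol G 4) :
    dU μ c c' ≤ PCol.dst μ c c' := by
  refine le_trans (measureReal_mono ?_) (real_any_le_dst μ c c')
  intro x hx
  simp only [mem_ofPred_eq] at *
  by_contra h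
  push Not at h
  exact hx ⟨by rw [h 0, h 1], h 2, h 3⟩

variable {L : ℕ}

lemma dD_nonneg (μ : Measure V) [IsFiniteMeasure μ] (c c' : PCol G 4) : 0 ≤ dD μ L c c' := by
  have h1 := dU_nonneg μ c c'
  have h2 := PCol.dst_nonneg (ν := μ) c c'
  unfold dD
  positivity

lemma dD_self (μ : Measure V) [IsFiniteMeasure μ] (c : PCol G 4) : dD μ L c c = 0 := by
  unfold dD
  rw [dU_self, PCol.dst_self]
  simp

lemma dD_comm (μ : Measure V) [IsFiniteMeasure μ] (c c' : PCol G 4) :
    dD μ L c c' = dD μ L c' c := by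
  unfold dD
  rw [dU_comm, PCol.dst_comm]

lemma dD_triangle (μ : Measure V) [IsFiniteMeasure μ] (c c' c'' : PCol G 4) :
    dD μ L c c'' ≤ dD μ L c c' + dD μ L c' c'' := by
  have h1 := dU_triangle μ c c' c''
  have h2 := PCol.dst_triangle (ν := μ) c c' c''
  unfold dD
  have h3 : dU μ c c'' / 1000 ≤ (dU μ c c' + dU μ c' c'') / 1000 :=
    div_le_div_of_nonneg_right h1 (by norm_num)
  have h4 : PCol.dst μ c c'' / (1000 * L) ≤
      (PCol.dst μ c c' + PCol.dst μ c' c'') / (1000 * L) :=
    div_le_div_of_nonneg_right h2 (by positivity)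
  rw [add_div] at h3 h4
  linarith

lemma dst_le_dD (μ : Measure V) [IsFiniteMeasure μ] (hL : 1 ≤ L) (c c' : PCol G 4) :
    PCol.dst μ c c' ≤ 1000 * L * dD μ L c c' := by
  have h1 := dU_nonneg μ c c'
  have hL' : (0 : ℝ) < L := by exact_mod_cast hL
  have h2 : PCol.dst μ c c' / (1000 * L) ≤ dD μ L c c' := by
    unfold dD
    have : 0 ≤ dU μ c c' / 1000 := by positivity
    linarith
  rw [div_le_iff₀ (by positivity)] at h2
  linarith

lemma dD_le_dst (μ : Measure V) [IsFiniteMeasure μ] (hL : 1 ≤ L) (c c' : PCol G 4) :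
    dD μ L c c' ≤ PCol.dst μ c c' := by
  have h1 := dU_le_dst μ c c'
  have h0 := PCol.dst_nonneg (ν := μ) c c'
  have hL' : (1 : ℝ) ≤ L := by exact_mod_cast hL
  have h2 : PCol.dst μ c c' / (1000 * L) ≤ PCol.dst μ c c' / 1000 := by
    apply div_le_div_of_nonneg_left h0 (by norm_num)
    linarith
  unfold dD
  have h3 : dU μ c c' / 1000 ≤ PCol.dst μ c c' / 1000 :=
    div_le_div_of_nonneg_right h1 (by norm_num)
  have h4 : PCol.dst μ c c' / 1000 ≤ PCol.dst μ c c' / 2 := by
    apply div_le_div_of_nonneg_left h0 (by norm_num) (by norm_num)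
  linarith

lemma dD_finsum (μ : Measure V) [IsFiniteMeasure μ] (c : ℕ → PCol G 4) (n M : ℕ) :
    dD μ L (c n) (c (n + M)) ≤ ∑ m ∈ Finset.range M, dD μ L (c (n + m)) (c (n + m + 1)) := by
  induction M with
  | zero => simp [dD_self]
  | succ M ih =>
    rw [Finset.sum_range_succ]
    have h := dD_triangle (L := L) μ (c n) (c (n + M)) (c (n + M + 1))
    have e : n + (M + 1) = n + M + 1 := rfl
    rw [e]
    linarith

/-- completeness for the metric of the removal step -/
lemma dD_complete [MeasurableEq V] (μ : Measure V) [IsFiniteMeasure μ] (hL : 1 ≤ L)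
    (c : ℕ → PCol G 4) (hs : Summable fun n => dD μ L (c n) (c (n + 1))) (n : ℕ) :
    dD μ L (c n) (PCol.lim c) ≤ ∑' m, dD μ L (c (n + m)) (c (n + m + 1)) := by
  have hsd : Summable fun n => PCol.dst μ (c n) (c (n + 1)) := by
    refine Summable.of_nonneg_of_le (fun n => PCol.dst_nonneg _ _) (fun n => ?_)
      (hs.mul_left (1000 * (L : ℝ)))
    exact dst_le_dD μ hL _ _
  have hs' : Summable fun m => dD μ L (c (n + m)) (c (n + m + 1)) := by
    have := (summable_nat_add_iff n).2 hs
    refine this.congr fun m => ?_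
    simp [add_comm]
  have hT : Tendsto (fun M => ∑' k, PCol.dst μ (c (k + M)) (c (k + M + 1))) atTop (nhds 0) :=
    tendsto_sum_nat_add fun m => PCol.dst μ (c m) (c (m + 1))
  have hT' : Tendsto (fun M => ∑' k, PCol.dst μ (c (k + (n + M))) (c (k + (n + M) + 1))) atTop
      (nhds 0) := hT.comp (tendsto_atTop_mono (fun M => Nat.le_add_left M n) tendsto_id)
  have hb : ∀ M, dD μ L (c n) (PCol.lim c) ≤ ∑' m, dD μ L (c (n + m)) (c (n + m + 1)) +
      ∑' k, PCol.dst μ (c (k + (n + M))) (c (k + (n + M) + 1)) := by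
    intro M
    have h1 := dD_triangle (L := L) μ (c n) (c (n + M)) (PCol.lim c)
    have h2 := dD_finsum (L := L) μ c n M
    have h3 : ∑ m ∈ Finset.range M, dD μ L (c (n + m)) (c (n + m + 1)) ≤
        ∑' m, dD μ L (c (n + m)) (c (n + m + 1)) :=
      hs'.sum_le_tsum _ fun m _ => dD_nonneg μ _ _
    have h4 := dD_le_dst μ hL (c (n + M)) (PCol.lim c)
    have h5 := PCol.dst_lim_le (ν := μ) c hsd (n + M)
    have h6 : ∑' m, PCol.dst μ (c (n + M + m)) (c (n + M + m + 1)) =
        ∑' k, PCol.dst μ (c (k + (n + M))) (c (k + (n + M) + 1)) := by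
      refine tsum_congr fun m => ?_
      rw [add_comm (n + M) m]
    rw [h6] at h5
    linarith
  have := ge_of_tendsto' (tendsto_const_nhds.add hT') hb
  simpa using this

end general

end EKC_

open EKC_

theorem allEKC (h_FLIP : tFLIP.{u}) : tEKC.{u} := by
  intro V _ _ G c0 μ _ hI Z hZ N lam hlam
  set a : ℝ := 2 * (N + 1) with ha
  have hapos : 0 < a := by rw [ha]; positivity
  have hflip : ∀ c c' : PCol G 4, μ.real (Far (c.S 0) (c.S 1) N) ≤
      μ.real (Far (c'.S 0) (c'.S 1) N) + a * PCol.dst μ c c' := by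
    intro c c'
    have h := h_FLIP V μ (c.S 0) (c.S 1) (c'.S 0) (c'.S 1) (c.invol 0) (c.invol 1)
      (c'.invol 0) (c'.invol 1) (mp_S hI c 0) (mp_S hI c 1) (c'.meas 0) (c'.meas 1) N
    have h1 : μ.real {x | c'.S 0 x ≠ c.S 0 x ∨ c'.S 1 x ≠ c.S 1 x} ≤ PCol.dst μ c c' := by
      refine le_trans (measureReal_mono ?_) (real_any_le_dst μ c c')
      rintro x (hx | hx)
      · exact ⟨0, fun h => hx h.symm⟩
      · exact ⟨1, fun h => hx h.symm⟩
    have h2 := mul_le_mul_of_nonneg_left h1 hapos.le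
    linarith
  obtain ⟨c, hc1, hc2⟩ := Pool.Agent.BGL.EKA_.exists_opt
    (X := {c : PCol G 4 // Cls μ Z c0 c})
    (Φ := fun c => μ.real (Far (c.1.S 0) (c.1.S 1) N))
    (d := fun c c' => a * PCol.dst μ c.1 c'.1)
    (fun c => measureReal_nonneg)
    (fun c c' => mul_nonneg hapos.le (PCol.dst_nonneg _ _))
    (fun c => by simp only [PCol.dst_self, mul_zero])
    (fun c c' => by simp only [PCol.dst_comm c.1 c'.1])
    (fun c c' c'' => by
      have := mul_le_mul_of_nonneg_left (PCol.dst_triangle (ν := μ) c.1 c'.1 c''.1) hapos.le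
      linarith)
    (fun c c' => hflip c.1 c'.1)
    (fun c hs => by
      have hs1 : Summable fun n => PCol.dst μ (c n).1 (c (n + 1)).1 := by
        have h := hs.mul_left a⁻¹
        refine h.congr fun n => ?_
        field_simp
      refine ⟨⟨PCol.lim fun n => (c n).1, Cls_lim μ Z c0 (fun n => (c n).1) hs1
        fun n => (c n).2⟩, fun n => ?_⟩
      have h := PCol.dst_lim_le (ν := μ) (fun n => (c n).1) hs1 n
      simp only
      rw [tsum_mul_left]
      exact mul_le_mul_of_nonneg_left h hapos.le)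
    (lam / a) (div_pos hlam hapos) ⟨c0, Cls_self μ Z c0⟩
  have hcancel : ∀ r : ℝ, lam / a * (a * r) = lam * r := by
    intro r
    field_simp
  refine ⟨c.1, c.2, ?_, ?_⟩
  · have := hc2
    simp only at this
    rw [hcancel] at this
    exact this
  · intro c' hc'
    have := hc1 ⟨c', hc'⟩
    simp only at this
    rw [hcancel] at this
    exact this

theorem allEKD (h_FWP : tFWP.{u}) : tEKD.{u} := by
  intro V _ _ G g μ _ hI L hL c0
  obtain ⟨h1, h2, -, -⟩ := h_FWP V G g μ
  have hL' : (0 : ℝ) < L := by exact_mod_cast hL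
  set a : ℝ := 6000 * L with ha
  have hapos : 0 < a := by rw [ha]; positivity
  obtain ⟨c, hc1, hc2⟩ := Pool.Agent.BGL.EKA_.exists_opt
    (X := PCol G 4) (Φ := fun c => FW μ g c) (d := fun c c' => a * dD μ L c c')
    (fun c => (h1 c).1)
    (fun c c' => mul_nonneg hapos.le (dD_nonneg μ _ _))
    (fun c => by simp only [dD_self, mul_zero])
    (fun c c' => by simp only [dD_comm μ c c'])
    (fun c c' c'' => by
      have := mul_le_mul_of_nonneg_left (dD_triangle (L := L) μ c c' c'') hapos.le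
      linarith)
    (fun c c' => by
      have e1 := h2 c c'
      have e2 := dst_le_dD μ hL c c'
      have e3 : 6 * PCol.dst μ c c' ≤ a * dD μ L c c' := by
        rw [ha]
        linarith
      linarith)
    (fun c hs => by
      have hs1 : Summable fun n => dD μ L (c n) (c (n + 1)) := by
        have h := hs.mul_left a⁻¹
        refine h.congr fun n => ?_
        field_simp
      refine ⟨PCol.lim c, fun n => ?_⟩
      have h := dD_complete μ hL c hs1 n
      rw [tsum_mul_left]
      exact mul_le_mul_of_nonneg_left h hapos.le)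
    a⁻¹ (inv_pos.2 hapos) c0
  have hcancel : ∀ r : ℝ, a⁻¹ * (a * r) = r := by
    intro r
    field_simp
  refine ⟨c, ?_, ?_⟩
  · have := hc2
    rw [hcancel] at this
    exact this
  · intro c'
    have := hc1 c'
    rw [hcancel] at this
    exact this

end Pool.Agent.MEP
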