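import Pool.Agent.MEP.Ops

set_option autoImplicit false

/-! MP_fff3e1_lc: the neighbours of a full vertex along `2` and `3` have both colours `0` and `1`
(target F1). -/

namespace Pool.Agent.MEP

open Set

universe u

namespace F1_

variable {V : Type u} {G : SimpleGraph V}

/-- a cyclic permutation of the four colours -/
lemma perm4 {b b' h h' : Fin 4} (p : Pal b b' h h') :
    ∃ π : Equiv.Perm (Fin 4), π h = b ∧ π b = h' ∧ π h' = b' ∧ π b' = h := by
  refine ⟨Equiv.swap h b * Equiv.swap b h' * Equiv.swap h' b', ?_⟩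
  obtain ⟨h1 | h1, h2 | h2⟩ := p <;> obtain ⟨rfl, rfl⟩ := h1 <;> obtain ⟨rfl, rfl⟩ := h2 <;> decide

/-- a cyclic permutation of three colours -/
lemma perm3 {b b' h h' : Fin 4} (p : Pal b b' h h') :
    ∃ π : Equiv.Perm (Fin 4), π h = b ∧ π b = h' ∧ π h' = h ∧ π b' = b' := by
  refine ⟨Equiv.swap h b * Equiv.swap b h', ?_⟩
  obtain ⟨h1 | h1, h2 | h2⟩ := p <;> obtain ⟨rfl, rfl⟩ := h1 <;> obtain ⟨rfl, rfl⟩ := h2 <;> decide

lemma encard_five (a b c d e : V) : ({a, b, c, d, e} : Set V).encard ≤ 5 := by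
  have h0 := encard_insert_le ({b, c, d, e} : Set V) a
  have h1 := encard_insert_le ({c, d, e} : Set V) b
  have h2 := encard_insert_le ({d, e} : Set V) c
  have h3 := encard_insert_le ({e} : Set V) d
  rw [encard_singleton] at h3
  calc ({a, b, c, d, e} : Set V).encard ≤ ({b, c, d, e} : Set V).encard + 1 := h0
    _ ≤ (({c, d, e} : Set V).encard + 1) + 1 := by gcongr
    _ ≤ ((({d, e} : Set V).encard + 1) + 1) + 1 := by gcongr
    _ ≤ (((1 + 1) + 1) + 1) + 1 := by gcongr
    _ = 5 := by norm_num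

/-- all changes happen at `a` and its neighbours; the end is `c.S b a` -/
lemma close_up (h_WIN : tWIN.{u}) {c cb : PC G 4} {Z P : Set V} {N : ℕ}
    (hc : Ctx c P N) {b b' h h' : Fin 4} {a : V} (p : Pal b b' h h')
    (hg : GoodV c Z P (Clean (c.S 0) (c.S 1) (2 * N)) a)
    (h1 : ∀ z k, cb.S k z ≠ c.S k z → z = a ∨ ∃ j, z = c.S j a)
    (h2 : ∀ z k, (k = 0 ∨ k = 1) → cb.S k z ≠ c.S k z → z ∉ P ∨ z = a ∨ z = c.S b a ∨
      z = c.S b' a)
    (h3 : cb.S b (c.S b a) = c.S b a)
    (h4 : ∀ x, range (fun k => cb.S k x) = range (fun k => c.S k x)) :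
    CutImp c Z P (Clean (c.S 0) (c.S 1) (2 * N)) 20 N a cb := by
  have hN := hc.N2
  have hball : ∀ z k, cb.S k z ≠ c.S k z → z ∈ c.Ball 1 a := by
    intro z k hz
    rcases h1 z k hz with rfl | ⟨j, rfl⟩
    · exact c.Ball_self 1 _
    · exact c.Ball_one j a
  have haP : a ∈ P := hg.1
  have hxP : c.S b a ∈ P := (hc.closed p haP).1
  have hxC : c.S b a ∈ Clean (c.S 0) (c.S 1) (2 * N) :=
    (hg.2 _ (c.Ball_mono (by omega) (c.Ball_one b a))).2 hxP
  refine ⟨?_, ?_, h4, ?_, ?_, ?_⟩
  · intro z k hz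
    exact c.Ball_mono (by omega) (hball z k hz)
  · have hsub : {x | ∃ k, cb.S k x ≠ c.S k x} ⊆ {a, c.S b a, c.S b' a, c.S h a, c.S h' a} := by
      rintro z ⟨k, hz⟩
      rcases h1 z k hz with rfl | ⟨j, rfl⟩
      · simp
      · rcases p.all j with rfl | rfl | rfl | rfl <;> simp
    refine (encard_le_encard hsub).trans ((encard_five _ _ _ _ _).trans ?_)
    norm_num
  · intro z k hz
    exact (hg.2 z (c.Ball_mono (by omega) (hball z k hz))).1
  · intro z hz
    have hz' : z ∈ c.Ball 3 a := by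
      rcases hz with hz | hz
      · exact c.Ball_mono (by omega) (hball z 0 hz)
      · exact c.Ball_mono (by omega) (hball z 1 hz)
    by_cases hP : z ∈ P
    · exact Or.inr ((hg.2 z hz').2 hP)
    · exact Or.inl hP
  · refine ⟨c.S b a, hxC, b, b', p.1, c.Ball_mono (by omega) (c.Ball_one b a), h3, ?_⟩
    intro n hn1 hnN k hk
    by_contra hcon
    have hwP : al (c.S b') (c.S b) n (c.S b a) ∈ P :=
      al_mem (fun x hx => (hc.closed p hx).2) (fun x hx => (hc.closed p hx).1) n hxP
    have hxC' : c.S b a ∈ Clean (c.S b') (c.S b) (2 * N) := by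
      rw [clean_pal p.swap_b]; exact hxC
    have hwin := h_WIN V (c.S b') (c.S b) (c.invol b') (c.invol b) (2 * N) (c.S b a) hxC'
    rcases h2 _ k ((p.U k).1 hk) hcon with e | e | e | e
    · exact e hwP
    · have e1 : a = al (c.S b) (c.S b') 1 (c.S b a) := by rw [al_one, c.invol]
      have e2 := (hwin n 1 (by omega) (by omega)).2.2 (e.trans e1)
      omega
    · have e2 := (hwin n 0 (by omega) (by omega)).1 e
      omega
    · have e1 : c.S b' a = al (c.S b) (c.S b') 2 (c.S b a) := by rw [al_two, c.invol]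
      have e2 := (hwin n 2 (by omega) (by omega)).2.2 (e.trans e1)
      omega

/-- a neighbour of a good point which misses `0` or `1` is off `P` -/
lemma off_P {c : PC G 4} {Z P : Set V} {N : ℕ} (hc : Ctx c P N) {b b' h h' : Fin 4} {a : V}
    (p : Pal b b' h h') (hg : GoodV c Z P (Clean (c.S 0) (c.S 1) (2 * N)) a) (j : Fin 4)
    (hm : c.S b (c.S j a) = c.S j a) : c.S j a ∉ P := by
  intro hP
  have hcl := (hg.2 _ (c.Ball_mono (by omega) (c.Ball_one j a))).2 hP
  exact (clean_ne p (by have := hc.N2; omega) hcl).1 hm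

/-- flip of the path `c.S g a, a, c.S b a` -/
lemma flip3 (h_WIN : tWIN.{u}) {c : PC G 4} {Z P : Set V} {N : ℕ} (hc : Ctx c P N)
    {b b' h h' : Fin 4} {a : V} (p : Pal b b' h h')
    (hg : GoodV c Z P (Clean (c.S 0) (c.S 1) (2 * N)) a)
    (h1 : c.S b (c.S h a) = c.S h a) (h2 : c.S h (c.S b a) = c.S b a) :
    ∃ cb, CutImp c Z P (Clean (c.S 0) (c.S 1) (2 * N)) 20 N a cb := by
  have hY : ∀ x ∈ ({c.S h a, a, c.S b a} : Set V),
      c.S b x ∈ ({c.S h a, a, c.S b a} : Set V) ∧ c.S h x ∈ ({c.S h a, a, c.S b a} : Set V) := by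
    intro x hx
    rcases hx with rfl | rfl | hx
    · rw [h1, c.invol]; simp
    · simp
    · have hx' : x = c.S b a := hx
      subst hx'
      rw [h2, c.invol]; simp
  refine ⟨c.flip b h {c.S h a, a, c.S b a} hY, close_up h_WIN hc p hg ?_ ?_ ?_ ?_⟩
  · intro z k hz
    rcases PC.flip_changed c _ _ _ _ hz with e | e | e
    · exact Or.inr ⟨h, e⟩
    · exact Or.inl e
    · exact Or.inr ⟨b, e⟩
  · intro z k _ hz
    rcases PC.flip_changed c _ _ _ _ hz with e | e | e
    · left
      rw [e]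
      exact off_P hc p hg h h1
    · exact Or.inr (Or.inl e)
    · exact Or.inr (Or.inr (Or.inl e))
  · rw [PC.flip_left c _ _ _ _ (by simp)]
    exact h2
  · intro x
    exact PC.flip_range c _ _ _ _ x

end F1_

theorem allF1 (h_WIN : tWIN.{u}) : tF1.{u} := by
  intro V G c Z P N hc b b' h h' a p hg hf hv
  have hN := hc.N2
  obtain ⟨q1, q2, q3, q4, q5, q6⟩ := p.ne
  have hnf : ∀ j, ¬ c.Full (c.S j a) := by
    intro j hj
    obtain ⟨k, hk⟩ := hc.ind (c.S j a) a (c.adj j a (hf j)).symm hj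
    exact hf k hk
  have hP := hc.closed p hg.1
  have hcl : ∀ j, c.S j a ∈ P → c.S j a ∈ Clean (c.S 0) (c.S 1) (2 * N) := fun j hj =>
    (hg.2 _ (c.Ball_mono (by omega) (c.Ball_one j a))).2 hj
  have hx := miss_of_clean p (by omega) (hcl b hP.1) (hnf b)
  have hx' := miss_of_clean p (by omega) (hcl b' hP.2) (hnf b')
  -- (1)
  rcases hx with hx | hx
  · exact F1_.flip3 h_WIN hc p hg hv hx
  -- (2)
  have hvP := F1_.off_P hc p hg h hv
  obtain ⟨k, hk⟩ : ∃ k, c.S k (c.S h' a) = c.S h' a := by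
    have := hnf h'
    unfold PC.Full at this
    push Not at this
    exact this
  rcases p.all k with rfl | rfl | rfl | rfl
  · -- `w` misses `b`
    exact F1_.flip3 h_WIN hc p.swap_h hg hk hx
  · -- `w` misses `b'`
    have hwP := F1_.off_P hc p.swap_b hg h' hk
    rcases hx' with hx' | hx'
    · obtain ⟨π, π1, π2, π3, π4⟩ := F1_.perm4 p
      have hm : ∀ j, π j ≠ j → c.S (π j) (c.S j a) = c.S j a := by
        intro j _
        rcases p.all j with rfl | rfl | rfl | rfl
        · rw [π2]; exact hx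
        · rw [π4]; exact hx'
        · rw [π1]; exact hv
        · rw [π3]; exact hk
      refine ⟨c.rot a π hf hm, F1_.close_up h_WIN hc p hg ?_ ?_ ?_ ?_⟩
      · intro z i hz
        rcases PC.rot_changed c a π hf hm hz with e | ⟨j, _, e⟩
        · exact Or.inl e
        · exact Or.inr ⟨j, e⟩
      · intro z i _ hz
        rcases PC.rot_changed c a π hf hm hz with e | ⟨j, _, e⟩
        · exact Or.inr (Or.inl e)
        · rcases p.all j with rfl | rfl | rfl | rfl
          · exact Or.inr (Or.inr (Or.inl e))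
          · exact Or.inr (Or.inr (Or.inr e))
          · left; rw [e]; exact hvP
          · left; rw [e]; exact hwP
      · exact PC.rot_nb_old c a π hf hm (by rw [π2]; exact q3.symm)
      · intro x
        exact PC.rot_range c a π hf hm x
    · exact F1_.flip3 h_WIN hc p.swap_b.swap_h hg hk hx'
  · -- `w` misses `h`
    obtain ⟨π, π1, π2, π3, π4⟩ := F1_.perm3 p
    have hm : ∀ j, π j ≠ j → c.S (π j) (c.S j a) = c.S j a := by
      intro j hj
      rcases p.all j with rfl | rfl | rfl | rfl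
      · rw [π2]; exact hx
      · exact absurd π4 hj
      · rw [π1]; exact hv
      · rw [π3]; exact hk
    refine ⟨c.rot a π hf hm, F1_.close_up h_WIN hc p hg ?_ ?_ ?_ ?_⟩
    · intro z i hz
      rcases PC.rot_changed c a π hf hm hz with e | ⟨j, _, e⟩
      · exact Or.inl e
      · exact Or.inr ⟨j, e⟩
    · intro z i hi hz
      rcases PC.rot_changed c a π hf hm hz with e | ⟨j, _, e⟩
      · exact Or.inr (Or.inl e)
      · rcases p.all j with rfl | rfl | rfl | rfl
        · exact Or.inr (Or.inr (Or.inl e))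
        · exact Or.inr (Or.inr (Or.inr e))
        · left; rw [e]; exact hvP
        · exfalso
          apply hz
          rw [e]
          have hi' : i ≠ k ∧ i ≠ j := by
            rcases (p.U i).2 hi with rfl | rfl
            · exact ⟨q2, q3⟩
            · exact ⟨q4, q5⟩
          exact PC.rot_nb_other c a π hf hm (by rw [π3]; exact hi'.1) hi'.2
    · exact PC.rot_nb_old c a π hf hm (by rw [π2]; exact q3.symm)
    · intro x
      exact PC.rot_range c a π hf hm x
  · -- impossible: `w` has the colour `h'`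
    exfalso
    rw [c.invol] at hk
    exact hf _ hk.symm

end Pool.Agent.MEP
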