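import Pool.Agent.MEP.Ops

set_option autoImplicit false

/-! Cuts at two neighbours on a long walk missing the same colour, and at three consecutive
vertices missing a colour. -/

namespace Pool.Agent.MEP

open Set

universe u

namespace FAB_

variable {V : Type u} {G : SimpleGraph V}

/-- the walk from a clean point avoids the point and its neighbour on the other side -/
lemma win_ne (h_WIN : tWIN.{u}) {c : PC G 4} {N : ℕ} {β β' h h' : Fin 4}
    (p : Pal β β' h h') {z : V} (hz : z ∈ Clean (c.S 0) (c.S 1) (2 * N)) {n : ℕ}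
    (h1 : 1 ≤ n) (h2 : n ≤ 2 * N) (h3 : 1 ≤ N) :
    al (c.S β') (c.S β) n z ≠ z ∧ al (c.S β') (c.S β) n z ≠ c.S β z := by
  rw [← clean_pal p c (2 * N)] at hz
  have hw := h_WIN V (c.S β) (c.S β') (c.invol β) (c.invol β') (2 * N) z hz
  constructor
  · intro he
    have := (hw n 0 h2 (by omega)).2.1 he
    omega
  · intro he
    have := (hw 1 n (by omega) h2).2.2 he.symm
    omega

/-- the two points of a `β`-edge whose ends both miss `h` -/
lemma pair_closed (c : PC G 4) {β h : Fin 4} {z : V} (h1 : c.S h z = z)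
    (h2 : c.S h (c.S β z) = c.S β z) :
    ∀ x ∈ ({z, c.S β z} : Set V), c.S β x ∈ ({z, c.S β z} : Set V) ∧
      c.S h x ∈ ({z, c.S β z} : Set V) := by
  intro x hx
  rcases hx with rfl | hx
  · exact ⟨Or.inr rfl, Or.inl h1⟩
  · have hx' : x = c.S β z := hx
    subst hx'
    exact ⟨Or.inl (c.invol β z), Or.inr h2⟩

lemma mem_pair_ball (c : PC G 4) {β : Fin 4} {z x : V} {n : ℕ} (hn : 1 ≤ n)
    (hx : x ∈ ({z, c.S β z} : Set V)) : x ∈ c.Ball n z := by
  rcases hx with rfl | hx
  · exact c.Ball_self n x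
  · have hx' : x = c.S β z := hx
    subst hx'
    exact c.Ball_mono hn (c.Ball_one β z)

lemma pair_le (a b : V) : ({a, b} : Set V).encard ≤ 2 := by
  refine (encard_insert_le {b} a).trans ?_
  rw [encard_singleton]
  norm_num

/-- the basic cut -/
lemma cut (h_WIN : tWIN.{u}) {c : PC G 4} {Z P : Set V} {N : ℕ} (hc : Ctx c P N)
    {β β' h h' : Fin 4} {z : V} (p : Pal β β' h h')
    (hg : GoodV c Z P (Clean (c.S 0) (c.S 1) (2 * N)) z) (h1 : c.S h z = z)
    (h2 : c.S h (c.S β z) = c.S β z) :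
    ∃ cb, CutImp c Z P (Clean (c.S 0) (c.S 1) (2 * N)) 20 N z cb := by
  have hN := hc.N2
  have hzcl : z ∈ Clean (c.S 0) (c.S 1) (2 * N) :=
    (hg.2 z (c.Ball_self 3 z)).2 hg.1
  refine ⟨c.flip β h {z, c.S β z} (pair_closed c h1 h2), ?_, ?_, ?_, ?_, ?_, ?_⟩
  · intro x k hx
    exact mem_pair_ball c (by norm_num) (PC.flip_changed c _ _ _ _ hx)
  · have hsub : {x | ∃ k, (c.flip β h {z, c.S β z} (pair_closed c h1 h2)).S k x ≠ c.S k x} ⊆
        ({z, c.S β z} : Set V) := by
      rintro x ⟨k, hk⟩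
      exact PC.flip_changed c _ _ _ _ hk
    refine (encard_le_encard hsub).trans ?_
    refine (pair_le z (c.S β z)).trans ?_
    norm_num
  · intro x
    exact PC.flip_range c _ _ _ _ x
  · intro x k hx
    exact (hg.2 x (mem_pair_ball c (by norm_num) (PC.flip_changed c _ _ _ _ hx))).1
  · intro x hx
    have hx' : x ∈ ({z, c.S β z} : Set V) := by
      rcases hx with hx | hx
      · exact PC.flip_changed c _ _ _ _ hx
      · exact PC.flip_changed c _ _ _ _ hx
    have := (hg.2 x (mem_pair_ball c (by norm_num) hx')).2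
    by_cases hP : x ∈ P
    · exact Or.inr (this hP)
    · exact Or.inl hP
  · refine ⟨z, hzcl, β, β', p.1, c.Ball_self 20 z, ?_, ?_⟩
    · rw [PC.flip_left c _ _ _ _ (Or.inl rfl)]
      exact h1
    · intro n hn1 hn2 k _
      have hw := win_ne h_WIN p hzcl hn1 (by omega) (by omega)
      apply PC.flip_notMem
      rintro (he | he)
      · exact hw.1 he
      · exact hw.2 he

end FAB_

theorem allFa (h_WIN : tWIN.{u}) : tFa.{u} := by
  intro V G c Z P N hc β β' h h' z p hg h1 h2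
  exact FAB_.cut h_WIN hc p hg h1 h2

namespace FAB_

variable {V : Type u} {G : SimpleGraph V}

/-- the points of a stalled walk -/
def Kset (c : PC G 4) (h h' : Fin 4) (l : ℕ) (z : V) : Set V :=
  {x | ∃ j, j ≤ l ∧ x = al (c.S h') (c.S h) j z}

lemma K_closed (c : PC G 4) {h h' : Fin 4} {l : ℕ} {z : V} (h1 : c.S h z = z)
    (hs : StallAt (c.S h') (c.S h) l z) :
    ∀ x ∈ Kset c h h' l z, c.S h x ∈ Kset c h h' l z ∧ c.S h' x ∈ Kset c h h' l z := by
  rintro x ⟨j, hj, rfl⟩
  -- forwards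
  have hf : ∀ i, i ≤ l → al (c.S h') (c.S h) (i + 1) z ∈ Kset c h h' l z := by
    intro i hi
    rcases Nat.lt_or_ge i l with hlt | hge
    · exact ⟨i + 1, hlt, rfl⟩
    · have : i = l := by omega
      subst this
      exact ⟨i, le_rfl, hs.2⟩
  by_cases hev : Even j
  · constructor
    · -- backwards
      rcases Nat.eq_zero_or_pos j with h0 | h0
      · subst h0
        refine ⟨0, hj, ?_⟩
        simpa using h1
      · obtain ⟨i, rfl⟩ : ∃ i, j = i + 1 := ⟨j - 1, by omega⟩
        have hi : ¬ Even i := by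
          rw [Nat.even_add_one] at hev; exact hev
        refine ⟨i, by omega, ?_⟩
        rw [al_last_odd _ _ hi, c.invol]
    · have := hf j hj
      rwa [al_last_even _ _ hev] at this
  · constructor
    · have := hf j hj
      rwa [al_last_odd _ _ hev] at this
    · obtain ⟨i, rfl⟩ : ∃ i, j = i + 1 := by
        refine ⟨j - 1, ?_⟩
        have : j ≠ 0 := by rintro rfl; exact hev (by norm_num)
        omega
      have hi : Even i := by
        rw [Nat.even_add_one] at hev; exact not_not.1 hev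
      refine ⟨i, by omega, ?_⟩
      rw [al_last_even _ _ hi, c.invol]

/-- a point of the walk missing `h'` is the first or the last one -/
lemma K_miss (c : PC G 4) {h h' : Fin 4} {l : ℕ} {z x : V}
    (hs : StallAt (c.S h') (c.S h) l z) (hx : x ∈ Kset c h h' l z) (hm : c.S h' x = x)
    (hz : x ≠ z) : x = al (c.S h') (c.S h) l z := by
  obtain ⟨j, hj, rfl⟩ := hx
  rcases Nat.eq_or_lt_of_le hj with he | hlt
  · rw [he]
  · exfalso
    by_cases hev : Even j
    · apply hs.1 j hlt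
      rw [al_last_even _ _ hev, hm]
    · obtain ⟨i, rfl⟩ : ∃ i, j = i + 1 := by
        refine ⟨j - 1, ?_⟩
        have : j ≠ 0 := by rintro rfl; exact hev (by norm_num)
        omega
      have hi : Even i := by
        rw [Nat.even_add_one] at hev; exact not_not.1 hev
      apply hs.1 i (by omega)
      rw [al_last_even _ _ hi, c.invol] at hm
      rw [al_last_even _ _ hi]
      exact hm.symm

lemma K_ball (c : PC G 4) {h h' : Fin 4} {l n : ℕ} {z x : V} (hn : l ≤ n)
    (hx : x ∈ Kset c h h' l z) : x ∈ c.Ball n z := by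
  obtain ⟨j, hj, rfl⟩ := hx
  exact c.Ball_mono (by omega) (c.Ball_al h' h j z)

lemma K_encard (c : PC G 4) (h h' : Fin 4) (l : ℕ) (z : V) :
    (Kset c h h' l z).encard ≤ ((l + 1 : ℕ) : ℕ∞) := by
  classical
  have hsub : Kset c h h' l z ⊆
      ((Finset.range (l + 1)).image fun j => al (c.S h') (c.S h) j z : Finset V) := by
    rintro x ⟨j, hj, rfl⟩
    simp only [Finset.coe_image, Finset.coe_range, mem_image, mem_Iio]
    exact ⟨j, by omega, rfl⟩
  refine (encard_le_encard hsub).trans ?_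
  rw [encard_coe_eq_coe_finsetCard]
  exact_mod_cast (Finset.card_image_le).trans (by simp)

/-- the cut after a flip of the path in the colours `2, 3` -/
lemma cut2 (h_WIN : tWIN.{u}) {c : PC G 4} {Z P : Set V} {N r l : ℕ} (hc : Ctx c P N)
    {β β' h h' : Fin 4} {z : V} (p : Pal β β' h h')
    (hg : GoodV c Z P (Clean (c.S 0) (c.S 1) (2 * N)) z) (h1 : c.S h z = z)
    (hlr : l ≤ r) (hs : StallAt (c.S h') (c.S h) l z)
    (hZ : ∀ j, j ≤ l → al (c.S h') (c.S h) j z ∉ Z)
    (h2 : c.S h' (c.S β z) = c.S β z) (hoff : c.S β z ∉ Kset c h h' l z) :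
    ∃ cb, CutImp c Z P (Clean (c.S 0) (c.S 1) (2 * N)) (r + 30) N z cb := by
  have hN := hc.N2
  have hne := p.ne
  have hzcl : z ∈ Clean (c.S 0) (c.S 1) (2 * N) :=
    (hg.2 z (c.Ball_self 3 z)).2 hg.1
  have hzK : z ∈ Kset c h h' l z := ⟨0, by omega, rfl⟩
  set c1 : PC G 4 := c.flip h h' (Kset c h h' l z) (K_closed c h1 hs) with hc1
  have e1 : ∀ x, c1.S β x = c.S β x := fun x =>
    PC.flip_other c _ _ _ _ hne.2.1 hne.2.2.1 x
  have e1' : ∀ x, c1.S β' x = c.S β' x := fun x =>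
    PC.flip_other c _ _ _ _ hne.2.2.2.1 hne.2.2.2.2.1 x
  have e2 : c1.S h' z = z := by
    rw [hc1, PC.flip_right c _ _ _ _ hzK]; exact h1
  have e3 : c1.S h' (c1.S β z) = c1.S β z := by
    rw [e1, hc1, PC.flip_notMem c _ _ _ _ hoff]; exact h2
  set Y : Set V := {z, c1.S β z} with hY
  set cb : PC G 4 := c1.flip β h' Y (pair_closed c1 e2 e3) with hcb
  have hYb : ∀ x ∈ Y, x ∈ c.Ball 1 z := by
    intro x hx
    rw [hY, e1] at hx
    exact mem_pair_ball c le_rfl hx
  -- changed points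
  have hch : ∀ x k, cb.S k x ≠ c.S k x → x ∈ Kset c h h' l z ∪ Y := by
    intro x k hx
    by_contra hcon
    rw [mem_union] at hcon
    push Not at hcon
    apply hx
    rw [hcb, PC.flip_notMem c1 _ _ _ _ hcon.2, hc1, PC.flip_notMem c _ _ _ _ hcon.1]
  -- changes of the colours 0, 1
  have hU : ∀ x k, (k = β ∨ k = β') → cb.S k x ≠ c.S k x → x ∈ Y := by
    intro x k hk hx
    by_contra hcon
    apply hx
    rw [hcb, PC.flip_notMem c1 _ _ _ _ hcon]
    rcases hk with rfl | rfl
    · exact e1 x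
    · exact e1' x
  refine ⟨cb, ?_, ?_, ?_, ?_, ?_, ?_⟩
  · intro x k hx
    rcases hch x k hx with h3 | h3
    · exact K_ball c (by omega) h3
    · exact c.Ball_mono (by omega) (hYb x h3)
  · have hsub : {x | ∃ k, cb.S k x ≠ c.S k x} ⊆ Kset c h h' l z ∪ Y := by
      rintro x ⟨k, hk⟩
      exact hch x k hk
    refine (encard_le_encard hsub).trans ?_
    refine (encard_union_le _ _).trans ?_
    have h3 := K_encard c h h' l z
    have h4 : Y.encard ≤ 2 := pair_le z (c1.S β z)
    refine (add_le_add h3 h4).trans ?_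
    exact_mod_cast (show l + 1 + 2 ≤ r + 30 by omega)
  · intro x
    rw [hcb, PC.flip_range c1 _ _ _ _ x, hc1, PC.flip_range c _ _ _ _ x]
  · intro x k hx
    rcases hch x k hx with h3 | h3
    · obtain ⟨j, hj, rfl⟩ := h3
      exact hZ j hj
    · exact (hg.2 x (c.Ball_mono (by norm_num) (hYb x h3))).1
  · intro x hx
    have hx' : x ∈ Y := by
      rcases hx with hx | hx
      · exact hU x 0 ((p.U 0).2 (Or.inl rfl)) hx
      · exact hU x 1 ((p.U 1).2 (Or.inr rfl)) hx
    have := (hg.2 x (c.Ball_mono (by norm_num) (hYb x hx'))).2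
    by_cases hP : x ∈ P
    · exact Or.inr (this hP)
    · exact Or.inl hP
  · refine ⟨z, hzcl, β, β', p.1, c.Ball_self _ z, ?_, ?_⟩
    · rw [hcb, PC.flip_left c1 _ _ _ _ (Or.inl rfl)]
      exact e2
    · intro n hn1 hn2 k hk
      have hw := win_ne h_WIN p hzcl hn1 (by omega) (by omega)
      by_contra hcon
      have hmem := hU _ k hk hcon
      rw [hY, e1] at hmem
      rcases hmem with he | he
      · exact hw.1 he
      · exact hw.2 he

end FAB_

theorem allFb (h_WIN : tWIN.{u}) (h_Fa : tFa.{u}) : tFb.{u} := by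
  intro V G c Z P N r l hc β β' h h' z p hg hf0 hf1 h1 hlr hs hZ
  have hN := hc.N2
  have hzcl : z ∈ Clean (c.S 0) (c.S 1) (2 * N) :=
    (hg.2 z (c.Ball_self 3 z)).2 hg.1
  have hzne := clean_ne p (by omega) hzcl
  -- both neighbours
  have hfb : ¬ c.Full (c.S β z) ∧ ¬ c.Full (c.S β' z) := by
    rcases p.1 with ⟨rfl, rfl⟩ | ⟨rfl, rfl⟩
    · exact ⟨hf0, hf1⟩
    · exact ⟨hf1, hf0⟩
  have hPn := hc.closed p hg.1
  have hcl : ∀ k, c.S k z ∈ P → c.S k z ∈ Clean (c.S 0) (c.S 1) (2 * N) := fun k hk =>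
    (hg.2 _ (c.Ball_mono (by norm_num) (c.Ball_one k z))).2 hk
  have hup : ∀ cb, CutImp c Z P (Clean (c.S 0) (c.S 1) (2 * N)) 20 N z cb →
      CutImp c Z P (Clean (c.S 0) (c.S 1) (2 * N)) (r + 30) N z cb := fun cb hcb =>
    hcb.mono (n := 0) (c.Ball_self 0 z) (by omega)
  rcases miss_of_clean p (by omega) (hcl β hPn.1) hfb.1 with ha | ha
  · obtain ⟨cb, hcb⟩ := h_Fa V G c Z P N hc β β' h h' z p hg h1 ha
    exact ⟨cb, hup cb hcb⟩
  rcases miss_of_clean p (by omega) (hcl β' hPn.2) hfb.2 with hb | hb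
  · obtain ⟨cb, hcb⟩ := h_Fa V G c Z P N hc β' β h h' z p.swap_b hg h1 hb
    exact ⟨cb, hup cb hcb⟩
  by_cases hK : c.S β z ∈ FAB_.Kset c h h' l z
  · refine FAB_.cut2 h_WIN hc p.swap_b hg h1 hlr hs hZ hb ?_
    intro hK'
    have e1 := FAB_.K_miss c hs hK ha hzne.1
    have e2 := FAB_.K_miss c hs hK' hb hzne.2
    exact p.ne.1 (c.disj β β' z (e1.trans e2.symm) hzne.1)
  · exact FAB_.cut2 h_WIN hc p hg h1 hlr hs hZ ha hK

end Pool.Agent.MEP
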