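import Pool.Agent.MEP.Walk

set_option autoImplicit false
set_option linter.unusedSectionVars false

/-! General properties of the weight of the uncoloured edges, and the zone around them. -/

namespace Pool.Agent.MEP

open MeasureTheory Set Filter
open scoped ENNReal
open Pool.Agent.MEC

universe u

namespace FWP_

section basic

variable {V : Type u} [MeasurableSpace V] {G : SimpleGraph V}

/-- the weight as an extended number -/
noncomputable def W (μ : Measure V) (g : Gen G 4) (c : PCol G 4) : ℝ≥0∞ :=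
  ∑' i, (μ (Unc g c i) + 2⁻¹ * μ (Unc g c i ∩ WW g i))

lemma FW_eq (μ : Measure V) (g : Gen G 4) (c : PCol G 4) : FW μ g c = (W μ g c).toReal := rfl

lemma mem_Unc_iff (g : Gen G 4) (c : PCol G 4) (i : ℕ) (x : V) :
    x ∈ Unc g c i ↔ g.T i x ≠ x ∧ g.T i x ∉ range (fun k => c.S k x) := by
  simp only [Unc, mem_range, not_exists, mem_ofPred_eq]

lemma Unc_relab (g : Gen G 4) (c : PCol G 4) (σ : Equiv.Perm (Fin 4)) (i : ℕ) :
    Unc g (relab σ c) i = Unc g c i := by
  ext x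
  constructor
  · rintro ⟨h1, h2⟩
    refine ⟨h1, fun k => ?_⟩
    have h3 := h2 (σ.symm k)
    simpa [relab] using h3
  · rintro ⟨h1, h2⟩
    exact ⟨h1, fun k => h2 (σ k)⟩

lemma W_relab (μ : Measure V) (g : Gen G 4) (c : PCol G 4) (σ : Equiv.Perm (Fin 4)) :
    W μ g (relab σ c) = W μ g c := by
  unfold W
  simp only [Unc_relab]

lemma dst_relab (μ : Measure V) (c c' : PCol G 4) (σ : Equiv.Perm (Fin 4)) :
    PCol.dst μ (relab σ c) (relab σ c') = PCol.dst μ c c' := by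
  unfold PCol.dst
  exact Equiv.sum_comp σ (fun k => μ.real {x | c.S k x ≠ c'.S k x})

/-- equal coloured edges at almost every point -/
lemma Unc_ae (μ : Measure V) (g : Gen G 4) (c c' : PCol G 4)
    (h : ∀ᵐ x ∂μ, range (fun k => c'.S k x) = range (fun k => c.S k x)) (i : ℕ) :
    (Unc g c' i : Set V) =ᵐ[μ] (Unc g c i : Set V) := by
  filter_upwards [h] with x hx
  apply propext
  change x ∈ Unc g c' i ↔ x ∈ Unc g c i
  rw [mem_Unc_iff, mem_Unc_iff, hx]

lemma W_ae (μ : Measure V) (g : Gen G 4) (c c' : PCol G 4)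
    (h : ∀ᵐ x ∂μ, range (fun k => c'.S k x) = range (fun k => c.S k x)) :
    W μ g c' = W μ g c := by
  unfold W
  refine tsum_congr fun i => ?_
  rw [measure_congr (Unc_ae μ g c c' h i),
    measure_congr ((Unc_ae μ g c c' h i).inter (ae_eq_refl (WW g i)))]

lemma W_le_add (μ : Measure V) (g : Gen G 4) (c c' : PCol G 4) (A : ℕ → Set V)
    (h : ∀ i, Unc g c i ⊆ Unc g c' i ∪ A i) :
    W μ g c ≤ W μ g c' + ∑' i, (μ (A i) + 2⁻¹ * μ (A i)) := by
  unfold W
  rw [← ENNReal.tsum_add]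
  refine ENNReal.tsum_le_tsum fun i => ?_
  have h1 : μ (Unc g c i) ≤ μ (Unc g c' i) + μ (A i) :=
    (measure_mono (h i)).trans (measure_union_le _ _)
  have h2 : μ (Unc g c i ∩ WW g i) ≤ μ (Unc g c' i ∩ WW g i) + μ (A i) := by
    refine (measure_mono ?_).trans (measure_union_le _ _)
    rintro x ⟨hx, hw⟩
    rcases h i hx with h3 | h3
    · exact Or.inl ⟨h3, hw⟩
    · exact Or.inr h3
  calc μ (Unc g c i) + 2⁻¹ * μ (Unc g c i ∩ WW g i)
      ≤ (μ (Unc g c' i) + μ (A i)) + 2⁻¹ * (μ (Unc g c' i ∩ WW g i) + μ (A i)) := by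
        gcongr
    _ = _ := by ring

/-- uncoloured edges of `c` which have colour `k` in `c'` -/
def Gone (g : Gen G 4) (c c' : PCol G 4) (k : Fin 4) (i : ℕ) : Set V :=
  {x | c.S k x ≠ c'.S k x ∧ c'.S k x = g.T i x ∧ g.T i x ≠ x}

lemma Unc_subset (g : Gen G 4) (c c' : PCol G 4) (i : ℕ) :
    Unc g c i ⊆ Unc g c' i ∪ ⋃ k, Gone g c c' k i := by
  rintro x ⟨h1, h2⟩
  by_cases h : x ∈ Unc g c' i
  · exact Or.inl h
  · right
    have h3 : ∃ k, c'.S k x = g.T i x := by
      by_contra hcon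
      push Not at hcon
      exact h ⟨h1, hcon⟩
    obtain ⟨k, hk⟩ := h3
    rw [mem_iUnion]
    exact ⟨k, by rw [hk]; exact h2 k, hk, h1⟩

end basic

section std

variable {V : Type u} [MeasurableSpace V] [StandardBorelSpace V] {G : SimpleGraph V}

lemma measurableSet_Gone (g : Gen G 4) (c c' : PCol G 4) (k : Fin 4) (i : ℕ) :
    MeasurableSet (Gone g c c' k i) := by
  have h1 : MeasurableSet {x | c.S k x ≠ c'.S k x} :=
    (measurableSet_eq_fun (c.meas k) (c'.meas k)).compl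
  have h2 : MeasurableSet {x | c'.S k x = g.T i x} := measurableSet_eq_fun (c'.meas k) (g.meas i)
  exact h1.inter (h2.inter (g.measurableSet_D i))

lemma tsum_Gone_le (μ : Measure V) (g : Gen G 4) (c c' : PCol G 4) (k : Fin 4) :
    ∑' i, μ (Gone g c c' k i) ≤ μ {x | c.S k x ≠ c'.S k x} := by
  rw [← measure_iUnion]
  · refine measure_mono ?_
    intro x hx
    obtain ⟨i, hi⟩ := mem_iUnion.1 hx
    exact hi.1
  · intro i j hij
    rw [Function.onFun, Set.disjoint_left]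
    rintro x ⟨-, h2, h3⟩ ⟨-, h5, -⟩
    exact hij (g.disj i j x (h2.symm.trans h5) h3)
  · exact fun i => measurableSet_Gone g c c' k i

lemma tsum_iUnion_Gone_le (μ : Measure V) [IsFiniteMeasure μ] (g : Gen G 4) (c c' : PCol G 4) :
    ∑' i, μ (⋃ k, Gone g c c' k i) ≤ ENNReal.ofReal (PCol.dst μ c c') := by
  calc ∑' i, μ (⋃ k, Gone g c c' k i) ≤ ∑' i, ∑ k, μ (Gone g c c' k i) :=
        ENNReal.tsum_le_tsum fun i => measure_iUnion_fintype_le _ _
    _ = ∑ k, ∑' i, μ (Gone g c c' k i) := by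
        rw [Summable.tsum_finsetSum fun k _ => ENNReal.summable]
    _ ≤ ∑ k, μ {x | c.S k x ≠ c'.S k x} :=
        Finset.sum_le_sum fun k _ => tsum_Gone_le μ g c c' k
    _ = ENNReal.ofReal (PCol.dst μ c c') := by
        unfold PCol.dst
        rw [ENNReal.ofReal_sum_of_nonneg fun k _ => measureReal_nonneg]
        refine Finset.sum_congr rfl fun k _ => ?_
        rw [ofReal_measureReal]

lemma FE_le_W (μ : Measure V) (g : Gen G 4) (c : PCol G 4) : FE μ g c ≤ W μ g c :=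
  ENNReal.tsum_le_tsum fun _ => le_self_add

lemma W_le (μ : Measure V) [IsProbabilityMeasure μ] (g : Gen G 4) (c : PCol G 4) :
    W μ g c ≤ 6 := by
  have h := FE_le μ g c
  rw [measure_univ, mul_one] at h
  have h' : FE μ g c ≤ 4 := by simpa using h
  calc W μ g c ≤ ∑' i, (μ (Unc g c i) + 2⁻¹ * μ (Unc g c i)) := by
        refine ENNReal.tsum_le_tsum fun i => ?_
        gcongr
        exact inter_subset_left
    _ = FE μ g c + 2⁻¹ * FE μ g c := by
        rw [ENNReal.tsum_add, ENNReal.tsum_mul_left]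
        rfl
    _ ≤ 4 + 2⁻¹ * 4 := by gcongr
    _ = 6 := by
        have h4 : (4 : ℝ≥0∞) = 2 * 2 := by norm_num
        have h2 : (2⁻¹ : ℝ≥0∞) * 4 = 2 := by
          rw [h4, ← mul_assoc, ENNReal.inv_mul_cancel (by simp) (by simp), one_mul]
        rw [h2]
        norm_num

lemma W_ne_top (μ : Measure V) [IsProbabilityMeasure μ] (g : Gen G 4) (c : PCol G 4) :
    W μ g c ≠ ⊤ := ne_top_of_le_ne_top (by simp) (W_le μ g c)

lemma W_lip (μ : Measure V) [IsProbabilityMeasure μ] (g : Gen G 4) (c c' : PCol G 4) :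
    W μ g c ≤ W μ g c' + 2 * ENNReal.ofReal (PCol.dst μ c c') := by
  refine (W_le_add μ g c c' _ (Unc_subset g c c')).trans ?_
  gcongr
  rw [ENNReal.tsum_add, ENNReal.tsum_mul_left]
  have h1 := tsum_iUnion_Gone_le μ g c c'
  calc ∑' i, μ (⋃ k, Gone g c c' k i) + 2⁻¹ * ∑' i, μ (⋃ k, Gone g c c' k i)
      ≤ ENNReal.ofReal (PCol.dst μ c c') + 1 * ENNReal.ofReal (PCol.dst μ c c') := by
        gcongr
        exact ENNReal.inv_le_one.2 (by norm_num)
    _ = 2 * ENNReal.ofReal (PCol.dst μ c c') := by rw [one_mul, two_mul]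

end std

end FWP_

open FWP_ in
theorem allFWP : tFWP.{u} := by
  intro V _ _ G g μ _
  refine ⟨fun c => ⟨ENNReal.toReal_nonneg, ?_, ?_⟩, fun c c' => ?_, fun c σ => ?_,
    fun c c' σ => dst_relab μ c c' σ⟩
  · rw [FW_eq]
    have h := ENNReal.toReal_mono (by simp) (W_le μ g c)
    simpa using h
  · rw [FW_eq]
    exact ENNReal.toReal_mono (W_ne_top μ g c) (FE_le_W μ g c)
  · rw [FW_eq, FW_eq]
    have hd : 0 ≤ PCol.dst μ c c' := PCol.dst_nonneg c c'
    have h := ENNReal.toReal_mono (ENNReal.add_ne_top.2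
      ⟨W_ne_top μ g c', ENNReal.mul_ne_top (by simp) ENNReal.ofReal_ne_top⟩) (W_lip μ g c c')
    rw [ENNReal.toReal_add (W_ne_top μ g c')
      (ENNReal.mul_ne_top (by simp) ENNReal.ofReal_ne_top), ENNReal.toReal_mul,
      ENNReal.toReal_ofReal hd] at h
    have h2 : ((2 : ℝ≥0∞)).toReal = 2 := by simp
    rw [h2] at h
    linarith
  · rw [FW_eq, FW_eq, W_relab]

namespace FWP_

section zone

variable {V : Type u} [MeasurableSpace V] [StandardBorelSpace V] {G : SimpleGraph V}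

/-- the ends of the uncoloured edges -/
def Tok (g : Gen G 4) (c : PCol G 4) : Set V := ⋃ i, Unc g c i

/-- the zone -/
def Zone (g : Gen G 4) (c : PCol G 4) : Set V :=
  Tok g c ∪ (c.S 2 ⁻¹' Tok g c ∪ c.S 3 ⁻¹' Tok g c)

lemma measurableSet_Tok (g : Gen G 4) (c : PCol G 4) : MeasurableSet (Tok g c) :=
  MeasurableSet.iUnion fun i => measurableSet_Unc i

lemma measurableSet_Zone (g : Gen G 4) (c : PCol G 4) : MeasurableSet (Zone g c) :=
  (measurableSet_Tok g c).union ((c.meas 2 (measurableSet_Tok g c)).union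
    (c.meas 3 (measurableSet_Tok g c)))

lemma presS (μ : Measure V) (hI : Inv G μ) (c : PCol G 4) (k : Fin 4) :
    MeasurePreserving (c.S k) μ μ := hI _ (c.meas k) (c.invol k) (c.adj k)

lemma presT (μ : Measure V) (hI : Inv G μ) (g : Gen G 4) (i : ℕ) :
    MeasurePreserving (g.T i) μ μ := hI _ (g.meas i) (g.invol i) (g.adj i)

lemma measure_Zone_le (μ : Measure V) (hI : Inv G μ) (g : Gen G 4) (c : PCol G 4) :
    μ (Zone g c) ≤ 3 * FE μ g c := by
  have h1 : μ (Tok g c) ≤ FE μ g c := measure_iUnion_le _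
  have h2 : ∀ k, μ (c.S k ⁻¹' Tok g c) = μ (Tok g c) := fun k =>
    (presS μ hI c k).measure_preimage (measurableSet_Tok g c).nullMeasurableSet
  calc μ (Zone g c) ≤ μ (Tok g c) + (μ (c.S 2 ⁻¹' Tok g c) + μ (c.S 3 ⁻¹' Tok g c)) :=
        (measure_union_le _ _).trans (add_le_add le_rfl (measure_union_le _ _))
    _ ≤ FE μ g c + (FE μ g c + FE μ g c) := by
        rw [h2, h2]
        gcongr
    _ = 3 * FE μ g c := by ring

/-- the edge is uncoloured at both ends -/
lemma Unc_T (g : Gen G 4) (c : PCol G 4) {i : ℕ} {x : V} (h : x ∈ Unc g c i) :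
    g.T i x ∈ Unc g c i := by
  obtain ⟨h1, h2⟩ := h
  refine ⟨?_, fun k hk => ?_⟩
  · rw [g.invol]
    exact h1.symm
  · rw [g.invol] at hk
    have h3 := c.invol k (g.T i x)
    rw [hk] at h3
    exact h2 k h3

lemma Unc_sub_Zone (g : Gen G 4) (c : PCol G 4) {i : ℕ} {x : V} (h : x ∈ Unc g c i) :
    x ∈ Zone g c := Or.inl (mem_iUnion.2 ⟨i, h⟩)

lemma S2_mem_Zone (g : Gen G 4) (c : PCol G 4) {i : ℕ} {x : V} (h : x ∈ Unc g c i) :
    c.S 2 x ∈ Zone g c := by
  refine Or.inr (Or.inl ?_)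
  rw [mem_preimage, c.invol]
  exact mem_iUnion.2 ⟨i, h⟩

lemma S3_mem_Zone (g : Gen G 4) (c : PCol G 4) {i : ℕ} {x : V} (h : x ∈ Unc g c i) :
    c.S 3 x ∈ Zone g c := by
  refine Or.inr (Or.inr ?_)
  rw [mem_preimage, c.invol]
  exact mem_iUnion.2 ⟨i, h⟩

lemma OneU_congr {c c' : PCol G 4} {x : V} (h : ∀ k, c'.S k x = c.S k x) :
    OneU c' x ↔ OneU c x := by
  unfold OneU
  rw [h 0, h 1]

lemma Exit_congr {c c' : PCol G 4} {v u x : V} (hv : ∀ k, c'.S k v = c.S k v)
    (hu : ∀ k, c'.S k u = c.S k u) : Exit c' v u x ↔ Exit c v u x := by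
  unfold Exit
  simp only [hv, hu]

lemma Exit_cases {c : PCol G 4} {v u x : V} (h : Exit c v u x) :
    x = v ∨ x = c.S 2 u ∨ x = c.S 3 u := by
  rcases h with h | ⟨k, hk, -, h2, -⟩
  · exact Or.inl h
  · rcases hk with rfl | rfl
    · exact Or.inr (Or.inl h2.symm)
    · exact Or.inr (Or.inr h2.symm)

/-- agreement on the zone keeps the typed edges -/
lemma Typed_congr (g : Gen G 4) (c c' : PCol G 4) (i : ℕ) {u : V}
    (hU : u ∈ Unc g c' i ↔ u ∈ Unc g c i)
    (h1 : u ∈ Zone g c → ∀ k, c'.S k u = c.S k u)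
    (h2 : g.T i u ∈ Zone g c → ∀ k, c'.S k (g.T i u) = c.S k (g.T i u))
    (h3 : c.S 2 u ∈ Zone g c → ∀ k, c'.S k (c.S 2 u) = c.S k (c.S 2 u))
    (h4 : c.S 3 u ∈ Zone g c → ∀ k, c'.S k (c.S 3 u) = c.S k (c.S 3 u)) :
    u ∈ Typed g c' i ↔ u ∈ Typed g c i := by
  by_cases hu : u ∈ Unc g c i
  · have e1 := h1 (Unc_sub_Zone g c hu)
    have e2 := h2 (Unc_sub_Zone g c (Unc_T g c hu))
    have e3 := h3 (S2_mem_Zone g c hu)
    have e4 := h4 (S3_mem_Zone g c hu)
    have key : ∀ x, Exit c (g.T i u) u x → (OneU c' x ↔ OneU c x) := by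
      intro x hx
      rcases Exit_cases hx with rfl | rfl | rfl
      · exact OneU_congr e2
      · exact OneU_congr e3
      · exact OneU_congr e4
    constructor
    · rintro ⟨-, o, x1, x2, hne, a1, a2, o1, o2⟩
      rw [Exit_congr e2 e1] at a1 a2
      exact ⟨hu, (OneU_congr e1).1 o, x1, x2, hne, a1, a2, (key x1 a1).1 o1, (key x2 a2).1 o2⟩
    · rintro ⟨-, o, x1, x2, hne, a1, a2, o1, o2⟩
      exact ⟨hU.2 hu, (OneU_congr e1).2 o, x1, x2, hne, (Exit_congr e2 e1).2 a1,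
        (Exit_congr e2 e1).2 a2, (key x1 a1).2 o1, (key x2 a2).2 o2⟩
  · constructor
    · intro h
      exact absurd (hU.1 h.1) hu
    · intro h
      exact absurd h.1 hu

end zone

end FWP_

open FWP_ in
theorem allZONE (h_FWP : tFWP.{u}) : tZONE.{u} := by
  intro V _ _ G g c μ _ hG
  refine ⟨Zone g c, measurableSet_Zone g c, ?_, ?_⟩
  · have h1 := measure_Zone_le μ hG.inv g c
    have h2 := ((h_FWP V G g μ).1 c).2.2
    have h0 := ((h_FWP V G g μ).1 c).1
    have h3 := ENNReal.toReal_mono (ENNReal.mul_ne_top (by simp) (FE_ne_top μ g c)) h1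
    rw [ENNReal.toReal_mul] at h3
    have h4 : ((3 : ℝ≥0∞)).toReal = 3 := by simp
    rw [h4] at h3
    have h5 : μ.real (Zone g c) = (μ (Zone g c)).toReal := rfl
    rw [h5]
    linarith
  · intro c' hc
    obtain ⟨hZ, hr⟩ := hc
    have hW := W_ae μ g c c' hr
    refine ⟨by rw [FW_eq, FW_eq, hW], ?_⟩
    unfold TY
    congr 1
    refine tsum_congr fun i => measure_congr ?_
    have q1 := (presT μ hG.inv g i).quasiMeasurePreserving.ae hZ
    have q2 := (presS μ hG.inv c 2).quasiMeasurePreserving.ae hZ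
    have q3 := (presS μ hG.inv c 3).quasiMeasurePreserving.ae hZ
    filter_upwards [hr, hZ, q1, q2, q3] with u hru h1 h2 h3 h4
    apply propext
    change u ∈ Typed g c' i ↔ u ∈ Typed g c i
    refine Typed_congr g c c' i ?_ h1 h2 h3 h4
    rw [mem_Unc_iff, mem_Unc_iff, hru]

end Pool.Agent.MEP
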