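import Pool.Agent.MEP.Walk

set_option autoImplicit false

/-! Target tGAIN: the effect of a change of the involutions on `Far`. -/

namespace Pool.Agent.MEP

open MeasureTheory Set Filter
open scoped ENNReal
open Pool.Agent.MEC

universe u

namespace GAIN_

variable {V : Type u} {s t s' t' : V → V}

/-- reduction of the time modulo a period -/
lemma al_mod {p : ℕ} {x : V} (h : al s t (2 * p) x = x) (j : ℕ) :
    al s t j x = al s t (j % (2 * p)) x := by
  have key : ∀ q r : ℕ, al s t (2 * p * q + r) x = al s t r x := by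
    intro q r
    induction q with
    | zero => simp
    | succ q ih =>
      have e : 2 * p * (q + 1) + r = 2 * p + (2 * p * q + r) := by ring
      rw [e, al_add_even s t (even_two_mul p), h, ih]
  conv_lhs => rw [← Nat.div_add_mod j (2 * p)]
  exact key _ _

/-- a walk which stalls after the change does not stall before the change, unless it meets a
changed point off the long components -/
lemma key (hs : ∀ x, s (s x) = x) (ht : ∀ x, t (t x) = x) {L N n : ℕ} {D : Set V} {x : V}
    (hD : ∀ x, s' x ≠ s x ∨ t' x ≠ t x → x ∈ D)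
    (hD' : ∀ x ∈ D, x ∉ Long s t L ∨ x ∈ Far s t (2 * N)) (hn : n < N)
    (hst : StallAt s t n x) (hns : NS s' t' N x) :
    x ∈ ⋃ j ∈ Finset.range (2 * L + 1), al s t j ⁻¹' (D \ Long s t L) := by
  obtain ⟨j, hj, hjD⟩ : ∃ j, j ≤ n ∧ al s t j x ∈ D := by
    by_contra hc
    push Not at hc
    have hag : ∀ j, j < n + 1 → s' (al s t j x) = s (al s t j x) ∧
        t' (al s t j x) = t (al s t j x) := by
      intro j hj
      have h1 := hc j (by omega)
      by_contra h2
      apply h1
      apply hD
      rw [not_and_or] at h2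
      exact h2
    apply hns n hn
    rw [al_congr (n + 1) x hag, al_congr n x fun j hj => hag j (by omega)]
    exact hst.2
  have hfar : al s t j x ∉ Far s t (2 * N) := by
    intro hf
    by_cases hj2 : Even j
    · have h1 := hf.1 (n - j) (by omega)
      rw [← al_add_even s t hj2, ← al_add_even s t hj2] at h1
      apply h1
      have e1 : j + (n - j + 1) = n + 1 := by omega
      have e2 : j + (n - j) = n := by omega
      rw [e1, e2]
      exact hst.2
    · have h1 := hf.2 (n - j) (by omega)
      rw [← al_add_odd s t hj2, ← al_add_odd s t hj2] at h1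
      apply h1
      have e1 : j + (n - j + 1) = n + 1 := by omega
      have e2 : j + (n - j) = n := by omega
      rw [e1, e2]
      exact hst.2
  have hl : al s t j x ∉ Long s t L := by
    rcases hD' _ hjD with h | h
    · exact h
    · exact absurd h hfar
  have hx : x ∉ Long s t L := fun h => hl (Long_al hs ht j h).1
  rw [mem_Long] at hx
  push Not at hx
  obtain ⟨p, hp1, hp2, hp3⟩ := hx
  have hmod := al_mod hp3 j
  have hlt : j % (2 * p) < 2 * p := Nat.mod_lt _ (by omega)
  rw [mem_iUnion₂]
  refine ⟨j % (2 * p), Finset.mem_range.2 (by omega), ?_⟩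
  rw [mem_preimage, ← hmod]
  exact ⟨hjD, hl⟩

lemma far_sub (hs : ∀ x, s (s x) = x) (ht : ∀ x, t (t x) = x) {L N : ℕ} {D : Set V}
    (hD : ∀ x, s' x ≠ s x ∨ t' x ≠ t x → x ∈ D)
    (hD' : ∀ x ∈ D, x ∉ Long s t L ∨ x ∈ Far s t (2 * N)) :
    Far s' t' N \ Far s t N ⊆ (⋃ j ∈ Finset.range (2 * L + 1), al s t j ⁻¹' (D \ Long s t L)) ∪
      ⋃ j ∈ Finset.range (2 * L + 1), al t s j ⁻¹' (D \ Long s t L) := by
  rintro x ⟨hx1, hx2⟩
  rcases NS_or_stall s t N x with h1 | ⟨n, hn, h1⟩
  · rcases NS_or_stall t s N x with h2 | ⟨n, hn, h2⟩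
    · exact absurd ⟨h1, h2⟩ hx2
    · right
      have h3 := key (s := t) (t := s) (s' := t') (t' := s') (L := L) ht hs
        (fun x hx => hD x hx.symm) (fun x hx => by
          rcases hD' x hx with h | h
          · left; rwa [← Long_comm hs ht]
          · right; rwa [Far_comm]) hn h2 hx1.2
      rwa [← Long_comm hs ht] at h3
  · left
    exact key hs ht hD hD' hn h1 hx1.1

section meas

variable [MeasurableSpace V]

lemma real_biUnion_le {μ : Measure V} [IsFiniteMeasure μ]
    (hs : MeasurePreserving s μ μ) (ht : MeasurePreserving t μ μ) {D : Set V}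
    (hD : MeasurableSet D) (n : ℕ) :
    μ.real (⋃ j ∈ Finset.range n, al s t j ⁻¹' D) ≤ n * μ.real D := by
  refine (measureReal_biUnion_finset_le _ _).trans ?_
  rw [Finset.sum_congr rfl fun j _ => ?_, Finset.sum_const, Finset.card_range, nsmul_eq_mul]
  unfold Measure.real
  rw [(mp_al hs ht j).measure_preimage hD.nullMeasurableSet]

end meas

end GAIN_

open GAIN_

theorem allGAIN : tGAIN.{u} := by
  intro V _ _ μ _ s t s' t' hs ht _ _ ms mt _ _ L N T D hT hDm hD hD' hTs
  have hDL : MeasurableSet (D \ Long s t L) :=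
    hDm.diff (measurableSet_Long ms.measurable mt.measurable L)
  have h1 : μ.real (Far s' t' N) ≤ μ.real (Far s t N \ T) +
      μ.real (Far s' t' N \ Far s t N) := by
    refine (measureReal_mono ?_).trans (measureReal_union_le _ _)
    intro x hx
    by_cases hx2 : x ∈ Far s t N
    · left
      exact ⟨hx2, fun hxT => (hTs hxT).2 hx⟩
    · right
      exact ⟨hx, hx2⟩
  have h2 : μ.real (Far s t N \ T) = μ.real (Far s t N) - μ.real T :=
    measureReal_sdiff (fun x hx => (hTs hx).1) hT
  have h3 : μ.real (Far s' t' N \ Far s t N) ≤ (4 * L + 2) * μ.real (D \ Long s t L) := by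
    refine (measureReal_mono (far_sub hs ht hD hD')).trans ?_
    refine (measureReal_union_le _ _).trans ?_
    have e1 := real_biUnion_le ms mt hDL (2 * L + 1)
    have e2 := real_biUnion_le mt ms hDL (2 * L + 1)
    push_cast at e1 e2 ⊢
    linarith
  linarith

end Pool.Agent.MEP
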