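import Pool.Agent.MEP.Walk

set_option autoImplicit false

/-! Fact F1: most points of `P` are good. The ball of radius 3 is the image of 85 words. -/

namespace Pool.Agent.MEP

universe u

open MeasureTheory Set Filter
open scoped ENNReal
open Pool.Agent.MEC

namespace GOOD_

variable {V : Type u} {G : SimpleGraph V}

/-- points which are moved into `B` by some colour -/
def up (c : PC G 4) (B : Set V) : Set V := ⋃ k : Fin 4, c.S k ⁻¹' B

/-- points which are moved into `B` by some word of length `n` -/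
def wd (c : PC G 4) : ℕ → Set V → Set V
  | 0, B => B
  | n + 1, B => wd c n (up c B)

lemma mem_up (c : PC G 4) (B : Set V) (x : V) : x ∈ up c B ↔ ∃ k, c.S k x ∈ B := by
  simp [up]

lemma ball_hit (c : PC G 4) (n : ℕ) (x : V) (B : Set V) :
    (∃ y ∈ c.Ball n x, y ∈ B) ↔ ∃ i, i < n + 1 ∧ x ∈ wd c i B := by
  induction n generalizing B with
  | zero =>
    constructor
    · rintro ⟨y, hy, hB⟩
      have hyx : y = x := hy
      subst hyx
      exact ⟨0, by omega, hB⟩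
    · rintro ⟨i, hi, hx⟩
      have h0 : i = 0 := by omega
      subst h0
      exact ⟨x, rfl, hx⟩
  | succ n ih =>
    constructor
    · rintro ⟨y, hy, hB⟩
      rcases hy with hy | ⟨k, z, hz, rfl⟩
      · obtain ⟨i, hi, hx⟩ := (ih B).1 ⟨y, hy, hB⟩
        exact ⟨i, by omega, hx⟩
      · obtain ⟨i, hi, hx⟩ := (ih (up c B)).1 ⟨z, hz, (mem_up c B z).2 ⟨k, hB⟩⟩
        exact ⟨i + 1, by omega, hx⟩
    · rintro ⟨i, hi, hx⟩
      rcases i with _ | i
      · obtain ⟨y, hy, hB⟩ := (ih B).2 ⟨0, by omega, hx⟩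
        exact ⟨y, Or.inl hy, hB⟩
      · obtain ⟨z, hz, hB⟩ := (ih (up c B)).2 ⟨i, by omega, hx⟩
        obtain ⟨k, hk⟩ := (mem_up c B z).1 hB
        exact ⟨c.S k z, Or.inr ⟨k, z, hz, rfl⟩, hk⟩

variable [MeasurableSpace V]

lemma meas_up (c : PCol G 4) {B : Set V} (hB : MeasurableSet B) :
    MeasurableSet (up (toPC c) B) := MeasurableSet.iUnion fun k => c.meas k hB

lemma meas_wd (c : PCol G 4) (n : ℕ) {B : Set V} (hB : MeasurableSet B) :
    MeasurableSet (wd (toPC c) n B) := by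
  induction n generalizing B with
  | zero => exact hB
  | succ n ih => exact ih (meas_up c hB)

lemma real_up [StandardBorelSpace V] (c : PCol G 4) (μ : Measure V) [IsProbabilityMeasure μ]
    (hinv : Inv G μ) {B : Set V} (hB : MeasurableSet B) :
    μ.real (up (toPC c) B) ≤ 4 * μ.real B := by
  have h1 : μ.real (up (toPC c) B) ≤ ∑ k : Fin 4, μ.real (c.S k ⁻¹' B) :=
    measureReal_iUnion_fintype_le _
  have h2 : ∀ k : Fin 4, μ.real (c.S k ⁻¹' B) = μ.real B := fun k => by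
    unfold Measure.real
    rw [(mp_S hinv c k).measure_preimage hB.nullMeasurableSet]
  rw [Finset.sum_congr rfl fun k _ => h2 k] at h1
  simpa using h1

lemma real_wd [StandardBorelSpace V] (c : PCol G 4) (μ : Measure V) [IsProbabilityMeasure μ]
    (hinv : Inv G μ) (n : ℕ) {B : Set V} (hB : MeasurableSet B) :
    μ.real (wd (toPC c) n B) ≤ 4 ^ n * μ.real B := by
  induction n generalizing B with
  | zero => simp [wd]
  | succ n ih =>
    calc μ.real (wd (toPC c) n (up (toPC c) B)) ≤ 4 ^ n * μ.real (up (toPC c) B) :=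
          ih (meas_up c hB)
      _ ≤ 4 ^ n * (4 * μ.real B) :=
          mul_le_mul_of_nonneg_left (real_up c μ hinv hB) (by positivity)
      _ = 4 ^ (n + 1) * μ.real B := by ring

omit [MeasurableSpace V] in
/-- the good points are the points of `P` which no word of length at most 3 moves into `B` -/
lemma good_eq (c : PC G 4) (Z P Cl : Set V) :
    {x | GoodV c Z P Cl x} = P \ ⋃ i : Fin 4, wd c i (Z ∪ (P \ Cl)) := by
  ext x
  simp only [GoodV, mem_ofPred_eq, Set.mem_sdiff]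
  refine and_congr_right fun _ => ?_
  constructor
  · intro h hx
    obtain ⟨i, hi⟩ := mem_iUnion.1 hx
    obtain ⟨y, hy, hB⟩ := (ball_hit c 3 x (Z ∪ (P \ Cl))).2 ⟨i, i.2, hi⟩
    rcases hB with hB | hB
    · exact (h y hy).1 hB
    · exact hB.2 ((h y hy).2 hB.1)
  · intro h y hy
    have key : y ∉ Z ∪ (P \ Cl) := by
      intro hB
      obtain ⟨i, hi, hx⟩ := (ball_hit c 3 x (Z ∪ (P \ Cl))).1 ⟨y, hy, hB⟩
      exact h (mem_iUnion.2 ⟨⟨i, hi⟩, hx⟩)
    refine ⟨fun hz => key (Or.inl hz), fun hp => ?_⟩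
    by_contra hc
    exact key (Or.inr ⟨hp, hc⟩)

end GOOD_

open GOOD_ in
theorem allGOOD : tGOOD.{u} := by
  intro V _ _ G c μ _ hinv Z P Cl hZ hP hCl
  have hB : MeasurableSet (Z ∪ (P \ Cl)) := hZ.union (hP.diff hCl)
  have hU : MeasurableSet (⋃ i : Fin 4, wd (toPC c) i (Z ∪ (P \ Cl))) :=
    MeasurableSet.iUnion fun i => meas_wd c i hB
  rw [good_eq]
  refine ⟨hP.diff hU, ?_⟩
  have h1 : P \ (P \ ⋃ i : Fin 4, wd (toPC c) i (Z ∪ (P \ Cl))) ⊆
      ⋃ i : Fin 4, wd (toPC c) i (Z ∪ (P \ Cl)) := by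
    rintro x ⟨hx, hx'⟩
    by_contra h
    exact hx' ⟨hx, h⟩
  have h2 := measureReal_mono (μ := μ) h1
  have h3 : μ.real (⋃ i : Fin 4, wd (toPC c) i (Z ∪ (P \ Cl))) ≤
      ∑ i : Fin 4, μ.real (wd (toPC c) i (Z ∪ (P \ Cl))) := measureReal_iUnion_fintype_le _
  have h4 : ∑ i : Fin 4, μ.real (wd (toPC c) i (Z ∪ (P \ Cl))) ≤
      ∑ i : Fin 4, 4 ^ (i : ℕ) * μ.real (Z ∪ (P \ Cl)) :=
    Finset.sum_le_sum fun i _ => real_wd c μ hinv i hB
  have h5 : ∑ i : Fin 4, (4 : ℝ) ^ (i : ℕ) * μ.real (Z ∪ (P \ Cl)) =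
      85 * μ.real (Z ∪ (P \ Cl)) := by
    simp [Fin.sum_univ_four]
    ring
  have h6 : μ.real (Z ∪ (P \ Cl)) ≤ μ.real Z + μ.real (P \ Cl) := measureReal_union_le _ _
  linarith

end Pool.Agent.MEP
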