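import Pool.Agent.MEP.Walk

set_option autoImplicit false

/-! C2: at an optimal colouring there are no pointwise cuts. -/

namespace Pool.Agent.MEP

open MeasureTheory Set Filter
open scoped ENNReal
open Pool.Agent.MEC

universe u

namespace LIPC_

section walks

variable {V : Type u} {s t : V → V}

/-- reading a walk backwards and going on on the other side of the starting point -/
lemma NS_back (hs : ∀ x, s (s x) = x) (ht : ∀ x, t (t x) = x) {n M : ℕ} {y : V}
    (h1 : NS t s n y) (h2 : NS s t M y) : (Even n → NS s t (n + M) (al t s n y)) ∧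
      (¬ Even n → NS t s (n + M) (al t s n y)) := by
  have hb : ∀ j, j ≤ n → (if Even n then al s t j (al t s n y) else al t s j (al t s n y)) =
      al t s (n - j) y := fun j hj => al_back ht hs hj y
  constructor
  · intro hn
    have hb' : ∀ j, j ≤ n → al s t j (al t s n y) = al t s (n - j) y := fun j hj => by
      have := hb j hj
      rwa [if_pos hn] at this
    intro j hj
    rcases Nat.lt_or_ge j n with hjn | hjn
    · rw [hb' j hjn.le, hb' (j + 1) hjn]
      have e : n - j = (n - (j + 1)) + 1 := by omega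
      rw [e]
      exact (h1 (n - (j + 1)) (by omega)).symm
    · obtain ⟨i, rfl⟩ := Nat.exists_eq_add_of_le hjn
      rw [add_assoc, al_add_even s t hn, al_add_even s t hn, hb' n le_rfl]
      simpa using h2 i (by omega)
  · intro hn
    have hb' : ∀ j, j ≤ n → al t s j (al t s n y) = al t s (n - j) y := fun j hj => by
      have := hb j hj
      rwa [if_neg hn] at this
    intro j hj
    rcases Nat.lt_or_ge j n with hjn | hjn
    · rw [hb' j hjn.le, hb' (j + 1) hjn]
      have e : n - j = (n - (j + 1)) + 1 := by omega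
      rw [e]
      exact (h1 (n - (j + 1)) (by omega)).symm
    · obtain ⟨i, rfl⟩ := Nat.exists_eq_add_of_le hjn
      rw [add_assoc, al_add_odd t s hn, al_add_odd t s hn, hb' n le_rfl]
      simpa using h2 i (by omega)

/-- points near a point in the middle of a long walk -/
lemma far_al (hs : ∀ x, s (s x) = x) (ht : ∀ x, t (t x) = x) {n N : ℕ} {y : V}
    (hy : y ∈ Far s t (2 * N)) (hn : n ≤ N) : al t s n y ∈ Far s t N := by
  have h1 := NS_back hs ht (NS_mono (by omega : n ≤ 2 * N) hy.2)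
    (NS_mono (by omega : N ≤ 2 * N) hy.1)
  have h2 := NS_shift (by omega : n ≤ 2 * N) hy.2
  by_cases he : Even n
  · exact ⟨NS_mono (by omega) (h1.1 he), NS_mono (by omega) (h2.1 he)⟩
  · exact ⟨NS_mono (by omega) (h2.2 he), NS_mono (by omega) (h1.2 he)⟩

/-- the backward walk of the changed involutions stalls -/
lemma not_far_al (hs : ∀ x, s (s x) = x) (ht : ∀ x, t (t x) = x) {s' t' : V → V} {n N : ℕ}
    {y : V} (hn : n < N) (hy : s' y = y) (h : ∀ m, 1 ≤ m → m ≤ N →
      s' (al t s m y) = s (al t s m y) ∧ t' (al t s m y) = t (al t s m y)) :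
    al t s n y ∉ Far s' t' N := by
  intro hx
  have hb : ∀ j, j ≤ n → (if Even n then al s t j (al t s n y) else al t s j (al t s n y)) =
      al t s (n - j) y := fun j hj => al_back ht hs hj y
  by_cases he : Even n
  · have hb' : ∀ j, j ≤ n → al s t j (al t s n y) = al t s (n - j) y := fun j hj => by
      have := hb j hj
      rwa [if_pos he] at this
    have h1 : al s' t' n (al t s n y) = y := by
      rw [al_congr (s := s) (t := t)]
      · rw [hb' n le_rfl]; simp
      · intro j hj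
        rw [hb' j hj.le]
        exact h (n - j) (by omega) (by omega)
    apply hx.1 n hn
    rw [al_last_even s' t' he, h1, hy]
  · have hb' : ∀ j, j ≤ n → al t s j (al t s n y) = al t s (n - j) y := fun j hj => by
      have := hb j hj
      rwa [if_neg he] at this
    have h1 : al t' s' n (al t s n y) = y := by
      rw [al_congr (s := t) (t := s)]
      · rw [hb' n le_rfl]; simp
      · intro j hj
        rw [hb' j hj.le]
        exact (h (n - j) (by omega) (by omega)).symm
    apply hx.2 n hn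
    rw [al_last_odd t' s' he, h1, hy]

end walks

section words

variable {V : Type u} [MeasurableSpace V] {G : SimpleGraph V}

/-- one letter -/
noncomputable def ltr (c : PCol G 4) : Option (Fin 4) → (V ≃ᵐ V)
  | none => MeasurableEquiv.refl V
  | some k => ofInvol (c.S k) (c.meas k) (c.invol k)

/-- words in the colours -/
noncomputable def wd (c : PCol G 4) : (n : ℕ) → (Fin n → Option (Fin 4)) → (V ≃ᵐ V)
  | 0, _ => MeasurableEquiv.refl V
  | n + 1, w => (wd c n fun i => w i.castSucc).trans (ltr c (w (Fin.last n)))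

lemma ball_wd (c : PCol G 4) (n : ℕ) (b x : V) (hx : x ∈ (toPC c).Ball n b) :
    ∃ w, wd c n w b = x := by
  induction n generalizing x with
  | zero => exact ⟨fun _ => none, (show x = b from hx).symm⟩
  | succ n ih =>
    rcases hx with hx | ⟨k, y, hy, rfl⟩
    · obtain ⟨w, rfl⟩ := ih x hx
      refine ⟨Fin.snoc (α := fun _ => Option (Fin 4)) w none, ?_⟩
      show ltr c _ (wd c n _ b) = _
      simp only [Fin.snoc_castSucc, Fin.snoc_last]
      rfl
    · obtain ⟨w, rfl⟩ := ih y hy
      refine ⟨Fin.snoc (α := fun _ => Option (Fin 4)) w (some k), ?_⟩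
      show ltr c _ (wd c n _ b) = _
      simp only [Fin.snoc_castSucc, Fin.snoc_last]
      rfl

lemma mp_ltr {μ : Measure V} (hinv : Inv G μ) (c : PCol G 4) (o : Option (Fin 4)) :
    MeasurePreserving (ltr c o) μ μ := by
  cases o with
  | none => exact MeasurePreserving.id μ
  | some k => exact mp_S hinv c k

lemma mp_wd {μ : Measure V} (hinv : Inv G μ) (c : PCol G 4) (n : ℕ)
    (w : Fin n → Option (Fin 4)) : MeasurePreserving (wd c n w) μ μ := by
  induction n with
  | zero => exact MeasurePreserving.id μ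
  | succ n ih => exact (mp_ltr hinv c _).comp (ih _)

lemma real_image {μ : Measure V} (e : V ≃ᵐ V) (he : MeasurePreserving e μ μ) (A : Set V) :
    μ.real (e '' A) = μ.real A := by
  have h : μ (e '' A) = μ A := by
    rw [e.image_eq_preimage_symm]
    exact he.symm.measure_preimage_equiv A
  simp only [Measure.real, h]

/-- the conditions of `CutImp` in terms of `b` and the new colours at the words -/
def Rel (c : PCol G 4) (Z P Cl : Set V) (N R : ℕ) (j0 : Fin R → Option (Fin 4)) (β β' : Fin 4)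
    (J : Finset (Fin R → Option (Fin 4))) :
    Set (V × ((Fin R → Option (Fin 4)) → Fin 4 → V)) :=
  {p | (∀ j k, p.2 j k ≠ c.S k (wd c R j p.1) →
      (∃ i ∈ J, wd c R i p.1 = wd c R j p.1) ∧ wd c R j p.1 ∉ Z) ∧
    (∀ j, (∀ k, ∃ k', p.2 j k = c.S k' (wd c R j p.1)) ∧
      ∀ k, ∃ k', p.2 j k' = c.S k (wd c R j p.1)) ∧
    (∀ j, (p.2 j 0 ≠ c.S 0 (wd c R j p.1) ∨ p.2 j 1 ≠ c.S 1 (wd c R j p.1)) →
      wd c R j p.1 ∉ P ∨ wd c R j p.1 ∈ Cl) ∧
    wd c R j0 p.1 ∈ Cl ∧ p.2 j0 β = wd c R j0 p.1 ∧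
    ∀ (n : ℕ) j k, 1 ≤ n → n ≤ N → (k = β ∨ k = β') →
      wd c R j p.1 = al (c.S β') (c.S β) n (wd c R j0 p.1) → p.2 j k = c.S k (wd c R j p.1)}

variable [StandardBorelSpace V]

lemma meq {α : Type*} [MeasurableSpace α] {f g : α → V} (hf : Measurable f)
    (hg : Measurable g) : Measurable fun x => f x = g x :=
  measurableSet_setOfPred.1 (measurableSet_eq_fun hf hg)

lemma measurableSet_Rel (c : PCol G 4) {Z P Cl : Set V} (hZ : MeasurableSet Z)
    (hP : MeasurableSet P) (hCl : MeasurableSet Cl) (N R : ℕ) (j0 : Fin R → Option (Fin 4))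
    (β β' : Fin 4) (J : Finset (Fin R → Option (Fin 4))) :
    MeasurableSet (Rel c Z P Cl N R j0 β β' J) := by
  have hφ : ∀ j, Measurable fun p : V × ((Fin R → Option (Fin 4)) → Fin 4 → V) =>
      wd c R j p.1 := fun j => (wd c R j).measurable.comp measurable_fst
  have hy : ∀ j k, Measurable fun p : V × ((Fin R → Option (Fin 4)) → Fin 4 → V) =>
      p.2 j k := fun j k =>
    (measurable_pi_apply k).comp ((measurable_pi_apply j).comp measurable_snd)
  have hS : ∀ j k, Measurable fun p : V × ((Fin R → Option (Fin 4)) → Fin 4 → V) =>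
      c.S k (wd c R j p.1) := fun j k => (c.meas k).comp (hφ j)
  have hmem : ∀ {A : Set V}, MeasurableSet A → ∀ j, Measurable fun
      p : V × ((Fin R → Option (Fin 4)) → Fin 4 → V) => wd c R j p.1 ∈ A := fun hA j =>
    measurableSet_setOfPred.1 (hφ j hA)
  refine measurableSet_setOfPred.2 ?_
  refine Measurable.and ?_ (Measurable.and ?_ (Measurable.and ?_ (Measurable.and ?_
    (Measurable.and ?_ ?_))))
  · refine Measurable.forall fun j => Measurable.forall fun k => Measurable.imp ?_
      (Measurable.and ?_ ?_)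
    · exact (meq (hy j k) (hS j k)).not
    · refine Measurable.exists fun i => Measurable.and measurable_const ?_
      exact meq (hφ i) (hφ j)
    · exact (hmem hZ j).not
  · refine Measurable.forall fun j => Measurable.and ?_ ?_
    · exact Measurable.forall fun k => Measurable.exists fun k' => meq (hy j k) (hS j k')
    · exact Measurable.forall fun k => Measurable.exists fun k' => meq (hy j k') (hS j k)
  · refine Measurable.forall fun j => Measurable.imp ?_ ?_
    · exact Measurable.or (meq (hy j 0) (hS j 0)).not (meq (hy j 1) (hS j 1)).not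
    · exact Measurable.or (hmem hP j).not (hmem hCl j)
  · exact hmem hCl j0
  · exact meq (hy j0 β) (hφ j0)
  · refine Measurable.forall fun n => Measurable.forall fun j => Measurable.forall fun k =>
      Measurable.imp measurable_const (Measurable.imp measurable_const
        (Measurable.imp measurable_const (Measurable.imp ?_ ?_)))
    · exact meq (hφ j) ((measurable_al (c.meas β') (c.meas β) n).comp (hφ j0))
    · exact meq (hy j k) (hS j k)

/-- the part of the set of cut points with given data -/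
def Part (c : PCol G 4) (Z P Cl : Set V) (N R : ℕ) (j0 : Fin R → Option (Fin 4)) (β β' : Fin 4)
    (J : Finset (Fin R → Option (Fin 4))) : Set V :=
  {b | ∃ cb : PC G 4, (∀ x k, cb.S k x ≠ c.S k x → ∃ j, wd c R j b = x) ∧
    (b, fun j k => cb.S k (wd c R j b)) ∈ Rel c Z P Cl N R j0 β β' J}

omit [StandardBorelSpace V] in
/-- every cut point is in one of the parts -/
lemma exists_part (c : PCol G 4) (Z P Cl : Set V) (N R : ℕ) (b : V) (cb : PC G 4)
    (h : CutImp (toPC c) Z P Cl R N b cb) : ∃ j0 β β' J, (β = 0 ∧ β' = 1 ∨ β = 1 ∧ β' = 0) ∧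
      J.card ≤ R ∧ b ∈ Part c Z P Cl N R j0 β β' J := by
  classical
  obtain ⟨y, hyCl, β, β', hββ, hyB, hfix, htail⟩ := h.tail
  obtain ⟨j0, hj0⟩ := ball_wd c R b y hyB
  set C : Set V := {x | ∃ k, cb.S k x ≠ (toPC c).S k x} with hC
  have hcard : C.encard ≤ R := h.card
  have hfin : C.Finite := Set.finite_of_encard_le_coe hcard
  have hw : ∀ x ∈ C, ∃ j, wd c R j b = x := fun x ⟨k, hk⟩ => ball_wd c R b x (h.ball x k hk)
  choose! f hf using hw
  refine ⟨j0, β, β', hfin.toFinset.image f, hββ, ?_, cb, ?_, ?_, ?_, ?_, ?_, ?_, ?_⟩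
  · refine Finset.card_image_le.trans ?_
    have h1 : (hfin.toFinset.card : ℕ∞) ≤ R := by
      rw [← Set.encard_coe_eq_coe_finsetCard, hfin.coe_toFinset]; exact hcard
    exact_mod_cast h1
  · exact fun x k hk => ball_wd c R b x (h.ball x k hk)
  · intro j k hk
    have hx : wd c R j b ∈ C := ⟨k, hk⟩
    exact ⟨⟨f (wd c R j b), Finset.mem_image_of_mem f (hfin.mem_toFinset.2 hx), hf _ hx⟩,
      h.avoid _ k hk⟩
  · intro j
    have hr := h.rng (wd c R j b)
    constructor
    · intro k
      have : cb.S k (wd c R j b) ∈ range fun k => cb.S k (wd c R j b) := ⟨k, rfl⟩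
      rw [hr] at this
      obtain ⟨k', hk'⟩ := this
      exact ⟨k', hk'.symm⟩
    · intro k
      have : c.S k (wd c R j b) ∈ range fun k => (toPC c).S k (wd c R j b) := ⟨k, rfl⟩
      rw [← hr] at this
      exact this
  · exact fun j hj => h.clean _ hj
  · show wd c R j0 b ∈ Cl
    rw [hj0]; exact hyCl
  · show cb.S β (wd c R j0 b) = wd c R j0 b
    rw [hj0]; exact hfix
  · intro n j k h1 h2 h3 h4
    have h4' : wd c R j b = al (c.S β') (c.S β) n (wd c R j0 b) := h4
    show cb.S k (wd c R j b) = c.S k (wd c R j b)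
    rw [h4', hj0]
    exact htail n h1 h2 k h3

/-- the parts are null sets -/
lemma part_null (h_GLUE : tGLUE.{u}) (h_WIN : tWIN.{u}) (h_GAIN : tGAIN.{u})
    (c0 c : PCol G 4) (μ : Measure V) [IsProbabilityMeasure μ]
    (hG : MeasurableSet {p : V × V | G.Adj p.1 p.2}) (hinv : Inv G μ) (Z : Set V)
    (hZ : MeasurableSet Z) (L N R : ℕ) (lam : ℝ) (hlam : 0 ≤ lam)
    (hN : ((4 * L + 2) * R + 4 * R * lam : ℝ) < N) (hcls : Cls μ Z c0 c)
    (hopt : ∀ c' : PCol G 4, Cls μ Z c0 c' → μ.real (Far (c.S 0) (c.S 1) N) ≤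
      μ.real (Far (c'.S 0) (c'.S 1) N) + lam * PCol.dst μ c c')
    (j0 : Fin R → Option (Fin 4)) (β β' : Fin 4) (J : Finset (Fin R → Option (Fin 4)))
    (hββ : β = 0 ∧ β' = 1 ∨ β = 1 ∧ β' = 0) (hJ : J.card ≤ R) :
    μ (Part c Z (Long (c.S 0) (c.S 1) L) (Clean (c.S 0) (c.S 1) (2 * N)) N R j0 β β' J) = 0 := by
  by_contra hμ
  set P := Long (c.S 0) (c.S 1) L with hPdef
  set Cl := Clean (c.S 0) (c.S 1) (2 * N) with hCldef
  have mP : MeasurableSet P := measurableSet_Long (c.meas 0) (c.meas 1) L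
  have mCl : MeasurableSet Cl := measurableSet_Clean (c.meas 0) (c.meas 1) (2 * N)
  -- the walks starting at the tail point
  set E : ℕ → (V ≃ᵐ V) := fun n => (wd c R j0).trans
    (alE (c.S β') (c.S β) (c.meas β') (c.meas β) (c.invol β') (c.invol β) n) with hE
  have hE' : ∀ n x, E n x = al (c.S β') (c.S β) n (wd c R j0 x) := fun n x => rfl
  have mpE : ∀ n, MeasurePreserving (E n) μ μ := fun n =>
    (mp_al (mp_S hinv c β') (mp_S hinv c β) n).comp (mp_wd hinv c R j0)
  set Θ : Set (V ≃ᵐ V) :=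
    range (fun q : (Fin R → Option (Fin 4)) × Fin (N + 1) => (E q.2).trans (wd c R q.1).symm) ∪
    range (fun q : Fin (N + 1) × Fin (N + 1) => (E q.2).trans (E q.1).symm) with hΘ
  obtain ⟨B', c', cb, mB', hB'0, hsp, hin, hout⟩ := h_GLUE V G 4 c μ (Fin R → Option (Fin 4))
    (wd c R) Θ (Rel c Z P Cl N R j0 β β' J) (Part c Z P Cl N R j0 β β' J) hG
    ((finite_range _).union (finite_range _)) (measurableSet_Rel c hZ mP mCl N R j0 β β' J) hμ
    (fun b hb => hb)
  -- sparseness
  have sp1 : ∀ n, n ≤ N → ∀ j, ∀ b ∈ B', ∀ b' ∈ B',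
      al (c.S β') (c.S β) n (wd c R j0 b) = wd c R j b' → b = b' := by
    intro n hn j b hb b' hb' h
    refine hsp _ (Or.inl ⟨(j, ⟨n, by omega⟩), rfl⟩) b hb b' hb' ?_
    show (wd c R j).symm (E n b) = b'
    rw [hE', h, MeasurableEquiv.symm_apply_apply]
  have sp2 : ∀ n, n ≤ N → ∀ m, m ≤ N → ∀ b ∈ B', ∀ b' ∈ B', E n b = E m b' → b = b' := by
    intro n hn m hm b hb b' hb' h
    refine hsp _ (Or.inr ⟨(⟨m, by omega⟩, ⟨n, by omega⟩), rfl⟩) b hb b' hb' ?_
    show (E m).symm (E n b) = b'
    rw [h, MeasurableEquiv.symm_apply_apply]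
  -- changed points
  have hch : ∀ x k, c'.S k x ≠ c.S k x → ∃ b ∈ B', ∃ j, wd c R j b = x := by
    intro x k hk
    by_contra hx
    push Not at hx
    exact hk (hout x (fun b hb j => hx b hb j) k)
  have hclean : ∀ x k, c'.S k x ≠ c.S k x → (∃ i ∈ J, x ∈ wd c R i '' B') ∧ x ∉ Z := by
    intro x k hk
    obtain ⟨b, hb, j, rfl⟩ := hch x k hk
    obtain ⟨-, hR, hc'⟩ := hin b hb
    rw [hc'] at hk
    obtain ⟨⟨i, hi, hi'⟩, hz⟩ := hR.1 j k hk
    exact ⟨⟨i, hi, b, hb, hi'⟩, hz⟩
  have hcls' : Cls μ Z c0 c' := by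
    constructor
    · filter_upwards [hcls.1] with x hx hxZ k
      rw [← hx hxZ k]
      by_contra hk
      exact (hclean x k hk).2 hxZ
    · filter_upwards [hcls.2] with x hx
      rw [← hx]
      by_cases hxB : ∃ b ∈ B', ∃ j, wd c R j b = x
      · obtain ⟨b, hb, j, rfl⟩ := hxB
        obtain ⟨-, hR, hc'⟩ := hin b hb
        obtain ⟨h1, h2⟩ := hR.2.1 j
        ext z
        constructor
        · rintro ⟨k, rfl⟩
          obtain ⟨k', hk'⟩ := h1 k
          exact ⟨k', by simp only [hc']; exact hk'.symm⟩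
        · rintro ⟨k, rfl⟩
          obtain ⟨k', hk'⟩ := h2 k
          exact ⟨k', by simp only [hc']; exact hk'⟩
      · push Not at hxB
        have : ∀ k, c'.S k x = c.S k x := hout x hxB
        simp only [this]
  -- the tail points
  have hClββ : Cl = Clean (c.S β) (c.S β') (2 * N) := by
    rcases hββ with ⟨rfl, rfl⟩ | ⟨rfl, rfl⟩
    · rfl
    · exact Clean_comm (c.invol 0) (c.invol 1) _
  have hFarββ : ∀ d : PCol G 4, Far (d.S 0) (d.S 1) N = Far (d.S β) (d.S β') N := by
    intro d
    rcases hββ with ⟨rfl, rfl⟩ | ⟨rfl, rfl⟩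
    · rfl
    · exact Far_comm _
  set T : Set V := ⋃ n ∈ Finset.range N, E n '' B' with hT
  have mT : MeasurableSet T := Finset.measurableSet_biUnion _ fun n _ =>
    (E n).measurableSet_image.2 mB'
  have hTF : T ⊆ Far (c.S 0) (c.S 1) N \ Far (c'.S 0) (c'.S 1) N := by
    intro x hx
    simp only [hT, mem_iUnion, Finset.mem_range] at hx
    obtain ⟨n, hn, b, hb, rfl⟩ := hx
    obtain ⟨-, hR, hc'⟩ := hin b hb
    obtain ⟨-, -, -, hCl, hfix, htail⟩ := hR
    have hCl' : wd c R j0 b ∈ Cl := hCl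
    rw [hFarββ c, hFarββ c', hE']
    rw [hClββ] at hCl'
    refine ⟨far_al (c.invol β) (c.invol β') hCl'.1 hn.le, ?_⟩
    refine not_far_al (c.invol β) (c.invol β') hn ?_ ?_
    · rw [hc' j0 β]; exact hfix
    · intro m h1 h2
      have key : ∀ k, (k = β ∨ k = β') → c'.S k (al (c.S β') (c.S β) m (wd c R j0 b)) =
          c.S k (al (c.S β') (c.S β) m (wd c R j0 b)) := by
        intro k hk
        by_cases hx : ∃ b' ∈ B', ∃ j, wd c R j b' = al (c.S β') (c.S β) m (wd c R j0 b)
        · obtain ⟨b', hb', j, hj⟩ := hx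
          have hbb := sp1 m h2 j b hb b' hb' hj.symm
          subst hbb
          have := htail m j k h1 h2 hk hj
          rw [← hj, hc' j k]
          exact this
        · push Not at hx
          exact hout _ hx k
      exact ⟨key β (Or.inl rfl), key β' (Or.inr rfl)⟩
  have hTm : μ.real T = N * μ.real B' := by
    rw [hT, measureReal_biUnion_finset]
    · rw [Finset.sum_congr rfl fun n _ => real_image (E n) (mpE n) B', Finset.sum_const,
        Finset.card_range, nsmul_eq_mul]
    · intro n hn m hm hnm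
      rw [Function.onFun, Set.disjoint_left]
      rintro x ⟨b, hb, rfl⟩ ⟨b', hb', h⟩
      rw [Finset.coe_range, mem_Iio] at hn hm
      have hbb := sp2 m hm.le n hn.le b' hb' b hb h
      subst hbb
      obtain ⟨-, hR, -⟩ := hin b' hb
      have hCl' : wd c R j0 b' ∈ Cl := hR.2.2.2.1
      rw [hClββ] at hCl'
      rw [hE', hE'] at h
      have := (h_WIN V (c.S β) (c.S β') (c.invol β) (c.invol β') (2 * N) _ hCl' m n
        (by omega) (by omega)).2.1 h
      exact hnm this.symm
    · exact fun n _ => (E n).measurableSet_image.2 mB'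
  -- the changed set
  set U : Set V := ⋃ i ∈ J, wd c R i '' B' with hU
  have hUm : μ.real U ≤ R * μ.real B' := by
    rw [hU]
    refine (measureReal_biUnion_finset_le J _).trans ?_
    rw [Finset.sum_congr rfl fun i _ => real_image (wd c R i) (mp_wd hinv c R i) B',
      Finset.sum_const, nsmul_eq_mul]
    have : (J.card : ℝ) ≤ R := by exact_mod_cast hJ
    exact mul_le_mul_of_nonneg_right this measureReal_nonneg
  have hsub : ∀ x k, c'.S k x ≠ c.S k x → x ∈ U := by
    intro x k hk
    obtain ⟨⟨i, hi, hx⟩, -⟩ := hclean x k hk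
    simp only [hU, mem_iUnion]
    exact ⟨i, hi, hx⟩
  set D : Set V := {x | c'.S 0 x ≠ c.S 0 x ∨ c'.S 1 x ≠ c.S 1 x} with hD
  have mD : MeasurableSet D :=
    (measurableSet_eq_fun (c'.meas 0) (c.meas 0)).compl.union
      (measurableSet_eq_fun (c'.meas 1) (c.meas 1)).compl
  have hDU : D ⊆ U := by
    rintro x (hx | hx)
    · exact hsub x 0 hx
    · exact hsub x 1 hx
  have hDF : ∀ x ∈ D, x ∉ Long (c.S 0) (c.S 1) L ∨ x ∈ Far (c.S 0) (c.S 1) (2 * N) := by
    intro x hx
    have hx0 : ∃ k, c'.S k x ≠ c.S k x := by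
      rcases hx with hx | hx
      · exact ⟨0, hx⟩
      · exact ⟨1, hx⟩
    obtain ⟨k, hk⟩ := hx0
    obtain ⟨b, hb, j, rfl⟩ := hch x k hk
    obtain ⟨-, hR, hc'⟩ := hin b hb
    have hx' : (cb b).S 0 (wd c R j b) ≠ c.S 0 (wd c R j b) ∨
        (cb b).S 1 (wd c R j b) ≠ c.S 1 (wd c R j b) := by
      rw [← hc' j 0, ← hc' j 1]; exact hx
    rcases hR.2.2.1 j hx' with h | h
    · exact Or.inl h
    · exact Or.inr h.1
  have hgain := h_GAIN V μ (c.S 0) (c.S 1) (c'.S 0) (c'.S 1) (c.invol 0) (c.invol 1)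
    (c'.invol 0) (c'.invol 1) (mp_S hinv c 0) (mp_S hinv c 1) (c'.meas 0) (c'.meas 1) L N T D
    mT mD (fun x hx => hx) hDF hTF
  have hDL : μ.real (D \ Long (c.S 0) (c.S 1) L) ≤ R * μ.real B' :=
    (measureReal_mono (sdiff_subset.trans hDU) (measure_ne_top _ _)).trans hUm
  have hdst : PCol.dst μ c c' ≤ 4 * (R * μ.real B') := by
    unfold PCol.dst
    have h1 : ∀ k ∈ (Finset.univ : Finset (Fin 4)),
        μ.real {x | c.S k x ≠ c'.S k x} ≤ R * μ.real B' := fun k _ =>
      (measureReal_mono (fun x hx => hsub x k (Ne.symm hx)) (measure_ne_top _ _)).trans hUm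
    refine (Finset.sum_le_sum h1).trans ?_
    simp
  have hopt' := hopt c' hcls'
  have hpos : 0 < μ.real B' := by
    rw [Measure.real]
    exact ENNReal.toReal_pos hB'0 (measure_ne_top _ _)
  have h1 : lam * PCol.dst μ c c' ≤ lam * (4 * (R * μ.real B')) :=
    mul_le_mul_of_nonneg_left hdst hlam
  have h2 : (4 * L + 2) * μ.real (D \ Long (c.S 0) (c.S 1) L) ≤
      (4 * L + 2 : ℝ) * (R * μ.real B') := mul_le_mul_of_nonneg_left hDL (by positivity)
  rw [hTm] at hgain
  have h3 : ((4 * L + 2) * R + 4 * R * lam : ℝ) * μ.real B' < N * μ.real B' :=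
    mul_lt_mul_of_pos_right hN hpos
  nlinarith [h1, h2, h3, hgain, hopt']

end words

end LIPC_

theorem allLIPC (h_GLUE : tGLUE.{u}) (h_WIN : tWIN.{u}) (h_GAIN : tGAIN.{u}) : tLIPC.{u} := by
  intro V _ _ G c0 c μ _ hG hinv Z hZ L N R lam hlam _ hN hcls hopt
  have hall : ∀ (j0 : Fin R → Option (Fin 4)) (β β' : Fin 4)
      (J : Finset (Fin R → Option (Fin 4))), ∀ᵐ b ∂μ, (β = 0 ∧ β' = 1 ∨ β = 1 ∧ β' = 0) →
      J.card ≤ R → b ∉ LIPC_.Part c Z (Long (c.S 0) (c.S 1) L)
        (Clean (c.S 0) (c.S 1) (2 * N)) N R j0 β β' J := by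
    intro j0 β β' J
    by_cases h1 : β = 0 ∧ β' = 1 ∨ β = 1 ∧ β' = 0
    · by_cases h2 : J.card ≤ R
      · have := LIPC_.part_null h_GLUE h_WIN h_GAIN c0 c μ hG hinv Z hZ L N R lam hlam hN hcls
          hopt j0 β β' J h1 h2
        filter_upwards [measure_eq_zero_iff_ae_notMem.1 this] with b hb _ _
        exact hb
      · exact Eventually.of_forall fun b _ h => absurd h h2
    · exact Eventually.of_forall fun b h _ => absurd h h1
  have hall' : ∀ᵐ b ∂μ, ∀ (j0 : Fin R → Option (Fin 4)) (β β' : Fin 4)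
      (J : Finset (Fin R → Option (Fin 4))), (β = 0 ∧ β' = 1 ∨ β = 1 ∧ β' = 0) →
      J.card ≤ R → b ∉ LIPC_.Part c Z (Long (c.S 0) (c.S 1) L)
        (Clean (c.S 0) (c.S 1) (2 * N)) N R j0 β β' J := by
    simp only [ae_all_iff]
    intro j0 β β' J
    have := hall j0 β β' J
    simpa only [ae_all_iff] using this
  filter_upwards [hall'] with b hb
  rintro ⟨cb, hcb⟩
  obtain ⟨j0, β, β', J, h1, h2, h3⟩ := LIPC_.exists_part c Z _ _ N R b cb hcb
  exact hb j0 β β' J h1 h2 h3

end Pool.Agent.MEP
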