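import Pool.Agent.MEP.Walk

set_option autoImplicit false

/-! C3: at an optimal colouring no token can be removed pointwise. -/

namespace Pool.Agent.MEP

open MeasureTheory Set Filter
open scoped ENNReal
open Pool.Agent.MEC

universe u

namespace LIPT_

section words

variable {V : Type u} [MeasurableSpace V] {G : SimpleGraph V}

/-- one letter -/
noncomputable def ltr (c : PCol G 4) : Option (Fin 4) → (V ≃ᵐ V)
  | none => MeasurableEquiv.refl V
  | some k => ofInvol (c.S k) (c.meas k) (c.invol k)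

/-- words in the colours -/
noncomputable def wd (c : PCol G 4) : (n : ℕ) → (Fin n → Option (Fin 4)) → (V ≃ᵐ V)
  | 0, _ => MeasurableEquiv.refl V
  | n + 1, w => (wd c n fun i => w i.castSucc).trans (ltr c (w (Fin.last n)))

lemma ball_wd (c : PCol G 4) (n : ℕ) (b x : V) (hx : x ∈ (toPC c).Ball n b) :
    ∃ w, wd c n w b = x := by
  induction n generalizing x with
  | zero => exact ⟨fun _ => none, (show x = b from hx).symm⟩
  | succ n ih =>
    rcases hx with hx | ⟨k, y, hy, rfl⟩
    · obtain ⟨w, rfl⟩ := ih x hx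
      refine ⟨Fin.snoc (α := fun _ => Option (Fin 4)) w none, ?_⟩
      show ltr c _ (wd c n _ b) = _
      simp only [Fin.snoc_castSucc, Fin.snoc_last]
      rfl
    · obtain ⟨w, rfl⟩ := ih y hy
      refine ⟨Fin.snoc (α := fun _ => Option (Fin 4)) w (some k), ?_⟩
      show ltr c _ (wd c n _ b) = _
      simp only [Fin.snoc_castSucc, Fin.snoc_last]
      rfl

lemma wd_none (c : PCol G 4) (n : ℕ) (b : V) : wd c n (fun _ => none) b = b := by
  induction n with
  | zero => rfl
  | succ n ih =>
    show ltr c none (wd c n (fun _ => none) b) = b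
    rw [ih]
    rfl

lemma mp_ltr {μ : Measure V} (hinv : Inv G μ) (c : PCol G 4) (o : Option (Fin 4)) :
    MeasurePreserving (ltr c o) μ μ := by
  cases o with
  | none => exact MeasurePreserving.id μ
  | some k => exact mp_S hinv c k

lemma mp_wd {μ : Measure V} (hinv : Inv G μ) (c : PCol G 4) (n : ℕ)
    (w : Fin n → Option (Fin 4)) : MeasurePreserving (wd c n w) μ μ := by
  induction n with
  | zero => exact MeasurePreserving.id μ
  | succ n ih => exact (mp_ltr hinv c _).comp (ih _)

lemma real_image {μ : Measure V} (e : V ≃ᵐ V) (he : MeasurePreserving e μ μ) (A : Set V) :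
    μ.real (e '' A) = μ.real A := by
  have h : μ (e '' A) = μ A := by
    rw [e.image_eq_preimage_symm]
    exact he.symm.measure_preimage_equiv A
  simp only [Measure.real, h]

/-- words, and words after the generator number `i` -/
noncomputable def fam (g : Gen G 4) (c : PCol G 4) (i R : ℕ) :
    Bool × (Fin R → Option (Fin 4)) → (V ≃ᵐ V)
  | (false, w) => wd c R w
  | (true, w) => (ofInvol (g.T i) (g.meas i) (g.invol i)).trans (wd c R w)

lemma mp_fam {μ : Measure V} (hinv : Inv G μ) (g : Gen G 4) (c : PCol G 4) (i R : ℕ)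
    (j : Bool × (Fin R → Option (Fin 4))) : MeasurePreserving (fam g c i R j) μ μ := by
  obtain ⟨b, w⟩ := j
  cases b with
  | false => exact mp_wd hinv c R w
  | true => exact (mp_wd hinv c R w).comp (hinv _ (g.meas i) (g.invol i) (g.adj i))

lemma exists_fam (g : Gen G 4) (c : PCol G 4) (i R : ℕ) (u x : V)
    (hx : x ∈ (toPC c).Ball R u ∪ (toPC c).Ball R (g.T i u)) : ∃ j, fam g c i R j u = x := by
  rcases hx with hx | hx
  · obtain ⟨w, hw⟩ := ball_wd c R u x hx
    exact ⟨(false, w), hw⟩
  · obtain ⟨w, hw⟩ := ball_wd c R (g.T i u) x hx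
    exact ⟨(true, w), hw⟩

/-- the point is changed in an essential way -/
def Hard (c : PCol G 4) (x : V) (y : Fin 4 → V) : Prop :=
  ¬ (({c.S 0 x, c.S 1 x} : Set V) = {y 0, y 1} ∧ c.S 2 x = y 2 ∧ c.S 3 x = y 3)

/-- the conditions of `TokImp` in terms of `u` and the new colours at the words -/
def Rel (g : Gen G 4) (c : PCol G 4) (i R : ℕ)
    (J J' : Finset (Bool × (Fin R → Option (Fin 4)))) :
    Set (V × ((Bool × (Fin R → Option (Fin 4))) → Fin 4 → V)) :=
  {p | (∀ j k, p.2 j k ≠ c.S k (fam g c i R j p.1) →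
      ∃ l ∈ J, fam g c i R l p.1 = fam g c i R j p.1) ∧
    (∀ j, Hard c (fam g c i R j p.1) (p.2 j) →
      ∃ l ∈ J', fam g c i R l p.1 = fam g c i R j p.1) ∧
    (∀ j k, c.S k (fam g c i R j p.1) ≠ fam g c i R j p.1 →
      ∃ k', p.2 j k' = c.S k (fam g c i R j p.1)) ∧
    p.1 ∈ Unc g c i ∧ ∃ k, p.2 (false, fun _ => none) k = g.T i p.1}

/-- the part of the set of removable tokens with given data -/
def Part (g : Gen G 4) (c : PCol G 4) (i R : ℕ)
    (J J' : Finset (Bool × (Fin R → Option (Fin 4)))) : Set V :=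
  {u | ∃ cb : PC G 4, (∀ x k, cb.S k x ≠ c.S k x → ∃ j, fam g c i R j u = x) ∧
    (u, fun j k => cb.S k (fam g c i R j u)) ∈ Rel g c i R J J'}

/-- every removable token is in one of the parts -/
lemma exists_part (g : Gen G 4) (c : PCol G 4) (L R i : ℕ) (u : V) (cb : PC G 4)
    (hu : u ∈ Unc g c i) (h : TokImp (toPC c) L R (g.T i u) u cb) :
    ∃ J J', J.card ≤ 20 * L ∧ J'.card ≤ 20 ∧ u ∈ Part g c i R J J' := by
  classical
  set C : Set V := {x | ∃ k, cb.S k x ≠ (toPC c).S k x} with hC
  have hcard : C.encard ≤ (20 * L : ℕ) := h.card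
  have hfin : C.Finite := Set.finite_of_encard_le_coe hcard
  set H : Set V := {x | Hard c x (fun k => cb.S k x)} with hH
  have hcardH : H.encard ≤ (20 : ℕ) := h.hard
  have hfinH : H.Finite := Set.finite_of_encard_le_coe hcardH
  have hHC : H ⊆ C := by
    intro x hx
    by_contra hxC
    have hxC' : ∀ k, cb.S k x = c.S k x := by
      intro k
      by_contra hk
      exact hxC ⟨k, hk⟩
    apply hx
    simp only [hxC', and_self]
  have hw : ∀ x ∈ C, ∃ j, fam g c i R j u = x := fun x ⟨k, hk⟩ =>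
    exists_fam g c i R u x (h.ball x k hk)
  choose! f hf using hw
  refine ⟨hfin.toFinset.image f, hfinH.toFinset.image f, ?_, ?_, cb, ?_, ?_, ?_, ?_, hu, ?_⟩
  · refine Finset.card_image_le.trans ?_
    have h1 : (hfin.toFinset.card : ℕ∞) ≤ (20 * L : ℕ) := by
      rw [← Set.encard_coe_eq_coe_finsetCard, hfin.coe_toFinset]; exact hcard
    exact_mod_cast h1
  · refine Finset.card_image_le.trans ?_
    have h1 : (hfinH.toFinset.card : ℕ∞) ≤ (20 : ℕ) := by
      rw [← Set.encard_coe_eq_coe_finsetCard, hfinH.coe_toFinset]; exact hcardH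
    exact_mod_cast h1
  · exact fun x k hk => exists_fam g c i R u x (h.ball x k hk)
  · intro j k hk
    have hx : fam g c i R j u ∈ C := ⟨k, hk⟩
    exact ⟨f (fam g c i R j u), Finset.mem_image_of_mem f (hfin.mem_toFinset.2 hx), hf _ hx⟩
  · intro j hj
    have hx : fam g c i R j u ∈ H := hj
    exact ⟨f (fam g c i R j u), Finset.mem_image_of_mem f (hfinH.mem_toFinset.2 hx),
      hf _ (hHC hx)⟩
  · exact fun j k hk => h.mono _ k hk
  · obtain ⟨k, hk⟩ := h.gain
    refine ⟨k, ?_⟩
    show cb.S k (wd c R (fun _ => none) u) = g.T i u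
    rw [wd_none]
    exact hk

variable [StandardBorelSpace V]

lemma meq {α : Type*} [MeasurableSpace α] {f g : α → V} (hf : Measurable f)
    (hg : Measurable g) : Measurable fun x => f x = g x :=
  measurableSet_setOfPred.1 (measurableSet_eq_fun hf hg)

lemma measurableSet_Rel (g : Gen G 4) (c : PCol G 4) (i R : ℕ)
    (J J' : Finset (Bool × (Fin R → Option (Fin 4)))) :
    MeasurableSet (Rel g c i R J J') := by
  have hφ : ∀ j, Measurable fun p : V × ((Bool × (Fin R → Option (Fin 4))) → Fin 4 → V) =>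
      fam g c i R j p.1 := fun j => (fam g c i R j).measurable.comp measurable_fst
  have hy : ∀ j k, Measurable fun p : V × ((Bool × (Fin R → Option (Fin 4))) → Fin 4 → V) =>
      p.2 j k := fun j k =>
    (measurable_pi_apply k).comp ((measurable_pi_apply j).comp measurable_snd)
  have hS : ∀ j k, Measurable fun p : V × ((Bool × (Fin R → Option (Fin 4))) → Fin 4 → V) =>
      c.S k (fam g c i R j p.1) := fun j k => (c.meas k).comp (hφ j)
  have hE : ∀ (J : Finset (Bool × (Fin R → Option (Fin 4)))) j, Measurable fun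
      p : V × ((Bool × (Fin R → Option (Fin 4))) → Fin 4 → V) =>
      ∃ l ∈ J, fam g c i R l p.1 = fam g c i R j p.1 := by
    intro J j
    refine Measurable.exists fun l => Measurable.and measurable_const ?_
    exact meq (hφ l) (hφ j)
  refine measurableSet_setOfPred.2 ?_
  refine Measurable.and ?_ (Measurable.and ?_ (Measurable.and ?_ (Measurable.and ?_ ?_)))
  · exact Measurable.forall fun j => Measurable.forall fun k =>
      Measurable.imp (meq (hy j k) (hS j k)).not (hE J j)
  · refine Measurable.forall fun j => Measurable.imp ?_ (hE J' j)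
    unfold Hard
    simp only [Set.pair_eq_pair_iff]
    refine Measurable.not (Measurable.and (Measurable.or (Measurable.and ?_ ?_)
      (Measurable.and ?_ ?_)) (Measurable.and ?_ ?_))
    · exact meq (hS j 0) (hy j 0)
    · exact meq (hS j 1) (hy j 1)
    · exact meq (hS j 0) (hy j 1)
    · exact meq (hS j 1) (hy j 0)
    · exact meq (hS j 2) (hy j 2)
    · exact meq (hS j 3) (hy j 3)
  · exact Measurable.forall fun j => Measurable.forall fun k =>
      Measurable.imp (meq (hS j k) (hφ j)).not (Measurable.exists fun k' =>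
        meq (hy j k') (hS j k))
  · exact measurableSet_setOfPred.1 (measurable_fst (measurableSet_Unc i))
  · exact Measurable.exists fun k => meq (hy _ k) ((g.meas i).comp measurable_fst)

/-- the weight as an extended number -/
noncomputable def W (μ : Measure V) (g : Gen G 4) (c : PCol G 4) : ℝ≥0∞ :=
  ∑' i, (μ (Unc g c i) + 2⁻¹ * μ (Unc g c i ∩ WW g i))

lemma W_ne_top (μ : Measure V) [IsFiniteMeasure μ] (g : Gen G 4) (c : PCol G 4) :
    W μ g c ≠ ⊤ := by
  have h : W μ g c ≤ 2 * FE μ g c := by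
    unfold W FE
    rw [← ENNReal.tsum_mul_left]
    refine ENNReal.tsum_le_tsum fun i => ?_
    rw [two_mul]
    gcongr
    refine (mul_le_mul' (?_ : (2 : ℝ≥0∞)⁻¹ ≤ 1) (measure_mono inter_subset_left)).trans ?_
    · simp
    · rw [one_mul]
  exact ne_top_of_le_ne_top (ENNReal.mul_ne_top (by simp) (FE_ne_top μ g c)) h

/-- gaining on a set of uncoloured edges -/
lemma FW_gain (μ : Measure V) [IsFiniteMeasure μ] (g : Gen G 4) (c c' : PCol G 4) (i : ℕ)
    (B : Set V) (hB : MeasurableSet B) (h1 : ∀ l, Unc g c' l ⊆ Unc g c l)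
    (h2 : B ⊆ Unc g c i) (h3 : ∀ x ∈ B, x ∉ Unc g c' i) :
    FW μ g c' + μ.real B ≤ FW μ g c := by
  have h4 : μ (Unc g c' i) + μ B ≤ μ (Unc g c i) := by
    rw [← measure_union (Set.disjoint_left.2 fun x hx hxB => h3 x hxB hx) hB]
    exact measure_mono (union_subset (h1 i) h2)
  have h5 : W μ g c' + μ B ≤ W μ g c := by
    have e : μ B = ∑' l, (if l = i then μ B else 0) := by
      rw [tsum_ite_eq]
    rw [e]
    unfold W
    rw [← ENNReal.tsum_add]
    refine ENNReal.tsum_le_tsum fun l => ?_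
    have h6 : 2⁻¹ * μ (Unc g c' l ∩ WW g l) ≤ 2⁻¹ * μ (Unc g c l ∩ WW g l) := by
      gcongr
      exact h1 l
    by_cases hl : l = i
    · subst hl
      rw [if_pos rfl]
      calc μ (Unc g c' l) + 2⁻¹ * μ (Unc g c' l ∩ WW g l) + μ B
          = (μ (Unc g c' l) + μ B) + 2⁻¹ * μ (Unc g c' l ∩ WW g l) := by ring
        _ ≤ _ := add_le_add h4 h6
    · rw [if_neg hl, add_zero]
      exact add_le_add (measure_mono (h1 l)) h6
  have h7 := ENNReal.toReal_mono (W_ne_top μ g c) h5
  rw [ENNReal.toReal_add (W_ne_top μ g c') (measure_ne_top _ _)] at h7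
  exact h7

/-- the parts are null sets -/
lemma part_null (h_GLUE : tGLUE.{u}) (g : Gen G 4) (c : PCol G 4) (μ : Measure V)
    [IsProbabilityMeasure μ] (hG : MeasurableSet {p : V × V | G.Adj p.1 p.2}) (hinv : Inv G μ)
    (L R i : ℕ) (hL : 1 ≤ L) (hopt : ∀ c' : PCol G 4, FW μ g c ≤ FW μ g c' + dD μ L c c')
    (J J' : Finset (Bool × (Fin R → Option (Fin 4)))) (hJ : J.card ≤ 20 * L)
    (hJ' : J'.card ≤ 20) : μ (Part g c i R J J') = 0 := by
  by_contra hμ
  obtain ⟨B', c', cb, mB', hB'0, -, hin, hout⟩ := h_GLUE V G 4 c μ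
    (Bool × (Fin R → Option (Fin 4))) (fam g c i R) ∅ (Rel g c i R J J') (Part g c i R J J') hG
    Set.finite_empty (measurableSet_Rel g c i R J J') hμ (fun b hb => hb)
  -- changed points
  have hch : ∀ x, (∃ b ∈ B', ∃ j, fam g c i R j b = x) ∨ ∀ k, c'.S k x = c.S k x := by
    intro x
    by_cases hx : ∃ b ∈ B', ∃ j, fam g c i R j b = x
    · exact Or.inl hx
    · push Not at hx
      exact Or.inr (hout x hx)
  have hU : ∀ (J : Finset (Bool × (Fin R → Option (Fin 4)))) (r : ℕ), J.card ≤ r →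
      ∀ A : Set V, A ⊆ ⋃ l ∈ J, fam g c i R l '' B' → μ.real A ≤ r * μ.real B' := by
    intro J r hJ A hA
    refine (measureReal_mono hA (measure_ne_top _ _)).trans ?_
    refine (measureReal_biUnion_finset_le J _).trans ?_
    rw [Finset.sum_congr rfl fun l _ => real_image (fam g c i R l) (mp_fam hinv g c i R l) B',
      Finset.sum_const, nsmul_eq_mul]
    have : (J.card : ℝ) ≤ r := by exact_mod_cast hJ
    exact mul_le_mul_of_nonneg_right this measureReal_nonneg
  have hdst : PCol.dst μ c c' ≤ 4 * ((20 * L : ℕ) * μ.real B') := by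
    unfold PCol.dst
    have h1 : ∀ k ∈ (Finset.univ : Finset (Fin 4)),
        μ.real {x | c.S k x ≠ c'.S k x} ≤ (20 * L : ℕ) * μ.real B' := by
      intro k _
      refine hU J (20 * L) hJ _ ?_
      intro x hx
      rcases hch x with ⟨b, hb, j, rfl⟩ | h
      · obtain ⟨-, hR, hc'⟩ := hin b hb
        have hx' : (cb b).S k (fam g c i R j b) ≠ c.S k (fam g c i R j b) := by
          rw [← hc']; exact fun h => hx h.symm
        obtain ⟨l, hl, hl'⟩ := hR.1 j k hx'
        simp only [mem_iUnion]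
        exact ⟨l, hl, b, hb, hl'⟩
      · exact absurd (h k).symm hx
    refine (Finset.sum_le_sum h1).trans ?_
    simp
  have hdU : dU μ c c' ≤ (20 : ℕ) * μ.real B' := by
    unfold dU
    refine hU J' 20 hJ' _ ?_
    intro x hx
    rcases hch x with ⟨b, hb, j, rfl⟩ | h
    · obtain ⟨-, hR, hc'⟩ := hin b hb
      have hx' : Hard c (fam g c i R j b) (fun k => (cb b).S k (fam g c i R j b)) := by
        simp only [← hc']; exact hx
      obtain ⟨l, hl, hl'⟩ := hR.2.1 j hx'
      simp only [mem_iUnion]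
      exact ⟨l, hl, b, hb, hl'⟩
    · exfalso
      apply hx
      simp only [h, and_self]
  have hsub : ∀ l, Unc g c' l ⊆ Unc g c l := by
    rintro l x ⟨h1, h2⟩
    refine ⟨h1, fun k hk => ?_⟩
    rcases hch x with ⟨b, hb, j, rfl⟩ | h
    · obtain ⟨-, hR, hc'⟩ := hin b hb
      obtain ⟨k', hk'⟩ := hR.2.2.1 j k (show c.S k (fam g c i R j b) ≠ fam g c i R j b by
        rw [hk]; exact h1)
      have hk'' : (cb b).S k' (fam g c i R j b) = c.S k (fam g c i R j b) := hk'
      apply h2 k'
      rw [hc', hk'', hk]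
    · exact h2 k ((h k).trans hk)
  have hBc : B' ⊆ Unc g c i := fun b hb => (hin b hb).2.1.2.2.2.1
  have hBc' : ∀ b ∈ B', b ∉ Unc g c' i := by
    rintro b hb ⟨-, h2⟩
    obtain ⟨-, hR, hc'⟩ := hin b hb
    obtain ⟨k, hk⟩ := hR.2.2.2.2
    have hk' : (cb b).S k (fam g c i R (false, fun _ => none) b) = g.T i b := hk
    have e : fam g c i R (false, fun _ => none) b = b := wd_none c R b
    apply h2 k
    rw [← hk', ← hc', e]
  have hgain := FW_gain μ g c c' i B' mB' hsub hBc hBc'
  have hopt' := hopt c'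
  have hpos : 0 < μ.real B' := by
    rw [Measure.real]
    exact ENNReal.toReal_pos hB'0 (measure_ne_top _ _)
  have hL' : (1 : ℝ) ≤ L := by exact_mod_cast hL
  have h1 : PCol.dst μ c c' / (1000 * L) ≤ 80 / 1000 * μ.real B' := by
    rw [div_le_iff₀ (by positivity)]
    refine hdst.trans (le_of_eq ?_)
    push_cast
    ring
  have h2 : dU μ c c' / 1000 ≤ 20 / 1000 * μ.real B' := by
    rw [div_le_iff₀ (by norm_num)]
    refine hdU.trans (le_of_eq ?_)
    push_cast
    ring
  unfold dD at hopt'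
  linarith

end words

end LIPT_

theorem allLIPT (h_GLUE : tGLUE.{u}) (_h_FWP : tFWP.{u}) : tLIPT.{u} := by
  intro V _ _ G g c μ _ hG hinv L R i hL hopt
  have hall : ∀ᵐ u ∂μ, ∀ (J J' : Finset (Bool × (Fin R → Option (Fin 4)))),
      J.card ≤ 20 * L → J'.card ≤ 20 → u ∉ LIPT_.Part g c i R J J' := by
    simp only [ae_all_iff]
    intro J J' h1 h2
    exact measure_eq_zero_iff_ae_notMem.1
      (LIPT_.part_null h_GLUE g c μ hG hinv L R i hL hopt J J' h1 h2)
  filter_upwards [hall] with u hu hunc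
  rintro ⟨cb, hcb⟩
  obtain ⟨J, J', h1, h2, h3⟩ := LIPT_.exists_part g c L R i u cb hunc hcb
  exact hu J J' h1 h2 h3

end Pool.Agent.MEP
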