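import Pool.Agent.MEP.Walk

set_option autoImplicit false
set_option linter.unusedSectionVars false

/-! MP_fff3e1_lc, `Δ = 4`: the limit of the rounds. -/

namespace Pool.Agent.MEP

open MeasureTheory Set Filter
open scoped ENNReal
open Pool.Agent.MEC

universe u

namespace MAIN_

variable {V : Type u} [MeasurableSpace V] [StandardBorelSpace V] {G : SimpleGraph V}

/-- several rounds at the same level -/
lemma rounds (g : Gen G 4) (μ : Measure V) [IsProbabilityMeasure μ] {ρ C A : ℝ}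
    (hρ0 : 0 ≤ ρ) (hρ1 : ρ < 1) (hC : 1 ≤ C) (e : ℝ) (hA : 0 ≤ A)
    (hF : ∀ c : PCol G 4, 0 ≤ FW μ g c)
    (h : ∀ c0 : PCol G 4, ∃ c : PCol G 4, FW μ g c ≤ ρ * FW μ g c0 ∧
      PCol.dst μ c0 c ≤ C * (e + A * FW μ g c0)) (c0 : PCol G 4) (n : ℕ) :
    ∃ c : PCol G 4, FW μ g c ≤ ρ ^ n * FW μ g c0 ∧
      PCol.dst μ c0 c ≤ n * (C * (e + A * FW μ g c0)) := by
  induction n with
  | zero => exact ⟨c0, by simp, by rw [PCol.dst_self]; simp⟩
  | succ n ih =>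
    obtain ⟨c, h1, h2⟩ := ih
    obtain ⟨c', h3, h4⟩ := h c
    refine ⟨c', ?_, ?_⟩
    · refine h3.trans ?_
      rw [pow_succ']
      nlinarith [mul_le_mul_of_nonneg_left h1 hρ0]
    · refine (PCol.dst_triangle c0 c c').trans ?_
      have h5 : FW μ g c ≤ FW μ g c0 := by
        refine h1.trans ?_
        exact mul_le_of_le_one_left (hF c0) (pow_le_one₀ hρ0 hρ1.le)
      have h6 : C * (e + A * FW μ g c) ≤ C * (e + A * FW μ g c0) := by
        have := mul_le_mul_of_nonneg_left h5 hA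
        exact mul_le_mul_of_nonneg_left (by linarith) (by linarith)
      push_cast
      linarith

/-- a sequence of colourings with summable distances whose uncoloured parts have summable
measure converges to an almost everywhere total colouring -/
lemma limit (g : Gen G 4) (μ : Measure V) [IsProbabilityMeasure μ] (c : ℕ → PCol G 4)
    (hs : Summable fun n => PCol.dst μ (c n) (c (n + 1)))
    (hF : Summable fun n => (FE μ g (c n)).toReal) :
    ∃ d : PCol G 4, ∀ᵐ x ∂μ, ∀ y, G.Adj x y → ∃ k, d.S k x = y := by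
  have hFsum : ∀ i, ∑' n, μ (Unc g (c n) i) ≠ ⊤ := by
    intro i
    refine ne_top_of_le_ne_top hF.tsum_ofReal_ne_top (ENNReal.tsum_le_tsum fun n => ?_)
    rw [ENNReal.ofReal_toReal (FE_ne_top μ g _)]
    exact ENNReal.le_tsum i
  refine ⟨PCol.lim c, ?_⟩
  have h1 := PCol.ae_eventually_eq_lim (ν := μ) c hs
  have h2 : ∀ᵐ x ∂μ, ∀ i, ∀ᶠ n in atTop, x ∉ Unc g (c n) i := by
    rw [ae_all_iff]
    exact fun i => ae_eventually_notMem (hFsum i)
  filter_upwards [h1, h2] with x hx1 hx2 y hxy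
  by_contra hcon
  push Not at hcon
  obtain ⟨i, hi⟩ := g.cover x y hxy
  have h3 : ∀ᶠ n in atTop, ∀ k, (c n).S k x = (PCol.lim c).S k x :=
    Filter.eventually_all.2 hx1
  obtain ⟨n, hn1, hn2⟩ := (h3.and (hx2 i)).exists
  apply hn2
  refine ⟨?_, fun k => ?_⟩
  · rw [hi]; exact hxy.ne.symm
  · rw [hn1 k, hi]; exact hcon k

lemma summable_lin : Summable fun m : ℕ => (2 * (m : ℝ) + 3) * (1 / 2 : ℝ) ^ m := by
  have h1 : Summable fun m : ℕ => (m : ℝ) ^ 1 * (1 / 2 : ℝ) ^ m :=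
    summable_pow_mul_geometric_of_norm_lt_one 1 (by norm_num)
  have h2 : Summable fun m : ℕ => (1 / 2 : ℝ) ^ m :=
    summable_geometric_of_lt_one (by norm_num) (by norm_num)
  refine ((h1.mul_left 2).add (h2.mul_left 3)).congr fun m => ?_
  ring

end MAIN_

open MAIN_ in
theorem allMAIN (h_RS : tRS.{u}) (h_FWP : tFWP.{u}) : tMAIN.{u} := by
  obtain ⟨ρ, C, Γ, hρ0, hρ1, hC, hΓ, hRS⟩ := h_RS
  intro V _ _ G μ _ hG
  obtain ⟨g⟩ := exists_gen hG.borel (Δ := 4) hG.deg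
  obtain ⟨hP1, -, -, -⟩ := h_FWP V G g μ
  have hF0 : ∀ c : PCol G 4, 0 ≤ FW μ g c := fun c => (hP1 c).1
  have hΓ0 : (0 : ℝ) < 2 * Γ := by linarith
  -- number of rounds per level
  obtain ⟨B, hB⟩ : ∃ B : ℕ, ρ ^ B ≤ 1 / (2 * Γ) := by
    obtain ⟨B, hB⟩ := exists_pow_lt_of_lt_one (show (0 : ℝ) < 1 / (2 * Γ) by positivity) hρ1
    exact ⟨B, hB.le⟩
  have hstep : ∀ (m : ℕ) (c0 : PCol G 4), ∃ c : PCol G 4,
      FW μ g c ≤ ρ ^ (B * (2 * m + 3)) * FW μ g c0 ∧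
      PCol.dst μ c0 c ≤ (B * (2 * m + 3) : ℕ) *
        (C * ((1 / 2 : ℝ) ^ m + Γ ^ ((m + 1) ^ 2) * FW μ g c0)) := fun m c0 =>
    rounds g μ hρ0 hρ1 hC _ (by positivity) hF0 (hRS V G g μ hG m) c0 _
  choose next hn1 hn2 using hstep
  let c : ℕ → PCol G 4 := fun n => Nat.rec (PCol.empty G 4) (fun m c => next m c) n
  have hcs : ∀ n, c (n + 1) = next n (c n) := fun n => rfl
  -- the weight decays fast
  have hFW : ∀ m, FW μ g (c m) ≤ 12 * Γ * (1 / (2 * Γ)) ^ ((m + 1) ^ 2) := by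
    intro m
    induction m with
    | zero =>
      have h1 := (hP1 (c 0)).2.1
      have h2 : 12 * Γ * (1 / (2 * Γ)) ^ ((0 + 1) ^ 2) = 6 := by
        have h3 : (0 + 1) ^ 2 = 1 := by norm_num
        have hΓ1 : Γ ≠ 0 := by linarith
        rw [h3, pow_one]
        field_simp
        norm_num
      rw [h2]
      exact h1
    | succ m ih =>
      rw [hcs]
      refine (hn1 m (c m)).trans ?_
      have h1 : ρ ^ (B * (2 * m + 3)) ≤ (1 / (2 * Γ)) ^ (2 * m + 3) := by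
        rw [pow_mul]
        exact pow_le_pow_left₀ (by positivity) hB _
      have h2 : ρ ^ (B * (2 * m + 3)) * FW μ g (c m) ≤
          (1 / (2 * Γ)) ^ (2 * m + 3) * (12 * Γ * (1 / (2 * Γ)) ^ ((m + 1) ^ 2)) :=
        mul_le_mul h1 ih (hF0 _) (by positivity)
      refine h2.trans (le_of_eq ?_)
      have h3 : (m + 1 + 1) ^ 2 = (2 * m + 3) + (m + 1) ^ 2 := by ring
      rw [h3, pow_add]
      ring
  have hhalf : ∀ m : ℕ, (1 / 2 : ℝ) ^ ((m + 1) ^ 2) ≤ (1 / 2 : ℝ) ^ m := fun m =>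
    pow_le_pow_of_le_one (by norm_num) (by norm_num) (by nlinarith)
  have hFW2 : ∀ m, Γ ^ ((m + 1) ^ 2) * FW μ g (c m) ≤ 12 * Γ * (1 / 2 : ℝ) ^ m := by
    intro m
    have h1 : Γ ^ ((m + 1) ^ 2) * FW μ g (c m) ≤
        Γ ^ ((m + 1) ^ 2) * (12 * Γ * (1 / (2 * Γ)) ^ ((m + 1) ^ 2)) :=
      mul_le_mul_of_nonneg_left (hFW m) (by positivity)
    have h2 : Γ ^ ((m + 1) ^ 2) * (12 * Γ * (1 / (2 * Γ)) ^ ((m + 1) ^ 2)) =
        12 * Γ * (1 / 2 : ℝ) ^ ((m + 1) ^ 2) := by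
      have h3 : (1 / (2 * Γ)) ^ ((m + 1) ^ 2) = (1 / 2 : ℝ) ^ ((m + 1) ^ 2) *
          (1 / Γ) ^ ((m + 1) ^ 2) := by
        rw [← mul_pow]
        congr 1
        field_simp
      have h4 : Γ ^ ((m + 1) ^ 2) * (1 / Γ) ^ ((m + 1) ^ 2) = 1 := by
        rw [← mul_pow]
        have : Γ * (1 / Γ) = 1 := by field_simp
        rw [this, one_pow]
      rw [h3]
      calc Γ ^ ((m + 1) ^ 2) * (12 * Γ * ((1 / 2 : ℝ) ^ ((m + 1) ^ 2) *
            (1 / Γ) ^ ((m + 1) ^ 2))) = 12 * Γ * (1 / 2 : ℝ) ^ ((m + 1) ^ 2) *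
            (Γ ^ ((m + 1) ^ 2) * (1 / Γ) ^ ((m + 1) ^ 2)) := by ring
        _ = _ := by rw [h4, mul_one]
    rw [h2] at h1
    exact h1.trans (mul_le_mul_of_nonneg_left (hhalf m) (by positivity))
  refine limit g μ c ?_ ?_
  · refine Summable.of_nonneg_of_le (fun n => PCol.dst_nonneg _ _) (fun m => ?_)
      (summable_lin.mul_left (B * (C * (1 + 12 * Γ))))
    rw [hcs]
    refine (hn2 m (c m)).trans ?_
    have h1 : C * ((1 / 2 : ℝ) ^ m + Γ ^ ((m + 1) ^ 2) * FW μ g (c m)) ≤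
        C * ((1 + 12 * Γ) * (1 / 2 : ℝ) ^ m) :=
      mul_le_mul_of_nonneg_left (by nlinarith [hFW2 m]) (by linarith)
    refine (mul_le_mul_of_nonneg_left h1 (Nat.cast_nonneg _)).trans (le_of_eq ?_)
    push_cast
    ring
  · have h2 : Summable fun m : ℕ => (1 / 2 : ℝ) ^ m :=
      summable_geometric_of_lt_one (by norm_num) (by norm_num)
    refine Summable.of_nonneg_of_le (fun n => ENNReal.toReal_nonneg) (fun m => ?_)
      (h2.mul_left (12 * Γ))
    refine ((hP1 (c m)).2.2).trans (le_trans ?_ (hFW2 m))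
    exact le_mul_of_one_le_left (hF0 _) (one_le_pow₀ hΓ)

end Pool.Agent.MEP
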