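import Pool.Agent.MEP.Walk

set_option autoImplicit false

/-! The removal step `tREM`. -/

namespace Pool.Agent.MEP

open MeasureTheory Set Filter
open scoped ENNReal
open Pool.Agent.MEC

universe u

namespace REM_

variable {V : Type u} [MeasurableSpace V] {G : SimpleGraph V}

/-- points with an edge of label `i` -/
def Nn (g : Gen G 4) (i : ℕ) : Set V := {u | g.T i u ≠ u}

/-- the points where the two colourings differ up to exchanging the colours `0`, `1` -/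
def Dif (c c' : PCol G 4) : Set V := {x | ¬ (({c.S 0 x, c.S 1 x} : Set V) =
  {c'.S 0 x, c'.S 1 x} ∧ c.S 2 x = c'.S 2 x ∧ c.S 3 x = c'.S 3 x)}

lemma oneU_congr {c c' : PCol G 4} {x : V}
    (h : ({c.S 0 x, c.S 1 x} : Set V) = {c'.S 0 x, c'.S 1 x}) (h1 : OneU c x) : OneU c' x := by
  rw [Set.pair_eq_pair_iff] at h
  unfold OneU at *
  rcases h with ⟨h2, h3⟩ | ⟨h2, h3⟩
  · rwa [← h2, ← h3]
  · rw [← h2, ← h3]; tauto

lemma typed_sub {g : Gen G 4} {c c' : PCol G 4} {i : ℕ} {u : V} (h : u ∈ Typed g c i)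
    (h0 : u ∉ Dif c c') (h1 : g.T i u ∉ Dif c c') (h2 : c.S 2 u ∉ Dif c c')
    (h3 : c.S 3 u ∉ Dif c c') : u ∈ Typed g c' i := by
  unfold Dif at h0 h1 h2 h3
  simp only [mem_setOf_eq, not_not] at h0 h1 h2 h3
  obtain ⟨⟨hT, hU⟩, hO, x1, x2, hne, he1, he2, ho1, ho2⟩ := h
  have hk : ∀ k : Fin 4, (k = 2 ∨ k = 3) → c'.S k u = c.S k u ∧
      c'.S k (g.T i u) = c.S k (g.T i u) := by
    rintro k (rfl | rfl)
    · exact ⟨h0.2.1.symm, h1.2.1.symm⟩
    · exact ⟨h0.2.2.symm, h1.2.2.symm⟩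
  have hex : ∀ x, Exit c (g.T i u) u x → OneU c x → Exit c' (g.T i u) u x ∧ OneU c' x := by
    intro x hx ho
    rcases hx with rfl | ⟨k, hk2, hk3, hk4, hk5⟩
    · exact ⟨Or.inl rfl, oneU_congr h1.1 ho⟩
    · refine ⟨Or.inr ⟨k, hk2, ?_, ?_, hk5⟩, ?_⟩
      · rw [(hk k hk2).2, hk3]
      · rw [(hk k hk2).1, hk4]
      · rcases hk2 with rfl | rfl
        · rw [hk4] at h2; exact oneU_congr h2.1 ho
        · rw [hk4] at h3; exact oneU_congr h3.1 ho
  refine ⟨⟨hT, ?_⟩, oneU_congr h0.1 hO, x1, x2, hne, (hex x1 he1 ho1).1, (hex x2 he2 ho2).1,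
    (hex x1 he1 ho1).2, (hex x2 he2 ho2).2⟩
  have hp : ∀ y : V, (y = c'.S 0 u ∨ y = c'.S 1 u) → y ≠ g.T i u := by
    intro y hy hy2
    have hy3 : y ∈ ({c'.S 0 u, c'.S 1 u} : Set V) := by
      rcases hy with rfl | rfl
      · exact Or.inl rfl
      · exact Or.inr rfl
    rw [← h0.1] at hy3
    rcases hy3 with hy3 | hy3
    · exact hU 0 (hy3.symm.trans hy2)
    · exact hU 1 (hy3.symm.trans hy2)
  intro k
  fin_cases k
  · exact hp _ (Or.inl rfl)
  · exact hp _ (Or.inr rfl)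
  · intro h; exact hU 2 ((hk 2 (Or.inl rfl)).1.symm.trans h)
  · intro h; exact hU 3 ((hk 3 (Or.inr rfl)).1.symm.trans h)

variable [StandardBorelSpace V]

lemma measN (g : Gen G 4) (i : ℕ) : MeasurableSet (Nn g i) :=
  (measurableSet_eq_fun (g.meas i) measurable_id).compl

lemma measDif (c c' : PCol G 4) : MeasurableSet (Dif c c') := by
  have e : Dif c c' = ((({x | c.S 0 x = c'.S 0 x} ∩ {x | c.S 1 x = c'.S 1 x}) ∪
      ({x | c.S 0 x = c'.S 1 x} ∩ {x | c.S 1 x = c'.S 0 x})) ∩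
      ({x | c.S 2 x = c'.S 2 x} ∩ {x | c.S 3 x = c'.S 3 x}))ᶜ := by
    ext x
    simp only [Dif, Set.pair_eq_pair_iff, mem_setOf_eq, mem_compl_iff, mem_inter_iff, mem_union]
  rw [e]
  have m : ∀ j k : Fin 4, MeasurableSet {x | c.S j x = c'.S k x} := fun j k =>
    measurableSet_eq_fun (c.meas j) (c'.meas k)
  exact ((((m 0 0).inter (m 1 1)).union ((m 0 1).inter (m 1 0))).inter
    ((m 2 2).inter (m 3 3))).compl

lemma sumN (μ : Measure V) (g : Gen G 4) {F : Set V} :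
    ∑' i, μ (Nn g i ∩ F) ≤ 4 * μ F := by
  have h := tsum_measure_le_of_mult (μ.restrict F) (fun i => Nn g i) (fun i => measN g i) 4
    (fun x s hs => g.card x s hs)
  rw [Measure.restrict_apply_univ] at h
  refine le_trans (le_of_eq ?_) h
  refine tsum_congr fun i => ?_
  rw [Measure.restrict_apply (measN g i)]

lemma sumS {μ : Measure V} (g : Gen G 4) {F : Set V} (hF : MeasurableSet F) {f : V → V}
    (hf : MeasurePreserving f μ μ) : ∑' i, μ (Nn g i ∩ f ⁻¹' F) ≤ 4 * μ F := by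
  rw [← hf.measure_preimage hF.nullMeasurableSet]
  exact sumN μ g

lemma sumT {μ : Measure V} (hinv : Inv G μ) (g : Gen G 4) {F : Set V} (hF : MeasurableSet F) :
    ∑' i, μ (Nn g i ∩ g.T i ⁻¹' F) ≤ 4 * μ F := by
  refine le_trans (le_of_eq ?_) (sumN μ g (F := F))
  refine tsum_congr fun i => ?_
  have hT : MeasurePreserving (g.T i) μ μ := hinv _ (g.meas i) (g.invol i) (g.adj i)
  rw [← hT.measure_preimage ((measN g i).inter hF).nullMeasurableSet]
  congr 1
  ext x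
  simp only [Nn, mem_inter_iff, mem_preimage, mem_setOf_eq, g.invol]
  constructor
  · rintro ⟨h1, h2⟩; exact ⟨fun h => h1 h.symm, h2⟩
  · rintro ⟨h1, h2⟩; exact ⟨fun h => h1 h.symm, h2⟩

/-- the bad labelled points -/
def Bd (g : Gen G 4) (c : PCol G 4) (F : Set V) (i : ℕ) : Set V :=
  (Nn g i ∩ g.T i ⁻¹' F) ∪ ((Nn g i ∩ c.S 2 ⁻¹' F) ∪ (Nn g i ∩ c.S 3 ⁻¹' F))

lemma sumBd {μ : Measure V} (hinv : Inv G μ) (g : Gen G 4) (c : PCol G 4) {F : Set V}
    (hF : MeasurableSet F) : ∑' i, μ (Bd g c F i) ≤ 12 * μ F := by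
  calc ∑' i, μ (Bd g c F i) ≤ ∑' i, (μ (Nn g i ∩ g.T i ⁻¹' F) +
        (μ (Nn g i ∩ c.S 2 ⁻¹' F) + μ (Nn g i ∩ c.S 3 ⁻¹' F))) := by
        refine ENNReal.tsum_le_tsum fun i => ?_
        refine (measure_union_le _ _).trans ?_
        gcongr
        exact measure_union_le _ _
    _ = ∑' i, μ (Nn g i ∩ g.T i ⁻¹' F) + (∑' i, μ (Nn g i ∩ c.S 2 ⁻¹' F) +
        ∑' i, μ (Nn g i ∩ c.S 3 ⁻¹' F)) := by
        rw [ENNReal.tsum_add, ENNReal.tsum_add]
    _ ≤ 4 * μ F + (4 * μ F + 4 * μ F) := by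
        gcongr
        · exact sumT hinv g hF
        · exact sumS g hF (mp_S hinv c 2)
        · exact sumS g hF (mp_S hinv c 3)
    _ = 12 * μ F := by ring

/-- ends of long components -/
def En (c : PCol G 4) (L : ℕ) : Set V :=
  {x | x ∈ Long (c.S 0) (c.S 1) L ∧ c.S 0 x = x} ∪ {x | x ∈ Long (c.S 0) (c.S 1) L ∧ c.S 1 x = x}

lemma measEn (c : PCol G 4) (L : ℕ) : MeasurableSet (En c L) := by
  have h := measurableSet_Long (c.meas 0) (c.meas 1) L
  exact (h.inter (measurableSet_eq_fun (c.meas 0) measurable_id)).union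
    (h.inter (measurableSet_eq_fun (c.meas 1) measurable_id))

/-- at an optimal colouring almost every typed edge has an exit in a long component -/
lemma typed_ae (hTOK : tTOK.{u}) (hLIPT : tLIPT.{u}) (g : Gen G 4) (c : PCol G 4)
    (μ : Measure V) [IsProbabilityMeasure μ] (hG : Gr G μ) {L : ℕ} (hL : 1 ≤ L)
    (hopt : ∀ c' : PCol G 4, FW μ g c ≤ FW μ g c' + dD μ L c c') (i : ℕ) :
    ∀ᵐ u ∂μ, u ∈ Typed g c i → u ∈ Bd g c (En c L) i := by
  filter_upwards [hLIPT V G g c μ hG.borel hG.inv L (2 * L + 5) i hL hopt] with u hu htyp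
  obtain ⟨⟨hT, hU⟩, hO, x1, x2, hne, he1, he2, ho1, ho2⟩ := htyp
  by_contra hcon
  have key : ∀ x, Exit c (g.T i u) u x → OneU c x → x ∉ Long (c.S 0) (c.S 1) L := by
    intro x hx ho hlong
    apply hcon
    have hxE : x ∈ En c L := by
      by_cases h0 : c.S 0 x = x
      · exact Or.inl ⟨hlong, h0⟩
      · right
        refine ⟨hlong, ?_⟩
        by_contra h1
        exact h0 (ho.2 h1)
    rcases hx with rfl | ⟨k, hk2, hk3, hk4, hk5⟩
    · exact Or.inl ⟨hT, hxE⟩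
    · right
      rcases hk2 with rfl | rfl
      · left
        refine ⟨hT, ?_⟩
        rw [mem_preimage, hk4]; exact hxE
      · right
        refine ⟨hT, ?_⟩
        rw [mem_preimage, hk4]; exact hxE
  refine hu ⟨hT, hU⟩ (hTOK V G (toPC c) L u (g.T i u) x1 x2 hL (g.adj i u hT) hU hO hne ?_)
  rintro x (rfl | rfl)
  · exact ⟨ho1, key _ he1 ho1, he1⟩
  · exact ⟨ho2, key _ he2 ho2, he2⟩

lemma TY_le (hTOK : tTOK.{u}) (hLIPT : tLIPT.{u}) (g : Gen G 4) (c c' : PCol G 4)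
    (μ : Measure V) [IsProbabilityMeasure μ] (hG : Gr G μ) {L : ℕ} (hL : 1 ≤ L)
    (hopt : ∀ c'' : PCol G 4, FW μ g c' ≤ FW μ g c'' + dD μ L c' c'') :
    TY μ g c ≤ 12 * μ.real (En c' L) + 16 * μ.real (Dif c c') := by
  have h1 : ∀ i, μ (Typed g c i) ≤ μ (Bd g c' (En c' L) i) +
      (μ (Nn g i ∩ Dif c c') + μ (Bd g c (Dif c c') i)) := by
    intro i
    have hsub : Typed g c i ⊆ Typed g c' i ∪ ((Nn g i ∩ Dif c c') ∪ Bd g c (Dif c c') i) := by
      intro u hu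
      have hN : u ∈ Nn g i := hu.1.1
      by_cases h0 : u ∈ Dif c c'
      · exact Or.inr (Or.inl ⟨hN, h0⟩)
      by_cases h1 : g.T i u ∈ Dif c c'
      · exact Or.inr (Or.inr (Or.inl ⟨hN, h1⟩))
      by_cases h2 : c.S 2 u ∈ Dif c c'
      · exact Or.inr (Or.inr (Or.inr (Or.inl ⟨hN, h2⟩)))
      by_cases h3 : c.S 3 u ∈ Dif c c'
      · exact Or.inr (Or.inr (Or.inr (Or.inr ⟨hN, h3⟩)))
      exact Or.inl (typed_sub hu h0 h1 h2 h3)
    have h2 : μ (Typed g c' i) ≤ μ (Bd g c' (En c' L) i) :=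
      measure_mono_ae (typed_ae hTOK hLIPT g c' μ hG hL hopt i)
    calc μ (Typed g c i) ≤ μ (Typed g c' i ∪ ((Nn g i ∩ Dif c c') ∪ Bd g c (Dif c c') i)) :=
          measure_mono hsub
      _ ≤ μ (Typed g c' i) + μ ((Nn g i ∩ Dif c c') ∪ Bd g c (Dif c c') i) :=
          measure_union_le _ _
      _ ≤ _ := by
          gcongr
          exact measure_union_le _ _
  have h2 : ∑' i, μ (Typed g c i) ≤ 12 * μ (En c' L) + 16 * μ (Dif c c') := by
    calc ∑' i, μ (Typed g c i) ≤ ∑' i, (μ (Bd g c' (En c' L) i) +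
          (μ (Nn g i ∩ Dif c c') + μ (Bd g c (Dif c c') i))) := ENNReal.tsum_le_tsum h1
      _ = ∑' i, μ (Bd g c' (En c' L) i) + (∑' i, μ (Nn g i ∩ Dif c c') +
          ∑' i, μ (Bd g c (Dif c c') i)) := by rw [ENNReal.tsum_add, ENNReal.tsum_add]
      _ ≤ 12 * μ (En c' L) + (4 * μ (Dif c c') + 12 * μ (Dif c c')) := by
          gcongr
          · exact sumBd hG.inv g c' (measEn c' L)
          · exact sumN μ g
          · exact sumBd hG.inv g c (measDif c c')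
      _ = _ := by ring
  have hfin : 12 * μ (En c' L) + 16 * μ (Dif c c') ≠ ⊤ :=
    ENNReal.add_ne_top.2 ⟨ENNReal.mul_ne_top (by simp) (measure_ne_top _ _),
      ENNReal.mul_ne_top (by simp) (measure_ne_top _ _)⟩
  have h3 := ENNReal.toReal_mono hfin h2
  rw [ENNReal.toReal_add (ENNReal.mul_ne_top (by simp) (measure_ne_top _ _))
    (ENNReal.mul_ne_top (by simp) (measure_ne_top _ _)), ENNReal.toReal_mul,
    ENNReal.toReal_mul] at h3
  simpa [TY, Measure.real] using h3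

end REM_

open REM_ in
/-- G6 the removal step -/
theorem allREM (h_EKD : tEKD.{u}) (h_LIP : tLIP.{u}) (h_NEAR : tNEAR.{u}) (h_TOK : tTOK.{u})
    (h_LIPT : tLIPT.{u}) (h_FWP : tFWP.{u}) : tREM.{u} := by
  refine ⟨1 / 10 ^ 8, 1 / 10 ^ 5, by norm_num, by norm_num, by norm_num, ?_⟩
  intro V _ _ G g c μ _ hG L hL hTY hlong
  obtain ⟨c', hc', hopt⟩ := h_EKD V G g μ hG.inv L hL c
  have hL' : (1 : ℝ) ≤ L := by exact_mod_cast hL
  have hF := (h_FWP V G g μ).1
  have hF0 := (hF c).1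
  have hF0' := (hF c').1
  have hdU : 0 ≤ dU μ c c' := measureReal_nonneg
  have hdst : 0 ≤ PCol.dst μ c c' := Finset.sum_nonneg fun k _ => measureReal_nonneg
  have hdD : dD μ L c c' = dU μ c c' / 1000 + PCol.dst μ c c' / (1000 * L) := rfl
  have hpos : (0 : ℝ) < 1000 * L := by positivity
  have hq : 0 ≤ PCol.dst μ c c' / (1000 * L) := div_nonneg hdst hpos.le
  refine ⟨c', ?_, ?_⟩
  · by_contra hcon
    push Not at hcon
    set W := FW μ g c with hW
    have hWpos : 0 < W := by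
      rcases hF0.lt_or_eq with h | h
      · exact h
      · exfalso
        rw [← h] at hcon hc'
        rw [hdD] at hc'
        nlinarith [hdU, hq]
    have hU1 : dU μ c c' ≤ 1000 * (1 / 10 ^ 8) * W := by
      rw [hdD] at hc'
      nlinarith [hq]
    have hDif : μ.real (Dif c c') = dU μ c c' := rfl
    have hd01 : ∀ (c : PCol G 4) (x : V), c.S 0 x = c.S 1 x → c.S 0 x = x := by
      intro c x h
      by_contra h2
      have := c.disj 0 1 x h h2
      exact absurd this (by decide)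
    have hlip := h_LIP V μ (c.S 0) (c.S 1) (c'.S 0) (c'.S 1) (c.invol 0) (c.invol 1)
      (c'.invol 0) (c'.invol 1) (hd01 c) (hd01 c') (mp_S hG.inv c 0) (mp_S hG.inv c 1)
      (c'.meas 0) (c'.meas 1) L
    have hsub : μ.real {x | ¬ ({c.S 0 x, c.S 1 x} : Set V) = {c'.S 0 x, c'.S 1 x}} ≤
        dU μ c c' := by
      rw [← hDif]
      refine measureReal_mono ?_ (measure_ne_top _ _)
      intro x hx h
      exact hx h.1
    have hlong' : μ.real (Long (c'.S 0) (c'.S 1) L) ≤ 4 / 10 ^ 5 * L * W := by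
      have h1 : (2 * (L : ℝ) + 1) * μ.real {x | ¬ ({c.S 0 x, c.S 1 x} : Set V) =
          {c'.S 0 x, c'.S 1 x}} ≤ (3 * L) * (1000 * (1 / 10 ^ 8) * W) := by
        have h2 := hsub.trans hU1
        have h3 : (2 * (L : ℝ) + 1) ≤ 3 * L := by linarith
        exact mul_le_mul h3 h2 measureReal_nonneg (by positivity)
      have h4 : (3 * (L : ℝ)) * (1000 * (1 / 10 ^ 8) * W) = 3 / 10 ^ 5 * L * W := by ring
      calc μ.real (Long (c'.S 0) (c'.S 1) L) ≤ 1 / 10 ^ 5 * L * W + 3 / 10 ^ 5 * L * W := by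
            rw [← h4]; exact hlip.trans (add_le_add hlong h1)
        _ = _ := by ring
    obtain ⟨hn1, hn2, -⟩ := h_NEAR V μ (c'.S 0) (c'.S 1) (c'.invol 0) (c'.invol 1)
      (mp_S hG.inv c' 0) (mp_S hG.inv c' 1) L 0 hL
    have hEn : μ.real (En c' L) ≤ 16 / 10 ^ 5 * W := by
      have h1 : μ.real (En c' L) ≤ μ.real {x | x ∈ Long (c'.S 0) (c'.S 1) L ∧ c'.S 0 x = x} +
          μ.real {x | x ∈ Long (c'.S 0) (c'.S 1) L ∧ c'.S 1 x = x} := measureReal_union_le _ _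
      have hcan : ∀ a : ℝ, L * a ≤ 2 * μ.real (Long (c'.S 0) (c'.S 1) L) →
          a ≤ 8 / 10 ^ 5 * W := by
        intro a ha
        have h2 : L * a ≤ L * (8 / 10 ^ 5 * W) := by
          calc L * a ≤ 2 * μ.real (Long (c'.S 0) (c'.S 1) L) := ha
            _ ≤ 2 * (4 / 10 ^ 5 * L * W) := by gcongr
            _ = L * (8 / 10 ^ 5 * W) := by ring
        exact le_of_mul_le_mul_left h2 (by linarith)
      have h3 := hcan _ hn1
      have h4 := hcan _ hn2
      linarith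
    have hT := TY_le h_TOK h_LIPT g c c' μ hG hL hopt
    rw [hDif] at hT
    have hfin : W ≤ 100 * (12 * (16 / 10 ^ 5 * W) + 16 * (1000 * (1 / 10 ^ 8) * W)) := by
      calc W ≤ 100 * TY μ g c := hTY
        _ ≤ 100 * (12 * μ.real (En c' L) + 16 * dU μ c c') := by gcongr
        _ ≤ _ := by gcongr
    nlinarith
  · have h1 : PCol.dst μ c c' / (1000 * L) ≤ FW μ g c := by
      rw [hdD] at hc'
      have : 0 ≤ dU μ c c' / 1000 := by positivity
      linarith
    rw [div_le_iff₀ hpos] at h1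
    linarith

end Pool.Agent.MEP
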