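import Pool.Agent.MEP.Walk

set_option autoImplicit false

/-! H1: one round. -/

namespace Pool.Agent.MEP

open MeasureTheory Set Filter
open scoped ENNReal
open Pool.Agent.MEC

universe u

namespace RS_

variable {V : Type u} [MeasurableSpace V] {G : SimpleGraph V} {μ : Measure V}

lemma cls_refl (Z : Set V) (c : PCol G 4) : Cls μ Z c c :=
  ⟨Eventually.of_forall fun _ _ _ => rfl, Eventually.of_forall fun _ => rfl⟩

lemma cls_trans {Z : Set V} {a b c : PCol G 4} (h1 : Cls μ Z a b) (h2 : Cls μ Z b c) :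
    Cls μ Z a c := by
  refine ⟨?_, ?_⟩
  · filter_upwards [h1.1, h2.1] with x hx hy hz k
    rw [hy hz k, hx hz k]
  · filter_upwards [h1.2, h2.2] with x hx hy
    rw [hy, hx]

lemma relab_symm (σ : Equiv.Perm (Fin 4)) (c : PCol G 4) : relab σ (relab σ.symm c) = c := by
  cases c
  simp [relab]

lemma Long_real_anti [IsFiniteMeasure μ] (s t : V → V) {L L' : ℕ} (h : L ≤ L') :
    μ.real (Long s t L') ≤ μ.real (Long s t L) :=
  measureReal_mono (Long_anti h)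

/-- iteration of the cut step -/
lemma iter [IsFiniteMeasure μ] {C : ℕ} (hC : 1 ≤ C) {δ : ℝ} (hδ1 : δ < 1)
    {Z : Set V} {m : ℕ} {e0 : PCol G 4} (h0 : μ.real (Long (e0.S 0) (e0.S 1) 1) ≤ 1)
    (hstep : ∀ (e : PCol G 4) (L : ℕ), 1 ≤ L →
      (1 / 2 : ℝ) ^ m ≤ μ.real (Long (e.S 0) (e.S 1) L) →
      ∃ c : PCol G 4, Cls μ Z e c ∧ L * PCol.dst μ e c ≤ (1 / 2 : ℝ) ^ m ∧
        μ.real (Long (c.S 0) (c.S 1) (C * 4 ^ m * L)) ≤
          (1 - δ) * μ.real (Long (e.S 0) (e.S 1) L)) (j : ℕ) :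
    ∃ (e : PCol G 4) (i : ℕ), i ≤ j ∧ Cls μ Z e0 e ∧
      PCol.dst μ e0 e ≤ (1 / 2 : ℝ) ^ m * (2 * (1 - (1 / 2 : ℝ) ^ j)) ∧
      (μ.real (Long (e.S 0) (e.S 1) (((C + 1) * 4 ^ m) ^ i)) < (1 / 2 : ℝ) ^ m ∨
        (i = j ∧ μ.real (Long (e.S 0) (e.S 1) (((C + 1) * 4 ^ m) ^ j)) ≤ (1 - δ) ^ j)) := by
  have hK : 2 ≤ (C + 1) * 4 ^ m := by
    have h4 : 1 ≤ 4 ^ m := Nat.one_le_pow _ _ (by norm_num)
    calc 2 = 2 * 1 := by norm_num
      _ ≤ (C + 1) * 4 ^ m := Nat.mul_le_mul (by omega) h4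
  have hm0 : (0 : ℝ) < (1 / 2 : ℝ) ^ m := by positivity
  induction j with
  | zero =>
    refine ⟨e0, 0, le_rfl, cls_refl Z e0, ?_, Or.inr ⟨rfl, ?_⟩⟩
    · rw [PCol.dst_self]; simp
    · simpa using h0
  | succ j ih =>
    obtain ⟨e, i, hij, hcls, hdst, hor⟩ := ih
    have hhalf : (1 / 2 : ℝ) ^ (j + 1) = (1 / 2 : ℝ) ^ j * (1 / 2) := pow_succ _ _
    have hj0 : (0 : ℝ) < (1 / 2 : ℝ) ^ j := by positivity
    have hdst' : PCol.dst μ e0 e ≤ (1 / 2 : ℝ) ^ m * (2 * (1 - (1 / 2 : ℝ) ^ (j + 1))) := by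
      refine hdst.trans (mul_le_mul_of_nonneg_left ?_ hm0.le)
      rw [hhalf]; linarith
    by_cases hlt : μ.real (Long (e.S 0) (e.S 1) (((C + 1) * 4 ^ m) ^ i)) < (1 / 2 : ℝ) ^ m
    · exact ⟨e, i, by omega, hcls, hdst', Or.inl hlt⟩
    · rcases hor with h | ⟨hi, hle⟩
      · exact absurd h hlt
      · subst hi
        have hL1 : 1 ≤ ((C + 1) * 4 ^ m) ^ i := Nat.one_le_pow _ _ (by omega)
        obtain ⟨c, hc1, hc2, hc3⟩ := hstep e (((C + 1) * 4 ^ m) ^ i) hL1 (not_lt.1 hlt)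
        refine ⟨c, i + 1, le_rfl, cls_trans hcls hc1, ?_, Or.inr ⟨rfl, ?_⟩⟩
        · have hd0 := PCol.dst_nonneg (ν := μ) e c
          have h2i : ((2 : ℝ)) ^ i ≤ ((((C + 1) * 4 ^ m) ^ i : ℕ) : ℝ) := by
            have : 2 ^ i ≤ ((C + 1) * 4 ^ m) ^ i := Nat.pow_le_pow_left hK i
            exact_mod_cast this
          have h3 : (2 : ℝ) ^ i * PCol.dst μ e c ≤ (1 / 2 : ℝ) ^ m :=
            (mul_le_mul_of_nonneg_right h2i hd0).trans hc2
          have h4 : PCol.dst μ e c ≤ (1 / 2 : ℝ) ^ m * (1 / 2 : ℝ) ^ i := by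
            have h5 : (1 / 2 : ℝ) ^ i * ((2 : ℝ) ^ i * PCol.dst μ e c) ≤
                (1 / 2 : ℝ) ^ i * (1 / 2 : ℝ) ^ m := mul_le_mul_of_nonneg_left h3 hj0.le
            rw [← mul_assoc, ← mul_pow] at h5
            norm_num at h5 ⊢
            linarith
          have h6 := PCol.dst_triangle (ν := μ) e0 e c
          have h7 : (1 / 2 : ℝ) ^ m * (2 * (1 - (1 / 2 : ℝ) ^ (i + 1))) =
              (1 / 2 : ℝ) ^ m * (2 * (1 - (1 / 2 : ℝ) ^ i)) +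
                (1 / 2 : ℝ) ^ m * (1 / 2 : ℝ) ^ i := by
            rw [hhalf]; ring
          rw [h7]
          linarith
        · have hle2 : C * 4 ^ m * ((C + 1) * 4 ^ m) ^ i ≤ ((C + 1) * 4 ^ m) ^ (i + 1) := by
            rw [pow_succ, Nat.mul_comm (((C + 1) * 4 ^ m) ^ i)]
            exact Nat.mul_le_mul_right _ (Nat.mul_le_mul_right _ (by omega))
          calc μ.real (Long (c.S 0) (c.S 1) (((C + 1) * 4 ^ m) ^ (i + 1)))
              ≤ μ.real (Long (c.S 0) (c.S 1) (C * 4 ^ m * ((C + 1) * 4 ^ m) ^ i)) :=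
                Long_real_anti _ _ hle2
            _ ≤ (1 - δ) * μ.real (Long (e.S 0) (e.S 1) (((C + 1) * 4 ^ m) ^ i)) := hc3
            _ ≤ (1 - δ) * (1 - δ) ^ i := mul_le_mul_of_nonneg_left hle (by linarith)
            _ = (1 - δ) ^ (i + 1) := by rw [pow_succ, mul_comm]

/-- arithmetic of the case with cuts -/
lemma arith1 {A C c2 F G h x L D1 D2 : ℝ} (hA : A = 10000 * (C + 1) / c2 + 4000) (hC : 1 ≤ C)
    (hc2 : 0 < c2) (hF : 0 ≤ F) (hG : 1 ≤ G) (hh : 0 < h) (hx : x * F = h / c2)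
    (hL : L ≤ G + (x + 1)) (h1 : D1 ≤ 2 * h) (h2 : D2 ≤ 1000 * L * F) :
    D1 + D2 ≤ (A - 1000) * (h + G * F) := by
  have hquo : 0 < 1 / c2 := by positivity
  have e1 : A - 1000 = 10000 * (C + 1) * (1 / c2) + 3000 := by rw [hA]; ring
  have e2 : L * F ≤ G * F + ((1 / c2) * h + F) := by
    have e3 := mul_le_mul_of_nonneg_right hL hF
    have e4 : (G + (x + 1)) * F = G * F + (x * F + F) := by ring
    have e5 : h / c2 = (1 / c2) * h := by ring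
    rw [e4, hx, e5] at e3
    exact e3
  have e3 : 1 * F ≤ G * F := mul_le_mul_of_nonneg_right hG hF
  have e4 : 1000 * (1 / c2) * h ≤ 10000 * (C + 1) * (1 / c2) * h := by
    refine mul_le_mul_of_nonneg_right (mul_le_mul_of_nonneg_right ?_ hquo.le) hh.le
    linarith
  have e5 : 0 ≤ 10000 * (C + 1) * (1 / c2) * (G * F) := by positivity
  have e6 : (10000 * (C + 1) * (1 / c2) + 3000) * (h + G * F) =
      10000 * (C + 1) * (1 / c2) * h + 10000 * (C + 1) * (1 / c2) * (G * F) + 3000 * h +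
        3000 * (G * F) := by ring
  rw [e1, e6]
  have e7 : D2 ≤ 1000 * (L * F) := by rw [← mul_assoc]; exact h2
  have e8 : 1000 * (1 / c2) * h = 1000 * ((1 / c2) * h) := by ring
  rw [e8] at e4
  linarith

/-- arithmetic of the case without cuts -/
lemma arith2 {A C c2 F G h x L D q : ℝ} (hA : A = 10000 * (C + 1) / c2 + 4000) (hC : 1 ≤ C)
    (hc2 : 0 < c2) (hF : 0 ≤ F) (hG : 1 ≤ G) (hh : 0 < h) (hx : x * F = 1 / c2)
    (hL : L ≤ x + 1) (hq : q ≤ G) (h1 : 1 ≤ 10 * C * (q * F)) (h2 : D ≤ 1000 * L * F) :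
    D ≤ (A - 1000) * (h + G * F) := by
  have hquo : 0 < 1 / c2 := by positivity
  have e1 : A - 1000 = 10000 * (C + 1) * (1 / c2) + 3000 := by rw [hA]; ring
  have e2 : L * F ≤ 1 / c2 + F := by
    have e3 := mul_le_mul_of_nonneg_right hL hF
    have e4 : (x + 1) * F = x * F + F := by ring
    rw [e4, hx] at e3
    exact e3
  have e3 : 1 * F ≤ G * F := mul_le_mul_of_nonneg_right hG hF
  have e4 : 1 ≤ 10 * C * (G * F) := by
    refine h1.trans (mul_le_mul_of_nonneg_left ?_ (by linarith))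
    exact mul_le_mul_of_nonneg_right hq hF
  have e5 : 1000 * (1 / c2) * 1 ≤ 1000 * (1 / c2) * (10 * C * (G * F)) :=
    mul_le_mul_of_nonneg_left e4 (by positivity)
  have e6 : 1000 * (1 / c2) * (10 * C * (G * F)) = 10000 * C * (1 / c2) * (G * F) := by ring
  have e7 : 0 ≤ 10000 * (C + 1) * (1 / c2) * h := by positivity
  have e8 : (10000 * (C + 1) * (1 / c2) + 3000) * (h + G * F) =
      10000 * (C + 1) * (1 / c2) * h + 10000 * C * (1 / c2) * (G * F) +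
        10000 * (1 / c2) * (G * F) + 3000 * h + 3000 * (G * F) := by ring
  have e9 : 0 ≤ 10000 * (1 / c2) * (G * F) := by positivity
  rw [e1, e8]
  have e10 : D ≤ 1000 * (L * F) := by rw [← mul_assoc]; exact h2
  rw [e6] at e5
  linarith

end RS_

theorem allRS (h_EKD : tEKD.{u}) (h_TYPE : tTYPE.{u}) (h_ZONE : tZONE.{u}) (h_CUT : tCUT.{u})
    (h_REM : tREM.{u}) (h_FWP : tFWP.{u}) : tRS.{u} := by
  obtain ⟨C, δ, hC1, hδ0, hδ1, hcut⟩ := h_CUT
  obtain ⟨c1, c2, hc10, hc11, hc20, hrem⟩ := h_REM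
  obtain ⟨J0, hJ0⟩ := exists_pow_lt_of_lt_one (show (0 : ℝ) < 1 / 2 by norm_num)
    (show 1 - δ < 1 by linarith)
  have hCr : (1 : ℝ) ≤ C := by exact_mod_cast hC1
  set A : ℝ := 10000 * (C + 1) / c2 + 4000 with hA
  set Γ : ℝ := (((4 * (C + 1)) ^ (J0 + 1) : ℕ) : ℝ) with hΓ
  have hΓ4 : (4 : ℝ) ≤ Γ := by
    have : 4 ≤ (4 * (C + 1)) ^ (J0 + 1) := by
      calc 4 ≤ 4 * (C + 1) := by omega
        _ = (4 * (C + 1)) ^ 1 := (pow_one _).symm
        _ ≤ (4 * (C + 1)) ^ (J0 + 1) := Nat.pow_le_pow_right (by omega) (by omega)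
    rw [hΓ]; exact_mod_cast this
  have hquo : 0 < 10000 * ((C : ℝ) + 1) / c2 := by positivity
  refine ⟨1 - c1, A, Γ, by linarith, by linarith, by linarith, by linarith, ?_⟩
  intro V _ _ G g μ _ hG m c0
  obtain ⟨hF1, -, hF3, hF4⟩ := h_FWP V G g μ
  -- the optimal colouring
  obtain ⟨d, hd1, hd2⟩ := h_EKD V G g μ hG.inv 1 le_rfl c0
  obtain ⟨σ, hσ⟩ := h_TYPE V G g d μ hG hd2
  have hF0 : 0 ≤ FW μ g d := (hF1 d).1
  have hdst0 : PCol.dst μ c0 d ≤ 1000 * (FW μ g c0 - FW μ g d) := by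
    have h1 : 0 ≤ dU μ c0 d := measureReal_nonneg
    unfold dD at hd1
    have h2 : PCol.dst μ c0 d / (1000 * ((1 : ℕ) : ℝ)) = PCol.dst μ c0 d / 1000 := by norm_num
    rw [h2] at hd1
    linarith
  have hFF : FW μ g d ≤ FW μ g c0 := by
    have := PCol.dst_nonneg (ν := μ) c0 d
    linarith
  have hpw : (0 : ℝ) < (1 / 2 : ℝ) ^ m := by positivity
  have hG1 : (1 : ℝ) ≤ Γ ^ ((m + 1) ^ 2) := one_le_pow₀ (by linarith)
  -- the trivial case
  rcases hF0.eq_or_lt with hz | hFpos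
  · refine ⟨d, ?_, ?_⟩
    · rw [← hz]
      exact mul_nonneg (by linarith) (hF1 c0).1
    · rw [← hz, sub_zero] at hdst0
      have h0 := (hF1 c0).1
      have h1 : 1 * FW μ g c0 ≤ Γ ^ ((m + 1) ^ 2) * FW μ g c0 :=
        mul_le_mul_of_nonneg_right hG1 h0
      have h2 : (0 : ℝ) ≤ (1 / 2 : ℝ) ^ m + Γ ^ ((m + 1) ^ 2) * FW μ g c0 := by
        have : 0 ≤ Γ ^ ((m + 1) ^ 2) * FW μ g c0 := by positivity
        linarith
      calc PCol.dst μ c0 d ≤ 1000 * FW μ g c0 := hdst0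
        _ ≤ 1000 * ((1 / 2 : ℝ) ^ m + Γ ^ ((m + 1) ^ 2) * FW μ g c0) := by linarith
        _ ≤ A * ((1 / 2 : ℝ) ^ m + Γ ^ ((m + 1) ^ 2) * FW μ g c0) :=
          mul_le_mul_of_nonneg_right (by linarith) h2
  set e0 := relab σ d with he0
  have hFe : FW μ g e0 = FW μ g d := hF3 d σ
  -- it is enough to find a colouring close to `e0`
  suffices H : ∃ c' : PCol G 4, FW μ g c' ≤ (1 - c1) * FW μ g d ∧
      PCol.dst μ e0 c' ≤ (A - 1000) * ((1 / 2 : ℝ) ^ m + Γ ^ ((m + 1) ^ 2) * FW μ g d) by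
    obtain ⟨c', h1, h2⟩ := H
    refine ⟨relab σ.symm c', ?_, ?_⟩
    · rw [hF3]
      exact h1.trans (mul_le_mul_of_nonneg_left hFF (by linarith))
    · have h3 : PCol.dst μ d (relab σ.symm c') = PCol.dst μ e0 c' := by
        rw [← hF4 d (relab σ.symm c') σ, RS_.relab_symm]
      have h4 := PCol.dst_triangle (ν := μ) c0 d (relab σ.symm c')
      rw [h3] at h4
      have h5 : Γ ^ ((m + 1) ^ 2) * FW μ g d ≤ Γ ^ ((m + 1) ^ 2) * FW μ g c0 :=
        mul_le_mul_of_nonneg_left hFF (by linarith)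
      have h6 : (A - 1000) * ((1 / 2 : ℝ) ^ m + Γ ^ ((m + 1) ^ 2) * FW μ g d) ≤
          (A - 1000) * ((1 / 2 : ℝ) ^ m + Γ ^ ((m + 1) ^ 2) * FW μ g c0) :=
        mul_le_mul_of_nonneg_left (by linarith) (by linarith)
      have h7 : 1 * FW μ g c0 ≤ Γ ^ ((m + 1) ^ 2) * FW μ g c0 :=
        mul_le_mul_of_nonneg_right hG1 (hF1 c0).1
      have h8 : A * ((1 / 2 : ℝ) ^ m + Γ ^ ((m + 1) ^ 2) * FW μ g c0) =
          (A - 1000) * ((1 / 2 : ℝ) ^ m + Γ ^ ((m + 1) ^ 2) * FW μ g c0) +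
            1000 * ((1 / 2 : ℝ) ^ m + Γ ^ ((m + 1) ^ 2) * FW μ g c0) := by ring
      rw [h8]
      linarith
  obtain ⟨Z, hZm, hZ10, hZc⟩ := h_ZONE V G g e0 μ hG
  rw [hFe] at hZ10
  have hGF : 1 * FW μ g d ≤ Γ ^ ((m + 1) ^ 2) * FW μ g d :=
    mul_le_mul_of_nonneg_right hG1 hF0
  by_cases hA' : (C : ℝ) * μ.real Z ≤ (1 / 4 : ℝ) ^ m
  · -- cuts
    have hprob : ∀ L, μ.real (Long (e0.S 0) (e0.S 1) L) ≤ 1 := fun L => measureReal_le_one
    obtain ⟨e, i, hij, hcls, hdst, hor⟩ := RS_.iter (μ := μ) (Z := Z) (m := m) (e0 := e0) hC1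
      hδ1 (hprob 1) (fun e L hL hLe => hcut V G μ e hG Z m L hZm hL hA' hLe) (J0 * (m + 1))
    have hLe : μ.real (Long (e.S 0) (e.S 1) (((C + 1) * 4 ^ m) ^ i)) < (1 / 2 : ℝ) ^ m := by
      rcases hor with h | ⟨hi, h⟩
      · exact h
      · rw [hi]
        refine h.trans_lt ?_
        rw [pow_mul]
        calc ((1 - δ) ^ J0) ^ (m + 1) ≤ (1 / 2 : ℝ) ^ (m + 1) :=
              pow_le_pow_left₀ (pow_nonneg (by linarith) _) hJ0.le _
          _ < (1 / 2 : ℝ) ^ m := by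
            rw [pow_succ]
            linarith
    have hKi : ((((C + 1) * 4 ^ m) ^ i : ℕ) : ℝ) ≤ Γ ^ ((m + 1) ^ 2) := by
      have h1 : (C + 1) * 4 ^ m ≤ (4 * (C + 1)) ^ (m + 1) := by
        rw [mul_pow, Nat.mul_comm]
        exact Nat.mul_le_mul (Nat.pow_le_pow_right (by norm_num) (by omega))
          (Nat.le_self_pow (by omega) _)
      have h0 : 0 < (C + 1) * 4 ^ m := by positivity
      have h2 : ((C + 1) * 4 ^ m) ^ i ≤ ((4 * (C + 1)) ^ (J0 + 1)) ^ ((m + 1) ^ 2) := by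
        calc ((C + 1) * 4 ^ m) ^ i ≤ ((C + 1) * 4 ^ m) ^ (J0 * (m + 1)) :=
              Nat.pow_le_pow_right h0 hij
          _ ≤ ((4 * (C + 1)) ^ (m + 1)) ^ (J0 * (m + 1)) := Nat.pow_le_pow_left h1 _
          _ = (4 * (C + 1)) ^ (J0 * (m + 1) ^ 2) := by rw [← pow_mul]; ring_nf
          _ ≤ (4 * (C + 1)) ^ ((J0 + 1) * (m + 1) ^ 2) :=
              Nat.pow_le_pow_right (by omega) (Nat.mul_le_mul_right _ (by omega))
          _ = ((4 * (C + 1)) ^ (J0 + 1)) ^ ((m + 1) ^ 2) := by rw [pow_mul]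
      rw [hΓ]
      exact_mod_cast h2
    obtain ⟨hFec, hTec⟩ := hZc e hcls
    rw [hFe] at hFec
    -- the length for the removal
    set x : ℝ := (1 / 2 : ℝ) ^ m / (c2 * FW μ g d) with hx
    have hc2F : 0 < c2 * FW μ g d := mul_pos hc20 hFpos
    have hx0 : 0 < x := by positivity
    set L : ℕ := max (((C + 1) * 4 ^ m) ^ i) ⌈x⌉₊ with hL
    have hL1 : 1 ≤ L := le_max_of_le_left (Nat.one_le_pow _ _ (by positivity))
    have hLx : x ≤ L := (Nat.le_ceil x).trans (by exact_mod_cast le_max_right _ _)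
    have hLup : (L : ℝ) ≤ Γ ^ ((m + 1) ^ 2) + (x + 1) := by
      rw [hL, Nat.cast_max]
      refine max_le ?_ ?_
      · linarith
      · have := (Nat.ceil_lt_add_one hx0.le).le
        linarith
    have hty : FW μ g e ≤ 100 * TY μ g e := by
      rw [hFec, hTec]; exact hσ
    have hlong : μ.real (Long (e.S 0) (e.S 1) L) ≤ c2 * L * FW μ g e := by
      rw [hFec]
      calc μ.real (Long (e.S 0) (e.S 1) L)
          ≤ μ.real (Long (e.S 0) (e.S 1) (((C + 1) * 4 ^ m) ^ i)) :=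
            RS_.Long_real_anti _ _ (le_max_left _ _)
        _ ≤ (1 / 2 : ℝ) ^ m := hLe.le
        _ = c2 * FW μ g d * x := by rw [hx]; field_simp
        _ ≤ c2 * FW μ g d * L := mul_le_mul_of_nonneg_left hLx hc2F.le
        _ = c2 * L * FW μ g d := by ring
    obtain ⟨c', hc'1, hc'2⟩ := hrem V G g e μ hG L hL1 hty hlong
    rw [hFec] at hc'1 hc'2
    refine ⟨c', hc'1, ?_⟩
    have h1 := PCol.dst_triangle (ν := μ) e0 e c'
    have h2 : PCol.dst μ e0 e ≤ 2 * (1 / 2 : ℝ) ^ m := by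
      refine hdst.trans ?_
      have h3 : (0 : ℝ) < (1 / 2 : ℝ) ^ (J0 * (m + 1)) := by positivity
      nlinarith
    have h4 : x * FW μ g d = (1 / 2 : ℝ) ^ m / c2 := by
      rw [hx]; field_simp
    exact h1.trans (RS_.arith1 hA hCr hc20 hF0 hG1 hpw h4 hLup h2 hc'2)
  · -- direct removal
    rw [not_le] at hA'
    have hc2F : 0 < c2 * FW μ g d := mul_pos hc20 hFpos
    set x : ℝ := 1 / (c2 * FW μ g d) with hx
    have hx0 : 0 < x := by positivity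
    have hL1 : 1 ≤ ⌈x⌉₊ := Nat.one_le_ceil_iff.2 hx0
    have hlong : μ.real (Long (e0.S 0) (e0.S 1) ⌈x⌉₊) ≤ c2 * (⌈x⌉₊ : ℝ) * FW μ g e0 := by
      rw [hFe]
      calc μ.real (Long (e0.S 0) (e0.S 1) ⌈x⌉₊) ≤ 1 := measureReal_le_one
        _ = c2 * FW μ g d * x := by rw [hx]; field_simp
        _ ≤ c2 * FW μ g d * ⌈x⌉₊ := mul_le_mul_of_nonneg_left (Nat.le_ceil x) hc2F.le
        _ = c2 * (⌈x⌉₊ : ℝ) * FW μ g d := by ring
    have hty : FW μ g e0 ≤ 100 * TY μ g e0 := by rw [hFe]; exact hσ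
    obtain ⟨c', hc'1, hc'2⟩ := hrem V G g e0 μ hG ⌈x⌉₊ hL1 hty hlong
    rw [hFe] at hc'1 hc'2
    refine ⟨c', hc'1, ?_⟩
    have h4 : x * FW μ g d = 1 / c2 := by
      rw [hx]; field_simp
    have h6 : (1 : ℝ) ≤ 10 * C * (4 ^ m * FW μ g d) := by
      have h7 : (1 / 4 : ℝ) ^ m < 10 * C * FW μ g d := by
        refine hA'.trans_le ?_
        have := mul_le_mul_of_nonneg_left hZ10 (show (0 : ℝ) ≤ C by linarith)
        linarith
      have h8 : (4 : ℝ) ^ m * (1 / 4 : ℝ) ^ m = 1 := by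
        rw [← mul_pow]; norm_num
      have h9 := mul_le_mul_of_nonneg_left h7.le (show (0 : ℝ) ≤ 4 ^ m by positivity)
      rw [h8] at h9
      linarith
    have h7 : (4 : ℝ) ^ m ≤ Γ ^ ((m + 1) ^ 2) := by
      calc (4 : ℝ) ^ m ≤ Γ ^ m := pow_le_pow_left₀ (by norm_num) hΓ4 _
        _ ≤ Γ ^ ((m + 1) ^ 2) := pow_le_pow_right₀ (by linarith) (by nlinarith)
    exact RS_.arith2 hA hCr hc20 hF0 hG1 hpw h4 (Nat.ceil_lt_add_one hx0.le).le h7 h6 hc'2

end Pool.Agent.MEP
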