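import Pool.Agent.MEP.Ops

set_option autoImplicit false

/-! Target `tTOK`: a typed uncoloured edge with short exits can be coloured (pointwise). -/

namespace Pool.Agent.MEP

open Set

universe u

namespace TOK_

variable {V : Type u} {G : SimpleGraph V}

/-- a stalled walk which starts at an end is a whole component -/
lemma path_closed {s t : V → V} (hs : ∀ x, s (s x) = x) (ht : ∀ x, t (t x) = x) {n : ℕ} {x : V}
    (hx : s x = x) (hn : al t s (n + 1) x = al t s n x) :
    ∀ y ∈ (fun i => al t s i x) '' Iio (n + 1),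
      t y ∈ (fun i => al t s i x) '' Iio (n + 1) ∧ s y ∈ (fun i => al t s i x) '' Iio (n + 1) := by
  have up : ∀ i, i ≤ n → al t s (i + 1) x ∈ (fun i => al t s i x) '' Iio (n + 1) := by
    intro i hi
    rcases Nat.lt_or_ge i n with h | h
    · exact ⟨i + 1, by simp only [mem_Iio]; omega, rfl⟩
    · have : i = n := by omega
      subst this
      exact ⟨i, by simp only [mem_Iio]; omega, hn.symm⟩
  rintro y ⟨i, hi, rfl⟩
  simp only [mem_Iio] at hi
  simp only
  by_cases he : Even i
  · refine ⟨?_, ?_⟩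
    · rw [← al_last_even t s he]; exact up i (by omega)
    · rcases Nat.eq_zero_or_pos i with h0 | h0
      · subst h0
        rw [al_zero, hx]
        exact ⟨0, by simp only [mem_Iio]; omega, rfl⟩
      · obtain ⟨j, rfl⟩ : ∃ j, i = j + 1 := ⟨i - 1, by omega⟩
        have hj : ¬ Even j := by rw [Nat.even_add_one] at he; exact he
        rw [al_last_odd t s hj, hs]
        exact ⟨j, by simp only [mem_Iio]; omega, rfl⟩
  · refine ⟨?_, ?_⟩
    · obtain ⟨j, rfl⟩ : ∃ j, i = j + 1 := by
        rcases Nat.eq_zero_or_pos i with h0 | h0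
        · subst h0; exact absurd Even.zero he
        · exact ⟨i - 1, by omega⟩
      have hj : Even j := by
        rw [Nat.even_add_one] at he; exact not_not.1 he
      rw [al_last_even t s hj, ht]
      exact ⟨j, by simp only [mem_Iio]; omega, rfl⟩
    · rw [← al_last_odd t s he]; exact up i (by omega)

/-- an end which is not in a long component has a short component -/
lemma stall_of_short {s t : V → V} (hs : ∀ x, s (s x) = x) (ht : ∀ x, t (t x) = x) {L : ℕ}
    {x : V} (hx : s x = x) (hL : x ∉ Long t s L) : ∃ n, n < 2 * L ∧ StallAt t s n x := by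
  have h1 : ∃ p, 1 ≤ p ∧ p ≤ L ∧ al t s (2 * p) x = x := by
    by_contra hcon
    push Not at hcon
    exact hL fun p h1 h2 => hcon p h1 h2
  obtain ⟨p, h1, h2, h3⟩ := h1
  rcases NS_or_stall t s (2 * p) x with h | ⟨n, hn, h⟩
  · have := al_inj_of_fixed hs ht hx h (2 * p) 0 le_rfl (by omega) (by rw [h3]; rfl)
    omega
  · exact ⟨n, by omega, h⟩

/-- the other end of the component of `x` -/
lemma other_end {s t : V → V} (hs : ∀ x, s (s x) = x) (ht : ∀ x, t (t x) = x) {n : ℕ} {x u : V}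
    (hx : s x = x) (hn : StallAt t s n x) (hu : t u = u)
    (hmem : u ∈ (fun i => al t s i x) '' Iio (n + 1)) :
    StallAt s t n u ∧ al s t n u = x := by
  obtain ⟨i, hi, rfl⟩ := hmem
  simp only [mem_Iio] at hi
  simp only at hu ⊢
  have he : Even i := by
    by_contra he
    obtain ⟨j, rfl⟩ : ∃ j, i = j + 1 := by
      rcases Nat.eq_zero_or_pos i with h0 | h0
      · subst h0; exact absurd Even.zero he
      · exact ⟨i - 1, by omega⟩
    have hj : Even j := by
      rw [Nat.even_add_one] at he; exact not_not.1 he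
    rw [al_last_even t s hj, ht] at hu
    apply hn.1 j (by omega)
    rw [al_last_even t s hj]
    exact hu.symm
  have hin : i = n := by
    by_contra hne
    apply hn.1 i (by omega)
    rw [al_last_even t s he, hu]
  subst hin
  exact (hn.rev hs ht hx).1 he

/-- the direct changes at the uncoloured edge -/
lemma core (c : PC G 4) {u v x : V} (huv : G.Adj u v) (hunc : ∀ k, c.S k u ≠ v) {b : Fin 4}
    (hu : c.S b u = u) (hxb : c.S b x = x)
    (hx : x = v ∨ ∃ k : Fin 4, c.S k v = v ∧ c.S k u = x ∧ x ≠ u) :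
    ∃ cb : PC G 4, (∀ y j, cb.S j y ≠ c.S j y → y = u ∨ y = v ∨ y = x) ∧
      (∀ y j, c.S j y ≠ y → ∃ k', cb.S k' y = c.S j y) ∧ ∃ k, cb.S k u = v := by
  rcases hx with rfl | ⟨k, hv, rfl, hne⟩
  · refine ⟨c.colE b u x huv hunc hu hxb, ?_, ?_, ⟨b, c.colE_u b u x huv hunc hu hxb⟩⟩
    · intro y j hj
      rcases c.colE_changed b u x huv hunc hu hxb hj with h | h
      · exact Or.inl h
      · exact Or.inr (Or.inl h)
    · intro y j hj
      exact ⟨j, c.colE_mono b u x huv hunc hu hxb hj⟩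
  · have hY : ∀ y ∈ ({u, c.S k u} : Set V), c.S k y ∈ ({u, c.S k u} : Set V) ∧
        c.S b y ∈ ({u, c.S k u} : Set V) := by
      intro y hy
      rcases hy with h | h
      · rw [h, hu]; simp
      · rw [mem_singleton_iff] at h
        rw [h, hxb, c.invol]; simp
    have hmu : u ∈ ({u, c.S k u} : Set V) := by simp
    have hnv : v ∉ ({u, c.S k u} : Set V) := by
      rintro (h | h)
      · exact huv.ne h.symm
      · exact hunc k h.symm
    have hunc1 : ∀ j, (c.flip k b {u, c.S k u} hY).S j u ≠ v := by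
      intro j
      rw [c.flip_mem k b _ hY hmu]
      exact hunc _
    have hu1 : (c.flip k b {u, c.S k u} hY).S k u = u := by
      rw [c.flip_left k b _ hY hmu, hu]
    have hv1 : (c.flip k b {u, c.S k u} hY).S k v = v := by
      rw [c.flip_notMem k b _ hY hnv, hv]
    refine ⟨(c.flip k b {u, c.S k u} hY).colE k u v huv hunc1 hu1 hv1, ?_, ?_,
      ⟨k, PC.colE_u _ k u v huv hunc1 hu1 hv1⟩⟩
    · intro y j hj
      by_cases h : ((c.flip k b {u, c.S k u} hY).colE k u v huv hunc1 hu1 hv1).S j y =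
          (c.flip k b {u, c.S k u} hY).S j y
      · rw [h] at hj
        rcases c.flip_changed k b _ hY hj with h' | h'
        · exact Or.inl h'
        · exact Or.inr (Or.inr h')
      · rcases PC.colE_changed _ k u v huv hunc1 hu1 hv1 h with h' | h'
        · exact Or.inl h'
        · exact Or.inr (Or.inl h')
    · intro y j hj
      have h1 : ∃ i, (c.flip k b {u, c.S k u} hY).S i y = c.S j y := by
        have h2 : c.S j y ∈ range (fun i => (c.flip k b {u, c.S k u} hY).S i y) := by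
          rw [c.flip_range k b _ hY y]; exact ⟨j, rfl⟩
        exact h2
      obtain ⟨i, hi⟩ := h1
      refine ⟨i, ?_⟩
      rw [PC.colE_mono _ k u v huv hunc1 hu1 hv1 (by rw [hi]; exact hj), hi]

/-- the change after a flip of a short component which does not contain `u` -/
lemma finish (c : PC G 4) {L : ℕ} (hL : 1 ≤ L) {u v x : V} {b b' : Fin 4}
    (hb : b = 0 ∧ b' = 1 ∨ b = 1 ∧ b' = 0) (K : Set V)
    (hK : ∀ y ∈ K, c.S b y ∈ K ∧ c.S b' y ∈ K)
    (hball : ∀ y ∈ K, y ∈ c.Ball (2 * L + 1) u ∪ c.Ball (2 * L + 1) v)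
    (hcard : K.encard ≤ (2 * L : ℕ)) (huK : u ∉ K) (huv : G.Adj u v)
    (hunc : ∀ k, c.S k u ≠ v) (hub : c.S b u = u) (hxb : (c.flip b b' K hK).S b x = x)
    (hx : x = v ∨ ∃ k : Fin 4, (k = 2 ∨ k = 3) ∧ c.S k v = v ∧ c.S k u = x ∧ x ≠ u) :
    ∃ cb, TokImp c L (2 * L + 5) v u cb := by
  have hpal : ∀ k : Fin 4, (k = 2 ∨ k = 3) → k ≠ b ∧ k ≠ b' := by
    intro k hk
    rcases hb with ⟨rfl, rfl⟩ | ⟨rfl, rfl⟩ <;> rcases hk with rfl | rfl <;> decide
  have hoth : ∀ k : Fin 4, (k = 2 ∨ k = 3) → ∀ y, (c.flip b b' K hK).S k y = c.S k y :=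
    fun k hk y => c.flip_other b b' K hK (hpal k hk).1 (hpal k hk).2 y
  have hxball : x ∈ c.Ball (2 * L + 5) u ∪ c.Ball (2 * L + 5) v := by
    rcases hx with rfl | ⟨k, -, -, rfl, -⟩
    · exact Or.inr (c.Ball_self _ _)
    · exact Or.inl (c.Ball_mono (by omega) (c.Ball_one k u))
  obtain ⟨cb, h1, h2, h3⟩ := core (c.flip b b' K hK) huv
    (fun k => by rw [c.flip_notMem b b' K hK huK]; exact hunc k)
    (b := b) (by rw [c.flip_notMem b b' K hK huK]; exact hub) hxb (by
      rcases hx with rfl | ⟨k, hk, hv, hu, hne⟩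
      · exact Or.inl rfl
      · exact Or.inr ⟨k, by rw [hoth k hk]; exact hv, by rw [hoth k hk]; exact hu, hne⟩)
  have hch : ∀ y j, cb.S j y ≠ c.S j y → y ∈ K ∨ y = u ∨ y = v ∨ y = x := by
    intro y j hj
    by_cases h : cb.S j y = (c.flip b b' K hK).S j y
    · rw [h] at hj
      exact Or.inl (c.flip_changed b b' K hK hj)
    · exact Or.inr (h1 y j h)
  have hthree : ({u, v, x} : Set V).encard ≤ 3 := by
    have e1 : ({u, v, x} : Set V).encard ≤ ({v, x} : Set V).encard + 1 := encard_insert_le _ _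
    have e2 : ({v, x} : Set V).encard ≤ ({x} : Set V).encard + 1 := encard_insert_le _ _
    have e3 : ({x} : Set V).encard = 1 := encard_singleton x
    rw [e3] at e2
    calc ({u, v, x} : Set V).encard ≤ ({v, x} : Set V).encard + 1 := e1
      _ ≤ (1 + 1) + 1 := by gcongr
      _ = 3 := by norm_num
  refine ⟨cb, ?_, ?_, ?_, ?_, h3⟩
  · intro y j hj
    rcases hch y j hj with h | rfl | rfl | rfl
    · rcases hball y h with h' | h'
      · exact Or.inl (c.Ball_mono (by omega) h')
      · exact Or.inr (c.Ball_mono (by omega) h')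
    · exact Or.inl (c.Ball_self _ _)
    · exact Or.inr (c.Ball_self _ _)
    · exact hxball
  · refine le_trans (encard_le_encard ?_) (hthree.trans (by norm_num))
    intro y hy
    by_contra hcon
    have hcon' : ∀ j, cb.S j y = (c.flip b b' K hK).S j y := by
      intro j
      by_contra h
      apply hcon
      rcases h1 y j h with h' | h' | h' <;> simp [h']
    apply hy
    refine ⟨?_, ?_, ?_⟩
    · rw [hcon' 0, hcon' 1]
      by_cases hyK : y ∈ K
      · rcases hb with ⟨rfl, rfl⟩ | ⟨rfl, rfl⟩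
        · rw [c.flip_left 0 1 K hK hyK, c.flip_right 0 1 K hK hyK, pair_comm]
        · rw [c.flip_left 1 0 K hK hyK, c.flip_right 1 0 K hK hyK, pair_comm]
      · rw [c.flip_notMem b b' K hK hyK, c.flip_notMem b b' K hK hyK]
    · rw [hcon' 2, hoth 2 (Or.inl rfl)]
    · rw [hcon' 3, hoth 3 (Or.inr rfl)]
  · have hsub : {y | ∃ k, cb.S k y ≠ c.S k y} ⊆ K ∪ ({u, v, x} : Set V) := by
      rintro y ⟨j, hj⟩
      rcases hch y j hj with h | h | h | h
      · exact Or.inl h
      · exact Or.inr (by simp [h])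
      · exact Or.inr (by simp [h])
      · exact Or.inr (by simp [h])
    calc {y | ∃ k, cb.S k y ≠ c.S k y}.encard ≤ (K ∪ ({u, v, x} : Set V)).encard :=
          encard_le_encard hsub
      _ ≤ K.encard + ({u, v, x} : Set V).encard := encard_union_le _ _
      _ ≤ ((2 * L : ℕ) : ℕ∞) + 3 := by gcongr
      _ = ((2 * L + 3 : ℕ) : ℕ∞) := by push_cast; rfl
      _ ≤ ((20 * L : ℕ) : ℕ∞) := by exact_mod_cast (show 2 * L + 3 ≤ 20 * L by omega)
  · intro y j hj
    have h4 : ∃ i, (c.flip b b' K hK).S i y = c.S j y := by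
      have h5 : c.S j y ∈ range (fun i => (c.flip b b' K hK).S i y) := by
        rw [c.flip_range b b' K hK y]; exact ⟨j, rfl⟩
      exact h5
    obtain ⟨i, hi⟩ := h4
    obtain ⟨k', hk'⟩ := h2 y i (by rw [hi]; exact hj)
    exact ⟨k', by rw [hk', hi]⟩

/-- the statement for a fixed order of the colours `0, 1` -/
lemma main (c : PC G 4) {L : ℕ} (hL : 1 ≤ L) {u v x1 x2 : V} {b b' : Fin 4}
    (hb : b = 0 ∧ b' = 1 ∨ b = 1 ∧ b' = 0) (huv : G.Adj u v) (hunc : ∀ k, c.S k u ≠ v)
    (hub : c.S b u = u) (hne : x1 ≠ x2)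
    (hx : ∀ x, x = x1 ∨ x = x2 → (c.S b x = x ∨ c.S b' x = x ∧ c.S b x ≠ x) ∧
      x ∉ Long (c.S b) (c.S b') L ∧
      (x = v ∨ ∃ k : Fin 4, (k = 2 ∨ k = 3) ∧ c.S k v = v ∧ c.S k u = x ∧ x ≠ u)) :
    ∃ cb, TokImp c L (2 * L + 5) v u cb := by
  -- the direct cases
  have direct : ∀ x, x = x1 ∨ x = x2 → c.S b x = x → ∃ cb, TokImp c L (2 * L + 5) v u cb := by
    intro x hxx hbx
    refine finish c hL hb ∅ (fun y hy => absurd hy (notMem_empty y))
      (fun y hy => absurd hy (notMem_empty y)) (by simp) (notMem_empty u) huv hunc hub ?_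
      (hx x hxx).2.2
    rw [c.flip_notMem b b' ∅ _ (notMem_empty x)]
    exact hbx
  by_cases d1 : c.S b x1 = x1
  · exact direct x1 (Or.inl rfl) d1
  by_cases d2 : c.S b x2 = x2
  · exact direct x2 (Or.inr rfl) d2
  have f1 : c.S b' x1 = x1 := ((hx x1 (Or.inl rfl)).1.resolve_left d1).1
  have f2 : c.S b' x2 = x2 := ((hx x2 (Or.inr rfl)).1.resolve_left d2).1
  obtain ⟨n1, hn1, st1⟩ := stall_of_short (c.invol b') (c.invol b) f1 (hx x1 (Or.inl rfl)).2.1
  obtain ⟨n2, hn2, st2⟩ := stall_of_short (c.invol b') (c.invol b) f2 (hx x2 (Or.inr rfl)).2.1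
  -- flipping the component of `x` if it does not contain `u`
  have flipx : ∀ x n, x = x1 ∨ x = x2 → c.S b' x = x → n < 2 * L →
      StallAt (c.S b) (c.S b') n x → u ∉ (fun i => al (c.S b) (c.S b') i x) '' Iio (n + 1) →
      ∃ cb, TokImp c L (2 * L + 5) v u cb := by
    intro x n hxx hfx hn hst huK
    have hK := path_closed (c.invol b') (c.invol b) hfx hst.2
    refine finish c hL hb _ hK ?_ ?_ huK huv hunc hub ?_ (hx x hxx).2.2
    · rintro y ⟨i, hi, rfl⟩
      simp only [mem_Iio] at hi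
      have h1 := c.Ball_al b b' i x
      rcases (hx x hxx).2.2 with rfl | ⟨k, -, -, rfl, -⟩
      · exact Or.inr (c.Ball_mono (by omega) h1)
      · exact Or.inl (c.Ball_mono (by omega) (c.Ball_add (c.Ball_one k u) h1))
    · refine (encard_image_le _ _).trans ?_
      rw [← Finset.coe_range, encard_coe_eq_coe_finsetCard, Finset.card_range]
      exact_mod_cast (show n + 1 ≤ 2 * L by omega)
    · have hmem : x ∈ (fun i => al (c.S b) (c.S b') i x) '' Iio (n + 1) :=
        ⟨0, by simp only [mem_Iio]; omega, rfl⟩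
      rw [c.flip_left b b' _ hK hmem]
      exact hfx
  by_cases u1 : u ∈ (fun i => al (c.S b) (c.S b') i x1) '' Iio (n1 + 1)
  · by_cases u2 : u ∈ (fun i => al (c.S b) (c.S b') i x2) '' Iio (n2 + 1)
    · exfalso
      obtain ⟨a1, a2⟩ := other_end (c.invol b') (c.invol b) f1 st1 hub u1
      obtain ⟨b1, b2⟩ := other_end (c.invol b') (c.invol b) f2 st2 hub u2
      have h := a1.unique b1
      rw [← h] at b2
      exact hne (a2.symm.trans b2)
    · exact flipx x2 n2 (Or.inr rfl) f2 hn2 st2 u2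
  · exact flipx x1 n1 (Or.inl rfl) f1 hn1 st1 u1

end TOK_

theorem allTOK : tTOK.{u} := by
  intro V G c L u v x1 x2 hL huv hunc hu hne hx
  by_cases h0 : c.S 0 u = u
  · refine TOK_.main c hL (b := 0) (b' := 1) (Or.inl ⟨rfl, rfl⟩) huv hunc h0 hne ?_
    intro x hxx
    obtain ⟨e1, e2, e3⟩ := hx x hxx
    refine ⟨?_, e2, e3⟩
    by_cases g : c.S 0 x = x
    · exact Or.inl g
    · exact Or.inr ⟨not_not.1 (fun h => g (e1.2 h)), g⟩
  · have h1 : c.S 1 u = u := not_not.1 (fun h => h0 (hu.2 h))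
    refine TOK_.main c hL (b := 1) (b' := 0) (Or.inr ⟨rfl, rfl⟩) huv hunc h1 hne ?_
    intro x hxx
    obtain ⟨e1, e2, e3⟩ := hx x hxx
    refine ⟨?_, ?_, e3⟩
    · by_cases g : c.S 1 x = x
      · exact Or.inl g
      · exact Or.inr ⟨e1.2 g, g⟩
    · rw [Long_comm (c.invol 1) (c.invol 0)]
      exact e2

end Pool.Agent.MEP
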