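import Pool.Agent.MEP.Ops
import Pool.Agent.MEP.Targets

set_option autoImplicit false

/-! Target `tTYC`: classification of the uncoloured edges (pointwise). -/

namespace Pool.Agent.MEP

open Set

universe u

namespace TYC_

variable {V : Type u} {G : SimpleGraph V}

/-- a change on a set of at most three points is small -/
lemma tok_of_subset (c cb : PC G 4) (u v w : V) (hw : w ∈ c.Ball 1 u)
    (hch : ∀ x k, cb.S k x ≠ c.S k x → x = u ∨ x = v ∨ x = w)
    (mono : ∀ x k, c.S k x ≠ x → ∃ k', cb.S k' x = c.S k x)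
    (gain : ∃ k, cb.S k u = v) : TokImp c 1 5 v u cb := by
  have hsub : {x | ∃ k, cb.S k x ≠ c.S k x} ⊆ ({u, v, w} : Set V) := by
    rintro x ⟨k, hk⟩
    rcases hch x k hk with h | h | h <;> simp [h]
  have h3 : ({u, v, w} : Set V).encard ≤ 20 := by
    have e1 : ({u, v, w} : Set V).encard ≤ ({v, w} : Set V).encard + 1 := encard_insert_le _ _
    have e2 : ({v, w} : Set V).encard ≤ ({w} : Set V).encard + 1 := encard_insert_le _ _
    have e3 : ({w} : Set V).encard = 1 := encard_singleton w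
    rw [e3] at e2
    calc ({u, v, w} : Set V).encard ≤ ({v, w} : Set V).encard + 1 := e1
      _ ≤ (1 + 1) + 1 := by gcongr
      _ ≤ 20 := by norm_num
  refine ⟨?_, ?_, ?_, mono, gain⟩
  · intro x k hk
    rcases hch x k hk with h | h | h
    · subst h; exact Or.inl (c.Ball_self 5 _)
    · subst h; exact Or.inr (c.Ball_self 5 _)
    · subst h; exact Or.inl (c.Ball_mono (by norm_num) hw)
  · refine le_trans (encard_le_encard ?_) h3
    intro x hx
    apply hsub
    by_contra hcon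
    have hcon' : ∀ k, cb.S k x = c.S k x := by
      intro k
      by_contra h
      exact hcon ⟨k, h⟩
    exact hx ⟨by rw [hcon' 0, hcon' 1], (hcon' 2).symm, (hcon' 3).symm⟩
  · refine le_trans (encard_le_encard hsub) ?_
    simpa using h3

/-- both ends miss the colour `k` -/
lemma direct (c : PC G 4) {u v : V} (huv : G.Adj u v) (hunc : ∀ k, c.S k u ≠ v) {k : Fin 4}
    (hu : c.S k u = u) (hv : c.S k v = v) : ∃ cb, TokImp c 1 5 v u cb := by
  refine ⟨c.colE k u v huv hunc hu hv, tok_of_subset c _ u v u (c.Ball_self 1 _) ?_ ?_ ?_⟩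
  · intro x k' hk
    rcases c.colE_changed k u v huv hunc hu hv hk with h | h
    · exact Or.inl h
    · exact Or.inr (Or.inl h)
  · intro x k' hk
    exact ⟨k', c.colE_mono k u v huv hunc hu hv hk⟩
  · exact ⟨k, c.colE_u k u v huv hunc hu hv⟩

/-- the edge from `u` with the colour `k` is recoloured by `k'`, the edge `u v` gets `k` -/
lemma shift (c : PC G 4) {u v : V} (huv : G.Adj u v) (hunc : ∀ k, c.S k u ≠ v) {k k' : Fin 4}
    (hv : c.S k v = v) (hu : c.S k' u = u) (hw : c.S k' (c.S k u) = c.S k u)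
    (_ : c.S k u ≠ u) : ∃ cb, TokImp c 1 5 v u cb := by
  have hY : ∀ x ∈ ({u, c.S k u} : Set V), c.S k x ∈ ({u, c.S k u} : Set V) ∧
      c.S k' x ∈ ({u, c.S k u} : Set V) := by
    intro x hx
    rcases hx with h | h
    · rw [h, hu]; simp
    · rw [mem_singleton_iff] at h
      rw [h, hw, c.invol]; simp
  have hmu : u ∈ ({u, c.S k u} : Set V) := by simp
  have hnv : v ∉ ({u, c.S k u} : Set V) := by
    rintro (h | h)
    · exact huv.ne h.symm
    · exact hunc k h.symm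
  have hunc1 : ∀ j, (c.flip k k' {u, c.S k u} hY).S j u ≠ v := by
    intro j
    rw [c.flip_mem k k' _ hY hmu]
    exact hunc _
  have hu1 : (c.flip k k' {u, c.S k u} hY).S k u = u := by
    rw [c.flip_left k k' _ hY hmu, hu]
  have hv1 : (c.flip k k' {u, c.S k u} hY).S k v = v := by
    rw [c.flip_notMem k k' _ hY hnv, hv]
  refine ⟨(c.flip k k' {u, c.S k u} hY).colE k u v huv hunc1 hu1 hv1,
    tok_of_subset c _ u v (c.S k u) (c.Ball_one k u) ?_ ?_ ?_⟩
  · intro x j hj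
    by_cases h : ((c.flip k k' {u, c.S k u} hY).colE k u v huv hunc1 hu1 hv1).S j x =
        (c.flip k k' {u, c.S k u} hY).S j x
    · rw [h] at hj
      rcases c.flip_changed k k' _ hY hj with h' | h'
      · exact Or.inl h'
      · exact Or.inr (Or.inr h')
    · rcases PC.colE_changed _ k u v huv hunc1 hu1 hv1 h with h' | h'
      · exact Or.inl h'
      · exact Or.inr (Or.inl h')
  · intro x j hj
    have h1 : ∃ i, (c.flip k k' {u, c.S k u} hY).S i x = c.S j x := by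
      have := c.flip_range k k' _ hY x
      have h2 : c.S j x ∈ range (fun i => (c.flip k k' {u, c.S k u} hY).S i x) := by
        rw [this]; exact ⟨j, rfl⟩
      exact h2
    obtain ⟨i, hi⟩ := h1
    refine ⟨i, ?_⟩
    rw [PC.colE_mono _ k u v huv hunc1 hu1 hv1 (by rw [hi]; exact hj), hi]
  · exact ⟨k, PC.colE_u _ k u v huv hunc1 hu1 hv1⟩

lemma exists_perm {a b : Fin 4} (hab : a ≠ b) :
    ∃ σ : Equiv.Perm (Fin 4), σ 0 = a ∧ σ 1 = b := by
  refine ⟨(Equiv.swap 1 (Equiv.swap 0 a b)).trans (Equiv.swap 0 a), ?_, ?_⟩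
  · have h1 : Equiv.swap 0 a b ≠ 0 := by
      intro h
      have := congrArg (Equiv.swap 0 a) h
      rw [Equiv.swap_apply_self, Equiv.swap_apply_left] at this
      exact hab this.symm
    rw [Equiv.trans_apply, Equiv.swap_apply_of_ne_of_ne (by decide) h1.symm,
      Equiv.swap_apply_left]
  · rw [Equiv.trans_apply, Equiv.swap_apply_left, Equiv.swap_apply_self]

/-- a typed uncoloured edge -/
lemma typed (c : PC G 4) {u v : V} {a b : Fin 4} (hab : a ≠ b) (hua : c.S a u = u)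
    (hub : c.S b u ≠ u) {x1 x2 : V} (hx : x1 ≠ x2)
    (h : ∀ x, x = x1 ∨ x = x2 → c.S a x ≠ x ∧ c.S b x = x ∧
      (x = v ∨ ∃ k, k ≠ a ∧ k ≠ b ∧ c.S k v = v ∧ c.S k u = x ∧ x ≠ u)) :
    ∃ σ : Equiv.Perm (Fin 4),
    (c.S (σ 0) u = u ↔ c.S (σ 1) u ≠ u) ∧ ∃ x1 x2, x1 ≠ x2 ∧ ∀ x, x = x1 ∨ x = x2 →
      (c.S (σ 0) x = x ↔ c.S (σ 1) x ≠ x) ∧ (x = v ∨ ∃ k : Fin 4, (k = 2 ∨ k = 3) ∧
        c.S (σ k) v = v ∧ c.S (σ k) u = x ∧ x ≠ u) := by
  obtain ⟨σ, h0, h1⟩ := exists_perm hab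
  refine ⟨σ, ?_, x1, x2, hx, ?_⟩
  · rw [h0, h1]; exact iff_of_true hua hub
  · intro x hxx
    obtain ⟨e1, e2, e3⟩ := h x hxx
    refine ⟨?_, ?_⟩
    · rw [h0, h1]; exact iff_of_false e1 (not_not_intro e2)
    · rcases e3 with e3 | ⟨k, ka, kb, e4, e5, e6⟩
      · exact Or.inl e3
      · refine Or.inr ⟨σ.symm k, ?_, ?_, ?_, e6⟩
        · have n0 : σ.symm k ≠ 0 := by
            intro hh; apply ka; rw [← h0, ← hh, Equiv.apply_symm_apply]
          have n1 : σ.symm k ≠ 1 := by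
            intro hh; apply kb; rw [← h1, ← hh, Equiv.apply_symm_apply]
          generalize σ.symm k = j at n0 n1
          revert j; decide
        · rw [Equiv.apply_symm_apply]; exact e4
        · rw [Equiv.apply_symm_apply]; exact e5

lemma fourth (a b d e e' : Fin 4) (hab : a ≠ b) (had : a ≠ d) (hbd : b ≠ d) (h1 : e ≠ a)
    (h2 : e ≠ b) (h3 : e ≠ d) (h4 : e' ≠ a) (h5 : e' ≠ b) (h6 : e' ≠ d) : e' = e := by
  omega

end TYC_

open TYC_ in
theorem allTYC : tTYC.{u} := by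
  intro V G c u v k0 k1 k2 huv hunc hu0 h12 hv1 hv2 hF1 hF2
  by_cases e1 : c.S k1 u = u
  · exact Or.inl (direct c huv hunc e1 hv1)
  by_cases e2 : c.S k2 u = u
  · exact Or.inl (direct c huv hunc e2 hv2)
  by_cases e0 : c.S k0 v = v
  · exact Or.inl (direct c huv hunc hu0 e0)
  have h01 : k0 ≠ k1 := fun h => e1 (h ▸ hu0)
  have h02 : k0 ≠ k2 := fun h => e2 (h ▸ hu0)
  have hn1 : ¬ c.Full (c.S k1 u) := hF1 e1
  have hn2 : ¬ c.Full (c.S k2 u) := hF2 e2
  have hvv : c.S k1 u ≠ c.S k2 u := fun h => h12 (c.disj k1 k2 u h e1)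
  unfold PC.Full at hn1 hn2
  push Not at hn1 hn2
  obtain ⟨a, ha⟩ := hn1
  obtain ⟨b, hb⟩ := hn2
  by_cases m0 : c.S k0 (c.S k1 u) = c.S k1 u
  · exact Or.inl (shift c huv hunc hv1 hu0 m0 e1)
  by_cases m0' : c.S k0 (c.S k2 u) = c.S k2 u
  · exact Or.inl (shift c huv hunc hv2 hu0 m0' e2)
  by_cases m2 : c.S k2 (c.S k1 u) = c.S k1 u
  · right
    refine typed c h02 hu0 e2 (x1 := v) (x2 := c.S k1 u) (hunc k1).symm ?_
    rintro x (h | h)
    · subst h; exact ⟨e0, hv2, Or.inl rfl⟩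
    · subst h
      exact ⟨m0, m2, Or.inr ⟨k1, h01.symm, h12, hv1, rfl, e1⟩⟩
  by_cases m1 : c.S k1 (c.S k2 u) = c.S k2 u
  · right
    refine typed c h01 hu0 e1 (x1 := v) (x2 := c.S k2 u) (hunc k2).symm ?_
    rintro x (h | h)
    · subst h; exact ⟨e0, hv1, Or.inl rfl⟩
    · subst h
      exact ⟨m0', m1, Or.inr ⟨k2, h02.symm, h12.symm, hv2, rfl, e2⟩⟩
  have a0 : a ≠ k0 := fun h => m0 (h ▸ ha)
  have a2 : a ≠ k2 := fun h => m2 (h ▸ ha)
  have a1 : a ≠ k1 := by
    intro h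
    rw [h, c.invol] at ha
    exact e1 ha.symm
  have b0 : b ≠ k0 := fun h => m0' (h ▸ hb)
  have b1 : b ≠ k1 := fun h => m1 (h ▸ hb)
  have b2 : b ≠ k2 := by
    intro h
    rw [h, c.invol] at hb
    exact e2 hb.symm
  have hba : b = a := fourth k0 k1 k2 a b h01 h02 h12 a0 a1 a2 b0 b1 b2
  subst hba
  by_cases e3 : c.S b u = u
  · exact Or.inl (shift c huv hunc hv1 e3 ha e1)
  right
  refine typed c b0.symm hu0 e3 (x1 := c.S k1 u) (x2 := c.S k2 u) hvv ?_
  rintro x (h | h)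
  · subst h
    exact ⟨m0, ha, Or.inr ⟨k1, h01.symm, b1.symm, hv1, rfl, e1⟩⟩
  · subst h
    exact ⟨m0', hb, Or.inr ⟨k2, h02.symm, b2.symm, hv2, rfl, e2⟩⟩

end Pool.Agent.MEP
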