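import Pool.Agent.MEP.Walk

set_option autoImplicit false

/-! G3: at an optimal colouring a fixed proportion of the uncoloured edges is typed. -/

namespace Pool.Agent.MEP

open MeasureTheory Set Filter
open scoped ENNReal
open Pool.Agent.MEC

universe u

namespace TYPE_

section

variable {V : Type u} [MeasurableSpace V] {G : SimpleGraph V}

/-- a vertex of degree less than `4` is not full -/
lemma not_full_of_deg (c : PCol G 4) {x : V}
    (h : (G.neighborSet x).encard < 4) : ¬ (toPC c).Full x := by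
  intro hf
  have h1 : range (fun k => c.S k x) ⊆ G.neighborSet x := by
    rintro _ ⟨k, rfl⟩
    exact c.adj k x (hf k)
  have h2 : (range (fun k => c.S k x)).encard = 4 := by
    have hinj : Function.Injective (fun k => c.S k x) := fun k k' he => c.disj k k' x he (hf k)
    rw [← image_univ, hinj.encard_image]
    simp
  have h3 := encard_le_encard h1
  rw [h2] at h3
  exact absurd h (not_lt.2 h3)

/-- the end of degree less than `4` of an uncoloured edge misses two colours -/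
lemma two_missing (c : PCol G 4) {u v : V} (hadj : G.Adj v u) (hun : ∀ k, c.S k v ≠ u)
    (hdeg : (G.neighborSet v).encard < 4) : ∃ k1 k2, k1 ≠ k2 ∧ c.S k1 v = v ∧ c.S k2 v = v := by
  classical
  by_contra hcon
  push Not at hcon
  set M := Finset.univ.filter fun k => c.S k v = v with hM
  set A := Finset.univ.filter fun k => ¬ c.S k v = v with hA
  have hMA : M.card + A.card = 4 := by
    rw [hM, hA, Finset.card_filter_add_card_filter_not, Finset.card_univ, Fintype.card_fin]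
  have hM1 : M.card ≤ 1 := by
    rw [Finset.card_le_one]
    intro a ha b hb
    by_contra hab
    exact hcon a b hab (Finset.mem_filter.1 ha).2 (Finset.mem_filter.1 hb).2
  have hinj : Set.InjOn (fun k => c.S k v) (A : Set (Fin 4)) := by
    intro k hk k' _ he
    exact c.disj k k' v he (Finset.mem_filter.1 (Finset.mem_coe.1 hk)).2
  set T := insert u (A.image fun k => c.S k v) with hT
  have hnot : u ∉ A.image fun k => c.S k v := by
    intro h
    obtain ⟨k, -, hk⟩ := Finset.mem_image.1 h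
    exact hun k hk
  have hTc : 4 ≤ T.card := by
    rw [hT, Finset.card_insert_of_notMem hnot, Finset.card_image_of_injOn hinj]
    omega
  have hsub : (T : Set V) ⊆ G.neighborSet v := by
    intro y hy
    rcases Finset.mem_insert.1 (Finset.mem_coe.1 hy) with rfl | h
    · exact hadj
    · obtain ⟨k, hk, rfl⟩ := Finset.mem_image.1 h
      exact c.adj k v (Finset.mem_filter.1 hk).2
  have h3 := encard_le_encard hsub
  rw [Set.encard_coe_eq_coe_finsetCard] at h3
  have h4 : ((4 : ℕ) : ℕ∞) ≤ (T.card : ℕ∞) := by exact_mod_cast hTc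
  exact absurd hdeg (not_lt.2 (le_trans (by exact_mod_cast h4) h3))

/-- a point classified by `tTYC` is typed after renaming the colours -/
lemma typed_of (g : Gen G 4) (c : PCol G 4) {i : ℕ} {u : V} (hu : u ∈ Unc g c i)
    (σ : Equiv.Perm (Fin 4)) (h1 : c.S (σ 0) u = u ↔ c.S (σ 1) u ≠ u)
    (h2 : ∃ x1 x2, x1 ≠ x2 ∧ ∀ x, x = x1 ∨ x = x2 →
      (c.S (σ 0) x = x ↔ c.S (σ 1) x ≠ x) ∧ (x = g.T i u ∨ ∃ k : Fin 4, (k = 2 ∨ k = 3) ∧
        c.S (σ k) (g.T i u) = g.T i u ∧ c.S (σ k) u = x ∧ x ≠ u)) :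
    u ∈ Typed g (relab σ c) i := by
  obtain ⟨x1, x2, hne, hx⟩ := h2
  exact ⟨⟨hu.1, fun k => hu.2 (σ k)⟩, h1, x1, x2, hne, (hx x1 (Or.inl rfl)).2,
    (hx x2 (Or.inr rfl)).2, (hx x1 (Or.inl rfl)).1, (hx x2 (Or.inr rfl)).1⟩

/-- the other end of an uncoloured edge -/
lemma unc_T (g : Gen G 4) (c : PCol G 4) {i : ℕ} {u : V} (hu : u ∈ Unc g c i) :
    g.T i u ∈ Unc g c i := by
  refine ⟨?_, ?_⟩
  · rw [g.invol]; exact fun h => hu.1 h.symm
  · intro k hk
    rw [g.invol] at hk
    have h1 := congrArg (c.S k) hk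
    rw [c.invol] at h1
    exact hu.2 k h1.symm

end

section

variable {V : Type u} [MeasurableSpace V] [StandardBorelSpace V] {G : SimpleGraph V}

/-- pointwise part -/
lemma typed_point (hT : tTYC.{u}) (g : Gen G 4) (c : PCol G 4)
    (hind : ∀ x y, G.Adj x y → (G.neighborSet x).encard < 4 ∨ (G.neighborSet y).encard < 4)
    {i : ℕ} {u : V} (hu : u ∈ Unc g c i)
    (hcen : ¬ (G.neighborSet u).encard < 4 ∨ u ∈ WW g i)
    (hL : ¬ ∃ cb : PC G 4, TokImp (toPC c) 1 5 (g.T i u) u cb)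
    (hS : u ∈ WW g i → ∀ k, c.S k (g.T i u) = g.T i u → c.S k u ≠ u →
      (G.neighborSet (c.S k u)).encard < 4) :
    ∃ σ : Equiv.Perm (Fin 4), u ∈ Typed g (relab σ c) i := by
  have hadj : G.Adj u (g.T i u) := g.adj i u hu.1
  have hvdeg : (G.neighborSet (g.T i u)).encard < 4 := by
    rcases hcen with h | h
    · exact (hind u _ hadj).resolve_left h
    · exact h.2
  obtain ⟨k0, hk0⟩ := exists_missing_of_unc g c hu.1 hu.2
  obtain ⟨k1, k2, hne, hk1, hk2⟩ := two_missing c hadj.symm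
    (fun k hk => hu.2 k (by
      have h1 := congrArg (c.S k) hk
      rw [c.invol] at h1
      exact h1.symm)) hvdeg
  have hnf : ∀ k, c.S k (g.T i u) = g.T i u → c.S k u ≠ u → ¬ (toPC c).Full (c.S k u) := by
    intro k hk hku
    apply not_full_of_deg
    rcases hcen with h | h
    · exact (hind u _ (c.adj k u hku)).resolve_left h
    · exact hS h k hk hku
  rcases hT V G (toPC c) u (g.T i u) k0 k1 k2 hadj hu.2 hk0 hne hk1 hk2 (hnf k1 hk1)
    (hnf k2 hk2) with h | ⟨σ, h1, h2⟩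
  · exact absurd h hL
  · exact ⟨σ, typed_of g c hu σ h1 h2⟩

/-- one generator -/
lemma unc_le (hLI : tLIPT.{u}) (hSH : tSHW.{u}) (hT : tTYC.{u}) (g : Gen G 4) (c : PCol G 4)
    (μ : Measure V) [IsProbabilityMeasure μ] (hG : Gr G μ)
    (hopt : ∀ c' : PCol G 4, FW μ g c ≤ FW μ g c' + dD μ 1 c c') (i : ℕ) :
    μ (Unc g c i) ≤ 2 * ∑ σ : Equiv.Perm (Fin 4), μ (Typed g (relab σ c) i) := by
  classical
  have h1 : ∀ᵐ u ∂μ, u ∈ Unc g c i → (¬ (G.neighborSet u).encard < 4 ∨ u ∈ WW g i) →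
      ∃ σ : Equiv.Perm (Fin 4), u ∈ Typed g (relab σ c) i := by
    filter_upwards [hLI V G g c μ hG.borel hG.inv 1 5 i le_rfl hopt,
      hSH V G g c μ hG.borel hG.inv 1 i le_rfl hopt] with u hL hS hu hcen
    exact typed_point hT g c hG.ind hu hcen (hL hu) (hS hu)
  have hmp : MeasurePreserving (g.T i) μ μ := hG.inv _ (g.meas i) (g.invol i) (g.adj i)
  have h2 := hmp.quasiMeasurePreserving.ae h1
  set W : Set V := ⋃ σ : Equiv.Perm (Fin 4), Typed g (relab σ c) i with hW
  set W' : Set V := toMeasurable μ W with hW'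
  have hWm : MeasurableSet W' := measurableSet_toMeasurable μ W
  have hWW : W ⊆ W' := subset_toMeasurable μ W
  have hWe : μ W' = μ W := measure_toMeasurable W
  have h3 : Unc g c i ≤ᵐ[μ] (W' ∪ g.T i ⁻¹' W' : Set V) := by
    filter_upwards [h1, h2] with u hu1 hu2
    intro hu
    by_cases hcen : ¬ (G.neighborSet u).encard < 4 ∨ u ∈ WW g i
    · obtain ⟨σ, hσ⟩ := hu1 hu hcen
      exact Or.inl (hWW (mem_iUnion.2 ⟨σ, hσ⟩))
    · push Not at hcen
      obtain ⟨hd, hw⟩ := hcen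
      have hd' : ¬ (G.neighborSet (g.T i u)).encard < 4 := fun h => hw ⟨hd, h⟩
      obtain ⟨σ, hσ⟩ := hu2 (unc_T g c hu) (Or.inl hd')
      exact Or.inr (hWW (mem_iUnion.2 ⟨σ, hσ⟩))
  calc μ (Unc g c i) ≤ μ (W' ∪ g.T i ⁻¹' W') := measure_mono_ae h3
    _ ≤ μ W' + μ (g.T i ⁻¹' W') := measure_union_le _ _
    _ = 2 * μ W := by rw [hmp.measure_preimage hWm.nullMeasurableSet, hWe, two_mul]
    _ ≤ 2 * ∑ σ : Equiv.Perm (Fin 4), μ (Typed g (relab σ c) i) := by
        gcongr
        rw [hW]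
        exact measure_iUnion_fintype_le μ _

end

end TYPE_

open TYPE_ in
/-- G3 -/
theorem allTYPE (h_LIPT : tLIPT.{u}) (h_SHW : tSHW.{u}) (h_TYC : tTYC.{u})
    (h_FWP : tFWP.{u}) : tTYPE.{u} := by
  classical
  intro V _ _ G g c μ _ hG hopt
  have _h := h_FWP
  set F : Equiv.Perm (Fin 4) → ℝ≥0∞ := fun σ => ∑' i, μ (Typed g (relab σ c) i) with hF
  have hfin : ∀ σ, F σ ≠ ⊤ := by
    intro σ
    refine ne_top_of_le_ne_top (FE_ne_top μ g (relab σ c)) ?_
    exact ENNReal.tsum_le_tsum fun i => measure_mono fun u hu => hu.1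
  have hU : ∑' i, μ (Unc g c i) ≤ 2 * ∑ σ, F σ := by
    calc ∑' i, μ (Unc g c i) ≤ ∑' i, 2 * ∑ σ : Equiv.Perm (Fin 4), μ (Typed g (relab σ c) i) :=
          ENNReal.tsum_le_tsum fun i => unc_le h_LIPT h_SHW h_TYC g c μ hG hopt i
      _ = 2 * ∑' i, ∑ σ : Equiv.Perm (Fin 4), μ (Typed g (relab σ c) i) := ENNReal.tsum_mul_left
      _ = 2 * ∑ σ, F σ := by
          rw [Summable.tsum_finsetSum fun _ _ => ENNReal.summable]
  obtain ⟨σ, -, hσ⟩ := Finset.exists_max_image (Finset.univ : Finset (Equiv.Perm (Fin 4))) F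
    ⟨1, Finset.mem_univ _⟩
  have hsum : ∑ τ, F τ ≤ 24 * F σ := by
    calc ∑ τ, F τ ≤ ∑ _τ : Equiv.Perm (Fin 4), F σ :=
          Finset.sum_le_sum fun τ hτ => hσ τ hτ
      _ = 24 * F σ := by
          rw [Finset.sum_const, Finset.card_univ, Fintype.card_perm, Fintype.card_fin,
            nsmul_eq_mul]
          norm_num [Nat.factorial]
  refine ⟨σ, ?_⟩
  have hFW : ∑' i, (μ (Unc g c i) + 2⁻¹ * μ (Unc g c i ∩ WW g i)) ≤ 100 * F σ := by
    calc ∑' i, (μ (Unc g c i) + 2⁻¹ * μ (Unc g c i ∩ WW g i))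
        ≤ ∑' i, (2 * μ (Unc g c i)) := by
          refine ENNReal.tsum_le_tsum fun i => ?_
          rw [two_mul]
          gcongr
          calc (2 : ℝ≥0∞)⁻¹ * μ (Unc g c i ∩ WW g i) ≤ 1 * μ (Unc g c i) := by
                gcongr
                · exact ENNReal.inv_le_one.2 (by norm_num)
                · exact inter_subset_left
            _ = μ (Unc g c i) := one_mul _
      _ = 2 * ∑' i, μ (Unc g c i) := ENNReal.tsum_mul_left
      _ ≤ 2 * (2 * (24 * F σ)) := by gcongr; exact hU.trans (by gcongr)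
      _ = 96 * F σ := by rw [← mul_assoc, ← mul_assoc]; norm_num
      _ ≤ 100 * F σ := by gcongr; norm_num
  calc FW μ g c ≤ (100 * F σ).toReal :=
        ENNReal.toReal_mono (ENNReal.mul_ne_top (by norm_num) (hfin σ)) hFW
    _ = 100 * TY μ g (relab σ c) := by
        rw [ENNReal.toReal_mul]
        norm_num [TY, hF]

end Pool.Agent.MEP
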