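import Pool.Agent.MEP.Walk

set_option autoImplicit false

/-! MEP-WIN: the window of a clean point is injective. -/

namespace Pool.Agent.MEP

open Set

universe u

namespace WIN_

variable {V : Type u} {s t : V → V}

/-- one direction: the walk is injective on the window -/
lemma key (hs : ∀ x, s (s x) = x) (ht : ∀ x, t (t x) = x) {M : ℕ} {x : V}
    (hns : NS s t M x) (hL : x ∈ Long s t M) {i j : ℕ} (hij : i < j) (hj : j ≤ M) :
    al s t i x ≠ al s t j x := by
  intro h
  by_cases hpar : Even i ↔ Even j
  · have h1 := al_eq_al hs ht hij.le hpar h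
    have hev : Even (j - i) := by
      rw [Nat.even_sub hij.le]; tauto
    obtain ⟨p, hp⟩ := hev
    have e : j - i = 2 * p := by omega
    rw [e] at h1
    exact hL p (by omega) (by omega) h1.symm
  · have hmeet : ∀ d, i + d < j - d → al s t (i + d) x = al s t (j - d) x := by
      intro d
      induction d with
      | zero => intro _; simpa using h
      | succ d ih =>
        intro hd
        have h1 := ih (by omega)
        have e1 : al s t (i + (d + 1)) x =
            if Even (i + d) then s (al s t (i + d) x) else t (al s t (i + d) x) := by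
          rw [← add_assoc, al_last]
        have e2 : al s t (j - d) x = if Even (j - (d + 1)) then s (al s t (j - (d + 1)) x)
            else t (al s t (j - (d + 1)) x) := by
          have : j - d = (j - (d + 1)) + 1 := by omega
          rw [this, al_last]
        have hp : Even (i + d) ↔ Even (j - (d + 1)) := by
          rw [Nat.even_sub (by omega), Nat.even_add, Nat.even_add_one]
          tauto
        rw [e1, h1, e2]
        by_cases hev : Even (i + d)
        · rw [if_pos hev, if_pos (hp.1 hev), hs]
        · rw [if_neg hev, if_neg (fun h' => hev (hp.2 h')), ht]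
    obtain ⟨d, hd⟩ : ∃ d, j - d = i + d + 1 ∧ d ≤ j := by
      have hodd : ¬ Even (i + j) := by rw [Nat.even_add]; tauto
      rw [Nat.not_even_iff] at hodd
      exact ⟨(j - i - 1) / 2, by omega, by omega⟩
    have h1 := hmeet d (by omega)
    rw [hd.1] at h1
    exact hns (i + d) (by omega) h1.symm

lemma inj (hs : ∀ x, s (s x) = x) (ht : ∀ x, t (t x) = x) {M : ℕ} {x : V}
    (hns : NS s t M x) (hL : x ∈ Long s t M) {i j : ℕ} (hi : i ≤ M) (hj : j ≤ M)
    (h : al s t i x = al s t j x) : i = j := by
  rcases Nat.lt_trichotomy i j with hlt | heq | hgt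
  · exact absurd h (key hs ht hns hL hlt hj)
  · exact heq
  · exact absurd h.symm (key hs ht hns hL hgt hi)

/-- both directions, `i ≤ j` -/
lemma mixed (hs : ∀ x, s (s x) = x) (ht : ∀ x, t (t x) = x) {M : ℕ} {x : V}
    (hns : NS t s M x) (hL : x ∈ Long s t M) {i j : ℕ} (hij : i ≤ j) (hj : j ≤ M)
    (h : al s t i x = al t s j x) : i = 0 ∧ j = 0 := by
  have hL' : x ∈ Long t s M := by rwa [← Long_comm hs ht]
  by_cases hpar : Even i ↔ Even j
  · have h0 : al s t (i + j) x = x := by
      by_cases hi : Even i
      · rw [al_add_even s t hi, h]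
        exact al_rev_even ht hs (hpar.1 hi) x
      · rw [al_add_odd s t hi, h]
        exact al_rev_odd ht hs (fun hj' => hi (hpar.2 hj')) x
    have hev : Even (i + j) := by rw [Nat.even_add]; exact hpar
    obtain ⟨p, hp⟩ := hev
    have e : i + j = 2 * p := by omega
    rw [e] at h0
    by_cases hp0 : p = 0
    · omega
    · exact absurd h0 (hL p (by omega) (by omega))
  · exfalso
    have h1 := al_back ht hs hij x
    have h2 := al_rev hs ht i x
    have h3 : x = al t s (j - i) x := by
      by_cases hi : Even i
      · rw [if_neg (fun hj' => hpar (by tauto))] at h1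
        rw [if_pos hi, h] at h2
        rw [← h1, h2]
      · rw [if_pos (by tauto)] at h1
        rw [if_neg hi, h] at h2
        rw [← h1, h2]
    have h4 : al t s 0 x = al t s (j - i) x := h3
    have h5 := inj ht hs hns hL' (Nat.zero_le M) (by omega) h4
    have h6 : i = j := by omega
    exact hpar (by rw [h6])

end WIN_

theorem allWIN : tWIN.{u} := by
  intro V s t hs ht M x hx i j hi hj
  obtain ⟨⟨h1, h2⟩, hL⟩ := hx
  have hL' : x ∈ Long t s M := by rwa [← Long_comm hs ht]
  refine ⟨WIN_.inj hs ht h1 hL hi hj, WIN_.inj ht hs h2 hL' hi hj, fun h => ?_⟩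
  rcases Nat.le_total i j with hij | hij
  · exact WIN_.mixed hs ht h2 hL hij hj h
  · have := WIN_.mixed ht hs h1 hL' hij hi h.symm
    exact ⟨this.2, this.1⟩

end Pool.Agent.MEP
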