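import Pool.Agent.MEP.COUNT
import Pool.Agent.MEP.CUT
import Pool.Agent.MEP.E1
import Pool.Agent.MEP.E2
import Pool.Agent.MEP.EKC
import Pool.Agent.MEP.END
import Pool.Agent.MEP.F1
import Pool.Agent.MEP.FAB
import Pool.Agent.MEP.FWP
import Pool.Agent.MEP.GAIN
import Pool.Agent.MEP.GLUE
import Pool.Agent.MEP.GOOD
import Pool.Agent.MEP.LIP
import Pool.Agent.MEP.LIPC
import Pool.Agent.MEP.LIPT
import Pool.Agent.MEP.MAIN
import Pool.Agent.MEP.REM
import Pool.Agent.MEP.RS
import Pool.Agent.MEP.SHW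
import Pool.Agent.MEP.TOK
import Pool.Agent.MEP.TYC
import Pool.Agent.MEP.TYPE
import Pool.Agent.MEP.WIN

set_option autoImplicit false

/-! MP_fff3e1_lc, `Δ = 4`, invariant measures: the assembly of all modules. -/

namespace Pool.Agent.MEP

universe u

/-- the cut step -/
theorem theCUT : tCUT.{u} :=
  allCUT allLIP allNEAR (allEKC allFLIP) (allLIPC allGLUE allWIN allGAIN) (allFa allWIN)
    (allFb allWIN (allFa allWIN)) (allF1 allWIN) (allE1 allWIN (allFa allWIN) (allF1 allWIN))
    (allE2 allWIN (allF1 allWIN)) (allCOUNT allEND) allGOOD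

/-- the main theorem -/
theorem allMEP : tMAIN.{u} :=
  allMAIN (allRS (allEKD allFWP)
    (allTYPE (allLIPT allGLUE allFWP) (allSHW allFWP) allTYC allFWP) (allZONE allFWP) theCUT
    (allREM (allEKD allFWP) allLIP allNEAR allTOK (allLIPT allGLUE allFWP) allFWP) allFWP) allFWP

end Pool.Agent.MEP
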