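import Pool.Agent.MEP.Walk

set_option autoImplicit false
set_option linter.unusedSectionVars false

/-! E1 the count. -/

namespace Pool.Agent.MEP

open MeasureTheory Set Filter
open scoped ENNReal
open Pool.Agent.MEC

universe u

namespace COUNT_

section gen

variable {V : Type u} {s t : V → V}

/-- points whose walk `t, s, t, ...` stalls after at most `r` steps at a point of `X` -/
def End (s t : V → V) (r : ℕ) (X : Set V) : Set V :=
  {y | ∃ l, l ≤ r ∧ StallAt t s l y ∧ al t s l y ∈ X}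

/-- points with a long walk or a walk meeting `Z` -/
def Bad (s t : V → V) (Z : Set V) (r : ℕ) : Set V :=
  {x | s x = x ∧ NS t s (r + 1) x} ∪ {x | ∃ j, j ≤ r ∧ al t s j x ∈ Z}

/-- points which are the end of a walk starting in `B` -/
def Img (s t : V → V) (r : ℕ) (B : Set V) : Set V :=
  {x | ∃ l, l ≤ r ∧ ∃ y ∈ B, StallAt t s l y ∧ al t s l y = x}

lemma rev1 (hs : ∀ x, s (s x) = x) (ht : ∀ x, t (t x) = x) {l : ℕ} {x : V} (hx : s x = x)
    (hy : s (al t s l x) = al t s l x) (h : StallAt t s l x) :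
    StallAt t s l (al t s l x) ∧ al t s l (al t s l x) = x := by
  obtain ⟨h1, h2⟩ := StallAt.rev hs ht hx h
  by_cases hl : Even l
  · rcases Nat.eq_zero_or_pos l with h0 | h0
    · subst h0; exact ⟨h, rfl⟩
    · exact absurd hy ((h1 hl).1.1 0 h0)
  · exact h2 hl

lemma rev2 (hs : ∀ x, s (s x) = x) (ht : ∀ x, t (t x) = x) {l : ℕ} {x : V} (hx : t x = x)
    (hy : s (al s t l x) = al s t l x) (h : StallAt s t l x) :
    StallAt t s l (al s t l x) ∧ al t s l (al s t l x) = x := by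
  obtain ⟨h1, h2⟩ := StallAt.rev ht hs hx h
  by_cases hl : Even l
  · exact h1 hl
  · rcases Nat.eq_zero_or_pos l with h0 | h0
    · subst h0; simp at hl
    · exact absurd hy ((h2 hl).1.1 0 h0)

lemma stall_of_not_bad {Z : Set V} {r : ℕ} {x : V} (hx : s x = x) (h : x ∉ Bad s t Z r) :
    ∃ l, l ≤ r ∧ StallAt t s l x ∧ ∀ j, j ≤ l → al t s j x ∉ Z := by
  rcases NS_or_stall t s (r + 1) x with h1 | ⟨l, hl, h1⟩
  · exact absurd (Or.inl ⟨hx, h1⟩) h
  · refine ⟨l, by omega, h1, fun j hj hZ => h (Or.inr ⟨j, by omega, hZ⟩)⟩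

lemma End_unique {r : ℕ} {X : Set V} {y : V} {l : ℕ} (h : StallAt t s l y)
    (hy : y ∈ End s t r X) : al t s l y ∈ X := by
  obtain ⟨l', -, h1, h2⟩ := hy
  rw [h.unique h1]; exact h2

variable [MeasurableSpace V] {μ : Measure V}

lemma real_le_of_ae [IsFiniteMeasure μ] {A B : Set V} (h : ∀ᵐ x ∂μ, x ∈ A → x ∈ B) :
    μ.real A ≤ μ.real B :=
  ENNReal.toReal_mono (measure_ne_top _ _) (measure_mono_ae h)

lemma cov2 [IsFiniteMeasure μ] {A B C : Set V} (h : ∀ x ∈ A, x ∈ B ∨ x ∈ C) :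
    μ.real A ≤ μ.real B + μ.real C :=
  (measureReal_mono (show A ⊆ B ∪ C from h) (measure_ne_top _ _)).trans
    (measureReal_union_le B C)

lemma cov3 [IsFiniteMeasure μ] {A B C D : Set V} (h : ∀ x ∈ A, x ∈ B ∨ x ∈ C ∨ x ∈ D) :
    μ.real A ≤ μ.real B + (μ.real C + μ.real D) :=
  (cov2 (C := C ∪ D) h).trans (add_le_add le_rfl (measureReal_union_le C D))

lemma cov4 [IsFiniteMeasure μ] {A B C D E : Set V}
    (h : ∀ x ∈ A, x ∈ B ∨ x ∈ C ∨ x ∈ D ∨ x ∈ E) :
    μ.real A ≤ μ.real B + (μ.real C + (μ.real D + μ.real E)) :=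
  (cov3 (D := D ∪ E) h).trans
    (add_le_add le_rfl (add_le_add le_rfl (measureReal_union_le D E)))

lemma cov5 [IsFiniteMeasure μ] {A B C D E F : Set V}
    (h : ∀ x ∈ A, x ∈ B ∨ x ∈ C ∨ x ∈ D ∨ x ∈ E ∨ x ∈ F) :
    μ.real A ≤ μ.real B + (μ.real C + (μ.real D + (μ.real E + μ.real F))) :=
  (cov4 (E := E ∪ F) h).trans
    (add_le_add le_rfl (add_le_add le_rfl (add_le_add le_rfl (measureReal_union_le E F))))

lemma add_le_of_disj [IsFiniteMeasure μ] {A B C : Set V} (hB : MeasurableSet B)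
    (hd : ∀ x ∈ A, x ∉ B) (hA : A ⊆ C) (hB' : B ⊆ C) : μ.real A + μ.real B ≤ μ.real C := by
  rw [← measureReal_union (Set.disjoint_left.2 hd) hB]
  exact measureReal_mono (union_subset hA hB') (measure_ne_top _ _)

lemma real_pre (hs : MeasurePreserving s μ μ) {A : Set V} (hA : MeasurableSet A) :
    μ.real (s ⁻¹' A) = μ.real A := by
  unfold Measure.real
  rw [hs.measure_preimage hA.nullMeasurableSet]

variable [StandardBorelSpace V]

lemma measurableSet_End (hs : Measurable s) (ht : Measurable t) (r : ℕ) {X : Set V}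
    (hX : MeasurableSet X) : MeasurableSet (End s t r X) := by
  have : End s t r X = ⋃ l, ⋃ (_ : l ≤ r), ({y | StallAt t s l y} ∩ (al t s l) ⁻¹' X) := by
    ext y
    simp only [mem_iUnion]
    exact ⟨fun ⟨l, h1, h2, h3⟩ => ⟨l, h1, h2, h3⟩, fun ⟨l, h1, h2, h3⟩ => ⟨l, h1, h2, h3⟩⟩
  rw [this]
  exact MeasurableSet.iUnion fun l => MeasurableSet.iUnion fun _ =>
    (measurableSet_StallAt ht hs l).inter (measurable_al ht hs l hX)

/-- the ends of walks starting in `B` -/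
lemma real_Img_le [IsFiniteMeasure μ] (hs : ∀ x, s (s x) = x) (ht : ∀ x, t (t x) = x)
    (ms : MeasurePreserving s μ μ) (mt : MeasurePreserving t μ μ) (r : ℕ) {B : Set V}
    (hB : MeasurableSet B) : μ.real (Img s t r B) ≤ μ.real B := by
  classical
  set φ := alE t s mt.measurable ms.measurable ht hs with hφ
  have hsub : Img s t r B ⊆ ⋃ l ∈ Finset.range (r + 1), φ l '' (B ∩ {y | StallAt t s l y}) := by
    rintro x ⟨l, hl, y, hy, h1, h2⟩
    rw [mem_iUnion₂]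
    exact ⟨l, Finset.mem_range.2 (by omega), y, ⟨hy, h1⟩, h2⟩
  have hm : ∀ l, MeasurableSet (B ∩ {y | StallAt t s l y}) := fun l =>
    hB.inter (measurableSet_StallAt mt.measurable ms.measurable l)
  have him : ∀ l, μ.real (φ l '' (B ∩ {y | StallAt t s l y})) =
      μ.real (B ∩ {y | StallAt t s l y}) := by
    intro l
    have h1 : MeasurePreserving (φ l) μ μ := mp_al mt ms l
    have h2 := MeasurePreserving.symm (φ l) h1
    have h3 : φ l '' (B ∩ {y | StallAt t s l y}) = (φ l).symm ⁻¹' (B ∩ {y | StallAt t s l y}) :=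
      (φ l).toEquiv.image_eq_preimage_symm _
    rw [h3]
    exact real_pre h2 (hm l)
  calc μ.real (Img s t r B)
      ≤ μ.real (⋃ l ∈ Finset.range (r + 1), φ l '' (B ∩ {y | StallAt t s l y})) :=
        measureReal_mono hsub (measure_ne_top _ _)
    _ ≤ ∑ l ∈ Finset.range (r + 1), μ.real (φ l '' (B ∩ {y | StallAt t s l y})) :=
        measureReal_biUnion_finset_le _ _
    _ = ∑ l ∈ Finset.range (r + 1), μ.real (B ∩ {y | StallAt t s l y}) :=
        Finset.sum_congr rfl fun l _ => him l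
    _ = μ.real (⋃ l ∈ Finset.range (r + 1), (B ∩ {y | StallAt t s l y})) := by
        rw [measureReal_biUnion_finset]
        · intro l _ l' _ hne
          rw [Function.onFun, Set.disjoint_left]
          rintro y ⟨-, h1⟩ ⟨-, h2⟩
          exact hne (StallAt.unique h1 h2)
        · exact fun l _ => hm l
    _ ≤ μ.real B := measureReal_mono (iUnion₂_subset fun l _ => inter_subset_left)

lemma real_le_Img [IsFiniteMeasure μ] (hs : ∀ x, s (s x) = x) (ht : ∀ x, t (t x) = x)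
    (ms : MeasurePreserving s μ μ) (mt : MeasurePreserving t μ μ) (r : ℕ) {A B : Set V}
    (hB : MeasurableSet B) (h : ∀ x ∈ A, x ∈ Img s t r B) : μ.real A ≤ μ.real B :=
  (measureReal_mono h).trans (real_Img_le hs ht ms mt r hB)

lemma bad_le [IsProbabilityMeasure μ] (h_END : tEND.{u}) (hs : ∀ x, s (s x) = x)
    (ht : ∀ x, t (t x) = x) (ms : MeasurePreserving s μ μ) (mt : MeasurePreserving t μ μ)
    {Z : Set V} (hZ : MeasurableSet Z) {r : ℕ} (hr : 1 ≤ r) :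
    μ.real (Bad s t Z r) ≤ 2 * (1 / r + r * μ.real Z) := by
  have hr' : (1 : ℝ) ≤ r := by exact_mod_cast hr
  have h1 : μ.real {x | s x = x ∧ NS t s (r + 1) x} ≤ 2 / r := by
    have hm : MeasurableSet {x | s x = x ∧ NS t s (r + 1) x} :=
      (measurableSet_eq_fun ms.measurable measurable_id).inter
        (measurableSet_NS mt.measurable ms.measurable _)
    have := h_END V μ s t hs ht ms mt (r + 1) _ univ hm MeasurableSet.univ (fun x hx => hx)
      (fun _ _ _ _ => mem_univ _)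
    rw [probReal_univ] at this
    push_cast at this
    rw [le_div_iff₀ (by linarith)]
    have h0 : 0 ≤ μ.real {x | s x = x ∧ NS t s (r + 1) x} := measureReal_nonneg
    nlinarith
  have h2 : μ.real {x | ∃ j, j ≤ r ∧ al t s j x ∈ Z} ≤ (r + 1) * μ.real Z := by
    have hsub : {x | ∃ j, j ≤ r ∧ al t s j x ∈ Z} ⊆
        ⋃ j ∈ Finset.range (r + 1), (al t s j) ⁻¹' Z := by
      rintro x ⟨j, hj, hx⟩
      rw [mem_iUnion₂]
      exact ⟨j, Finset.mem_range.2 (by omega), hx⟩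
    refine (measureReal_mono hsub (measure_ne_top _ _)).trans
      ((measureReal_biUnion_finset_le _ _).trans ?_)
    rw [Finset.sum_congr rfl fun j _ => real_pre (mp_al mt ms j) hZ]
    simp
  have h3 : 0 ≤ μ.real Z := measureReal_nonneg
  calc μ.real (Bad s t Z r) ≤ 2 / r + (r + 1) * μ.real Z :=
        (measureReal_union_le _ _).trans (add_le_add h1 h2)
    _ ≤ 2 / r + (r + r) * μ.real Z := by gcongr
    _ = 2 * (1 / r + r * μ.real Z) := by ring

end gen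

section main

variable {V : Type u} [MeasurableSpace V] [StandardBorelSpace V] {G : SimpleGraph V}
  {c : PCol G 4} {μ : Measure V} [IsProbabilityMeasure μ] {Z P Q : Set V} {r : ℕ}

/-- vertices with all colours -/
def FF (c : PCol G 4) : Set V := {x | (toPC c).Full x}

/-- vertices of `P` which are not full and have the colour `h` -/
def Th (c : PCol G 4) (P : Set V) (h : Fin 4) : Set V :=
  {z | z ∈ P ∧ ¬ (toPC c).Full z ∧ c.S h z ≠ z}

lemma full_iff {x : V} : (toPC c).Full x ↔ ∀ k, c.S k x ≠ x := Iff.rfl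

lemma measurableSet_FF : MeasurableSet (FF c) := by
  have : FF c = ⋂ k, {x | c.S k x = x}ᶜ := by
    ext x
    simp only [mem_iInter]
    exact Iff.rfl
  rw [this]
  exact MeasurableSet.iInter fun k => (measurableSet_eq_fun (c.meas k) measurable_id).compl

lemma measurableSet_Th (hP : MeasurableSet P) (h : Fin 4) : MeasurableSet (Th c P h) :=
  hP.inter (measurableSet_FF.compl.inter
    (measurableSet_eq_fun (c.meas h) measurable_id).compl)

/-- the standing assumptions of the count -/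
structure Asm (c : PCol G 4) (μ : Measure V) (Z P Q : Set V) (r : ℕ) : Prop where
  inv : Inv G μ
  mZ : MeasurableSet Z
  mP : MeasurableSet P
  mQ : MeasurableSet Q
  r1 : 1 ≤ r
  ind : (toPC c).Ind
  PP : ∀ x ∈ P, c.S 0 x ∈ P ∧ c.S 1 x ∈ P
  QP : Q ⊆ P
  Q01 : ∀ x ∈ Q, c.S 0 x ≠ x ∧ c.S 1 x ≠ x
  facts : Facts c μ Z P Q r

/-- the error term -/
noncomputable def Er (μ : Measure V) (Z P Q : Set V) (r : ℕ) : ℝ :=
  μ.real (P \ Q) + 1 / r + r * μ.real Z

section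

variable (hA : Asm c μ Z P Q r)

include hA

lemma S_mem {β β' h h' : Fin 4} (hp : Pal β β' h h') {x : V} (hx : x ∈ P) : c.S β x ∈ P := by
  rcases hp.1 with ⟨rfl, -⟩ | ⟨rfl, -⟩
  · exact (hA.PP x hx).1
  · exact (hA.PP x hx).2

lemma Q_ne {β β' h h' : Fin 4} (hp : Pal β β' h h') {x : V} (hx : x ∈ Q) : c.S β x ≠ x := by
  rcases hp.1 with ⟨rfl, -⟩ | ⟨rfl, -⟩
  · exact (hA.Q01 x hx).1
  · exact (hA.Q01 x hx).2

/-- a vertex of `Q` which is not full misses `2` or `3` -/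
lemma Q_miss {x : V} (hx : x ∈ Q) (hF : ¬ (toPC c).Full x) : c.S 2 x = x ∨ c.S 3 x = x := by
  rw [full_iff] at hF
  push Not at hF
  obtain ⟨k, hk⟩ := hF
  fin_cases k
  · exact absurd hk (hA.Q01 x hx).1
  · exact absurd hk (hA.Q01 x hx).2
  · exact Or.inl hk
  · exact Or.inr hk

/-- neighbours of full vertices are not full -/
lemma not_full {x : V} (hx : (toPC c).Full x) (k : Fin 4) : ¬ (toPC c).Full (c.S k x) := by
  intro h
  obtain ⟨k', hk'⟩ := hA.ind x (c.S k x) (c.adj k x (hx k)) hx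
  exact h k' hk'

lemma s_invol {β β' h h' : Fin 4} (hp : Pal β β' h h') (x : V) :
    cutS P (c.S β) (cutS P (c.S β) x) = x :=
  cutS_invol (c.invol β) (fun _ hx => S_mem hA hp hx) x

lemma s_mp {β β' h h' : Fin 4} (hp : Pal β β' h h') : MeasurePreserving (cutS P (c.S β)) μ μ :=
  mp_cutS hA.inv c β hA.mP fun _ hx => S_mem hA hp hx

lemma err_bad (h_END : tEND.{u}) {β β' h h' : Fin 4} (hp : Pal β β' h h') :
    μ.real (Bad (cutS P (c.S β)) (c.S h) Z r) ≤ 2 * (1 / r + r * μ.real Z) :=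
  bad_le h_END (s_invol hA hp) (c.invol h) (s_mp hA hp) (mp_S hA.inv c h) hA.mZ hA.r1

lemma err_bad' (h_END : tEND.{u}) {β β' h h' : Fin 4} (hp : Pal β β' h h') :
    μ.real (Bad (c.S h) (cutS P (c.S β)) Z r) ≤ 2 * (1 / r + r * μ.real Z) :=
  bad_le h_END (c.invol h) (s_invol hA hp) (mp_S hA.inv c h) (s_mp hA hp) hA.mZ hA.r1

/-- starting points in `P` whose walk ends in `P \ Q` -/
lemma err_end {β β' h h' : Fin 4} (hp : Pal β β' h h') :
    μ.real {x | x ∈ P ∧ x ∈ End (cutS P (c.S β)) (c.S h) r (P \ Q)} ≤ μ.real (P \ Q) := by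
  refine real_le_Img (s_invol hA hp) (c.invol h) (s_mp hA hp) (mp_S hA.inv c h) r
    (hA.mP.diff hA.mQ) ?_
  rintro x ⟨hx, l, hl, h1, h2⟩
  obtain ⟨h3, h4⟩ := rev1 (s_invol hA hp) (c.invol h) (cutS_of_mem hx) (cutS_of_mem h2.1) h1
  exact ⟨l, hl, _, h2, h3, h4⟩

/-- starting points off `P` whose walk ends in `P \ Q` -/
lemma err_end' {β β' h h' : Fin 4} (hp : Pal β β' h h') :
    μ.real {x | c.S h x = x ∧ x ∈ End (c.S h) (cutS P (c.S β)) r (P \ Q)} ≤
      μ.real (P \ Q) := by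
  refine real_le_Img (s_invol hA hp) (c.invol h) (s_mp hA hp) (mp_S hA.inv c h) r
    (hA.mP.diff hA.mQ) ?_
  rintro x ⟨hx, l, hl, h1, h2⟩
  obtain ⟨h3, h4⟩ := rev2 (s_invol hA hp) (c.invol h) hx (cutS_of_mem h2.1) h1
  exact ⟨l, hl, _, h2, h3, h4⟩

/-- the end of a walk is a point of `Th` -/
lemma mem_Th {β : Fin 4} {h : Fin 4} {y x : V} {l : ℕ} (hy : y ∈ P) (hF : ¬ (toPC c).Full y)
    (hst : StallAt (c.S h) (cutS P (c.S β)) l y)
    (he : al (c.S h) (cutS P (c.S β)) l y = x) (hne : y ≠ x ∨ c.S h x ≠ x) : y ∈ Th c P h := by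
  refine ⟨hy, hF, fun hh => ?_⟩
  have hl : l = 0 := by
    by_contra h0
    exact hst.1 0 (by omega) hh
  subst hl
  simp only [al_zero] at he
  subst he
  rcases hne with h1 | h1
  · exact h1 rfl
  · exact h1 hh

/-- D: pairs of neighbours which are not full -/
lemma d_bound (h_END : tEND.{u}) {β β' h h' : Fin 4} (hp : Pal β β' h h') :
    μ.real {p | p ∈ P ∧ ¬ (toPC c).Full p ∧ ¬ (toPC c).Full (c.S β p) ∧
      c.S h (c.S β p) = c.S β p} ≤
    μ.real (Th c P h ∩ End (cutS P (c.S β)) (c.S h) r (P \ FF c)) + 4 * Er μ Z P Q r := by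
  set s := cutS P (c.S β) with hs
  set t := c.S h with ht
  have hsi := s_invol hA hp
  have hti := c.invol h
  have hB : MeasurableSet (Th c P h ∩ End s t r (P \ FF c)) :=
    (measurableSet_Th hA.mP h).inter (measurableSet_End (s_mp hA hp).measurable
      (mp_S hA.inv c h).measurable r (hA.mP.diff measurableSet_FF))
  have hfa := (mp_S hA.inv c β).quasiMeasurePreserving.ae hA.facts.fa
  have hfe := (mp_S hA.inv c β).quasiMeasurePreserving.ae hA.facts.e1
  have hmain : μ.real {p | p ∈ P ∧ ¬ (toPC c).Full p ∧ ¬ (toPC c).Full (c.S β p) ∧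
      c.S h (c.S β p) = c.S β p} ≤ μ.real (Img s t r (Th c P h ∩ End s t r (P \ FF c)) ∪
      ((c.S β) ⁻¹' (P \ Q) ∪ (Bad s t Z r ∪ {x | x ∈ P ∧ x ∈ End s t r (P \ Q)}))) := by
    refine real_le_of_ae ?_
    filter_upwards [hfa, hfe] with p h1 h2
    rintro ⟨hpP, hpF, hzF, hz⟩
    have hzP : c.S β p ∈ P := S_mem hA hp hpP
    by_cases hzQ : c.S β p ∈ Q
    swap
    · exact Or.inr (Or.inl ⟨hzP, hzQ⟩)
    by_cases hbad : p ∈ Bad s t Z r
    · exact Or.inr (Or.inr (Or.inl hbad))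
    obtain ⟨l, hl, hst, hZl⟩ := stall_of_not_bad (cutS_of_mem hpP) hbad
    have h3 := h2 hzQ β β' h h' hp hz l (al t s l p) hl (by rw [c.invol]; exact hst)
      (by rw [c.invol]; exact hZl) (by rw [c.invol])
    obtain ⟨hyP, hy2⟩ := h3
    by_cases hyQ : al t s l p ∈ Q
    swap
    · exact Or.inr (Or.inr (Or.inr ⟨hpP, l, hl, hst, hyP, hyQ⟩))
    obtain ⟨hy3, -⟩ := hy2 hyQ
    rw [c.invol] at hy3
    have hyF := hy3 hpF
    left
    obtain ⟨h4, h5⟩ := rev1 hsi hti (cutS_of_mem hpP) (cutS_of_mem hyP) hst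
    refine ⟨l, hl, al t s l p, ⟨?_, l, hl, h4, ?_⟩, h4, h5⟩
    · refine mem_Th hA hyP hyF h4 h5 (Or.inr ?_)
      have := h1 hzQ β β' h h' hp hz
      rwa [c.invol] at this
    · rw [h5]; exact ⟨hpP, hpF⟩
  refine hmain.trans ((measureReal_union_le _ _).trans ?_)
  have e1 := real_Img_le hsi hti (s_mp hA hp) (mp_S hA.inv c h) r hB
  have e2 : μ.real ((c.S β) ⁻¹' (P \ Q)) = μ.real (P \ Q) :=
    real_pre (mp_S hA.inv c β) (hA.mP.diff hA.mQ)
  have e3 := err_bad hA h_END hp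
  have e4 := err_end hA hp
  have e5 := measureReal_union_le (μ := μ) ((c.S β) ⁻¹' (P \ Q))
    (Bad s t Z r ∪ {x | x ∈ P ∧ x ∈ End s t r (P \ Q)})
  have e6 := measureReal_union_le (μ := μ) (Bad s t Z r)
    {x | x ∈ P ∧ x ∈ End s t r (P \ Q)}
  have e7 : 0 ≤ μ.real (P \ Q) := measureReal_nonneg
  unfold Er
  have e8 : 0 ≤ (1 : ℝ) / r + r * μ.real Z := by positivity
  linarith

/-- A, second bound: the edges inside `P` -/
lemma m_bound {β β' h h' : Fin 4} (hp : Pal β β' h h') :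
    μ.real {a | a ∈ P ∧ (toPC c).Full a ∧ c.S h a ∈ P} ≤
    μ.real (Th c P h ∩ End (cutS P (c.S β)) (c.S h) r (P ∩ FF c)) := by
  set s := cutS P (c.S β) with hs
  set t := c.S h with ht
  have hsi := s_invol hA hp
  have hti := c.invol h
  have hB : MeasurableSet (Th c P h ∩ End s t r (P ∩ FF c)) :=
    (measurableSet_Th hA.mP h).inter (measurableSet_End (s_mp hA hp).measurable
      (mp_S hA.inv c h).measurable r (hA.mP.inter measurableSet_FF))
  refine real_le_Img hsi hti (s_mp hA hp) (mp_S hA.inv c h) r hB ?_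
  rintro a ⟨haP, haF, hwP⟩
  have hst : StallAt t s 1 a := by
    constructor
    · intro n hn
      have : n = 0 := by omega
      subst this
      exact haF h
    · change s (t a) = t a
      exact cutS_of_mem hwP
  obtain ⟨h4, h5⟩ := rev1 hsi hti (l := 1) (cutS_of_mem haP) (cutS_of_mem hwP) hst
  refine ⟨1, hA.r1, al t s 1 a, ⟨?_, 1, hA.r1, h4, ?_⟩, h4, h5⟩
  · exact mem_Th hA hwP (not_full hA haF h) h4 h5 (Or.inl (haF h))
  · rw [h5]; exact ⟨haP, haF⟩

/-- A, first bound: the walk starting at a full vertex -/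
lemma a_bound1 (h_END : tEND.{u}) {β β' h h' : Fin 4} (hp : Pal β β' h h') :
    μ.real {a | a ∈ P ∧ (toPC c).Full a ∧ c.S β a ∈ Q ∧ c.S h (c.S β a) = c.S β a} ≤
    μ.real (Th c P h ∩ End (cutS P (c.S β)) (c.S h) r (P ∩ FF c)) +
      μ.real {y | y ∈ P ∧ (toPC c).Full y ∧ c.S h' y ∈ P ∧ c.S h y ∉ P} +
      3 * Er μ Z P Q r := by
  set s := cutS P (c.S β) with hs
  set t := c.S h with ht
  have hsi := s_invol hA hp
  have hti := c.invol h
  have hB : MeasurableSet (Th c P h ∩ End s t r (P ∩ FF c)) :=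
    (measurableSet_Th hA.mP h).inter (measurableSet_End (s_mp hA hp).measurable
      (mp_S hA.inv c h).measurable r (hA.mP.inter measurableSet_FF))
  set Y : Set V := {y | y ∈ P ∧ (toPC c).Full y ∧ c.S h' y ∈ P ∧ c.S h y ∉ P} with hY
  have hYm : MeasurableSet Y := hA.mP.inter (measurableSet_FF.inter
    ((c.meas h' hA.mP).inter (c.meas h hA.mP).compl))
  have hmp : MeasurePreserving (fun a => c.S h' (c.S β a)) μ μ :=
    (mp_S hA.inv c h').comp (mp_S hA.inv c β)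
  have hfe := (mp_S hA.inv c β).quasiMeasurePreserving.ae hA.facts.e1
  have hmain : μ.real {a | a ∈ P ∧ (toPC c).Full a ∧ c.S β a ∈ Q ∧
      c.S h (c.S β a) = c.S β a} ≤ μ.real (Img s t r (Th c P h ∩ End s t r (P ∩ FF c)) ∪
      ((fun a => c.S h' (c.S β a)) ⁻¹' Y ∪
        (Bad s t Z r ∪ {x | x ∈ P ∧ x ∈ End s t r (P \ Q)}))) := by
    refine real_le_of_ae ?_
    filter_upwards [hfe] with a h2
    rintro ⟨haP, haF, hzQ, hz⟩
    by_cases hbad : a ∈ Bad s t Z r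
    · exact Or.inr (Or.inr (Or.inl hbad))
    obtain ⟨l, hl, hst, hZl⟩ := stall_of_not_bad (cutS_of_mem haP) hbad
    have h3 := h2 hzQ β β' h h' hp hz l (al t s l a) hl (by rw [c.invol]; exact hst)
      (by rw [c.invol]; exact hZl) (by rw [c.invol])
    obtain ⟨hyP, hy2⟩ := h3
    by_cases hyQ : al t s l a ∈ Q
    swap
    · exact Or.inr (Or.inr (Or.inr ⟨haP, l, hl, hst, hyP, hyQ⟩))
    obtain ⟨-, hy3⟩ := hy2 hyQ
    rw [c.invol] at hy3
    obtain ⟨h4, h5⟩ := rev1 hsi hti (cutS_of_mem haP) (cutS_of_mem hyP) hst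
    by_cases hyF : (toPC c).Full (al t s l a)
    · rcases hy3 haF with h6 | ⟨h6, h7⟩
      · exact absurd hyF h6
      · right; left
        have e : c.S h' (c.S β a) = al t s l a := by rw [← h6, c.invol]
        change c.S h' (c.S β a) ∈ Y
        rw [e]
        exact ⟨hyP, hyF, by rw [h6]; exact hA.QP hzQ, h7⟩
    · left
      refine ⟨l, hl, al t s l a, ⟨?_, l, hl, h4, ?_⟩, h4, h5⟩
      · exact mem_Th hA hyP hyF h4 h5 (Or.inr (haF h))
      · rw [h5]; exact ⟨haP, haF⟩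
  refine hmain.trans ((measureReal_union_le _ _).trans ?_)
  have e1 := real_Img_le hsi hti (s_mp hA hp) (mp_S hA.inv c h) r hB
  have e2 : μ.real ((fun a => c.S h' (c.S β a)) ⁻¹' Y) = μ.real Y := real_pre hmp hYm
  have e3 := err_bad hA h_END hp
  have e4 := err_end hA hp
  have e5 := measureReal_union_le (μ := μ) ((fun a => c.S h' (c.S β a)) ⁻¹' Y)
    (Bad s t Z r ∪ {x | x ∈ P ∧ x ∈ End s t r (P \ Q)})
  have e6 := measureReal_union_le (μ := μ) (Bad s t Z r)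
    {x | x ∈ P ∧ x ∈ End s t r (P \ Q)}
  have e7 : 0 ≤ μ.real (P \ Q) := measureReal_nonneg
  unfold Er
  have e8 : 0 ≤ (1 : ℝ) / r + r * μ.real Z := by positivity
  linarith

/-- S: the neighbours off `P` of full vertices -/
lemma v_bound1 (h_END : tEND.{u}) {β β' h h' : Fin 4} (hp : Pal β β' h h') :
    μ.real {a | a ∈ Q ∧ (toPC c).Full a ∧ c.S h' a ∉ P ∧
      (c.S h a ∈ P ∨ (c.S β a ∈ Q ∧ c.S h (c.S β a) = c.S β a))} ≤
    μ.real (Th c P h ∩ End (cutS P (c.S β)) (c.S h) r Pᶜ) + 3 * Er μ Z P Q r := by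
  set s := cutS P (c.S β) with hs
  set t := c.S h with ht
  have hsi := s_invol hA hp
  have hti := c.invol h
  have hEm : ∀ X, MeasurableSet X → MeasurableSet (End s t r X) := fun X hX =>
    measurableSet_End (s_mp hA hp).measurable (mp_S hA.inv c h).measurable r hX
  have hB : MeasurableSet (Th c P h ∩ End s t r Pᶜ) :=
    (measurableSet_Th hA.mP h).inter (hEm _ hA.mP.compl)
  have hpre : ∀ A : Set V, μ.real ((c.S h') ⁻¹' A) ≤ μ.real A := by
    intro A
    unfold Measure.real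
    refine ENNReal.toReal_mono (measure_ne_top _ _) ?_
    calc μ ((c.S h') ⁻¹' A) ≤ μ ((c.S h') ⁻¹' (toMeasurable μ A)) :=
          measure_mono (preimage_mono (subset_toMeasurable μ A))
      _ = μ (toMeasurable μ A) :=
          (mp_S hA.inv c h').measure_preimage (measurableSet_toMeasurable μ A).nullMeasurableSet
      _ = μ A := measure_toMeasurable A
  have hfe := (mp_S hA.inv c β).quasiMeasurePreserving.ae hA.facts.e1
  have hmain : μ.real {a | a ∈ Q ∧ (toPC c).Full a ∧ c.S h' a ∉ P ∧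
      (c.S h a ∈ P ∨ (c.S β a ∈ Q ∧ c.S h (c.S β a) = c.S β a))} ≤
      μ.real ((c.S h') ⁻¹' (Img s t r (Th c P h ∩ End s t r Pᶜ)) ∪
      ((c.S h') ⁻¹' (Bad t s Z r) ∪
        (c.S h') ⁻¹' {x | c.S h x = x ∧ x ∈ End t s r (P \ Q)})) := by
    refine real_le_of_ae ?_
    filter_upwards [hfe, hA.facts.e2, hA.facts.f1] with a h2 h2e h1f
    rintro ⟨haQ, haF, hvP, hor⟩
    set v := c.S h' a with hv
    have hvF : ¬ (toPC c).Full v := not_full hA haF h'
    have hva : c.S h' v = a := by rw [hv, c.invol]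
    have hv0 : c.S 0 v ≠ v ∧ c.S 1 v ≠ v := by
      rcases hp.2 with ⟨e1, e2⟩ | ⟨e1, e2⟩
      · refine ⟨h1f haQ haF 0 1 h' h ⟨Or.inl ⟨rfl, rfl⟩, Or.inr ⟨e2, e1⟩⟩,
          h1f haQ haF 1 0 h' h ⟨Or.inr ⟨rfl, rfl⟩, Or.inr ⟨e2, e1⟩⟩⟩
      · refine ⟨h1f haQ haF 0 1 h' h ⟨Or.inl ⟨rfl, rfl⟩, Or.inl ⟨e2, e1⟩⟩,
          h1f haQ haF 1 0 h' h ⟨Or.inr ⟨rfl, rfl⟩, Or.inl ⟨e2, e1⟩⟩⟩
    have hvh' : c.S h' v ≠ v := by
      rw [hva]
      intro he
      apply haF h'
      change c.S h' a = a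
      rw [← hv]
      exact he.symm
    have hvh : t v = v := by
      rw [full_iff] at hvF
      push Not at hvF
      obtain ⟨k, hk⟩ := hvF
      rcases hp.2 with ⟨e1, e2⟩ | ⟨e1, e2⟩
      · fin_cases k
        · exact absurd hk hv0.1
        · exact absurd hk hv0.2
        · rw [ht, e1]; exact hk
        · rw [e2] at hvh'; exact absurd hk hvh'
      · fin_cases k
        · exact absurd hk hv0.1
        · exact absurd hk hv0.2
        · rw [e2] at hvh'; exact absurd hk hvh'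
        · rw [ht, e1]; exact hk
    by_cases hbad : v ∈ Bad t s Z r
    · exact Or.inr (Or.inl hbad)
    obtain ⟨l, hl, hst, hZl⟩ := stall_of_not_bad hvh hbad
    obtain ⟨hyP, hy2⟩ := h2e haQ haF β β' h h' hp hvP l (al s t l v) hl hst hZl rfl
    by_cases hyQ : al s t l v ∈ Q
    swap
    · exact Or.inr (Or.inr ⟨hvh, l, hl, hst, hyP, hyQ⟩)
    obtain ⟨h4, h5⟩ := rev2 hsi hti hvh (cutS_of_mem hyP) hst
    have hev : Even l := by
      by_contra hl'
      have h6 := (StallAt.rev hti hsi hvh hst).2 hl'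
      rcases Nat.eq_zero_or_pos l with h0 | h0
      · subst h0; simp at hl'
      · exact h6.1.1 0 h0 (cutS_of_mem hyP)
    have hya : al s t l v ≠ a := by
      intro he
      rcases hor with hw | ⟨hxQ, hx⟩
      · have hst1 : StallAt t s 1 a := by
          constructor
          · intro n hn
            have : n = 0 := by omega
            subst this
            exact haF h
          · change s (t a) = t a
            exact cutS_of_mem hw
        rw [he] at h4 h5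
        have hl1 := h4.unique hst1
        subst hl1
        apply hvP
        rw [← h5]
        exact hw
      · have hZb : ∀ j, j ≤ l → al t s j a ∉ Z := by
          intro j hj
          have := al_back hsi hti hj v
          rw [if_pos hev, he] at this
          rw [this]
          exact hZl (l - j) (by omega)
        rw [he] at h4 h5
        have h6 := h2 hxQ β β' h h' hp hx l (al t s l a) hl (by rw [c.invol]; exact h4)
          (by rw [c.invol]; exact hZb) (by rw [c.invol])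
        rw [h5] at h6
        exact hvP h6.1
    left
    have hyF : ¬ (toPC c).Full (al s t l v) := (hy2 hyQ).resolve_right hya
    refine ⟨l, hl, al s t l v, ⟨?_, l, hl, h4, ?_⟩, h4, h5⟩
    · refine mem_Th hA hyP hyF h4 h5 (Or.inl ?_)
      intro he
      apply hvP
      rw [← he]
      exact hyP
    · rw [h5]; exact hvP
  refine hmain.trans ((measureReal_union_le _ _).trans ?_)
  have e1 := (hpre _).trans (real_Img_le hsi hti (s_mp hA hp) (mp_S hA.inv c h) r hB)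
  have e3 := (hpre _).trans (err_bad' hA h_END hp)
  have e4 := (hpre _).trans (err_end' hA hp)
  have e6 := measureReal_union_le (μ := μ) ((c.S h') ⁻¹' (Bad t s Z r))
    ((c.S h') ⁻¹' {x | c.S h x = x ∧ x ∈ End t s r (P \ Q)})
  have e7 : 0 ≤ μ.real (P \ Q) := measureReal_nonneg
  unfold Er
  have e8 : 0 ≤ (1 : ℝ) / r + r * μ.real Z := by positivity
  linarith

/-- three consecutive vertices which are not full are rare -/
lemma b_bound (h_END : tEND.{u}) :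
    μ.real (P \ FF c) ≤ 2 * μ.real (P ∩ FF c) + 5 * Er μ Z P Q r := by
  have key : ∀ h h' : Fin 4, Pal 0 1 h h' → ∀ᵐ z ∂μ, z ∈ Q → ¬ (toPC c).Full (c.S 0 z) →
      ¬ (toPC c).Full (c.S 1 z) → c.S h z = z → z ∈ Bad (c.S h) (c.S h') Z r := by
    intro h h' hp
    filter_upwards [hA.facts.fb] with z hz hzQ h0 h1 hh
    by_contra hbad
    obtain ⟨l, hl, hst, hZl⟩ := stall_of_not_bad hh hbad
    obtain ⟨j, hj, hjZ⟩ := hz hzQ h0 h1 0 1 h h' hp hh l hl hst
    exact hZl j hj hjZ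
  have p1 : Pal 0 1 2 3 := ⟨Or.inl ⟨rfl, rfl⟩, Or.inl ⟨rfl, rfl⟩⟩
  have p2 : Pal 0 1 3 2 := ⟨Or.inl ⟨rfl, rfl⟩, Or.inr ⟨rfl, rfl⟩⟩
  have hmain : μ.real (P \ FF c) ≤ μ.real ((c.S 0) ⁻¹' (P ∩ FF c) ∪
      ((c.S 1) ⁻¹' (P ∩ FF c) ∪ ((P \ Q) ∪
        (Bad (c.S 2) (c.S 3) Z r ∪ Bad (c.S 3) (c.S 2) Z r)))) := by
    refine real_le_of_ae ?_
    filter_upwards [key 2 3 p1, key 3 2 p2] with z h2 h3
    rintro ⟨hzP, hzF⟩
    by_cases h0 : (toPC c).Full (c.S 0 z)
    · exact Or.inl ⟨(hA.PP z hzP).1, h0⟩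
    by_cases h1 : (toPC c).Full (c.S 1 z)
    · exact Or.inr (Or.inl ⟨(hA.PP z hzP).2, h1⟩)
    by_cases hzQ : z ∈ Q
    swap
    · exact Or.inr (Or.inr (Or.inl ⟨hzP, hzQ⟩))
    rcases Q_miss hA hzQ hzF with h | h
    · exact Or.inr (Or.inr (Or.inr (Or.inl (h2 hzQ h0 h1 h))))
    · exact Or.inr (Or.inr (Or.inr (Or.inr (h3 hzQ h0 h1 h))))
  have m0 := hA.mP.inter (measurableSet_FF (c := c))
  have e0 := real_pre (mp_S hA.inv c 0) m0
  have e1 := real_pre (mp_S hA.inv c 1) m0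
  have e2 := bad_le h_END (c.invol 2) (c.invol 3) (mp_S hA.inv c 2) (mp_S hA.inv c 3) hA.mZ hA.r1
  have e3 := bad_le h_END (c.invol 3) (c.invol 2) (mp_S hA.inv c 3) (mp_S hA.inv c 2) hA.mZ hA.r1
  have u1 := measureReal_union_le (μ := μ) ((c.S 0) ⁻¹' (P ∩ FF c))
    ((c.S 1) ⁻¹' (P ∩ FF c) ∪ ((P \ Q) ∪
        (Bad (c.S 2) (c.S 3) Z r ∪ Bad (c.S 3) (c.S 2) Z r)))
  have u2 := measureReal_union_le (μ := μ) ((c.S 1) ⁻¹' (P ∩ FF c)) ((P \ Q) ∪
        (Bad (c.S 2) (c.S 3) Z r ∪ Bad (c.S 3) (c.S 2) Z r))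
  have u3 := measureReal_union_le (μ := μ) (P \ Q)
        (Bad (c.S 2) (c.S 3) Z r ∪ Bad (c.S 3) (c.S 2) Z r)
  have u4 := measureReal_union_le (μ := μ) (Bad (c.S 2) (c.S 3) Z r) (Bad (c.S 3) (c.S 2) Z r)
  have e7 : 0 ≤ μ.real (P \ Q) := measureReal_nonneg
  unfold Er
  have e8 : 0 ≤ (1 : ℝ) / r + r * μ.real Z := by positivity
  linarith

/-- the three kinds of ends of the walks from `Th` -/
lemma t_split {β β' h h' : Fin 4} (hp : Pal β β' h h') :
    μ.real (Th c P h ∩ End (cutS P (c.S β)) (c.S h) r (P \ FF c)) +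
      μ.real (Th c P h ∩ End (cutS P (c.S β)) (c.S h) r (P ∩ FF c)) +
      μ.real (Th c P h ∩ End (cutS P (c.S β)) (c.S h) r Pᶜ) ≤ μ.real (Th c P h) := by
  have hEm : ∀ X, MeasurableSet X →
      MeasurableSet (Th c P h ∩ End (cutS P (c.S β)) (c.S h) r X) := fun X hX =>
    (measurableSet_Th hA.mP h).inter
      (measurableSet_End (s_mp hA hp).measurable (mp_S hA.inv c h).measurable r hX)
  have hd : ∀ X X' : Set V, Disjoint X X' →
      Disjoint (Th c P h ∩ End (cutS P (c.S β)) (c.S h) r X)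
        (Th c P h ∩ End (cutS P (c.S β)) (c.S h) r X') := by
    intro X X' hX
    rw [Set.disjoint_left]
    rintro y ⟨-, l, -, h1, h2⟩ ⟨-, h3⟩
    exact hX.ne_of_mem h2 (End_unique h1 h3) rfl
  have h1 : Disjoint (P \ FF c) (P ∩ FF c) := by
    rw [Set.disjoint_left]; rintro x ⟨-, h1⟩ ⟨-, h2⟩; exact h1 h2
  rw [← measureReal_union (hd _ _ h1) (hEm _ (hA.mP.inter measurableSet_FF)),
    ← measureReal_union ?_ (hEm _ hA.mP.compl)]
  · refine measureReal_mono ?_ (measure_ne_top _ _)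
    rintro y ((hy | hy) | hy)
    · exact hy.1
    · exact hy.1
    · exact hy.1
  · rw [Set.disjoint_union_left]
    constructor
    · refine hd _ _ ?_
      rw [Set.disjoint_left]; rintro x ⟨h1, -⟩ h2; exact h2 h1
    · refine hd _ _ ?_
      rw [Set.disjoint_left]; rintro x ⟨h1, -⟩ h2; exact h2 h1

lemma t_sum : μ.real (Th c P 2) + μ.real (Th c P 3) ≤ μ.real (P \ FF c) + μ.real (P \ Q) := by
  rw [← measureReal_union_add_inter (measurableSet_Th hA.mP 3)]
  refine add_le_add (measureReal_mono ?_ (measure_ne_top _ _))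
    (measureReal_mono ?_ (measure_ne_top _ _))
  · rintro z (hz | hz)
    · exact ⟨hz.1, hz.2.1⟩
    · exact ⟨hz.1, hz.2.1⟩
  · rintro z ⟨hz, hz'⟩
    refine ⟨hz.1, fun hQ => ?_⟩
    rcases Q_miss hA hQ hz.2.1 with h | h
    · exact hz.2.2 h
    · exact hz'.2.2 h

/-- the full vertices of `P` are rare -/
lemma full_bound (h_END : tEND.{u}) : μ.real (P ∩ FF c) ≤ 43 * Er μ Z P Q r := by
  have p1 : Pal 0 1 2 3 := ⟨Or.inl ⟨rfl, rfl⟩, Or.inl ⟨rfl, rfl⟩⟩
  have p2 : Pal 0 1 3 2 := ⟨Or.inl ⟨rfl, rfl⟩, Or.inr ⟨rfl, rfl⟩⟩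
  have mF := measurableSet_FF (c := c)
  have m0Q := real_pre (mp_S hA.inv c 0) (hA.mP.diff hA.mQ)
  -- D
  have d2 := d_bound hA h_END p1
  have d3 := d_bound hA h_END p2
  have dn : μ.real (P \ FF c) ≤
      μ.real {p | p ∈ P ∧ ¬ (toPC c).Full p ∧ ¬ (toPC c).Full (c.S 0 p) ∧
        c.S 2 (c.S 0 p) = c.S 0 p} +
      (μ.real {p | p ∈ P ∧ ¬ (toPC c).Full p ∧ ¬ (toPC c).Full (c.S 0 p) ∧
        c.S 3 (c.S 0 p) = c.S 0 p} + (μ.real (P \ Q) + μ.real (P ∩ FF c))) := by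
    rw [← m0Q, ← real_pre (mp_S hA.inv c 0) (hA.mP.inter mF)]
    refine cov4 ?_
    rintro p ⟨hpP, hpF⟩
    by_cases h0 : (toPC c).Full (c.S 0 p)
    · exact Or.inr (Or.inr (Or.inr ⟨(hA.PP p hpP).1, h0⟩))
    by_cases hQ : c.S 0 p ∈ Q
    swap
    · exact Or.inr (Or.inr (Or.inl ⟨(hA.PP p hpP).1, hQ⟩))
    rcases Q_miss hA hQ h0 with h | h
    · exact Or.inl ⟨hpP, hpF, h0, h⟩
    · exact Or.inr (Or.inl ⟨hpP, hpF, h0, h⟩)
  -- A
  have a2 := a_bound1 hA h_END p1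
  have a3 := a_bound1 hA h_END p2
  have an : μ.real (P ∩ FF c) ≤
      μ.real {a | a ∈ P ∧ (toPC c).Full a ∧ c.S 0 a ∈ Q ∧ c.S 2 (c.S 0 a) = c.S 0 a} +
      (μ.real {a | a ∈ P ∧ (toPC c).Full a ∧ c.S 0 a ∈ Q ∧ c.S 3 (c.S 0 a) = c.S 0 a} +
      μ.real (P \ Q)) := by
    rw [← m0Q]
    refine cov3 ?_
    rintro a ⟨haP, haF⟩
    by_cases hQ : c.S 0 a ∈ Q
    swap
    · exact Or.inr (Or.inr ⟨(hA.PP a haP).1, hQ⟩)
    rcases Q_miss hA hQ (not_full hA haF 0) with h | h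
    · exact Or.inl ⟨haP, haF, hQ, h⟩
    · exact Or.inr (Or.inl ⟨haP, haF, hQ, h⟩)
  have b2 := m_bound hA p1
  have b3 := m_bound hA p2
  have mS : ∀ k, MeasurableSet {a | c.S k a ∈ P} := fun k => c.meas k hA.mP
  have c2 : μ.real {a | a ∈ P ∧ (toPC c).Full a ∧ c.S 2 a ∈ P ∧ c.S 3 a ∈ P} +
      μ.real {y | y ∈ P ∧ (toPC c).Full y ∧ c.S 2 y ∈ P ∧ c.S 3 y ∉ P} ≤
      μ.real {a | a ∈ P ∧ (toPC c).Full a ∧ c.S 2 a ∈ P} := by
    refine add_le_of_disj (hA.mP.inter (mF.inter ((mS 2).inter (mS 3).compl))) ?_ ?_ ?_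
    · rintro a ⟨-, -, -, h4⟩ ⟨-, -, -, h5⟩
      exact h5 h4
    · rintro a ⟨h1, h2, h3, -⟩; exact ⟨h1, h2, h3⟩
    · rintro a ⟨h1, h2, h3, -⟩; exact ⟨h1, h2, h3⟩
  have c3 : μ.real {a | a ∈ P ∧ (toPC c).Full a ∧ c.S 2 a ∈ P ∧ c.S 3 a ∈ P} +
      μ.real {y | y ∈ P ∧ (toPC c).Full y ∧ c.S 3 y ∈ P ∧ c.S 2 y ∉ P} ≤
      μ.real {a | a ∈ P ∧ (toPC c).Full a ∧ c.S 3 a ∈ P} := by
    refine add_le_of_disj (hA.mP.inter (mF.inter ((mS 3).inter (mS 2).compl))) ?_ ?_ ?_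
    · rintro a ⟨-, -, h4, -⟩ ⟨-, -, -, h5⟩
      exact h5 h4
    · rintro a ⟨h1, h2, -, h4⟩; exact ⟨h1, h2, h4⟩
    · rintro a ⟨h1, h2, h3, -⟩; exact ⟨h1, h2, h3⟩
  -- S
  have v2 := v_bound1 hA h_END p1
  have v3 := v_bound1 hA h_END p2
  have vn : μ.real (P ∩ FF c) ≤
      μ.real {a | a ∈ Q ∧ (toPC c).Full a ∧ c.S 3 a ∉ P ∧
        (c.S 2 a ∈ P ∨ (c.S 0 a ∈ Q ∧ c.S 2 (c.S 0 a) = c.S 0 a))} +
      (μ.real {a | a ∈ Q ∧ (toPC c).Full a ∧ c.S 2 a ∉ P ∧
        (c.S 3 a ∈ P ∨ (c.S 0 a ∈ Q ∧ c.S 3 (c.S 0 a) = c.S 0 a))} +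
      (μ.real (P \ Q) + (μ.real ((c.S 0) ⁻¹' (P \ Q)) +
        μ.real {a | a ∈ P ∧ (toPC c).Full a ∧ c.S 2 a ∈ P ∧ c.S 3 a ∈ P}))) := by
    refine cov5 ?_
    rintro a ⟨haP, haF⟩
    by_cases haQ : a ∈ Q
    swap
    · exact Or.inr (Or.inr (Or.inl ⟨haP, haQ⟩))
    by_cases hQ : c.S 0 a ∈ Q
    swap
    · exact Or.inr (Or.inr (Or.inr (Or.inl ⟨(hA.PP a haP).1, hQ⟩)))
    by_cases h2 : c.S 2 a ∈ P
    · by_cases h3 : c.S 3 a ∈ P
      · exact Or.inr (Or.inr (Or.inr (Or.inr ⟨haP, haF, h2, h3⟩)))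
      · exact Or.inl ⟨haQ, haF, h3, Or.inl h2⟩
    · by_cases h3 : c.S 3 a ∈ P
      · exact Or.inr (Or.inl ⟨haQ, haF, h2, Or.inl h3⟩)
      · rcases Q_miss hA hQ (not_full hA haF 0) with h | h
        · exact Or.inl ⟨haQ, haF, h3, Or.inr ⟨hQ, h⟩⟩
        · exact Or.inr (Or.inl ⟨haQ, haF, h2, Or.inr ⟨hQ, h⟩⟩)
  have s2 := t_split hA p1
  have s3 := t_split hA p2
  have ts := t_sum hA
  have hδ : μ.real (P \ Q) ≤ Er μ Z P Q r := by
    unfold Er
    have e8 : 0 ≤ (1 : ℝ) / r + r * μ.real Z := by positivity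
    linarith
  linarith

end

end main

end COUNT_

theorem allCOUNT (h_END : tEND.{u}) : tCOUNT.{u} := by
  intro V _ _ G c μ _ hinv Z P Q r mZ mP mQ hr hind hPP hQP hQ01 hF
  have hA : COUNT_.Asm c μ Z P Q r := ⟨hinv, mZ, mP, mQ, hr, hind, hPP, hQP, hQ01, hF⟩
  have h1 := COUNT_.full_bound hA h_END
  have h2 := COUNT_.b_bound hA h_END
  have h3 : μ.real P ≤ μ.real (P ∩ COUNT_.FF c) + μ.real (P \ COUNT_.FF c) := by
    rw [measureReal_inter_add_sdiff COUNT_.measurableSet_FF]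
  have h4 : 0 ≤ COUNT_.Er μ Z P Q r := by
    unfold COUNT_.Er
    positivity
  have h5 : COUNT_.Er μ Z P Q r = μ.real (P \ Q) + 1 / r + r * μ.real Z := rfl
  rw [← h5]
  linarith

end Pool.Agent.MEP
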