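import Pool.Agent.BGL.Defs
import Pool.Agent.MEC.Compare

set_option autoImplicit false

/-! MP_fff3e1_lc, `Δ = 4`, invariant measures.  Definitions. -/

namespace Pool.Agent.MEP

open MeasureTheory Set Filter
open scoped ENNReal
open Pool.Agent.MEC

universe u

variable {V : Type u}

/-! ### Walks of two involutions -/

/-- `al s t n x`: apply `s`, then `t`, then `s`, ... (`n` factors, `s` is applied first) -/
def al (s t : V → V) : ℕ → V → V
  | 0, x => x
  | n + 1, x => al t s n (s x)

/-- `x` does not return to itself after `p` double steps, `1 ≤ p ≤ L` -/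
def Long (s t : V → V) (L : ℕ) : Set V := {x | ∀ p, 1 ≤ p → p ≤ L → al s t (2 * p) x ≠ x}

/-- the walk `x, s x, t s x, ...` does not stall during its first `N` steps -/
def NS (s t : V → V) (N : ℕ) (x : V) : Prop := ∀ n, n < N → al s t (n + 1) x ≠ al s t n x

/-- the walk `x, s x, t s x, ...` stalls for the first time after `n` steps -/
def StallAt (s t : V → V) (n : ℕ) (x : V) : Prop :=
  NS s t n x ∧ al s t (n + 1) x = al s t n x

/-- no stall within `N` steps in both directions -/
def Far (s t : V → V) (N : ℕ) : Set V := {x | NS s t N x ∧ NS t s N x}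

/-- both walks of `N` steps are injective and disjoint -/
def Clean (s t : V → V) (N : ℕ) : Set V := Far s t N ∩ Long s t N

open Classical in
/-- `f` restricted to the complement of `P` -/
noncomputable def cutS (P : Set V) (f : V → V) (x : V) : V := if x ∈ P then x else f x

/-! ### Partial colourings without measurability -/

/-- A partial proper edge colouring of `G` with colours `Fin Δ`. -/
structure PC (G : SimpleGraph V) (Δ : ℕ) where
  S : Fin Δ → V → V
  invol : ∀ k x, S k (S k x) = x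
  adj : ∀ k x, S k x ≠ x → G.Adj x (S k x)
  disj : ∀ k k' x, S k x = S k' x → S k x ≠ x → k = k'

variable {G : SimpleGraph V} {Δ : ℕ}

/-- forget the measurability -/
def toPC [MeasurableSpace V] (c : PCol G Δ) : PC G Δ where
  S := c.S
  invol := c.invol
  adj := c.adj
  disj := c.disj

/-- points which can be reached from `b` by at most `n` coloured edges -/
def PC.Ball (c : PC G Δ) : ℕ → V → Set V
  | 0, b => {b}
  | n + 1, b => c.Ball n b ∪ {x | ∃ k, ∃ y ∈ c.Ball n b, x = c.S k y}

/-- all colours are present at `x` -/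
def PC.Full (c : PC G Δ) (x : V) : Prop := ∀ k, c.S k x ≠ x

/-- neighbours of vertices with all colours miss a colour -/
def PC.Ind (c : PC G Δ) : Prop := ∀ x y, G.Adj x y → c.Full x → ∃ k, c.S k y = y

/-- the palette: `b, b'` are the colours `0, 1` and `h, h'` are the colours `2, 3` in some order -/
def Pal (b b' h h' : Fin 4) : Prop := (b = 0 ∧ b' = 1 ∨ b = 1 ∧ b' = 0) ∧
  (h = 2 ∧ h' = 3 ∨ h = 3 ∧ h' = 2)

/-- The measure is preserved by all measurable involutions which move points along edges. -/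
def Inv [MeasurableSpace V] (G : SimpleGraph V) (μ : Measure V) : Prop :=
  ∀ f : V → V, Measurable f → (∀ x, f (f x) = x) → (∀ x, f x ≠ x → G.Adj x (f x)) →
    MeasurePreserving f μ μ

/-! ### Cuts -/

/-- `cb` differs from `c` only near `b`, respects `Z`, and cuts a clean long `01`-walk.
The set `P` consists of the long components, `Cl` of the clean points. -/
structure CutImp (c : PC G 4) (Z P Cl : Set V) (R N : ℕ) (b : V) (cb : PC G 4) : Prop where
  ball : ∀ x k, cb.S k x ≠ c.S k x → x ∈ c.Ball R b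
  card : {x | ∃ k, cb.S k x ≠ c.S k x}.encard ≤ R
  rng : ∀ x, range (fun k => cb.S k x) = range (fun k => c.S k x)
  avoid : ∀ x k, cb.S k x ≠ c.S k x → x ∉ Z
  clean : ∀ x, (cb.S 0 x ≠ c.S 0 x ∨ cb.S 1 x ≠ c.S 1 x) → x ∉ P ∨ x ∈ Cl
  tail : ∃ y ∈ Cl, ∃ β β' : Fin 4, (β = 0 ∧ β' = 1 ∨ β = 1 ∧ β' = 0) ∧ y ∈ c.Ball R b ∧
    cb.S β y = y ∧ ∀ n, 1 ≤ n → n ≤ N → ∀ k, k = β ∨ k = β' →
      cb.S k (al (c.S β') (c.S β) n y) = c.S k (al (c.S β') (c.S β) n y)

/-- the ball of radius 3 avoids `Z` and its points on `P` are clean -/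
def GoodV (c : PC G 4) (Z P Cl : Set V) (x : V) : Prop :=
  x ∈ P ∧ ∀ y ∈ c.Ball 3 x, y ∉ Z ∧ (y ∈ P → y ∈ Cl)

/-- the standing assumptions of the pointwise facts -/
structure Ctx (c : PC G 4) (P : Set V) (N : ℕ) : Prop where
  ind : c.Ind
  P0 : ∀ x ∈ P, c.S 0 x ∈ P
  P1 : ∀ x ∈ P, c.S 1 x ∈ P
  cl : Clean (c.S 0) (c.S 1) (2 * N) ⊆ P
  N2 : 4 ≤ N

variable [MeasurableSpace V]

/-- same coloured edges and unchanged on `Z`, almost everywhere -/
def Cls (μ : Measure V) (Z : Set V) (c0 c : PCol G Δ) : Prop :=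
  (∀ᵐ x ∂μ, x ∈ Z → ∀ k, c.S k x = c0.S k x) ∧
  ∀ᵐ x ∂μ, range (fun k => c.S k x) = range (fun k => c0.S k x)

/-! ### Uncoloured edges -/

/-- the colour blind distance for the colours `0, 1` plus the distance for the colours `2, 3` -/
noncomputable def dU (μ : Measure V) (c c' : PCol G 4) : ℝ :=
  μ.real {x | ¬ (({c.S 0 x, c.S 1 x} : Set V) = {c'.S 0 x, c'.S 1 x} ∧
    c.S 2 x = c'.S 2 x ∧ c.S 3 x = c'.S 3 x)}

/-- the metric of the removal step -/
noncomputable def dD (μ : Measure V) (L : ℕ) (c c' : PCol G 4) : ℝ :=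
  dU μ c c' / 1000 + PCol.dst μ c c' / (1000 * L)

/-- both ends of edge number `i` at `x` have degree less than `4` -/
def WW (g : Gen G 4) (i : ℕ) : Set V :=
  {x | (G.neighborSet x).encard < 4 ∧ (G.neighborSet (g.T i x)).encard < 4}

/-- the weight of the uncoloured edges -/
noncomputable def FW (μ : Measure V) (g : Gen G 4) (c : PCol G 4) : ℝ :=
  (∑' i, (μ (Unc g c i) + 2⁻¹ * μ (Unc g c i ∩ WW g i))).toReal

/-- exactly one of the colours `0, 1` is missing at `x` -/
def OneU (c : PCol G 4) (x : V) : Prop := c.S 0 x = x ↔ c.S 1 x ≠ x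

/-- `x` is an exit of the uncoloured edge `u v` (centre `u`) -/
def Exit (c : PCol G 4) (v u x : V) : Prop :=
  x = v ∨ ∃ k : Fin 4, (k = 2 ∨ k = 3) ∧ c.S k v = v ∧ c.S k u = x ∧ x ≠ u

/-- the uncoloured edges number `i` with centre `u` which have type `01` -/
def Typed (g : Gen G 4) (c : PCol G 4) (i : ℕ) : Set V :=
  {u | u ∈ Unc g c i ∧ OneU c u ∧ ∃ x1 x2, x1 ≠ x2 ∧ Exit c (g.T i u) u x1 ∧
    Exit c (g.T i u) u x2 ∧ OneU c x1 ∧ OneU c x2}

/-- total measure of the typed uncoloured edges -/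
noncomputable def TY (μ : Measure V) (g : Gen G 4) (c : PCol G 4) : ℝ :=
  (∑' i, μ (Typed g c i)).toReal

/-- renaming the colours -/
def relab (σ : Equiv.Perm (Fin Δ)) (c : PCol G Δ) : PCol G Δ where
  S := fun k => c.S (σ k)
  meas := fun k => c.meas (σ k)
  invol := fun k => c.invol (σ k)
  adj := fun k => c.adj (σ k)
  disj := fun k k' x h h' => σ.injective (c.disj (σ k) (σ k') x h h')

end Pool.Agent.MEP
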