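import Pool.Agent.MEP.Walk

set_option autoImplicit false
set_option linter.unusedSectionVars false

/-! MP_fff3e1_lc, `Δ = 4`, invariant measures: uncoloured edges between vertices of degree
less than `4` (target tSHW). -/

namespace Pool.Agent.MEP

open MeasureTheory Set Filter
open scoped ENNReal
open Pool.Agent.MEC

universe u

namespace SHW_

variable {V : Type u} [MeasurableSpace V] [StandardBorelSpace V] {G : SimpleGraph V}

lemma encard_nb (g : Gen G 4) (x : V) :
    (G.neighborSet x).encard = {i | g.T i x ≠ x}.encard := by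
  have h : G.neighborSet x = (fun i => g.T i x) '' {i | g.T i x ≠ x} := by
    ext y
    constructor
    · intro hy
      obtain ⟨i, rfl⟩ := g.cover x y hy
      exact ⟨i, fun h => G.ne_of_adj hy h.symm, rfl⟩
    · rintro ⟨i, hi, rfl⟩
      exact g.adj i x hi
  rw [h, InjOn.encard_image]
  intro i hi j hj he
  exact g.disj i j x he hi

lemma measurableSet_four (g : Gen G 4) :
    MeasurableSet {x | (4 : ℕ∞) ≤ (G.neighborSet x).encard} := by
  have h : {x | (4 : ℕ∞) ≤ (G.neighborSet x).encard} =
      ⋃ s : Finset ℕ, ⋃ _ : s.card = 4, ⋂ i ∈ s, {x | g.T i x ≠ x} := by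
    ext x
    simp only [mem_ofPred_eq, mem_iUnion, mem_iInter, exists_prop]
    rw [encard_nb g x]
    constructor
    · intro h
      obtain ⟨t, ht, hc⟩ := exists_subset_encard_eq h
      have hfin : t.Finite := finite_of_encard_eq_coe (k := 4) hc
      refine ⟨hfin.toFinset, ?_, fun i hi => ht (hfin.mem_toFinset.1 hi)⟩
      have := hfin.encard_eq_coe_toFinset_card
      rw [hc] at this
      exact_mod_cast this.symm
    · rintro ⟨s, hs, hi⟩
      have h1 : (s : Set ℕ).encard ≤ {i | g.T i x ≠ x}.encard :=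
        encard_le_encard (fun i h => hi i h)
      rw [encard_coe_eq_coe_finsetCard, hs] at h1
      exact_mod_cast h1
  rw [h]
  refine MeasurableSet.iUnion fun s => MeasurableSet.iUnion fun _ => ?_
  exact Finset.measurableSet_biInter s fun i _ => g.measurableSet_D i

lemma measurableSet_WW (g : Gen G 4) (i : ℕ) : MeasurableSet (WW g i) := by
  have h : WW g i = {x | (4 : ℕ∞) ≤ (G.neighborSet x).encard}ᶜ ∩
      (g.T i ⁻¹' {x | (4 : ℕ∞) ≤ (G.neighborSet x).encard})ᶜ := by
    ext x
    simp only [WW, mem_ofPred_eq, mem_inter_iff, mem_compl_iff, mem_preimage, not_le]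
  rw [h]
  exact (measurableSet_four g).compl.inter (g.meas i (measurableSet_four g)).compl

/-- the weight of a set of ends of edges number `i` -/
noncomputable def ww (μ : Measure V) (g : Gen G 4) (i : ℕ) (X : Set V) : ℝ≥0∞ :=
  μ X + 2⁻¹ * μ (X ∩ WW g i)

variable (μ : Measure V) (g : Gen G 4)

lemma ww_mono (i : ℕ) {X Y : Set V} (h : X ⊆ Y) : ww μ g i X ≤ ww μ g i Y := by
  unfold ww
  gcongr

lemma ww_union_le (i : ℕ) (X Y : Set V) : ww μ g i (X ∪ Y) ≤ ww μ g i X + ww μ g i Y := by
  unfold ww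
  calc μ (X ∪ Y) + 2⁻¹ * μ ((X ∪ Y) ∩ WW g i)
      ≤ (μ X + μ Y) + 2⁻¹ * (μ (X ∩ WW g i) + μ (Y ∩ WW g i)) := by
        gcongr
        · exact measure_union_le _ _
        · rw [union_inter_distrib_right]; exact measure_union_le _ _
    _ = _ := by rw [mul_add]; abel

lemma ww_add (i : ℕ) {X Y : Set V} (hY : MeasurableSet Y) (hd : Disjoint X Y) :
    ww μ g i (X ∪ Y) = ww μ g i X + ww μ g i Y := by
  unfold ww
  rw [union_inter_distrib_right, measure_union hd hY,
    measure_union (hd.mono inter_subset_left inter_subset_left)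
      (hY.inter (measurableSet_WW g i)), mul_add]
  abel

lemma FW_ne_top [IsFiniteMeasure μ] (c : PCol G 4) :
    ∑' i, ww μ g i (Unc g c i) ≠ ⊤ := by
  refine ne_top_of_le_ne_top (b := 2 * FE μ g c)
    (ENNReal.mul_ne_top (by simp) (FE_ne_top μ g c)) ?_
  unfold FE
  rw [← ENNReal.tsum_mul_left]
  refine ENNReal.tsum_le_tsum fun i => ?_
  unfold ww
  rw [two_mul]
  gcongr
  calc 2⁻¹ * μ (Unc g c i ∩ WW g i) ≤ 1 * μ (Unc g c i) := by
        gcongr
        · simp
        · exact inter_subset_left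
    _ = μ (Unc g c i) := one_mul _

lemma FW_compare [IsFiniteMeasure μ] (c c' : PCol G 4) (i j : ℕ) (a b : ℝ≥0∞)
    (ha : a ≠ ⊤) (hb : b ≠ ⊤)
    (h : ∀ l, ww μ g l (Unc g c' l) + (if l = i then a else 0) ≤
      ww μ g l (Unc g c l) + (if l = j then b else 0)) :
    FW μ g c' + a.toReal ≤ FW μ g c + b.toReal := by
  have h1 := ENNReal.tsum_le_tsum h
  rw [ENNReal.tsum_add, ENNReal.tsum_add, tsum_ite_eq, tsum_ite_eq] at h1
  have h2 := ENNReal.toReal_mono (ENNReal.add_ne_top.2 ⟨FW_ne_top μ g c, hb⟩) h1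
  rw [ENNReal.toReal_add (FW_ne_top μ g c') ha, ENNReal.toReal_add (FW_ne_top μ g c) hb] at h2
  exact h2

/-- the bad set -/
def BB (g : Gen G 4) (c : PCol G 4) (i j : ℕ) (k : Fin 4) : Set V :=
  (Unc g c i ∩ WW g i) ∩ ({u | c.S k (g.T i u) = g.T i u} ∩
    ({u | c.S k u = u}ᶜ ∩ ({u | g.T j u = c.S k u} ∩
      c.S k ⁻¹' {x | (4 : ℕ∞) ≤ (G.neighborSet x).encard})))

lemma measurableSet_BB (c : PCol G 4) (i j : ℕ) (k : Fin 4) : MeasurableSet (BB g c i j k) := by
  unfold BB
  refine ((measurableSet_Unc i).inter (measurableSet_WW g i)).inter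
    (MeasurableSet.inter ?_ (MeasurableSet.inter ?_ (MeasurableSet.inter ?_ ?_)))
  · exact measurableSet_eq_fun ((c.meas k).comp (g.meas i)) (g.meas i)
  · exact (measurableSet_eq_fun (c.meas k) measurable_id).compl
  · exact measurableSet_eq_fun (g.meas j) (c.meas k)
  · exact c.meas k (measurableSet_four g)

lemma image_invol {f : V → V} (hf : Measurable f) (hi : ∀ x, f (f x) = x) (B : Set V) :
    (ofInvol f hf hi) '' B = f ⁻¹' B := by
  ext x
  constructor
  · rintro ⟨y, hy, rfl⟩
    change f (f y) ∈ B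
    rw [hi]; exact hy
  · intro hx
    exact ⟨f x, hx, hi x⟩

lemma real_image {f : V → V} (hf : Measurable f) (hi : ∀ x, f (f x) = x)
    (hp : MeasurePreserving f μ μ) {B : Set V} (hB : MeasurableSet B) :
    μ ((ofInvol f hf hi) '' B) = μ B := by
  rw [image_invol hf hi, hp.measure_preimage hB.nullMeasurableSet]

lemma null_BB (c : PCol G 4) [IsProbabilityMeasure μ] (hinv : Inv G μ) (L : ℕ) (hL : 1 ≤ L)
    (hopt : ∀ c' : PCol G 4, FW μ g c ≤ FW μ g c' + dD μ L c c') (i j : ℕ) (k : Fin 4) :
    μ (BB g c i j k) = 0 := by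
  by_contra hpos
  set f : V ≃ᵐ V := ofInvol (g.T i) (g.meas i) (g.invol i) with hf
  set h : V ≃ᵐ V := ofInvol (c.S k) (c.meas k) (c.invol k) with hh
  set φ : ℕ → V ≃ᵐ V := fun n => if n = 0 then f else if n = 1 then MeasurableEquiv.refl V else h
    with hφ
  obtain ⟨B, hBI, hBm, hBpos, hBdis⟩ := exists_disjoint_piece μ φ {(0, 1), (0, 2), (1, 2)}
    (BB g c i j k) (measurableSet_BB g c i j k) hpos (by
      intro x hx p hp
      have hu : x ∈ Unc g c i := hx.1.1
      simp only [Finset.mem_insert, Finset.mem_singleton] at hp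
      rcases hp with rfl | rfl | rfl
      · exact hu.1
      · exact fun he => hu.2 k he.symm
      · exact fun he => hx.2.2.1 he.symm)
  have d01 : Disjoint (f '' B) ((MeasurableEquiv.refl V) '' B) := hBdis (0, 1) (by simp)
  have d02 : Disjoint (f '' B) (h '' B) := hBdis (0, 2) (by simp)
  have d12 : Disjoint ((MeasurableEquiv.refl V) '' B) (h '' B) := hBdis (1, 2) (by simp)
  have hid : ((MeasurableEquiv.refl V) '' B) = B := by
    ext x; simp
  have hf' : ∀ x, f x = g.T i x := fun _ => rfl
  have hh' : ∀ x, h x = c.S k x := fun _ => rfl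
  obtain ⟨c', e0, e1, e2, e3, e4, -, edst⟩ := PCol.moveStep (ν := μ) c k f
    (MeasurableEquiv.refl V) h B hBm d01 d02 d12
    (fun x hx => (g.adj i x (hBI hx).1.1.1).symm)
    (fun x hx k' he => by
      have he' : c.S k' (g.T i x) = x := he
      apply (hBI hx).1.1.2 k'
      have h5 := c.invol k' (g.T i x)
      rw [he'] at h5
      exact h5)
    (fun x hx => (hBI hx).2.1) (fun x hx => rfl)
  rw [hid] at d01 d12 edst
  have mf : μ (f '' B) = μ B := real_image μ (g.meas i) (g.invol i)
    (hinv _ (g.meas i) (g.invol i) (g.adj i)) hBm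
  have mh : μ (h '' B) = μ B := real_image μ (c.meas k) (c.invol k)
    (hinv _ (c.meas k) (c.invol k) (c.adj k)) hBm
  have mfr : μ.real (f '' B) = μ.real B := by rw [measureReal_def, mf, measureReal_def]
  have mhr : μ.real (h '' B) = μ.real B := by rw [measureReal_def, mh, measureReal_def]
  have hBr : 0 < μ.real B := by
    rw [measureReal_def]
    exact ENNReal.toReal_pos hBpos (measure_ne_top _ _)
  have hij : i ≠ j ∨ B = ∅ := by
    by_cases hB0 : B = ∅
    · exact Or.inr hB0
    · left
      rintro rfl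
      obtain ⟨x, hx⟩ := nonempty_iff_ne_empty.2 hB0
      exact (hBI hx).1.1.2 k (hBI hx).2.2.2.1.symm
  have hij : i ≠ j := by
    rcases hij with h1 | h1
    · exact h1
    · rw [h1] at hBr; simp at hBr
  -- the new colouring
  have hsub : ∀ l, Unc g c' l ⊆ Unc g c l ∪ (if l = j then B ∪ h '' B else ∅) := by
    intro l x hx
    by_cases hx' : x ∈ Unc g c l
    · exact Or.inl hx'
    right
    have hne : g.T l x ≠ x := hx.1
    have h1 : ∃ k', c.S k' x = g.T l x := by
      by_contra hcon
      push Not at hcon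
      exact hx' ⟨hne, hcon⟩
    obtain ⟨k', hk'⟩ := h1
    have hkk : k' = k := by
      by_contra hcon
      exact hx.2 k' (by rw [e0 k' hcon]; exact hk')
    subst hkk
    have hch : ¬ (c'.S k' x = c.S k' x) := fun he => hx.2 k' (he.trans hk')
    by_cases k1 : x ∈ f '' B
    · obtain ⟨b, hb, rfl⟩ := k1
      exfalso
      have h2 : c.S k' (g.T i b) = g.T i b := (hBI hb).2.1
      have h3 : c.S k' (g.T i b) = g.T l (g.T i b) := hk'
      exact hne (h3.symm.trans h2)
    by_cases k2 : x ∈ B
    · have h2 : g.T j x = c.S k' x := (hBI k2).2.2.2.1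
      have : l = j := g.disj l j x (hk'.symm.trans h2.symm) hne
      rw [if_pos this]
      exact Or.inl k2
    by_cases k3 : x ∈ h '' B
    · have k3' := k3
      obtain ⟨b, hb, rfl⟩ := k3
      have h2 : g.T j b = c.S k' b := (hBI hb).2.2.2.1
      have h3 : c.S k' (c.S k' b) = g.T l (c.S k' b) := hk'
      rw [c.invol] at h3
      have h4 : g.T j (c.S k' b) = b := by rw [← h2, g.invol]
      have : l = j := g.disj l j (c.S k' b) (h3.symm.trans h4.symm) hne
      rw [if_pos this]
      exact Or.inr k3'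
    · exact absurd (e4 x k1 (by rw [hid]; exact k2) k3) hch
  have hsubi : Unc g c' i ⊆ Unc g c i \ (B ∪ f '' B) := by
    intro x hx
    have h1 := hsub i hx
    rw [if_neg hij] at h1
    refine ⟨by simpa using h1, ?_⟩
    rintro (h2 | h2)
    · exact hx.2 k (e2 x h2)
    · obtain ⟨b, hb, rfl⟩ := h2
      apply hx.2 k
      rw [e1 b hb]
      change b = g.T i (g.T i b)
      rw [g.invol]
  have hBU : B ∪ f '' B ⊆ Unc g c i := by
    rintro x (hx | hx)
    · exact (hBI hx).1.1
    · obtain ⟨b, hb, rfl⟩ := hx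
      have h1 : b ∈ Unc g c i := (hBI hb).1.1
      change g.T i b ∈ Unc g c i
      refine ⟨?_, fun k' he => ?_⟩
      · rw [g.invol]; exact fun he => h1.1 he.symm
      · rw [g.invol] at he
        apply h1.2 k'
        have h5 := c.invol k' (g.T i b)
        rw [he] at h5
        exact h5
  have hBW : B ∪ f '' B ⊆ WW g i := by
    rintro x (hx | hx)
    · exact (hBI hx).1.2
    · obtain ⟨b, hb, rfl⟩ := hx
      have h1 : b ∈ WW g i := (hBI hb).1.2
      refine ⟨h1.2, ?_⟩
      change (G.neighborSet (g.T i (g.T i b))).encard < 4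
      rw [g.invol]
      exact h1.1
  have hBj : (B ∪ h '' B) ∩ WW g j = ∅ := by
    rw [eq_empty_iff_forall_notMem]
    rintro x ⟨hx | hx, hw⟩
    · have h1 : (4 : ℕ∞) ≤ (G.neighborSet (c.S k x)).encard := (hBI hx).2.2.2.2
      have h2 : g.T j x = c.S k x := (hBI hx).2.2.2.1
      rw [← h2] at h1
      exact absurd hw.2 (not_lt.2 h1)
    · obtain ⟨b, hb, rfl⟩ := hx
      have h1 : (4 : ℕ∞) ≤ (G.neighborSet (c.S k b)).encard := (hBI hb).2.2.2.2
      exact absurd hw.1 (not_lt.2 h1)
  have hmf : MeasurableSet (f '' B) := PCol.measurable_image hBm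
  have hmh : MeasurableSet (h '' B) := PCol.measurable_image hBm
  have wi : ww μ g i (B ∪ f '' B) = 3 * μ B := by
    unfold ww
    rw [inter_eq_self_of_subset_left hBW, measure_union d01.symm hmf, mf, ← two_mul,
      ← mul_assoc, ENNReal.inv_mul_cancel (by simp) (by simp), ← add_mul]
    norm_num
  have wj : ww μ g j (B ∪ h '' B) ≤ 2 * μ B := by
    unfold ww
    rw [hBj, measure_empty, mul_zero, add_zero]
    refine (measure_union_le _ _).trans ?_
    rw [mh, two_mul]
  have hcomp := FW_compare μ g c c' i j (3 * μ B) (2 * μ B)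
    (ENNReal.mul_ne_top (by simp) (measure_ne_top _ _))
    (ENNReal.mul_ne_top (by simp) (measure_ne_top _ _)) (by
      intro l
      by_cases hl : l = i
      · subst hl
        rw [if_pos rfl, if_neg hij, add_zero, ← wi]
        calc ww μ g l (Unc g c' l) + ww μ g l (B ∪ f '' B)
            ≤ ww μ g l (Unc g c l \ (B ∪ f '' B)) + ww μ g l (B ∪ f '' B) := by
              gcongr
              exact ww_mono μ g l hsubi
          _ = ww μ g l (Unc g c l) := by
              rw [← ww_add μ g l (hBm.union hmf) disjoint_sdiff_left,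
                sdiff_union_of_subset hBU]
      · rw [if_neg hl, add_zero]
        refine (ww_mono μ g l (hsub l)).trans ((ww_union_le μ g l _ _).trans ?_)
        gcongr
        by_cases hl' : l = j
        · subst hl'
          rw [if_pos rfl, if_pos rfl]
          exact wj
        · rw [if_neg hl', if_neg hl']
          simp [ww])
  have hc1 : FW μ g c' + 3 * μ.real B ≤ FW μ g c + 2 * μ.real B := by
    have t3 : (3 * μ B).toReal = 3 * μ.real B := by
      rw [ENNReal.toReal_mul]; rfl
    have t2 : (2 * μ B).toReal = 2 * μ.real B := by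
      rw [ENNReal.toReal_mul]; rfl
    rw [t3, t2] at hcomp
    exact hcomp
  have hchange : ∀ x, (∃ k', c.S k' x ≠ c'.S k' x) → x ∈ (f '' B ∪ B) ∪ h '' B := by
    rintro x ⟨k', hk'⟩
    by_contra hcon
    simp only [mem_union, not_or] at hcon
    by_cases hkk : k' = k
    · subst hkk
      exact hk' (e4 x hcon.1.1 (by rw [hid]; exact hcon.1.2) hcon.2).symm
    · rw [e0 k' hkk] at hk'
      exact hk' rfl
  have h3B : μ.real ((f '' B ∪ B) ∪ h '' B) ≤ 3 * μ.real B := by
    refine (measureReal_union_le _ _).trans ?_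
    have := measureReal_union_le (μ := μ) (f '' B) B
    rw [mhr]
    rw [mfr] at this
    linarith
  have hdU : dU μ c c' ≤ 3 * μ.real B := by
    unfold dU
    refine (measureReal_mono ?_).trans h3B
    intro x hx
    apply hchange
    by_contra hcon
    push Not at hcon
    apply hx
    rw [hcon 0, hcon 1, hcon 2, hcon 3]
    exact ⟨rfl, rfl, rfl⟩
  have hdst : PCol.dst μ c c' ≤ 3 * μ.real B := by
    refine edst.trans ?_
    rw [mfr, mhr]
    linarith
  have hop := hopt c'
  have hLr : (1 : ℝ) ≤ L := by exact_mod_cast hL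
  have hdD : dD μ L c c' ≤ 6 / 1000 * μ.real B := by
    unfold dD
    have h1 : PCol.dst μ c c' / (1000 * L) ≤ 3 * μ.real B / 1000 := by
      have h2 : PCol.dst μ c c' / (1000 * L) ≤ PCol.dst μ c c' / 1000 := by
        apply div_le_div_of_nonneg_left (PCol.dst_nonneg _ _) (by norm_num)
        linarith
      have h3 : PCol.dst μ c c' / 1000 ≤ 3 * μ.real B / 1000 := by gcongr
      exact h2.trans h3
    have h2 : dU μ c c' / 1000 ≤ 3 * μ.real B / 1000 := by gcongr
    linarith
  linarith

end SHW_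

open SHW_ in
theorem allSHW (h_FWP : tFWP.{u}) : tSHW.{u} := by
  have _ := h_FWP
  intro V _ _ G g c μ _ _hadj hinv L i hL hopt
  rw [ae_iff]
  refine measure_mono_null (t := ⋃ k : Fin 4, ⋃ j : ℕ, BB g c i j k) ?_
    (measure_iUnion_null fun k => measure_iUnion_null fun j =>
      null_BB μ g c hinv L hL hopt i j k)
  intro u hu
  simp only [mem_ofPred_eq, Classical.not_imp, not_forall, not_lt] at hu
  obtain ⟨h1, h2, k, h3, h4, h5⟩ := hu
  obtain ⟨j, hj⟩ := g.cover u _ (c.adj k u h4)
  exact mem_iUnion.2 ⟨k, mem_iUnion.2 ⟨j, ⟨h1, h2⟩, h3, h4, hj, h5⟩⟩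

end Pool.Agent.MEP
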